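import Mathlib
import Pool.Agent.Lib_helper83.CS.Defs

/-!
# GC: Gompf's conjecture on Cappell-Shaneson matrices is false.  Definitions
-/

set_option autoImplicit false

namespace Pool.Agent.Lib_helper72.GC

open Pool.Agent.Lib_helper83.CS

/-- The ring `ℝ^3`, with componentwise operations. -/
abbrev V := Fin 3 → ℝ

/-- The norm. -/
def Nm (x : V) : ℝ := x 0 * x 1 * x 2

/-- The general cubic form `p^3 - n p^2 q + (n-1-s+t) p q^2 + s q^3`. -/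
def FF (s t n p q : ℤ) : ℤ := p ^ 3 - n * p ^ 2 * q + (n - 1 - s + t) * p * q ^ 2 + s * q ^ 3

/-- The order `ℤ[θ]` in `V`. -/
def O (θ : V) : Set V := {x | ∃ a b c : ℤ, ∀ i, x i = a + b * θ i + c * θ i ^ 2}

/-- The group of units `± θ^i (θ-1)^j`. -/
def Un (θ : V) : Set V :=
  {u | ∃ ε i j : ℤ, (ε = 1 ∨ ε = -1) ∧ ∀ k, u k = ε * θ k ^ i * (θ k - 1) ^ j}

/-- The module attached to the label `(d, c)`. -/
def Lam (θ : V) (d c : ℤ) : Set V :=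
  {x | (fun i => (d : ℝ) * x i) ∈ O θ ∧ (fun i => (θ i - c) * x i) ∈ O θ}

/-- The ideal `(e, θ - l)`. -/
def JJ (θ : V) (e l : ℤ) : Set V :=
  {x | ∃ a b c : ℤ, (∀ i, x i = a + b * θ i + c * θ i ^ 2) ∧ e ∣ a + b * l + c * l ^ 2}

/-- `LH θ v h`: `v` is a unit times `p - q θ` with `|H(p,q)| = h`. -/
def LH (θ : V) (v : V) (h : ℤ) : Prop :=
  ∃ u ∈ Un θ, ∃ p q : ℤ, (∀ i, v i = u i * (p - q * θ i)) ∧ |H p q| = h

/-- Primitive elements of a lattice. -/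
def Prim (L : Set V) (x : V) : Prop :=
  x ∈ L ∧ ∀ (m : ℤ) (y : V), y ∈ L → (∀ i, x i = m * y i) → m = 1 ∨ m = -1

/-- Linear, or inverse to linear up to a rational factor. -/
def Qp (θ : V) (x : V) : Prop :=
  (∃ h, LH θ x h) ∨
    ∃ (v : V) (h r : ℤ), LH θ v h ∧ (∀ i, v i ≠ 0) ∧ ∀ i, x i * v i = r

/-- The rank condition. -/
def RC (θ : V) (L : Set V) (x : V) : Prop :=
  ∀ r : ℤ, (∀ y ∈ O θ, ∃ m : ℤ, ∃ z ∈ L, ∀ i, (y i - m) * x i = r * z i) → |r| ≤ 4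

/-- `L` and `L'` are equivalent: `w L = L'` with `|Nm w| = ρ`. -/
def Eqv (L L' : Set V) (ρ : ℝ) : Prop :=
  ∃ w : V, (∀ i, w i ≠ 0) ∧ (∀ x : V, x ∈ L ↔ (fun i => w i * x i) ∈ L') ∧ |Nm w| = ρ

/-- The constants. -/
def H0 : ℤ := 10 ^ 8
def E0 : ℤ := 6 * 10 ^ 7
def EM : ℤ := 100000007
def lM : ℤ := 30000

/-- Invariant (II). -/
def II (θ : V) (L : Set V) : Prop :=
  ∀ (v : V) (h : ℤ), LH θ v h → (∀ x ∈ L, (fun i => v i * x i) ∈ O θ) → h ≤ H0 → h = 0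

/-- Invariant (III), `ν = |N|`. -/
def III (θ : V) (L : Set V) (d : ℤ) (ν : ℝ) : Prop :=
  ∀ x : V, Prim L x → (d : ℝ) ^ 2 * |Nm x| ≤ 4.5 * ν ^ 2 → Qp θ x

/-- Fact (F1). -/
def F1 (θ : V) (L : Set V) (d : ℤ) : Prop :=
  ∀ (v : V) (h : ℤ), LH θ v h → (∀ i, v i ≠ 0) → (∀ x ∈ L, (fun i => v i * x i) ∈ O θ) →
    (E0 : ℝ) * d < |Nm v|

/-- Fact (F2), `ν = |n|`. -/
def F2 (θ : V) (L : Set V) (d : ℤ) (ν : ℝ) : Prop :=
  ∀ x : V, Prim L x → (d : ℝ) * |Nm x| ≤ 1.6 * ν → RC θ L x →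
    (∀ (v : V) (h : ℤ), LH θ v h → (∀ y ∈ L, ∃ z ∈ O θ, ∀ i, v i * y i = x i * z i) →
      h ≤ H0 → h = 0) ∧
    5 ≤ (d : ℝ) * |Nm x| ∧
    ((d : ℝ) ^ 2 * |Nm x| ≤ 4.5 * ν ^ 2 → ∃ (v : V) (h : ℤ), LH θ v h ∧ ∀ i, x i * v i = 1)

/-- A frame: the three real roots of `x^3 - n x^2 + (n-1-s+t) x + s`, together with their roles:
`e 0` is the big one (near `n - 1`), `e 1` is near `0`, `e 2` is near `1`. -/
structure Frame where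
  s : ℤ
  t : ℤ
  n : ℤ
  θ : V
  e : Equiv.Perm (Fin 3)
  hs : s = 1 ∨ s = -1
  ht : t = 1 ∨ t = -1
  hn : 10 ^ 6 ≤ |n|
  root : ∀ i, θ i ^ 3 - n * θ i ^ 2 + (n - 1 - s + t) * θ i + s = 0
  near0 : |θ (e 1)| ≤ 1 / 2
  near1 : |θ (e 2) - 1| ≤ 1 / 4
  big : 10 ≤ |θ (e 0)|

/-- The derivative `f'(θ_i)`. -/
def fd (θ : V) (i : Fin 3) : ℝ := (θ i - θ (i + 1)) * (θ i - θ (i + 2))

/-- The normalised size `|x_i / f'(θ_i)|`. -/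
noncomputable def am (θ : V) (x : V) (i : Fin 3) : ℝ := |x i / fd θ i|

/-- The element of `Lam θ d c` with the triple `(X, Z, X')`. -/
noncomputable def el (s n : ℤ) (θ : V) (d X Z X' : ℤ) : V :=
  fun i => (-s * X + (X' - n * Z) * θ i + Z * θ i ^ 2) / d

/-- Labels: `d ≥ 1` and `d ∣ f(c)`. -/
def IsLab (s t n d c : ℤ) : Prop := 0 < d ∧ d ∣ FF s t n c 1

end Pool.Agent.Lib_helper72.GC
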