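import Pool.Agent.Lib_helper72.GC.Defs

/-!
# GC: matrices and classes
-/

set_option autoImplicit false

namespace Pool.Agent.Lib_helper72.GC

open Pool.Agent.Lib_helper83.CS

/-- `g` is a row eigenvector of `A` for `θ`, in each embedding. -/
def Rep (A : Matrix (Fin 3) (Fin 3) ℤ) (θ : V) (g : Fin 3 → V) : Prop :=
  ∀ i j, θ i * g j i = ∑ k, (A k j : ℝ) * g k i

/-- The lattice spanned by `g`. -/
def Span (g : Fin 3 → V) : Set V := {x | ∃ m : Fin 3 → ℤ, ∀ i, x i = ∑ j, (m j : ℝ) * g j i}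

/-- The Vandermonde determinant. -/
def Vd (θ : V) : ℝ := (θ 0 - θ 1) * (θ 0 - θ 2) * (θ 1 - θ 2)

/-- The matrix `A` belongs to the class of the lattice `L` of covolume `ρ` (relative to `ℤ[θ]`). -/
def InClass (A : Matrix (Fin 3) (Fin 3) ℤ) (θ : V) (L : Set V) (ρ : ℝ) : Prop :=
  ∃ g : Fin 3 → V, Rep A θ g ∧ Span g = L ∧ |(Matrix.of fun j i => g j i).det| = ρ * |Vd θ|

/-- The root matrix. -/
def MM (n d : ℤ) : Matrix (Fin 3) (Fin 3) ℤ := X EM ((lM - 1) * (n - lM - 1)) lM d (n - lM)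

end Pool.Agent.Lib_helper72.GC
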