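import Pool.Agent.Lib_helper72.GC.TT

/-!
# GC: (III) going up
-/

set_option autoImplicit false

namespace Pool.Agent.Lib_helper72.GC

open Pool.Agent.Lib_helper83.CS

/-- `F'` is an image of `F` under a change of generator. -/
structure Img (F F' : Frame) (d c c' : ℤ) (u : V) : Prop where
  hO : O F'.θ = O F.θ
  hU : Un F'.θ = Un F.θ
  hL : Lam F'.θ d c' = Lam F.θ d c
  hLH : ∀ v h, LH F'.θ v h ↔ LH F.θ v h
  hu : u ∈ Un F.θ
  ham : ∀ x i, am F'.θ (fun i => u i * x i) i = am F.θ x i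

theorem Img.refl (F : Frame) (d c : ℤ) : Img F F d c c (fun _ => 1) :=
  ⟨rfl, rfl, rfl, fun _ _ => Iff.rfl, Un_one F.θ, fun x i => by simp [am]⟩

theorem Img.trans {F F' F'' : Frame} {d c c' c'' : ℤ} {u u' : V} (h : Img F F' d c c' u)
    (h' : Img F' F'' d c' c'' u') : Img F F'' d c c'' (fun i => u' i * u i) := by
  refine ⟨h'.hO.trans h.hO, h'.hU.trans h.hU, h'.hL.trans h.hL,
    fun v k => (h'.hLH v k).trans (h.hLH v k), ?_, ?_⟩
  · have := h'.hu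
    rw [h.hU] at this
    exact Un_mul F this h.hu
  · intro x i
    have h1 := h'.ham (fun i => u i * x i) i
    have h2 := h.ham x i
    rw [← h2, ← h1]
    congr 1
    funext j
    ring

theorem img_II {F F' : Frame} {d c c' : ℤ} {u : V} (h : Img F F' d c c' u)
    (hI : II F.θ (Lam F.θ d c)) : II F'.θ (Lam F'.θ d c') := by
  intro v k h1 h2 h3
  rw [h.hL, h.hO] at h2
  exact hI v k ((h.hLH v k).mp h1) h2 h3

theorem img_F1 {F F' : Frame} {d c c' : ℤ} {u : V} (h : Img F F' d c c' u)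
    (hI : Pool.Agent.Lib_helper72.GC.F1 F.θ (Lam F.θ d c) d) :
    Pool.Agent.Lib_helper72.GC.F1 F'.θ (Lam F'.θ d c') d := by
  intro v k h1 h2 h3
  rw [h.hL, h.hO] at h3
  exact hI v k ((h.hLH v k).mp h1) h2 h3

theorem img_RC {F F' : Frame} {d c c' : ℤ} {u x : V} (h : Img F F' d c c' u)
    (hI : RC F'.θ (Lam F'.θ d c') x) : RC F.θ (Lam F.θ d c) x := by
  unfold RC at *
  rw [h.hL, h.hO] at hI
  exact hI

theorem img_F2 {F F' : Frame} {d c c' : ℤ} {u : V} {ν : ℝ} (h : Img F F' d c c' u)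
    (hI : F2 F.θ (Lam F.θ d c) d ν) : F2 F'.θ (Lam F'.θ d c') d ν := by
  intro x h1 h2 h3
  have h1' : Prim (Lam F.θ d c) x := by rw [← h.hL]; exact h1
  obtain ⟨j1, j2, j3⟩ := hI x h1' h2 (img_RC h h3)
  refine ⟨?_, j2, ?_⟩
  · intro v k k1 k2 k3
    rw [h.hL, h.hO] at k2
    exact j1 v k ((h.hLH v k).mp k1) k2 k3
  · intro k1
    obtain ⟨v, k, k2, k3⟩ := j3 k1
    exact ⟨v, k, (h.hLH v k).mpr k2, k3⟩

theorem img_Qp {F F' : Frame} {d c c' : ℤ} {u x : V} (h : Img F F' d c c' u)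
    (hI : Qp F'.θ x) : Qp F.θ x := by
  rcases hI with ⟨k, hk⟩ | ⟨v, k, r, h1, h2, h3⟩
  · exact Or.inl ⟨k, (h.hLH x k).mp hk⟩
  · exact Or.inr ⟨v, k, r, (h.hLH v k).mp h1, h2, h3⟩

/-- The data of a pair of frames. -/
def Pair (F G F' G' : Frame) (d c c' : ℤ) (u u' : V) (π : Equiv.Perm (Fin 3)) (k : ℤ) : Prop :=
  Img F F' d c c' u ∧ Img G G' d c c' u' ∧ F'.s = G'.s ∧ F'.t = G'.t ∧ d ∣ F'.n - G'.n ∧
  IsLab F'.s F'.t F'.n d c' ∧ IsLab G'.s G'.t G'.n d c' ∧ F'.e = F.e * π ∧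
  abs (|F'.n| - |F.n|) ≤ k ∧ abs (|G'.n| - |G.n|) ≤ k

theorem abs_shift (n a : ℤ) : abs (|n + a| - |n|) ≤ |a| := by
  have := abs_abs_sub_abs_le_abs_sub (n + a) n
  simpa using this

theorem pair_swap01 (F G : Frame) (hs : F.s = G.s) (ht : F.t = G.t) {d c : ℤ}
    (hlF : IsLab F.s F.t F.n d c) (hlG : IsLab G.s G.t G.n d c)
    (hdvd : d ∣ F.n - G.n) (hF : 10 ^ 6 + 10 ≤ |F.n|)
    (hG : 10 ^ 6 + 10 ≤ |G.n|) :
    ∃ F' G' c' u u', Pair F G F' G' d c c' u u' (Equiv.swap 0 1) 3 := by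
  obtain ⟨F', a1, a2, a3, a4, a5⟩ := swap01 F hF
  obtain ⟨G', b1, b2, b3, b4, b5⟩ := swap01 G hG
  obtain ⟨c', hc'⟩ : ∃ c' : ℤ, d ∣ c * c' - 1 := by
    obtain ⟨a, b, hab⟩ := (lab_coprime F.hs F.ht hlF).1
    exact ⟨a, -b, by linear_combination hab⟩
  have hθ : F'.θ = fun i => 1 / F.θ i := funext a5
  have hθ' : G'.θ = fun i => 1 / G.θ i := funext b5
  have key : ∀ s t n : ℤ, (s = 1 ∨ s = -1) → (t = 1 ∨ t = -1) →
      abs (|(-s * (n - 1 - s + t))| - |n|) ≤ 3 := by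
    intro s t n hs ht
    have h1 : |(-s * (n - 1 - s + t))| = |n + (-1 - s + t)| := by
      rcases hs with rfl | rfl
      · rw [show (-1 : ℤ) * (n - 1 - 1 + t) = -(n + (-1 - 1 + t)) by ring, abs_neg]
      · rw [show -(-1 : ℤ) * (n - 1 - -1 + t) = n + (-1 - -1 + t) by ring]
    rw [h1]
    refine (abs_shift _ _).trans ?_
    rcases hs with rfl | rfl <;> rcases ht with rfl | rfl <;> norm_num
  refine ⟨F', G', c', fun i => (F.θ i)⁻¹, fun i => (G.θ i)⁻¹, ?_, ?_, ?_, ?_, ?_, ?_, ?_, a4, ?_, ?_⟩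
  · refine ⟨?_, ?_, ?_, ?_, Un_inv F (Un_theta F), ?_⟩
    · rw [hθ]; exact O_inv F
    · rw [hθ]; exact UnG_inv F
    · rw [hθ]; exact Lam_inv F hlF hc'
    · intro v h; rw [hθ]; exact LH_inv F v h
    · intro x i
      rw [hθ, ← am_inv F x i]
      congr 1
      funext j
      rw [div_eq_inv_mul]
  · refine ⟨?_, ?_, ?_, ?_, Un_inv G (Un_theta G), ?_⟩
    · rw [hθ']; exact O_inv G
    · rw [hθ']; exact UnG_inv G
    · rw [hθ']; exact Lam_inv G hlG hc'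
    · intro v h; rw [hθ']; exact LH_inv G v h
    · intro x i
      rw [hθ', ← am_inv G x i]
      congr 1
      funext j
      rw [div_eq_inv_mul]
  · rw [a1, b1, hs]
  · rw [a2, b2, hs, ht]
  · rw [a3, b3, hs, ht]
    obtain ⟨m, hm⟩ := hdvd
    exact ⟨-G.s * m, by linear_combination (-G.s) * hm⟩
  · rw [a1, a2, a3]; exact lab_inv F.hs F.ht hlF hc'
  · rw [b1, b2, b3]; exact lab_inv G.hs G.ht hlG hc'
  · rw [a3]; exact key _ _ _ F.hs F.ht
  · rw [b3]; exact key _ _ _ G.hs G.ht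

theorem pair_swap12 (F G : Frame) (hs : F.s = G.s) (ht : F.t = G.t) {d c : ℤ}
    (hlF : IsLab F.s F.t F.n d c) (hlG : IsLab G.s G.t G.n d c)
    (hdvd : d ∣ F.n - G.n) (hF : 10 ^ 6 + 10 ≤ |F.n|)
    (hG : 10 ^ 6 + 10 ≤ |G.n|) :
    ∃ F' G' c' u u', Pair F G F' G' d c c' u u' (Equiv.swap 1 2) 3 := by
  obtain ⟨F', a1, a2, a3, a4, a5⟩ := swap12 F hF
  obtain ⟨G', b1, b2, b3, b4, b5⟩ := swap12 G hG
  have hθ : F'.θ = fun i => 1 - F.θ i := funext a5
  have hθ' : G'.θ = fun i => 1 - G.θ i := funext b5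
  have key : ∀ n : ℤ, abs (|3 - n| - |n|) ≤ 3 := by
    intro n
    have h1 : |3 - n| = |n + (-3)| := by
      rw [show (3 : ℤ) - n = -(n + (-3)) by ring, abs_neg]
    rw [h1]
    exact (abs_shift _ _).trans (by norm_num)
  refine ⟨F', G', 1 - c, fun i => 1, fun i => 1, ?_, ?_, ?_, ?_, ?_, ?_, ?_, a4, ?_, ?_⟩
  · refine ⟨?_, ?_, ?_, ?_, Un_one F.θ, ?_⟩
    · rw [hθ]; exact O_sub1 F
    · rw [hθ]; exact Un_sub1 F
    · rw [hθ]; exact Lam_sub1 F d c
    · intro v h; rw [hθ]; exact LH_sub1 F v h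
    · intro x i
      rw [hθ]
      simp only [one_mul]
      exact am_sub1 F x i
  · refine ⟨?_, ?_, ?_, ?_, Un_one G.θ, ?_⟩
    · rw [hθ']; exact O_sub1 G
    · rw [hθ']; exact Un_sub1 G
    · rw [hθ']; exact Lam_sub1 G d c
    · intro v h; rw [hθ']; exact LH_sub1 G v h
    · intro x i
      rw [hθ']
      simp only [one_mul]
      exact am_sub1 G x i
  · rw [a1, b1, ht]
  · rw [a2, b2, hs]
  · rw [a3, b3]
    obtain ⟨m, hm⟩ := hdvd
    exact ⟨-m, by linear_combination (-1 : ℤ) * hm⟩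
  · rw [a1, a2, a3]; exact lab_sub1 F.hs F.ht hlF
  · rw [b1, b2, b3]; exact lab_sub1 G.hs G.ht hlG
  · rw [a3]; exact key _
  · rw [b3]; exact key _

theorem pair_trans {F G F' G' F'' G'' : Frame} {d c c' c'' : ℤ} {u u' w w' : V}
    {π π' : Equiv.Perm (Fin 3)} {k k' : ℤ} (h : Pair F G F' G' d c c' u u' π k)
    (h' : Pair F' G' F'' G'' d c' c'' w w' π' k') :
    Pair F G F'' G'' d c c'' (fun i => w i * u i) (fun i => w' i * u' i) (π * π') (k + k') := by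
  obtain ⟨a1, a2, a3, a4, a5, a6, a7, a8, a9, a10⟩ := h
  obtain ⟨b1, b2, b3, b4, b5, b6, b7, b8, b9, b10⟩ := h'
  refine ⟨a1.trans b1, a2.trans b2, b3, b4, b5, b6, b7, ?_, ?_, ?_⟩
  · rw [b8, a8, mul_assoc]
  · have := abs_add_le (|F'.n| - |F.n|) (|F''.n| - |F'.n|)
    have e : |F'.n| - |F.n| + (|F''.n| - |F'.n|) = |F''.n| - |F.n| := by ring
    rw [e] at this; linarith
  · have := abs_add_le (|G'.n| - |G.n|) (|G''.n| - |G'.n|)
    have e : |G'.n| - |G.n| + (|G''.n| - |G'.n|) = |G''.n| - |G.n| := by ring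
    rw [e] at this; linarith

theorem pair_all (F G : Frame) (hs : F.s = G.s) (ht : F.t = G.t) {d c : ℤ}
    (hlF : IsLab F.s F.t F.n d c) (hlG : IsLab G.s G.t G.n d c)
    (hdvd : d ∣ F.n - G.n) (hF : 10 ^ 6 + 20 ≤ |F.n|)
    (hG : 10 ^ 6 + 20 ≤ |G.n|) (π : Equiv.Perm (Fin 3)) :
    ∃ F' G' c' u u', ∃ k ≤ (9 : ℤ), Pair F G F' G' d c c' u u' π k := by
  have lo : ∀ {F F' : Frame} {k : ℤ}, abs (|F'.n| - |F.n|) ≤ k → |F.n| - k ≤ |F'.n| := by
    intro F F' k h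
    have := (abs_le.mp h).1
    linarith
  have hcases : π = 1 ∨ π = Equiv.swap 0 1 ∨ π = Equiv.swap 1 2 ∨
      π = Equiv.swap 0 1 * Equiv.swap 1 2 ∨ π = Equiv.swap 1 2 * Equiv.swap 0 1 ∨
      π = Equiv.swap 0 1 * Equiv.swap 1 2 * Equiv.swap 0 1 := by
    revert π; decide
  rcases hcases with rfl | rfl | rfl | rfl | rfl | rfl
  · exact ⟨F, G, c, _, _, 0, by norm_num, Img.refl F d c, Img.refl G d c, hs, ht, hdvd, hlF, hlG,
      by simp, by simp, by simp⟩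
  · obtain ⟨F', G', c', u, u', h⟩ := pair_swap01 F G hs ht hlF hlG hdvd (by linarith) (by linarith)
    exact ⟨F', G', c', u, u', 3, by norm_num, h⟩
  · obtain ⟨F', G', c', u, u', h⟩ := pair_swap12 F G hs ht hlF hlG hdvd (by linarith) (by linarith)
    exact ⟨F', G', c', u, u', 3, by norm_num, h⟩
  · obtain ⟨F', G', c', u, u', h⟩ := pair_swap01 F G hs ht hlF hlG hdvd (by linarith) (by linarith)
    obtain ⟨a1, a2, a3, a4, a5, a6, a7, a8, a9, a10⟩ := id h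
    obtain ⟨F2, G2, c2, w, w', h2⟩ := pair_swap12 F' G' a3 a4 a6 a7 a5
      (by have := lo a9; linarith) (by have := lo a10; linarith)
    exact ⟨F2, G2, c2, _, _, _, by norm_num, pair_trans h h2⟩
  · obtain ⟨F', G', c', u, u', h⟩ := pair_swap12 F G hs ht hlF hlG hdvd (by linarith) (by linarith)
    obtain ⟨a1, a2, a3, a4, a5, a6, a7, a8, a9, a10⟩ := id h
    obtain ⟨F2, G2, c2, w, w', h2⟩ := pair_swap01 F' G' a3 a4 a6 a7 a5
      (by have := lo a9; linarith) (by have := lo a10; linarith)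
    exact ⟨F2, G2, c2, _, _, _, by norm_num, pair_trans h h2⟩
  · obtain ⟨F', G', c', u, u', h⟩ := pair_swap01 F G hs ht hlF hlG hdvd (by linarith) (by linarith)
    obtain ⟨a1, a2, a3, a4, a5, a6, a7, a8, a9, a10⟩ := id h
    obtain ⟨F2, G2, c2, w, w', h2⟩ := pair_swap12 F' G' a3 a4 a6 a7 a5
      (by have := lo a9; linarith) (by have := lo a10; linarith)
    obtain ⟨b1, b2, b3, b4, b5, b6, b7, b8, b9, b10⟩ := id h2
    obtain ⟨F3, G3, c3, z, z', h3⟩ := pair_swap01 F2 G2 b3 b4 b6 b7 b5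
      (by have := lo a9; have := lo b9; linarith) (by have := lo a10; have := lo b10; linarith)
    exact ⟨F3, G3, c3, _, _, _, by norm_num, pair_trans (pair_trans h h2) h3⟩

/-- Sorting three reals by a permutation. -/
theorem sort3 (r : Fin 3 → ℝ) : ∃ π : Equiv.Perm (Fin 3), r (π 1) ≤ r (π 0) ∧ r (π 0) ≤ r (π 2) := by
  rcases le_total (r 0) (r 1) with h01 | h01 <;> rcases le_total (r 1) (r 2) with h12 | h12 <;>
    rcases le_total (r 0) (r 2) with h02 | h02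
  all_goals first
    | exact ⟨1, by simpa using ⟨by assumption, by assumption⟩⟩
    | exact ⟨Equiv.swap 0 1, by
        have e1 : (Equiv.swap (0 : Fin 3) 1) 1 = 0 := by decide
        have e2 : (Equiv.swap (0 : Fin 3) 1) 0 = 1 := by decide
        have e3 : (Equiv.swap (0 : Fin 3) 1) 2 = 2 := by decide
        rw [e1, e2, e3]; exact ⟨by assumption, by assumption⟩⟩
    | exact ⟨Equiv.swap 1 2, by
        have e1 : (Equiv.swap (1 : Fin 3) 2) 1 = 2 := by decide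
        have e2 : (Equiv.swap (1 : Fin 3) 2) 0 = 0 := by decide
        have e3 : (Equiv.swap (1 : Fin 3) 2) 2 = 1 := by decide
        rw [e1, e2, e3]; exact ⟨by assumption, by assumption⟩⟩
    | exact ⟨Equiv.swap 0 2, by
        have e1 : (Equiv.swap (0 : Fin 3) 2) 1 = 1 := by decide
        have e2 : (Equiv.swap (0 : Fin 3) 2) 0 = 2 := by decide
        have e3 : (Equiv.swap (0 : Fin 3) 2) 2 = 0 := by decide
        rw [e1, e2, e3]; exact ⟨by assumption, by assumption⟩⟩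
    | exact ⟨Equiv.swap 0 1 * Equiv.swap 1 2, by
        have e1 : (Equiv.swap (0 : Fin 3) 1 * Equiv.swap (1 : Fin 3) 2 : Equiv.Perm (Fin 3)) 1 = 2 := by decide
        have e2 : (Equiv.swap (0 : Fin 3) 1 * Equiv.swap (1 : Fin 3) 2 : Equiv.Perm (Fin 3)) 0 = 1 := by decide
        have e3 : (Equiv.swap (0 : Fin 3) 1 * Equiv.swap (1 : Fin 3) 2 : Equiv.Perm (Fin 3)) 2 = 0 := by decide
        rw [e1, e2, e3]; exact ⟨by assumption, by assumption⟩⟩
    | exact ⟨Equiv.swap 1 2 * Equiv.swap 0 1, by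
        have e1 : (Equiv.swap (1 : Fin 3) 2 * Equiv.swap (0 : Fin 3) 1 : Equiv.Perm (Fin 3)) 1 = 0 := by decide
        have e2 : (Equiv.swap (1 : Fin 3) 2 * Equiv.swap (0 : Fin 3) 1 : Equiv.Perm (Fin 3)) 0 = 2 := by decide
        have e3 : (Equiv.swap (1 : Fin 3) 2 * Equiv.swap (0 : Fin 3) 1 : Equiv.Perm (Fin 3)) 2 = 1 := by decide
        rw [e1, e2, e3]; exact ⟨by assumption, by assumption⟩⟩

theorem Nm_mul (x y : V) : Nm (fun i => x i * y i) = Nm x * Nm y := by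
  unfold Nm; ring

theorem III_up (F G : Frame) (hs : F.s = G.s) (ht : F.t = G.t) {d c : ℤ}
    (hl : IsLab G.s G.t G.n d c) (hdvd : d ∣ F.n - G.n) (hn : 10 ^ 24 ≤ |G.n|)
    (hd : 3 * |G.n| < d) (hd' : 2 * d ≤ 3 * |F.n|)
    (hII : II F.θ (Lam F.θ d c))
    (hF1 : Pool.Agent.Lib_helper72.GC.F1 G.θ (Lam G.θ d c) d)
    (hF2 : F2 G.θ (Lam G.θ d c) d |(G.n : ℝ)|) :
    III F.θ (Lam F.θ d c) d |(F.n : ℝ)| := by
  intro x hx hK
  have hlF : IsLab F.s F.t F.n d c := by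
    refine ⟨hl.1, ?_⟩
    obtain ⟨k, hk⟩ := hdvd
    obtain ⟨m, hm⟩ := hl.2
    refine ⟨m - k * (c ^ 2 - c), ?_⟩
    have : F.n = G.n + d * k := by linarith
    unfold FF at hm ⊢
    rw [this, hs, ht]
    linear_combination hm
  have hFn : (10 : ℤ) ^ 24 ≤ |F.n| := by
    have h1 : (0 : ℤ) ≤ |G.n| := abs_nonneg _
    omega
  by_cases h0 : ∃ i, x i = 0
  · -- zero element cannot be primitive
    exfalso
    obtain ⟨X, Z, X', rfl, h1, h2⟩ := Lam_el F hlF hx.1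
    obtain ⟨i, hi⟩ := h0
    have hdR : (d : ℝ) ≠ 0 := by exact_mod_cast hl.1.ne'
    have h3 : ((-F.s * X : ℤ) : ℝ) + ((X' - F.n * Z : ℤ) : ℝ) * F.θ i + (Z : ℝ) * F.θ i ^ 2 = 0 := by
      have : el F.s F.n F.θ d X Z X' i * d = 0 := by rw [hi]; ring
      simp only [el] at this
      rw [div_mul_cancel₀ _ hdR] at this
      push_cast
      linarith
    have h4 := O_zero F _ _ _ i h3
    have hz : ∀ j, el F.s F.n F.θ d X Z X' j = (2 : ℤ) * el F.s F.n F.θ d X Z X' j := by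
      intro j
      have : el F.s F.n F.θ d X Z X' j = 0 := by
        simp only [el]
        have e1 : (-(F.s : ℝ) * X) = 0 := by exact_mod_cast h4.1
        have e2 : ((X' : ℝ) - F.n * Z) = 0 := by exact_mod_cast h4.2.1
        have e3 : (Z : ℝ) = 0 := by exact_mod_cast h4.2.2
        rw [e1, e2, e3]; simp
      rw [this]; simp
    rcases hx.2 2 _ hx.1 hz with h | h <;> norm_num at h
  push Not at h0
  have hFn20 : (10 : ℤ) ^ 20 ≤ |F.n| := by
    have : (10 : ℤ) ^ 20 ≤ 10 ^ 24 := by norm_num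
    linarith
  obtain ⟨u, hu, hbal⟩ := balanced F hFn20 hlF x hx.1 h0
  set y : V := fun i => u i * x i with hy
  obtain ⟨π, hπ1, hπ2⟩ := sort3 (fun j => am F.θ y (F.e j))
  have h24 : (10 : ℤ) ^ 24 ≥ 10 ^ 6 + 20 := by norm_num
  obtain ⟨F', G', c', w, w', k, hk, hP⟩ := pair_all F G hs ht hlF hl hdvd (by linarith)
    (by linarith) π
  obtain ⟨a1, a2, a3, a4, a5, a6, a7, a8, a9, a10⟩ := hP
  have hII' := img_II a1 hII
  have hF1' := img_F1 a2 hF1
  have hF2' := img_F2 a2 hF2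
  set z : V := fun i => w i * y i with hz
  have hPy : Prim (Lam F.θ d c) y := Prim_unit F hu hx
  have hPz : Prim (Lam F'.θ d c') z := by rw [a1.hL]; exact Prim_unit F a1.hu hPy
  have hNz : |Nm z| = |Nm x| := by
    rw [hz, Nm_mul, abs_mul, Un_Nm F a1.hu, one_mul, hy, Nm_mul, abs_mul, Un_Nm F hu, one_mul]
  have r9 : abs (|(F.n : ℝ)| - |(F'.n : ℝ)|) ≤ 9 := by
    have : abs (|F'.n| - |F.n|) ≤ 9 := a9.trans hk
    rw [abs_sub_comm]
    exact_mod_cast this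
  have r10 : abs (|(G.n : ℝ)| - |(G'.n : ℝ)|) ≤ 9 := by
    have : abs (|G'.n| - |G.n|) ≤ 9 := a10.trans hk
    rw [abs_sub_comm]
    exact_mod_cast this
  have hGnR : (10 : ℝ) ^ 24 ≤ |(G.n : ℝ)| := by exact_mod_cast hn
  have hFnR : (10 : ℝ) ^ 24 ≤ |(F.n : ℝ)| := by exact_mod_cast hFn
  have hdR : 3 * |(G.n : ℝ)| ≤ d := by exact_mod_cast hd.le
  have hdR' : (d : ℝ) ≤ 1.5 * |(F.n : ℝ)| := by
    have : (2 : ℝ) * d ≤ 3 * |(F.n : ℝ)| := by exact_mod_cast hd'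
    linarith
  have hQ := TT F' G' a3 a4 a7 a5 |(G.n : ℝ)| |(F.n : ℝ)| (by linarith) (by linarith)
    (by
      have : (10 : ℝ) ^ 22 ≤ 10 ^ 24 := by norm_num
      linarith) hdR hdR' hII' hF1' hF2' z hPz (by rw [hNz]; exact hK) (by
      intro i j
      rw [a1.ham y i, a1.ham y j]
      refine (hbal i j).trans ?_
      have h5 : 1.001 * |(F.n : ℝ)| ≤ 1.01 * |(F'.n : ℝ)| := by
        have h7 := abs_le.mp r9
        have h8 : (10 : ℝ) ^ 24 ≥ 1000000 := by norm_num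
        linarith [h7.2]
      have h6 : 0 ≤ am F.θ y j := abs_nonneg _
      exact mul_le_mul_of_nonneg_right h5 h6)
    (by rw [a1.ham y, a1.ham y, a8]; exact hπ1) (by rw [a1.ham y, a1.ham y, a8]; exact hπ2)
  have hQ1 := img_Qp a1 hQ
  exact Qp_unit F hu (Qp_unit F a1.hu hQ1)

end Pool.Agent.Lib_helper72.GC
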