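import Pool.Agent.Lib_helper72.GC.W5
import Pool.Agent.Lib_helper72.GC.Up3

set_option autoImplicit false

namespace Pool.Agent.Lib_helper72.GC

open Pool.Agent.Lib_helper83.CS

/-- The chosen frame of trace `n`. -/
noncomputable def bF (n : ℤ) (h : 10 ^ 6 ≤ |n|) : Frame := Classical.choose (base_exists n h)

theorem bF_spec (n : ℤ) (h : 10 ^ 6 ≤ |n|) :
    (bF n h).s = -1 ∧ (bF n h).t = -1 ∧ (bF n h).n = n ∧ (bF n h).e = 1 :=
  Classical.choose_spec (base_exists n h)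

/-- The roots. -/
noncomputable def th (n : ℤ) : V := if h : 10 ^ 6 ≤ |n| then (bF n h).θ else fun _ => 0

/-- For large `n` there is a frame with `θ = th n`. -/
theorem frame_th (n : ℤ) (h : 10 ^ 6 ≤ |n|) :
    ∃ F : Frame, F.s = -1 ∧ F.t = -1 ∧ F.n = n ∧ F.θ = th n := by
  refine ⟨bF n h, (bF_spec n h).1, (bF_spec n h).2.1, (bF_spec n h).2.2.1, ?_⟩
  unfold th
  rw [dif_pos h]

/-- `L0` (a lattice of covolume `ρ0`) is a good root at trace `n0`: every label of its class has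
`d > 3 |n0|` and the facts (F1), (F2) hold for it. -/
def GoodRoot (n0 : ℤ) (L0 : Set V) (ρ0 : ℝ) : Prop :=
  10 ^ 24 ≤ |n0| ∧ 0 < ρ0 ∧ ∀ d c : ℤ, IsLab (-1) (-1) n0 d c →
    Eqv (Lam (th n0) d c) L0 (ρ0 * d) →
      3 * |n0| < d ∧ Pool.Agent.Lib_helper72.GC.F1 (th n0) (Lam (th n0) d c) d ∧
        F2 (th n0) (Lam (th n0) d c) d |(n0 : ℝ)|

/-- The tree above the root of trace `n0`. -/
inductive Tr (n0 : ℤ) (L0 : Set V) (ρ0 : ℝ) : ℤ → ℤ → ℤ → ℤ → Prop
  | root (d c k N : ℤ) : IsLab (-1) (-1) n0 d c →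
      Eqv (Lam (th n0) d c) L0 (ρ0 * d) → 3 * |n0| < d → k ≠ 0 →
      N = n0 + k * d → Tr n0 L0 ρ0 N d c n0
  | up (n d0 c0 n1 d c k N : ℤ) : Tr n0 L0 ρ0 n d0 c0 n1 → IsLab (-1) (-1) n d c →
      Eqv (Lam (th n) d c) (Lam (th n) d0 c0) (d / d0) → 3 * |n| < d → k ≠ 0 →
      N = n + k * d → Tr n0 L0 ρ0 N d c n

theorem up_size {n d k N : ℤ} (hd : 3 * |n| < d) (hk : k ≠ 0) (hN : N = n + k * d) :
    2 * d ≤ 3 * |N| ∧ |n| < |N| := by
  have h1 : |k * d| ≤ |N| + |n| := by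
    have : k * d = N - n := by rw [hN]; ring
    rw [this]; exact abs_sub _ _
  have hd0 : 0 < d := by have := abs_nonneg n; linarith
  have h2 : d ≤ |k * d| := by
    rw [abs_mul, abs_of_pos hd0]
    have := Int.one_le_abs hk
    nlinarith
  have := abs_nonneg n
  constructor <;> linarith

theorem lab_shift {n N d c k : ℤ} (hl : IsLab (-1) (-1) n d c) (hN : N = n + k * d) :
    IsLab (-1) (-1) N d c := by
  refine ⟨hl.1, ?_⟩
  obtain ⟨m, hm⟩ := hl.2
  refine ⟨m - k * (c ^ 2 - c), ?_⟩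
  unfold FF at hm ⊢
  rw [hN]
  linear_combination hm

/-- The step of the induction. -/
theorem step_inv {n N d c k : ℤ} (hn : 10 ^ 24 ≤ |n|) (hl : IsLab (-1) (-1) n d c)
    (hd : 3 * |n| < d) (hk : k ≠ 0) (hN : N = n + k * d)
    (hF1 : Pool.Agent.Lib_helper72.GC.F1 (th n) (Lam (th n) d c) d)
    (hF2 : F2 (th n) (Lam (th n) d c) d |(n : ℝ)|) :
    IsLab (-1) (-1) N d c ∧ II (th N) (Lam (th N) d c) ∧
      III (th N) (Lam (th N) d c) d |(N : ℝ)| := by
  obtain ⟨hs1, hs2⟩ := up_size hd hk hN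
  have h6 : (10 : ℤ) ^ 6 ≤ 10 ^ 24 := by norm_num
  obtain ⟨G, g1, g2, g3, g4⟩ := frame_th n (by linarith)
  obtain ⟨F, f1, f2, f3, f4⟩ := frame_th N (by linarith)
  have hlG : IsLab G.s G.t G.n d c := by rw [g1, g2, g3]; exact hl
  have hdvd : d ∣ F.n - G.n := by rw [f3, g3, hN]; exact ⟨k, by ring⟩
  have hII : II F.θ (Lam F.θ d c) :=
    II_up F G (by rw [f1, g1]) (by rw [f2, g2]) (by rw [g3]; exact hn) hlG hdvd
      (by rw [g3]; exact hd) (by rw [g4]; exact hF1)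
  have hIII : III F.θ (Lam F.θ d c) d |(F.n : ℝ)| :=
    III_up F G (by rw [f1, g1]) (by rw [f2, g2]) hlG hdvd (by rw [g3]; exact hn)
      (by rw [g3]; exact hd) (by rw [f3]; exact hs1) hII (by rw [g4]; exact hF1)
      (by rw [g4, g3]; exact hF2)
  refine ⟨lab_shift hl hN, ?_, ?_⟩
  · rw [← f4]; exact hII
  · rw [← f4, ← f3]; exact hIII

theorem Tr_inv {n0 : ℤ} {L0 : Set V} {ρ0 : ℝ} (hG : GoodRoot n0 L0 ρ0)
    {N d c n : ℤ} (h : Tr n0 L0 ρ0 N d c n) :
    |n0| ≤ |n| ∧ |n| < |N| ∧ 2 * d ≤ 3 * |N| ∧ 3 * |n| < d ∧ IsLab (-1) (-1) N d c ∧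
      II (th N) (Lam (th N) d c) ∧ III (th N) (Lam (th N) d c) d |(N : ℝ)| := by
  have h6 : (10 : ℤ) ^ 6 ≤ 10 ^ 24 := by norm_num
  have hn0 : 10 ^ 24 ≤ |n0| := hG.1
  induction h with
  | root d c k N hl hq hd hk hN =>
    obtain ⟨hs1, hs2⟩ := up_size hd hk hN
    obtain ⟨_, hF1, hF2⟩ := hG.2.2 d c hl hq
    obtain ⟨a, b, e⟩ := step_inv hn0 hl hd hk hN hF1 hF2
    exact ⟨le_rfl, hs2, hs1, hd, a, b, e⟩
  | up n d0 c0 n1 d c k N h hl hq hd hk hN ih =>
    obtain ⟨i1, i2, i3, i4, i5, i6, i7⟩ := ih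
    obtain ⟨hs1, hs2⟩ := up_size hd hk hN
    have hn : 10 ^ 24 ≤ |n| := by linarith
    obtain ⟨G, g1, g2, g3, g4⟩ := frame_th n (by linarith)
    have hd0 : (10 : ℤ) ^ 24 ≤ d0 := by linarith [abs_nonneg n1]
    have hF1 := F1_up G g1 g2 (by rw [g3]; exact hn) (d0 := d0) (c0 := c0) (d := d) (c := c)
      (by rw [g3]; exact i5) (by rw [g3]; exact hl) hd0 (by rw [g3]; exact i3)
      (by rw [g4]; exact i6) (by rw [g4]; exact hq)
    have hF2 := F2_up G g1 g2 (by rw [g3]; exact hn) (d0 := d0) (c0 := c0) (d := d) (c := c)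
      (by rw [g3]; exact i5) (by rw [g3]; exact hl) hd0 (by rw [g3]; exact i3)
      (by rw [g4]; exact i6) (by rw [g4, g3]; exact i7) (by rw [g3]; exact hd)
      (by rw [g4]; exact hq)
    rw [g4] at hF1 hF2
    rw [g3] at hF2
    obtain ⟨a, b, e⟩ := step_inv hn hl hd hk hN hF1 hF2
    exact ⟨by linarith, hs2, hs1, hd, a, b, e⟩

/-- The set of matrices in the tree. -/
def TS (n0 : ℤ) (L0 : Set V) (ρ0 : ℝ) (B : Matrix (Fin 3) (Fin 3) ℤ) : Prop :=
  (B.trace = n0 ∧ InClass B (th n0) L0 ρ0) ∨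
  ∃ N d c n, Tr n0 L0 ρ0 N d c n ∧ B.trace = N ∧ InClass B (th N) (Lam (th N) d c) (1 / d)

theorem X_trace (a b c d e : ℤ) : (X a b c d e).trace = c + e := by
  simp [X, Matrix.trace, Fin.sum_univ_three]

/-- An `X`-matrix of the tree carries its own label. -/
theorem TS_X {n0 : ℤ} {L0 : Set V} {ρ0 : ℝ} (hG : GoodRoot n0 L0 ρ0)
    {a b c d e : ℤ} (hCS : IsCS (X a b c d e)) (h : TS n0 L0 ρ0 (X a b c d e)) (k : ℤ)
    (hCS' : IsCS (X (a + k * (c * (c - 1))) (b + k * (d * (c - 1))) c d (e + k * d))) :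
    TS n0 L0 ρ0 (X (a + k * (c * (c - 1))) (b + k * (d * (c - 1))) c d (e + k * d)) := by
  have h6 : (10 : ℤ) ^ 6 ≤ 10 ^ 24 := by norm_num
  have hn0 : 10 ^ 24 ≤ |n0| := hG.1
  have hρ0 : 0 < ρ0 := hG.2.1
  set B' := X (a + k * (c * (c - 1))) (b + k * (d * (c - 1))) c d (e + k * d) with hB'
  have htr : (X a b c d e).trace = c + e := X_trace _ _ _ _ _
  have htr' : B'.trace = c + e + k * d := by rw [hB', X_trace]; ring
  -- signs: write k d = k' |d|
  obtain ⟨k', hk'⟩ : ∃ k' : ℤ, k * d = k' * |d| := by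
    rcases abs_choice d with h | h
    · exact ⟨k, by rw [h]⟩
    · exact ⟨-k, by rw [h]; ring⟩
  by_cases hk0 : k' = 0
  · -- nothing moves
    have hkd : k * d = 0 := by rw [hk', hk0]; ring
    obtain ⟨F, f1, f2, f3, f4⟩ : ∃ F : Frame, F.s = -1 ∧ F.t = -1 ∧ F.n = c + e ∧
        F.θ = th (c + e) := by
      apply frame_th
      rcases h with ⟨h, _⟩ | ⟨N, d1, c1, n, hT, h, _⟩
      · rw [← htr, h]; linarith
      · have := Tr_inv hG hT
        rw [← htr, h]; linarith [this.1, this.2.1]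
    have hd0 : d ≠ 0 := by
      have := (inClass_X F f1 f2 a b c d e hCS f3).1.1
      intro h; rw [h] at this; simp at this
    have hk00 : k = 0 := by
      rcases mul_eq_zero.mp hkd with h | h
      · exact h
      · exact absurd h hd0
    have : B' = X a b c d e := by rw [hB', hk00]; simp
    rw [this]; exact h
  rcases h with ⟨h, hC⟩ | ⟨N, d0, c0, n, hT, h, hC⟩
  · -- at the root
    have hn : c + e = n0 := by rw [← htr, h]
    obtain ⟨F, f1, f2, f3, f4⟩ := frame_th n0 (by linarith)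
    obtain ⟨hl, hX⟩ := inClass_X F f1 f2 a b c d e hCS (by rw [f3, hn])
    rw [f4] at hX
    have hdpos : 0 < |d| := hl.1
    have hdR : (0 : ℝ) < |(d : ℝ)| := by exact_mod_cast hdpos
    have hq : Eqv (Lam (th n0) |d| c) L0 (ρ0 * (|d| : ℤ)) := by
      have h1 := inClass_unique F _ L0 (Lam (th n0) |d| c) ρ0 (1 / |(d : ℝ)|)
        hρ0 (by positivity) (by rw [f4]; exact hC) (by rw [f4]; exact hX)
      have e1 : (ρ0 / (1 / |(d : ℝ)|)) = ρ0 * ((|d| : ℤ) : ℝ) := by
        push_cast; field_simp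
      rw [e1] at h1
      exact h1
    rw [f3] at hl
    have hlt : 3 * |n0| < |d| := (hG.2.2 _ _ hl hq).1
    right
    have hT : Tr n0 L0 ρ0 (n0 + k' * |d|) |d| c n0 := Tr.root |d| c k' _ hl hq hlt hk0 rfl
    refine ⟨n0 + k' * |d|, |d|, c, n0, hT, ?_, ?_⟩
    · rw [htr', hk', hn]
    · have hi := Tr_inv hG hT
      obtain ⟨F', g1, g2, g3, g4⟩ := frame_th (n0 + k' * |d|) (by linarith [hi.1, hi.2.1])
      have := (inClass_X F' g1 g2 _ _ c d _ hCS' (by rw [g3, ← hk', ← hn]; ring)).2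
      rw [g4] at this
      have e1 : (1 / ((|d| : ℤ) : ℝ)) = 1 / |(d : ℝ)| := by push_cast; rfl
      rw [e1]; exact this
  · -- at an inner node
    have hi := Tr_inv hG hT
    obtain ⟨i1, i2, i3, i4, i5, i6, i7⟩ := hi
    have hn : c + e = N := by rw [← htr, h]
    have hN24 : (10 : ℤ) ^ 24 ≤ |N| := by linarith
    obtain ⟨F, f1, f2, f3, f4⟩ := frame_th N (by linarith)
    obtain ⟨hl, hX⟩ := inClass_X F f1 f2 a b c d e hCS (by rw [f3, hn])
    rw [f4] at hX
    have hdpos : 0 < |d| := hl.1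
    have hdR : (0 : ℝ) < |(d : ℝ)| := by exact_mod_cast hdpos
    have hd0R : (0 : ℝ) < d0 := by exact_mod_cast i5.1
    have hq : Eqv (Lam (th N) |d| c) (Lam (th N) d0 c0) (((|d| : ℤ) : ℝ) / d0) := by
      have h1 := inClass_unique F _ (Lam (th N) d0 c0) (Lam (th N) |d| c) (1 / d0)
        (1 / |(d : ℝ)|) (by positivity) (by positivity) (by rw [f4]; exact hC)
        (by rw [f4]; exact hX)
      have e1 : ((1 / (d0 : ℝ)) / (1 / |(d : ℝ)|)) = ((|d| : ℤ) : ℝ) / d0 := by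
        push_cast; field_simp
      rw [e1] at h1
      exact h1
    have hlN := hl
    rw [f3] at hlN
    have hd024 : (10 : ℤ) ^ 24 ≤ d0 := by linarith [abs_nonneg n]
    rcases up_label F f1 f2 (by rw [f3]; exact hN24) (d0 := d0) (c0 := c0) (by rw [f3]; exact i5) hl
      hd024 (by rw [f3]; exact i3) (by rw [f4, f3]; exact i7) (by rw [f4]; exact hq) with hlt | heq
    · rw [f3] at hlt
      right
      have hT' : Tr n0 L0 ρ0 (N + k' * |d|) |d| c N := Tr.up N d0 c0 n |d| c k' _ hT hlN hq hlt hk0 rfl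
      refine ⟨N + k' * |d|, |d|, c, N, hT', ?_, ?_⟩
      · rw [htr', hk', hn]
      · have hi' := Tr_inv hG hT'
        obtain ⟨F', g1, g2, g3, g4⟩ := frame_th (N + k' * |d|) (by linarith [hi'.1, hi'.2.1])
        have := (inClass_X F' g1 g2 _ _ c d _ hCS' (by rw [g3, ← hk', ← hn]; ring)).2
        rw [g4] at this
        have e1 : (1 / ((|d| : ℤ) : ℝ)) = 1 / |(d : ℝ)| := by push_cast; rfl
        rw [e1]; exact this
    · obtain ⟨hd, hc⟩ := heq
      -- the same label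
      have hLam : ∀ m : ℤ, Lam (th m) d0 c = Lam (th m) d0 c0 := by
        intro m; exact Lam_congr _ (by rw [← hd]; exact hc)
      have hdd : ((|d| : ℤ) : ℝ) = d0 := by exact_mod_cast hd
      have hclass : ∀ (m : ℤ), 10 ^ 6 ≤ |m| → m = c + e + k * d →
          InClass B' (th m) (Lam (th m) d0 c0) (1 / d0) := by
        intro m hm hm'
        obtain ⟨F', g1, g2, g3, g4⟩ := frame_th m hm
        have := (inClass_X F' g1 g2 _ _ c d _ hCS' (by rw [g3, hm']; ring)).2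
        rw [g4, hd, hLam] at this
        have e1 : (1 / |(d : ℝ)|) = 1 / d0 := by rw [← hdd]; push_cast; rfl
        rw [e1] at this; exact this
      cases hT with
      | root _ _ j _ rl rq rd rk rN =>
        by_cases hj : j + k' = 0
        · left
          have hm : n0 = c + e + k * d := by
            rw [hk', hd, hn, rN]; linear_combination (-d0) * hj
          refine ⟨by rw [htr', ← hm], ?_⟩
          have h1 := inClass_Eqv _ _ _ _ _ _ (hclass n0 (by linarith) hm) rq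
          have e1 : (1 / (d0 : ℝ)) * (ρ0 * d0) = ρ0 := by field_simp
          rw [e1] at h1
          exact h1
        · right
          have hT' : Tr n0 L0 ρ0 (n0 + (j + k') * d0) d0 c0 n0 :=
            Tr.root d0 c0 (j + k') _ rl rq rd hj rfl
          have hi' := Tr_inv hG hT'
          have hm : n0 + (j + k') * d0 = c + e + k * d := by
            rw [hk', hd, hn, rN]; ring
          refine ⟨_, d0, c0, n0, hT', by rw [htr', hm], ?_⟩
          exact hclass _ (by linarith [hi'.1, hi'.2.1]) hm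
      | up _ d1 c1 n1 _ _ j _ rT rl rq rd rk rN =>
        have ri := Tr_inv hG rT
        by_cases hj : j + k' = 0
        · right
          have hm : n = c + e + k * d := by
            rw [hk', hd, hn, rN]; linear_combination (-d0) * hj
          refine ⟨n, d1, c1, n1, rT, by rw [htr', ← hm], ?_⟩
          have h1 := inClass_Eqv _ _ _ _ _ _ (hclass n (by linarith [ri.1, ri.2.1]) hm) rq
          have hd1 : (0 : ℝ) < d1 := by exact_mod_cast ri.2.2.2.2.1.1
          have e1 : (1 / (d0 : ℝ)) * (d0 / d1) = 1 / d1 := by field_simp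
          rw [e1] at h1
          exact h1
        · right
          have hT' : Tr n0 L0 ρ0 (n + (j + k') * d0) d0 c0 n :=
            Tr.up n d1 c1 n1 d0 c0 (j + k') _ rT rl rq rd hj rfl
          have hi' := Tr_inv hG hT'
          have hm : n + (j + k') * d0 = c + e + k * d := by
            rw [hk', hd, hn, rN]; ring
          refine ⟨_, d0, c0, n, hT', by rw [htr', hm], ?_⟩
          exact hclass _ (by linarith [hi'.1, hi'.2.1]) hm

theorem TS_conj {n0 : ℤ} {L0 : Set V} {ρ0 : ℝ} {A P Q : Matrix (Fin 3) (Fin 3) ℤ} (h1 : P * Q = 1) (h2 : Q * P = 1)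
    (h : TS n0 L0 ρ0 A) : TS n0 L0 ρ0 (P * A * Q) := by
  have htr : (P * A * Q).trace = A.trace := by
    rw [Matrix.trace_mul_comm, ← Matrix.mul_assoc, h2, Matrix.one_mul]
  rcases h with ⟨h, hC⟩ | ⟨N, d, c, n, hT, h, hC⟩
  · exact Or.inl ⟨by rw [htr, h], inClass_conj _ _ _ _ h1 h2 _ _ hC⟩
  · exact Or.inr ⟨N, d, c, n, hT, by rw [htr, h], inClass_conj _ _ _ _ h1 h2 _ _ hC⟩

theorem IsCS_X_iff (a b c d e : ℤ) :
    IsCS (X a b c d e) ↔ a * d - b * c = 1 ∧ b = (c - 1) * (e - 1) := by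
  have e1 : (X a b c d e).det = a * d - b * c := by
    simp [X, Matrix.det_fin_three]
  have e2 : (X a b c d e - 1).det = a * d - b * (c - 1) - (c - 1) * (e - 1) := by
    rw [Matrix.det_fin_three]
    simp [X]
    ring
  unfold IsCS
  rw [e1, e2]
  constructor
  · rintro ⟨h1, h2⟩; exact ⟨h1, by linarith⟩
  · rintro ⟨h1, h2⟩; exact ⟨h1, by linarith⟩

theorem X_move_CS {a b c d e : ℤ} (k : ℤ) (h : IsCS (X a b c d e)) :
    IsCS (X (a + k * (c * (c - 1))) (b + k * (d * (c - 1))) c d (e + k * d)) := by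
  rw [IsCS_X_iff] at h ⊢
  obtain ⟨h1, h2⟩ := h
  exact ⟨by linear_combination h1, by linear_combination h2⟩

theorem conj_CS {A P Q : Matrix (Fin 3) (Fin 3) ℤ} (h1 : P * Q = 1) (h2 : Q * P = 1)
    (h : IsCS A) : IsCS (P * A * Q) := by
  have hdet : P.det * Q.det = 1 := by rw [← Matrix.det_mul, h1, Matrix.det_one]
  refine ⟨?_, ?_⟩
  · rw [Matrix.det_mul, Matrix.det_mul, h.1]; linear_combination hdet
  · have : P * A * Q - 1 = P * (A - 1) * Q := by
      rw [Matrix.mul_sub, Matrix.sub_mul, Matrix.mul_one, h1]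
    rw [this, Matrix.det_mul, Matrix.det_mul, h.2]; linear_combination hdet

/-- The tree is closed under Gompf equivalence. -/
theorem TS_Gompf {n0 : ℤ} {L0 : Set V} {ρ0 : ℝ} (hG : GoodRoot n0 L0 ρ0)
    {A B : Matrix (Fin 3) (Fin 3) ℤ} (h : Gompf A B) : TS n0 L0 ρ0 A ↔ TS n0 L0 ρ0 B := by
  induction h with
  | refl A => exact Iff.rfl
  | symm _ ih => exact ih.symm
  | trans _ _ ih1 ih2 => exact ih1.trans ih2
  | conj A P Q _ h1 h2 =>
    refine ⟨TS_conj h1 h2, fun h => ?_⟩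
    have := TS_conj h2 h1 h
    have e1 : Q * (P * A * Q) * P = A := by
      calc Q * (P * A * Q) * P = (Q * P) * A * (Q * P) := by simp only [Matrix.mul_assoc]
        _ = A := by rw [h2]; simp
    rw [e1] at this
    exact this
  | move a b c d e k hCS =>
    have hCS' := X_move_CS k hCS
    refine ⟨fun h => TS_X hG hCS h k hCS', fun h => ?_⟩
    have h1 := TS_X hG hCS' h (-k) (by
      have := hCS
      convert this using 2 <;> ring)
    convert h1 using 2 <;> ring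

/-- Traces in the tree. -/
theorem TS_trace {n0 : ℤ} {L0 : Set V} {ρ0 : ℝ} (hG : GoodRoot n0 L0 ρ0)
    {B : Matrix (Fin 3) (Fin 3) ℤ} (h : TS n0 L0 ρ0 B) :
    |n0| ≤ |B.trace| ∧ (|B.trace| ≤ |n0| → B.trace = n0 ∧ InClass B (th n0) L0 ρ0) := by
  rcases h with ⟨h, hC⟩ | ⟨N, d, c, n, hT, h, hC⟩
  · exact ⟨by rw [h], fun _ => ⟨h, hC⟩⟩
  · have := Tr_inv hG hT
    rw [h]
    refine ⟨by linarith [this.1, this.2.1], fun h' => ?_⟩
    exfalso
    linarith [this.1, this.2.1]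

theorem Span_mem (g : Fin 3 → V) (j : Fin 3) : g j ∈ Span g := by
  refine ⟨fun k => if k = j then 1 else 0, fun i => ?_⟩
  simp

/-- Two matrices in the same class are similar over `ℤ`. -/
theorem inClass_similar (F : Frame) (A B : Matrix (Fin 3) (Fin 3) ℤ) (L : Set V) (ρ ρ' : ℝ)
    (hρ : 0 < ρ) (hA : InClass A F.θ L ρ) (hB : InClass B F.θ L ρ') :
    ∃ P Q : Matrix (Fin 3) (Fin 3) ℤ, P * Q = 1 ∧ Q * P = 1 ∧ B = P * A * Q := by
  obtain ⟨g, g1, g2, g3⟩ := hA
  obtain ⟨g', h1, h2, h3⟩ := hB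
  have hdet : (Matrix.of fun j i => g j i).det ≠ 0 := by
    intro h
    rw [h, abs_zero] at g3
    rcases mul_eq_zero.mp g3.symm with h | h
    · exact hρ.ne' h
    · exact Vd_ne F (abs_eq_zero.mp h)
  -- independence
  have hind : ∀ a : Fin 3 → ℤ, (∀ i, ∑ k, (a k : ℝ) * g k i = 0) → ∀ k, a k = 0 := by
    intro a ha k
    have h5 : Matrix.vecMul (fun k => (a k : ℝ)) (Matrix.of fun j i => g j i) = 0 := by
      funext i
      have := ha i
      simpa [Matrix.vecMul, dotProduct] using this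
    have h6 := Matrix.eq_zero_of_vecMul_eq_zero hdet h5
    have := congrFun h6 k
    simp only [Pi.zero_apply] at this
    exact_mod_cast this
  have hP : ∀ j, ∃ m : Fin 3 → ℤ, ∀ i, g' j i = ∑ k, (m k : ℝ) * g k i := by
    intro j
    have : g' j ∈ Span g := by rw [g2, ← h2]; exact Span_mem g' j
    exact this
  have hQ : ∀ j, ∃ m : Fin 3 → ℤ, ∀ i, g j i = ∑ k, (m k : ℝ) * g' k i := by
    intro j
    have : g j ∈ Span g' := by rw [h2, ← g2]; exact Span_mem g j
    exact this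
  choose p hp using hP
  choose q hq using hQ
  -- `g' j = ∑ k, R k j * g k`
  set R : Matrix (Fin 3) (Fin 3) ℤ := Matrix.of fun k j => p j k with hR
  set T : Matrix (Fin 3) (Fin 3) ℤ := Matrix.of fun k j => q j k with hT
  have hRT : R * T = 1 := by
    ext k j
    have h5 := hind (fun k => (R * T) k j - (1 : Matrix (Fin 3) (Fin 3) ℤ) k j) (by
      intro i
      have e1 := hq j i
      have e2 : ∑ k, (((1 : Matrix (Fin 3) (Fin 3) ℤ) k j : ℤ) : ℝ) * g k i = g j i := by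
        simp [Matrix.one_apply]
      simp only [hp] at e1
      simp only [Matrix.mul_apply, hR, hT, Matrix.of_apply, Fin.sum_univ_three] at e1 e2 ⊢
      push_cast at e1 e2 ⊢
      linear_combination (-1 : ℝ) * e1 - e2) k
    linarith
  have hAR : A * R = R * B := by
    ext l j
    have h5 := hind (fun l => (A * R) l j - (R * B) l j) (by
      intro i
      have e1 := h1 i j
      simp only [hp, Finset.mul_sum] at e1
      have e2 := g1 i 0
      have e3 := g1 i 1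
      have e4 := g1 i 2
      simp only [Matrix.mul_apply, hR, Matrix.of_apply, Fin.sum_univ_three] at e1 e2 e3 e4 ⊢
      push_cast at e1 e2 e3 e4 ⊢
      linear_combination e1 - (p j 0 : ℝ) * e2 - (p j 1 : ℝ) * e3 - (p j 2 : ℝ) * e4) l
    linarith
  have hTR : T * R = 1 := mul_eq_one_comm.mp hRT
  refine ⟨T, R, hTR, hRT, ?_⟩
  rw [Matrix.mul_assoc, hAR, ← Matrix.mul_assoc, hTR, Matrix.one_mul]

/-- The main theorem for a good root. -/
theorem tree_main {n0 : ℤ} {L0 : Set V} {ρ0 : ℝ} (hG : GoodRoot n0 L0 ρ0)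
    {A : Matrix (Fin 3) (Fin 3) ℤ} (hA : A.trace = n0) (hC : InClass A (th n0) L0 ρ0)
    (B : Matrix (Fin 3) (Fin 3) ℤ) (hB : Gompf A B) (ht : |B.trace| ≤ |n0|) :
    ∃ P Q : Matrix (Fin 3) (Fin 3) ℤ, P * Q = 1 ∧ Q * P = 1 ∧ B = P * A * Q := by
  have h6 : (10 : ℤ) ^ 6 ≤ 10 ^ 24 := by norm_num
  obtain ⟨F, f1, f2, f3, f4⟩ := frame_th n0 (by linarith [hG.1])
  have hTB : TS n0 L0 ρ0 B := (TS_Gompf hG hB).mp (Or.inl ⟨hA, hC⟩)
  obtain ⟨h3, h4⟩ := (TS_trace hG hTB).2 ht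
  exact inClass_similar F A B _ ρ0 ρ0 hG.2.1 (by rw [f4]; exact hC) (by rw [f4]; exact h4)

end Pool.Agent.Lib_helper72.GC
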