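import Pool.Agent.Lib_helper72.GC.W1

/-! # Block C4 -/

set_option autoImplicit false

namespace Pool.Agent.Lib_helper72.GC

open Pool.Agent.Lib_helper83.CS

theorem C4_lin_h2 {θ : V} (c : ℤ) : (fun i => θ i - (c : ℝ)) ∈ O θ := by
  have h := O_lin (θ := θ) (-c) (-1)
  have h2 : (fun i => θ i - (c : ℝ)) = (fun i => ((-c : ℤ) : ℝ) - ((-1 : ℤ) : ℝ) * θ i) := by
    funext i
    push_cast
    ring
  rw [h2]
  exact h

theorem O_sub_Lam (F : Frame) {d c : ℤ} {x : V} (hx : x ∈ O F.θ) : x ∈ Lam F.θ d c :=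
  ⟨O_smul d hx, O_mul F (C4_lin_h2 c) hx⟩

theorem Lam_mul (F : Frame) {d c : ℤ} {x y : V} (hy : y ∈ O F.θ) (hx : x ∈ Lam F.θ d c) :
    (fun i => y i * x i) ∈ Lam F.θ d c := by
  obtain ⟨h1, h2⟩ := hx
  refine ⟨?_, ?_⟩
  · have h := O_mul F hy h1
    have h3 : (fun i => (d : ℝ) * (y i * x i)) = (fun i => y i * ((d : ℝ) * x i)) := by
      funext i
      ring
    show (fun i => (d : ℝ) * (y i * x i)) ∈ O F.θ
    rw [h3]
    exact h
  · have h := O_mul F hy h2
    have h3 : (fun i => (F.θ i - c) * (y i * x i)) = (fun i => y i * ((F.θ i - c) * x i)) := by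
      funext i
      ring
    show (fun i => (F.θ i - c) * (y i * x i)) ∈ O F.θ
    rw [h3]
    exact h

theorem Lam_add {θ : V} {d c : ℤ} {x y : V} (hx : x ∈ Lam θ d c) (hy : y ∈ Lam θ d c) :
    (fun i => x i + y i) ∈ Lam θ d c := by
  obtain ⟨h1, h2⟩ := hx
  obtain ⟨h3, h4⟩ := hy
  refine ⟨?_, ?_⟩
  · have h := O_add h1 h3
    have h5 : (fun i => (d : ℝ) * (x i + y i)) = (fun i => (d : ℝ) * x i + (d : ℝ) * y i) := by
      funext i
      ring
    show (fun i => (d : ℝ) * (x i + y i)) ∈ O θ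
    rw [h5]
    exact h
  · have h := O_add h2 h4
    have h5 : (fun i => (θ i - c) * (x i + y i))
        = (fun i => (θ i - c) * x i + (θ i - c) * y i) := by
      funext i
      ring
    show (fun i => (θ i - c) * (x i + y i)) ∈ O θ
    rw [h5]
    exact h

theorem Prim_unit (F : Frame) {d c : ℤ} {x u : V} (hu : u ∈ Un F.θ)
    (hx : Prim (Lam F.θ d c) x) : Prim (Lam F.θ d c) (fun i => u i * x i) := by
  refine ⟨Lam_mul F (Un_O F hu) hx.1, fun m y hy h => ?_⟩
  refine hx.2 m _ (Lam_mul F (Un_O F (Un_inv F hu)) hy) fun i => ?_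
  have h1 := h i
  have h2 := Un_ne F hu i
  show x i = m * ((u i)⁻¹ * y i)
  have h3 : x i = (u i)⁻¹ * (u i * x i) := by field_simp
  rw [h3]
  have h4 : u i * x i = m * y i := h1
  rw [h4]
  ring

theorem Prim_Eqv {L L' : Set V} {w x : V} (hw : ∀ i, w i ≠ 0)
    (h : ∀ x : V, x ∈ L ↔ (fun i => w i * x i) ∈ L') (hx : Prim L x) :
    Prim L' (fun i => w i * x i) := by
  refine ⟨(h x).mp hx.1, fun m y hy hm => ?_⟩
  refine hx.2 m (fun i => (w i)⁻¹ * y i) ?_ fun i => ?_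
  · rw [h]
    have h1 : (fun i => w i * ((w i)⁻¹ * y i)) = y := by
      funext i
      rw [mul_inv_cancel_left₀ (hw i)]
    show (fun i => w i * ((w i)⁻¹ * y i)) ∈ L'
    rw [h1]
    exact hy
  · have h1 : w i * x i = m * y i := hm i
    have h3 : x i = (w i)⁻¹ * (w i * x i) := by rw [inv_mul_cancel_left₀ (hw i)]
    rw [h3, h1]
    ring

end Pool.Agent.Lib_helper72.GC
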