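import Pool.Agent.Lib_helper72.GC.DefsM

set_option autoImplicit false

namespace Pool.Agent.Lib_helper72.GC

open Pool.Agent.Lib_helper83.CS

theorem a1_root_h93 (n : ℝ) (a b : ℝ) (hab : a ≤ b)
    (h : (a ^ 3 - n * a ^ 2 + (n - 1) * a - 1 ≤ 0 ∧ 0 ≤ b ^ 3 - n * b ^ 2 + (n - 1) * b - 1) ∨
      (b ^ 3 - n * b ^ 2 + (n - 1) * b - 1 ≤ 0 ∧ 0 ≤ a ^ 3 - n * a ^ 2 + (n - 1) * a - 1)) :
    ∃ x, a ≤ x ∧ x ≤ b ∧ x ^ 3 - n * x ^ 2 + (n - 1) * x - 1 = 0 := by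
  have hc : ContinuousOn (fun x : ℝ => x ^ 3 - n * x ^ 2 + (n - 1) * x - 1) (Set.uIcc a b) := by
    fun_prop
  have h1 := intermediate_value_uIcc hc
  have h2 : (0 : ℝ) ∈ Set.uIcc ((fun x : ℝ => x ^ 3 - n * x ^ 2 + (n - 1) * x - 1) a)
      ((fun x : ℝ => x ^ 3 - n * x ^ 2 + (n - 1) * x - 1) b) := Set.mem_uIcc.mpr h
  obtain ⟨x, hx, hx0⟩ := h1 h2
  rw [Set.uIcc_of_le hab] at hx
  exact ⟨x, hx.1, hx.2, hx0⟩

theorem base_exists (n : ℤ) (h : 10 ^ 6 ≤ |n|) :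
    ∃ F : Frame, F.s = -1 ∧ F.t = -1 ∧ F.n = n ∧ F.e = 1 := by
  have hR : (10 : ℝ) ^ 6 ≤ |(n : ℝ)| := by
    have h9 : ((10 ^ 6 : ℤ) : ℝ) ≤ ((|n| : ℤ) : ℝ) := Int.cast_le.mpr h
    rw [Int.cast_abs] at h9
    exact le_trans (by norm_num) h9
  obtain ⟨x, hx1, hx2, hx⟩ : ∃ x : ℝ, (-1 / 2 : ℝ) ≤ x ∧ x ≤ 1 / 2 ∧
      x ^ 3 - n * x ^ 2 + (n - 1) * x - 1 = 0 := by
    refine a1_root_h93 n (-1 / 2) (1 / 2) (by norm_num) ?_
    rcases le_or_gt 0 (n : ℝ) with h0 | h0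
    · rw [abs_of_nonneg h0] at hR
      left; constructor <;> nlinarith
    · rw [abs_of_neg h0] at hR
      right; constructor <;> nlinarith
  obtain ⟨y, hy1, hy2, hy⟩ : ∃ x : ℝ, (3 / 4 : ℝ) ≤ x ∧ x ≤ 5 / 4 ∧
      x ^ 3 - n * x ^ 2 + (n - 1) * x - 1 = 0 := by
    refine a1_root_h93 n (3 / 4) (5 / 4) (by norm_num) ?_
    rcases le_or_gt 0 (n : ℝ) with h0 | h0
    · rw [abs_of_nonneg h0] at hR
      right; constructor <;> nlinarith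
    · rw [abs_of_neg h0] at hR
      left; constructor <;> nlinarith
  have hxy : x - y ≠ 0 := by
    intro h0
    linarith
  have h1 : x ^ 2 + x * y + y ^ 2 - n * (x + y) + (n - 1) = 0 := by
    apply mul_left_cancel₀ hxy
    rw [mul_zero]
    linear_combination hx - hy
  have h2 : x * y * (n - x - y) = 1 := by
    linear_combination hx - x * h1
  have h3 : ((n : ℝ) - x - y) ^ 3 - n * (n - x - y) ^ 2 + (n - 1) * (n - x - y) - 1 = 0 := by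
    linear_combination (n - x - y) * h1 + h2
  refine ⟨⟨-1, -1, n, ![(n : ℝ) - x - y, x, y], 1, Or.inr rfl, Or.inr rfl, h, ?_, ?_, ?_, ?_⟩,
    rfl, rfl, rfl, rfl⟩
  · intro i
    fin_cases i
    · show ((n : ℝ) - x - y) ^ 3 - n * (n - x - y) ^ 2 +
        ((n : ℝ) - 1 - ((-1 : ℤ) : ℝ) + ((-1 : ℤ) : ℝ)) * (n - x - y) + ((-1 : ℤ) : ℝ) = 0
      push_cast
      linear_combination h3
    · show x ^ 3 - n * x ^ 2 +
        ((n : ℝ) - 1 - ((-1 : ℤ) : ℝ) + ((-1 : ℤ) : ℝ)) * x + ((-1 : ℤ) : ℝ) = 0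
      push_cast
      linear_combination hx
    · show y ^ 3 - n * y ^ 2 +
        ((n : ℝ) - 1 - ((-1 : ℤ) : ℝ) + ((-1 : ℤ) : ℝ)) * y + ((-1 : ℤ) : ℝ) = 0
      push_cast
      linear_combination hy
  · show |x| ≤ 1 / 2
    rw [abs_le]
    constructor <;> linarith
  · show |y - 1| ≤ 1 / 4
    rw [abs_le]
    constructor <;> linarith
  · show 10 ≤ |(n : ℝ) - x - y|
    rcases le_or_gt 0 (n : ℝ) with h0 | h0
    · rw [abs_of_nonneg h0] at hR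
      rw [abs_of_nonneg (by linarith)]
      linarith
    · rw [abs_of_neg h0] at hR
      rw [abs_of_neg (by linarith)]
      linarith

end Pool.Agent.Lib_helper72.GC
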