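import Pool.Agent.Lib_helper72.GC.DefsM

/-!
# GC block A3: linear independence of `1, θ, θ^2` and irreducibility of the cubic
-/

set_option autoImplicit false

namespace Pool.Agent.Lib_helper72.GC

open Pool.Agent.Lib_helper83.CS

/-- Linear independence of `1, θ, θ^2` over `ℝ`. -/
theorem O_indep (F : Frame) (a b c : ℝ) (h : ∀ i, a + b * F.θ i + c * F.θ i ^ 2 = 0) :
    a = 0 ∧ b = 0 ∧ c = 0 := by
  have h0 := h (F.e 0)
  have h1 := h (F.e 1)
  have h2 := h (F.e 2)
  have n0 := F.near0
  have n1 := F.near1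
  have n2 := F.big
  rw [abs_le] at n0 n1
  rw [le_abs] at n2
  generalize F.θ (F.e 0) = x at *
  generalize F.θ (F.e 1) = y at *
  generalize F.θ (F.e 2) = z at *
  have hxy : x - y ≠ 0 := by
    intro hh
    rcases n2 with n2 | n2 <;> linarith [n0.1, n0.2]
  have hxz : x - z ≠ 0 := by
    intro hh
    rcases n2 with n2 | n2 <;> linarith [n1.1, n1.2]
  have hyz : y - z ≠ 0 := by
    intro hh
    linarith [n0.1, n0.2, n1.1, n1.2]
  have e1 : (x - y) * (b + c * (x + y)) = 0 := by linear_combination h0 - h1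
  have e2 : (x - z) * (b + c * (x + z)) = 0 := by linear_combination h0 - h2
  have e1' := (mul_eq_zero.mp e1).resolve_left hxy
  have e2' := (mul_eq_zero.mp e2).resolve_left hxz
  have e3 : (y - z) * c = 0 := by linear_combination e1' - e2'
  have hc := (mul_eq_zero.mp e3).resolve_left hyz
  subst hc
  have hb : b = 0 := by linear_combination e1'
  subst hb
  have ha : a = 0 := by linear_combination h0
  exact ⟨ha, rfl, rfl⟩

namespace A3H89

/-- The cubic has no rational root (parity). -/
theorem no_rat (s t n : ℤ) (hs : s = 1 ∨ s = -1) (ht : t = 1 ∨ t = -1) (x : ℚ) :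
    x ^ 3 - n * x ^ 2 + (n - 1 - s + t) * x + s ≠ 0 := by
  intro h
  have hd : (x.den : ℚ) ≠ 0 := by exact_mod_cast x.den_nz
  have hx : x = x.num / x.den := (Rat.num_div_den x).symm
  have key : x.num ^ 3 - n * x.num ^ 2 * x.den + (n - 1 - s + t) * x.num * x.den ^ 2
      + s * (x.den : ℤ) ^ 3 = 0 := by
    have : (x.num : ℚ) ^ 3 - n * x.num ^ 2 * x.den + (n - 1 - s + t) * x.num * x.den ^ 2
      + s * (x.den : ℚ) ^ 3 = 0 := by
      have h' : (x.num : ℚ) = x * x.den := by
        rw [eq_comm, Rat.mul_den_eq_num]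
      rw [h']
      linear_combination (x.den : ℚ) ^ 3 * h
    exact_mod_cast this
  have hcop : Nat.Coprime x.num.natAbs x.den := x.reduced
  have hnot : ¬ (Even x.num ∧ Even (x.den : ℤ)) := by
    rintro ⟨h1, h2⟩
    have h1' : 2 ∣ x.num.natAbs := by
      have := h1.two_dvd
      exact Int.natCast_dvd.mp this
    have h2' : 2 ∣ x.den := by
      have := h2.two_dvd
      exact_mod_cast this
    have := Nat.dvd_gcd h1' h2'
    rw [hcop] at this
    omega
  have hp := congrArg (fun z : ℤ => Even z) key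
  have hs' : ¬ Even s := by rcases hs with rfl | rfl <;> decide
  have ht' : ¬ Even t := by rcases ht with rfl | rfl <;> decide
  simp only [Int.even_add, Int.even_sub, Int.even_mul, Int.even_pow, hs', ht', Int.not_even_one,
    Even.zero, Int.even_coe_nat] at hp hnot
  simp at hp
  rw [← Int.not_even_iff_odd] at hp
  generalize Even x.num = A at *
  generalize Even x.den = B at *
  generalize Even n = C at *
  clear h hx key hs ht hs' ht' hcop hd
  tauto

/-- Real version: a rational combination vanishing at a root. -/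
theorem lin_zero (s t n : ℤ) (hs : s = 1 ∨ s = -1) (ht : t = 1 ∨ t = -1) (θ : ℝ)
    (hθ : θ ^ 3 - n * θ ^ 2 + (n - 1 - s + t) * θ + s = 0) (a b : ℤ)
    (h : (a : ℝ) + b * θ = 0) : a = 0 ∧ b = 0 := by
  by_cases hb : b = 0
  · subst hb
    refine ⟨?_, rfl⟩
    simpa using h
  · exfalso
    have hb' : (b : ℝ) ≠ 0 := by exact_mod_cast hb
    have e : θ = ((-a / b : ℚ) : ℝ) := by
      push_cast
      field_simp
      linarith
    rw [e] at hθ
    apply no_rat s t n hs ht (-a / b : ℚ)
    exact_mod_cast hθ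

end A3H89

/-- Irreducibility: an element of the order with one zero component is zero. -/
theorem O_zero (F : Frame) (a b c : ℤ) (i : Fin 3)
    (h : (a : ℝ) + b * F.θ i + c * F.θ i ^ 2 = 0) :
    a = 0 ∧ b = 0 ∧ c = 0 := by
  have hr := F.root i
  by_cases hc : c = 0
  · subst hc
    have := A3H89.lin_zero F.s F.t F.n F.hs F.ht (F.θ i) hr a b (by simpa using h)
    exact ⟨this.1, this.2, rfl⟩
  · exfalso
    have hc' : (c : ℝ) ≠ 0 := by exact_mod_cast hc
    have e : ((F.s * c ^ 2 - (-F.n * c - b) * a : ℤ) : ℝ)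
        + ((F.n - 1 - F.s + F.t) * c ^ 2 - a * c - (-F.n * c - b) * b : ℤ) * F.θ i = 0 := by
      push_cast
      linear_combination (c : ℝ) ^ 2 * hr - (c * F.θ i + (-F.n * c - b)) * h
    obtain ⟨r0, r1⟩ := A3H89.lin_zero F.s F.t F.n F.hs F.ht (F.θ i) hr _ _ e
    have hcq : (c : ℚ) ≠ 0 := by exact_mod_cast hc
    have r0' : (F.s * c ^ 2 - (-F.n * c - b) * a : ℚ) = 0 := by exact_mod_cast r0
    have r1' : ((F.n - 1 - F.s + F.t) * c ^ 2 - a * c - (-F.n * c - b) * b : ℚ) = 0 := by
      exact_mod_cast r1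
    apply A3H89.no_rat F.s F.t F.n F.hs F.ht (((F.n : ℚ) * c + b) / c)
    set x : ℚ := ((F.n : ℚ) * c + b) / c with hx
    have hx' : c * x = F.n * c + b := by rw [hx]; field_simp
    have e2 : (c : ℚ) ^ 2 * (x ^ 3 - F.n * x ^ 2 + (F.n - 1 - F.s + F.t) * x + F.s) = 0 := by
      linear_combination (c * x ^ 2 + b * x + a) * hx' + r0' + x * r1'
    exact (mul_eq_zero.mp e2).resolve_left (pow_ne_zero 2 hcq)

end Pool.Agent.Lib_helper72.GC
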