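import Pool.Agent.Lib_helper72.GC.W0

/-!
# GC: block B1
-/

set_option autoImplicit false

namespace Pool.Agent.Lib_helper72.GC

open Pool.Agent.Lib_helper83.CS

theorem sharp_core_h34 (a w ν : ℝ) (hν : 10 ^ 6 ≤ ν) (ha : 0 ≤ a) (h1 : a * w = 1)
    (h2 : |w - ν| ≤ 6) : 1 - 10 / ν ≤ a * ν ∧ a * ν ≤ 1 + 10 / ν := by
  have hν0 : 0 < ν := by linarith
  obtain ⟨h3, h4⟩ := abs_le.1 h2
  have h5 : a * (ν - 6) ≤ 1 := by
    have : a * (ν - 6) ≤ a * w := mul_le_mul_of_nonneg_left (by linarith) ha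
    linarith
  have h6 : a ≤ 1 / 100000 := by
    by_contra h
    push Not at h
    have : (1 / 100000) * (ν - 6) ≤ a * (ν - 6) := mul_le_mul_of_nonneg_right h.le (by linarith)
    linarith
  have h7 : a * ν ≤ 1.01 := by nlinarith
  have h8 : a ≤ 1.01 / ν := by
    rw [le_div_iff₀ hν0]
    exact h7
  have h9 : a * ν = 1 + a * (ν - w) := by
    rw [mul_sub, h1]
    ring
  have h10 : a * (ν - w) ≤ a * 6 := mul_le_mul_of_nonneg_left (by linarith) ha
  have h11 : a * (-6) ≤ a * (ν - w) := mul_le_mul_of_nonneg_left (by linarith) ha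
  have h12 : a * 6 ≤ 10 / ν := by
    have : 1.01 / ν * 6 ≤ 10 / ν := by
      rw [div_mul_eq_mul_div]
      exact div_le_div_of_nonneg_right (by norm_num) hν0.le
    linarith
  constructor
  · rw [h9]
    linarith
  · rw [h9]
    linarith

/-- A3. Sharp bounds. -/
theorem sharp (F : Frame) :
    1 - 10 / |(F.n : ℝ)| ≤ |F.θ (F.e 1)| * |(F.n : ℝ)| ∧
    |F.θ (F.e 1)| * |(F.n : ℝ)| ≤ 1 + 10 / |(F.n : ℝ)| ∧
    1 - 10 / |(F.n : ℝ)| ≤ |F.θ (F.e 2) - 1| * |(F.n : ℝ)| ∧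
    |F.θ (F.e 2) - 1| * |(F.n : ℝ)| ≤ 1 + 10 / |(F.n : ℝ)| ∧
    |F.θ (F.e 0) - F.n + 1| ≤ 3 / |(F.n : ℝ)| := by
  obtain ⟨v1, -, -⟩ := vieta F
  have r1 := F.root (F.e 1)
  have r2 := F.root (F.e 2)
  have b1 := F.near0
  have b2 := F.near1
  have hs : |(F.s : ℝ)| = 1 := by
    rcases F.hs with h | h <;> rw [h] <;> simp
  have ht : |(F.t : ℝ)| = 1 := by
    rcases F.ht with h | h <;> rw [h] <;> simp
  have hn : (10 : ℝ) ^ 6 ≤ |(F.n : ℝ)| := by
    have h := F.hn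
    have h1 : ((10 ^ 6 : ℤ) : ℝ) ≤ ((|F.n| : ℤ) : ℝ) := by exact_mod_cast h
    rw [Int.cast_abs] at h1
    refine le_trans (le_of_eq ?_) h1
    norm_num
  set n : ℝ := (F.n : ℝ) with hndef
  set s : ℝ := (F.s : ℝ)
  set t : ℝ := (F.t : ℝ)
  set x : ℝ := F.θ (F.e 1)
  set z : ℝ := F.θ (F.e 2)
  set ν : ℝ := |n| with hνdef
  have hν0 : 0 < ν := by linarith
  obtain ⟨hs1, hs2⟩ := abs_le.1 hs.le
  obtain ⟨ht1, ht2⟩ := abs_le.1 ht.le
  -- near `0`
  have hA : 1 - 10 / ν ≤ |x| * ν ∧ |x| * ν ≤ 1 + 10 / ν := by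
    have e1 : x * (x ^ 2 - n * x + (n - 1 - s + t)) = -s := by linear_combination r1
    have e2 : |x| * |x ^ 2 - n * x + (n - 1 - s + t)| = 1 := by
      rw [← abs_mul, e1, abs_neg, hs]
    have hx2 : |x| ^ 2 ≤ 1 / 4 := by
      have := abs_nonneg x
      nlinarith
    have hdist : abs (|x ^ 2 - n * x + (n - 1 - s + t)| - ν) ≤ |x| ^ 2 + ν * |x| + 3 := by
      have h1 := abs_abs_sub_abs_le (x ^ 2 - n * x + (n - 1 - s + t)) n
      have h2 : x ^ 2 - n * x + (n - 1 - s + t) - n = x ^ 2 + (-(n * x)) + (-1 - s + t) := by ring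
      rw [h2] at h1
      have h3 := abs_add_le (x ^ 2 + (-(n * x))) (-1 - s + t)
      have h4 := abs_add_le (x ^ 2) (-(n * x))
      have h5 : |-1 - s + t| ≤ 3 := by
        rw [abs_le]
        constructor <;> linarith
      have h6 : |x ^ 2| = |x| ^ 2 := abs_pow x 2
      have h7 : |-(n * x)| = ν * |x| := by rw [abs_neg, abs_mul]
      rw [h6, h7] at h4
      linarith
    have hx3 : ν * |x| ≤ 2.1 := by
      have h1 := (abs_le.1 hdist).1
      have h3 : ν * |x| ≤ ν * (1 / 2) := mul_le_mul_of_nonneg_left b1 hν0.le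
      have h4 : ν * (1 / 2) - 3.25 ≤ |x ^ 2 - n * x + (n - 1 - s + t)| := by linarith
      have h5 : |x| * (ν * (1 / 2) - 3.25) ≤ 1 :=
        (mul_le_mul_of_nonneg_left h4 (abs_nonneg x)).trans e2.le
      nlinarith
    have hx4 : |x| ≤ 1 / 100 := by
      by_contra h
      push Not at h
      have : (1 / 100) * ν ≤ |x| * ν := mul_le_mul_of_nonneg_right h.le hν0.le
      linarith
    have hx5 : |x| ^ 2 ≤ 1 / 100 := by
      have := abs_nonneg x
      nlinarith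
    exact sharp_core_h34 _ _ ν hn (abs_nonneg x) e2 (by linarith)
  -- near `1`
  have hB : 1 - 10 / ν ≤ |z - 1| * ν ∧ |z - 1| * ν ≤ 1 + 10 / ν := by
    have e1 : (z - 1) * ((z - 1) ^ 2 + (3 - n) * (z - 1) + (2 - n - s + t)) = -t := by
      linear_combination r2
    have e2 : |z - 1| * |(z - 1) ^ 2 + (3 - n) * (z - 1) + (2 - n - s + t)| = 1 := by
      rw [← abs_mul, e1, abs_neg, ht]
    set y : ℝ := z - 1 with hy
    have hx2 : |y| ^ 2 ≤ 1 / 16 := by
      have := abs_nonneg y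
      nlinarith
    have hdist : abs (|y ^ 2 + (3 - n) * y + (2 - n - s + t)| - ν) ≤
        |y| ^ 2 + (ν + 3) * |y| + 4 := by
      have h1 := abs_abs_sub_abs_le (y ^ 2 + (3 - n) * y + (2 - n - s + t)) (-n)
      rw [abs_neg] at h1
      have h2 : y ^ 2 + (3 - n) * y + (2 - n - s + t) - -n = y ^ 2 + (3 - n) * y + (2 - s + t) := by
        ring
      rw [h2] at h1
      have h3 := abs_add_le (y ^ 2 + (3 - n) * y) (2 - s + t)
      have h4 := abs_add_le (y ^ 2) ((3 - n) * y)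
      have h5 : |2 - s + t| ≤ 4 := by
        rw [abs_le]
        constructor <;> linarith
      have h6 : |y ^ 2| = |y| ^ 2 := abs_pow y 2
      have h7 : |(3 - n) * y| ≤ (ν + 3) * |y| := by
        rw [abs_mul]
        refine mul_le_mul_of_nonneg_right ?_ (abs_nonneg y)
        have h8 := abs_sub (3 : ℝ) n
        rw [abs_of_pos (by norm_num : (0 : ℝ) < 3)] at h8
        linarith
      rw [h6] at h4
      linarith
    have hx3 : ν * |y| ≤ 1.5 := by
      have h1 := (abs_le.1 hdist).1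
      have h3 : (ν + 3) * |y| ≤ (ν + 3) * (1 / 4) :=
        mul_le_mul_of_nonneg_left b2 (by linarith)
      have h4 : ν * (3 / 4) - 5 ≤ |y ^ 2 + (3 - n) * y + (2 - n - s + t)| := by linarith
      have h5 : |y| * (ν * (3 / 4) - 5) ≤ 1 :=
        (mul_le_mul_of_nonneg_left h4 (abs_nonneg y)).trans e2.le
      nlinarith [abs_nonneg y]
    have hx4 : |y| ≤ 1 / 100 := by
      by_contra h
      push Not at h
      have : (1 / 100) * ν ≤ |y| * ν := mul_le_mul_of_nonneg_right h.le hν0.le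
      linarith
    have hx5 : |y| ^ 2 ≤ 1 / 100 := by
      have := abs_nonneg y
      nlinarith
    exact sharp_core_h34 _ _ ν hn (abs_nonneg y) e2 (by linarith)
  refine ⟨hA.1, hA.2, hB.1, hB.2, ?_⟩
  have h1 : F.θ (F.e 0) - n + 1 = -(x + (z - 1)) := by linarith
  rw [h1, abs_neg, le_div_iff₀ hν0]
  have h2 := abs_add_le x (z - 1)
  have h3 : 10 / ν ≤ 1 / 10 := by
    rw [div_le_iff₀ hν0]
    linarith
  nlinarith [hA.2, hB.2]

end Pool.Agent.Lib_helper72.GC
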