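import Pool.Agent.Lib_helper72.GC.W0

/-!
# GC block B2: the order `ℤ[θ]`
-/

set_option autoImplicit false

namespace Pool.Agent.Lib_helper72.GC

open Pool.Agent.Lib_helper83.CS

theorem O_add {θ : V} {x y : V} (hx : x ∈ O θ) (hy : y ∈ O θ) :
    (fun i => x i + y i) ∈ O θ := by
  obtain ⟨a, b, c, h⟩ := hx
  obtain ⟨a', b', c', h'⟩ := hy
  refine ⟨a + a', b + b', c + c', fun i => ?_⟩
  beta_reduce
  rw [h i, h' i]
  push_cast
  ring

theorem O_neg {θ : V} {x : V} (hx : x ∈ O θ) : (fun i => -x i) ∈ O θ := by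
  obtain ⟨a, b, c, h⟩ := hx
  refine ⟨-a, -b, -c, fun i => ?_⟩
  beta_reduce
  rw [h i]
  push_cast
  ring

theorem O_smul {θ : V} (m : ℤ) {x : V} (hx : x ∈ O θ) : (fun i => m * x i) ∈ O θ := by
  obtain ⟨a, b, c, h⟩ := hx
  refine ⟨m * a, m * b, m * c, fun i => ?_⟩
  beta_reduce
  rw [h i]
  push_cast
  ring

theorem O_lin {θ : V} (p q : ℤ) : (fun i => (p : ℝ) - q * θ i) ∈ O θ := by
  refine ⟨p, -q, 0, fun i => ?_⟩
  beta_reduce
  push_cast
  ring

theorem O_mul (F : Frame) {x y : V} (hx : x ∈ O F.θ) (hy : y ∈ O F.θ) :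
    (fun i => x i * y i) ∈ O F.θ := by
  obtain ⟨a, b, c, h⟩ := hx
  obtain ⟨a', b', c', h'⟩ := hy
  refine ⟨a * a' - F.s * (b * c' + c * b') - F.n * F.s * (c * c'),
    a * b' + b * a' - (F.n - 1 - F.s + F.t) * (b * c' + c * b')
      - (F.n * (F.n - 1 - F.s + F.t) + F.s) * (c * c'),
    a * c' + b * b' + c * a' + F.n * (b * c' + c * b')
      + (F.n ^ 2 - (F.n - 1 - F.s + F.t)) * (c * c'), fun i => ?_⟩
  have hr := F.root i
  beta_reduce
  rw [h i, h' i]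
  push_cast
  linear_combination ((b * c' + c * b' : ℝ) + (c * c') * (F.θ i + F.n)) * hr

end Pool.Agent.Lib_helper72.GC
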