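import Pool.Agent.Lib_helper72.GC.W0

/-!
# GC block B3: the units `± θ^i (θ-1)^j`
-/

set_option autoImplicit false

namespace Pool.Agent.Lib_helper72.GC

open Pool.Agent.Lib_helper83.CS

private theorem O_smul_h13 {θ : V} (m : ℤ) {x : V} (hx : x ∈ O θ) : (fun i => m * x i) ∈ O θ := by
  obtain ⟨a, b, c, h⟩ := hx
  refine ⟨m * a, m * b, m * c, fun i => ?_⟩
  beta_reduce
  rw [h i]
  push_cast
  ring

private theorem O_mul_h13 (F : Frame) {x y : V} (hx : x ∈ O F.θ) (hy : y ∈ O F.θ) :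
    (fun i => x i * y i) ∈ O F.θ := by
  obtain ⟨a, b, c, h⟩ := hx
  obtain ⟨a', b', c', h'⟩ := hy
  refine ⟨a * a' - F.s * (b * c' + c * b') - F.n * F.s * (c * c'),
    a * b' + b * a' - (F.n - 1 - F.s + F.t) * (b * c' + c * b')
      - (F.n * (F.n - 1 - F.s + F.t) + F.s) * (c * c'),
    a * c' + b * b' + c * a' + F.n * (b * c' + c * b')
      + (F.n ^ 2 - (F.n - 1 - F.s + F.t)) * (c * c'), fun i => ?_⟩
  have hr := F.root i
  beta_reduce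
  rw [h i, h' i]
  push_cast
  linear_combination ((b * c' + c * b' : ℝ) + (c * c') * (F.θ i + F.n)) * hr

theorem Un_one (θ : V) : (fun _ => (1 : ℝ)) ∈ Un θ := by
  refine ⟨1, 0, 0, Or.inl rfl, fun k => ?_⟩
  simp

theorem Un_neg {θ : V} {u : V} (h : u ∈ Un θ) : (fun i => -u i) ∈ Un θ := by
  obtain ⟨ε, i, j, hε, hu⟩ := h
  refine ⟨-ε, i, j, ?_, fun k => ?_⟩
  · rcases hε with rfl | rfl
    · exact Or.inr rfl
    · exact Or.inl (by norm_num)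
  · beta_reduce
    rw [hu k]
    push_cast
    ring

theorem b3_ne_h13 (F : Frame) (k : Fin 3) : F.θ k ≠ 0 ∧ F.θ k - 1 ≠ 0 :=
  ⟨(theta_ne F k).1, sub_ne_zero.2 (theta_ne F k).2⟩

theorem Un_mul (F : Frame) {u v : V} (hu : u ∈ Un F.θ) (hv : v ∈ Un F.θ) :
    (fun i => u i * v i) ∈ Un F.θ := by
  obtain ⟨ε, i, j, hε, hu⟩ := hu
  obtain ⟨ε', i', j', hε', hv⟩ := hv
  refine ⟨ε * ε', i + i', j + j', ?_, fun k => ?_⟩
  · rcases hε with rfl | rfl <;> rcases hε' with rfl | rfl <;> norm_num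
  · obtain ⟨h0, h1⟩ := b3_ne_h13 F k
    beta_reduce
    rw [hu k, hv k, zpow_add₀ h0, zpow_add₀ h1]
    push_cast
    ring

theorem Un_inv (F : Frame) {u : V} (hu : u ∈ Un F.θ) : (fun i => (u i)⁻¹) ∈ Un F.θ := by
  obtain ⟨ε, i, j, hε, hu⟩ := hu
  refine ⟨ε, -i, -j, hε, fun k => ?_⟩
  beta_reduce
  rw [hu k, zpow_neg, zpow_neg, mul_inv, mul_inv]
  congr 2
  rcases hε with rfl | rfl <;> norm_num

theorem Un_theta (F : Frame) : F.θ ∈ Un F.θ := by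
  refine ⟨1, 1, 0, Or.inl rfl, fun k => ?_⟩
  simp

theorem Un_ne (F : Frame) {u : V} (hu : u ∈ Un F.θ) (i : Fin 3) : u i ≠ 0 := by
  obtain ⟨ε, a, b, hε, hu⟩ := hu
  obtain ⟨h0, h1⟩ := b3_ne_h13 F i
  rw [hu i]
  refine mul_ne_zero (mul_ne_zero ?_ (zpow_ne_zero _ h0)) (zpow_ne_zero _ h1)
  rcases hε with rfl | rfl <;> norm_num

theorem b3_one_h13 (θ : V) : (fun _ => (1 : ℝ)) ∈ O θ := ⟨1, 0, 0, fun i => by simp⟩

theorem b3_pow_h13 (F : Frame) {x : V} (hx : x ∈ O F.θ) (n : ℕ) : (fun i => x i ^ n) ∈ O F.θ := by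
  induction n with
  | zero => simpa using b3_one_h13 F.θ
  | succ n ih =>
    have := O_mul_h13 F ih hx
    simpa only [pow_succ] using this

theorem b3_zpow_h13 (F : Frame) {x : V} (hx : x ∈ O F.θ) (hx' : (fun i => (x i)⁻¹) ∈ O F.θ) (n : ℤ) :
    (fun i => x i ^ n) ∈ O F.θ := by
  rcases Int.eq_nat_or_neg n with ⟨m, rfl | rfl⟩
  · simpa only [zpow_natCast] using b3_pow_h13 F hx m
  · simpa only [zpow_neg, zpow_natCast, inv_pow] using b3_pow_h13 F hx' m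

theorem b3_s_h13 (F : Frame) : ((F.s : ℝ)) * F.s = 1 := by
  rcases F.hs with h | h <;> rw [h] <;> norm_num

theorem b3_t_h13 (F : Frame) : ((F.t : ℝ)) * F.t = 1 := by
  rcases F.ht with h | h <;> rw [h] <;> norm_num

theorem b3_inv0_h13 (F : Frame) : (fun i => (F.θ i)⁻¹) ∈ O F.θ := by
  refine ⟨-F.s * (F.n - 1 - F.s + F.t), F.s * F.n, -F.s, fun i => ?_⟩
  have hs := b3_s_h13 F
  have hr := F.root i
  apply inv_eq_of_mul_eq_one_left
  push_cast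
  linear_combination (-(F.s : ℝ)) * hr + hs

theorem b3_inv1_h13 (F : Frame) : (fun i => (F.θ i - 1)⁻¹) ∈ O F.θ := by
  refine ⟨-F.t * (F.t - F.s), F.t * (F.n - 1), -F.t, fun i => ?_⟩
  have ht := b3_t_h13 F
  have hr := F.root i
  apply inv_eq_of_mul_eq_one_left
  push_cast
  linear_combination (-(F.t : ℝ)) * hr + ht

theorem Un_O (F : Frame) {u : V} (hu : u ∈ Un F.θ) : u ∈ O F.θ := by
  obtain ⟨ε, a, b, hε, hu⟩ := hu
  have h0 : (fun i => F.θ i) ∈ O F.θ := ⟨0, 1, 0, fun i => by simp⟩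
  have h1 : (fun i => F.θ i - 1) ∈ O F.θ := ⟨-1, 1, 0, fun i => by push_cast; ring⟩
  have h2 := b3_zpow_h13 F h0 (b3_inv0_h13 F) a
  have h3 := b3_zpow_h13 F h1 (b3_inv1_h13 F) b
  have h4 := O_smul_h13 ε (O_mul_h13 F h2 h3)
  have h5 : u = fun i => (ε : ℝ) * (F.θ i ^ a * (F.θ i - 1) ^ b) := by
    funext k
    rw [hu k]
    ring
  rw [h5]
  exact h4

theorem b3_Nm_theta_h13 (F : Frame) : F.θ 0 * F.θ 1 * F.θ 2 = -F.s ∧
    (F.θ 0 - 1) * (F.θ 1 - 1) * (F.θ 2 - 1) = -F.t := by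
  obtain ⟨h1, h2, h3⟩ := vieta F
  have e1 : ∏ i, F.θ (F.e i) = ∏ i, F.θ i := Equiv.prod_comp F.e F.θ
  have e2 : ∏ i, (F.θ (F.e i) - 1) = ∏ i, (F.θ i - 1) :=
    Equiv.prod_comp F.e (fun i => F.θ i - 1)
  rw [Fin.prod_univ_three, Fin.prod_univ_three] at e1 e2
  constructor
  · rw [← e1, h3]
  · rw [← e2]
    linear_combination h3 - h2 + h1

theorem Un_Nm (F : Frame) {u : V} (hu : u ∈ Un F.θ) : |Nm u| = 1 := by
  obtain ⟨ε, a, b, hε, hu⟩ := hu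
  obtain ⟨h1, h2⟩ := b3_Nm_theta_h13 F
  have h3 : Nm u = ε ^ 3 * (F.θ 0 * F.θ 1 * F.θ 2) ^ a *
      ((F.θ 0 - 1) * (F.θ 1 - 1) * (F.θ 2 - 1)) ^ b := by
    unfold Nm
    rw [hu 0, hu 1, hu 2, mul_zpow, mul_zpow, mul_zpow, mul_zpow]
    ring
  rw [h3, h1, h2, abs_mul, abs_mul, abs_zpow, abs_zpow, abs_pow, abs_neg, abs_neg]
  have hs : |(F.s : ℝ)| = 1 := by rcases F.hs with h | h <;> rw [h] <;> norm_num
  have ht : |(F.t : ℝ)| = 1 := by rcases F.ht with h | h <;> rw [h] <;> norm_num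
  have he : |(ε : ℝ)| = 1 := by rcases hε with h | h <;> rw [h] <;> norm_num
  rw [hs, ht, he, one_zpow, one_zpow]
  norm_num

end Pool.Agent.Lib_helper72.GC
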