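import Pool.Agent.Lib_helper72.GC.W0

/-!
# GC, block B4: norms and contents
-/

set_option autoImplicit false

namespace Pool.Agent.Lib_helper72.GC

open Pool.Agent.Lib_helper83.CS

theorem b4_Nm_h47 (F : Frame) (x : V) : Nm x = x (F.e 0) * x (F.e 1) * x (F.e 2) := by
  have h := Equiv.prod_comp F.e x
  rw [Fin.prod_univ_three, Fin.prod_univ_three] at h
  unfold Nm
  rw [h]

/-- A9. The norm of `p - q θ`. -/
theorem Nm_lin (F : Frame) (p q : ℤ) :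
    Nm (fun i => p - q * F.θ i) = FF F.s F.t F.n p q := by
  obtain ⟨h1, h2, h3⟩ := vieta F
  rw [b4_Nm_h47 F]
  unfold FF
  push_cast
  linear_combination (-(p : ℝ) ^ 2 * q) * h1 + (p : ℝ) * q ^ 2 * h2 - (q : ℝ) ^ 3 * h3

/-- Norms of elements of the order are integers. -/
theorem O_Nm (F : Frame) {x : V} (hx : x ∈ O F.θ) : ∃ m : ℤ, Nm x = m := by
  obtain ⟨a, b, c, hx⟩ := hx
  obtain ⟨h1, h2, h3⟩ := vieta F
  have key : Nm x = (a : ℝ) ^ 3 +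
      b ^ 3 * (F.θ (F.e 0) * F.θ (F.e 1) * F.θ (F.e 2)) +
      c ^ 3 * (F.θ (F.e 0) * F.θ (F.e 1) * F.θ (F.e 2)) ^ 2 +
      a ^ 2 * b * (F.θ (F.e 0) + F.θ (F.e 1) + F.θ (F.e 2)) +
      a ^ 2 * c * ((F.θ (F.e 0) + F.θ (F.e 1) + F.θ (F.e 2)) ^ 2 -
        2 * (F.θ (F.e 0) * F.θ (F.e 1) + F.θ (F.e 0) * F.θ (F.e 2) + F.θ (F.e 1) * F.θ (F.e 2))) +
      a * b ^ 2 *
        (F.θ (F.e 0) * F.θ (F.e 1) + F.θ (F.e 0) * F.θ (F.e 2) + F.θ (F.e 1) * F.θ (F.e 2)) +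
      a * c ^ 2 *
        ((F.θ (F.e 0) * F.θ (F.e 1) + F.θ (F.e 0) * F.θ (F.e 2) + F.θ (F.e 1) * F.θ (F.e 2)) ^ 2 -
          2 * (F.θ (F.e 0) + F.θ (F.e 1) + F.θ (F.e 2)) *
            (F.θ (F.e 0) * F.θ (F.e 1) * F.θ (F.e 2))) +
      b ^ 2 * c * ((F.θ (F.e 0) + F.θ (F.e 1) + F.θ (F.e 2)) *
        (F.θ (F.e 0) * F.θ (F.e 1) * F.θ (F.e 2))) +
      b * c ^ 2 *
        ((F.θ (F.e 0) * F.θ (F.e 1) + F.θ (F.e 0) * F.θ (F.e 2) + F.θ (F.e 1) * F.θ (F.e 2)) *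
          (F.θ (F.e 0) * F.θ (F.e 1) * F.θ (F.e 2))) +
      a * b * c * ((F.θ (F.e 0) + F.θ (F.e 1) + F.θ (F.e 2)) *
        (F.θ (F.e 0) * F.θ (F.e 1) + F.θ (F.e 0) * F.θ (F.e 2) + F.θ (F.e 1) * F.θ (F.e 2)) -
          3 * (F.θ (F.e 0) * F.θ (F.e 1) * F.θ (F.e 2))) := by
    rw [b4_Nm_h47 F, hx, hx, hx]
    ring
  rw [h1, h2, h3] at key
  refine ⟨a ^ 3 + b ^ 3 * (-F.s) + c ^ 3 * (-F.s) ^ 2 + a ^ 2 * b * F.n +
    a ^ 2 * c * (F.n ^ 2 - 2 * (F.n - 1 - F.s + F.t)) + a * b ^ 2 * (F.n - 1 - F.s + F.t) +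
    a * c ^ 2 * ((F.n - 1 - F.s + F.t) ^ 2 - 2 * F.n * (-F.s)) + b ^ 2 * c * (F.n * (-F.s)) +
    b * c ^ 2 * ((F.n - 1 - F.s + F.t) * (-F.s)) +
    a * b * c * (F.n * (F.n - 1 - F.s + F.t) - 3 * (-F.s)), ?_⟩
  rw [key]
  push_cast
  ring

/-- Content of a product of two linear forms (one of them monic). -/
theorem content_lin (F : Frame) (p q c r : ℤ) {z : V} (hz : z ∈ O F.θ)
    (h : ∀ i, (p - q * F.θ i) * (F.θ i - c) = r * z i) : r ∣ p ∧ r ∣ q := by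
  obtain ⟨z0, z1, z2, hz⟩ := hz
  have h1 := O_indep F (-(p : ℝ) * c - r * z0) ((p : ℝ) + q * c - r * z1) (-(q : ℝ) - r * z2)
    (fun i => by
      have h2 := h i
      rw [hz i] at h2
      linear_combination h2)
  obtain ⟨_, h3, h4⟩ := h1
  have h5 : -q - r * z2 = 0 := by exact_mod_cast h4
  have h6 : p + q * c - r * z1 = 0 := by exact_mod_cast h3
  have h7 : r ∣ q := ⟨-z2, by linear_combination -h5⟩
  obtain ⟨k, hk⟩ := h7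
  refine ⟨⟨z1 - k * c, ?_⟩, ⟨k, hk⟩⟩
  rw [hk] at h6
  linear_combination h6

/-- `(p - q θ) O ∩ ℤ = F_n(p,q) ℤ` for coprime `p, q`. -/
theorem lin_O_int (F : Frame) (p q m : ℤ) (hpq : IsCoprime p q) {z : V} (hz : z ∈ O F.θ)
    (h : ∀ i, (m : ℝ) = (p - q * F.θ i) * z i) : FF F.s F.t F.n p q ∣ m := by
  obtain ⟨z0, z1, z2, hz⟩ := hz
  set N := FF F.s F.t F.n p q with hN
  have hNr : (N : ℝ) = (p : ℝ) ^ 3 - F.n * p ^ 2 * q + (F.n - 1 - F.s + F.t) * p * q ^ 2 +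
      F.s * q ^ 3 := by
    rw [hN]
    unfold FF
    push_cast
    ring
  have h1 := O_indep F
    ((m : ℝ) * ((p : ℝ) ^ 2 - F.n * p * q + (F.n - 1 - F.s + F.t) * q ^ 2) - N * z0)
    ((m : ℝ) * ((p : ℝ) * q - F.n * q ^ 2) - N * z1) ((m : ℝ) * (q : ℝ) ^ 2 - N * z2)
    (fun i => by
      have h2 := h i
      rw [hz i] at h2
      have h3 := F.root i
      rw [hNr]
      linear_combination
        ((q : ℝ) ^ 2 * F.θ i ^ 2 + ((p : ℝ) * q - F.n * q ^ 2) * F.θ i +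
          ((p : ℝ) ^ 2 - F.n * p * q + (F.n - 1 - F.s + F.t) * q ^ 2)) * h2 -
        (q : ℝ) ^ 3 * (z0 + z1 * F.θ i + z2 * F.θ i ^ 2) * h3)
  obtain ⟨h3, h4, h5⟩ := h1
  have h3' : m * (p ^ 2 - F.n * p * q + (F.n - 1 - F.s + F.t) * q ^ 2) - N * z0 = 0 := by
    exact_mod_cast h3
  have h4' : m * (p * q - F.n * q ^ 2) - N * z1 = 0 := by exact_mod_cast h4
  have h5' : m * q ^ 2 - N * z2 = 0 := by exact_mod_cast h5
  have h6 : N ∣ m * q ^ 2 := ⟨z2, by linear_combination h5'⟩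
  have h7 : N ∣ m * p ^ 2 := by
    refine ⟨z0 + F.n * z1 + (F.n ^ 2 - (F.n - 1 - F.s + F.t)) * z2, ?_⟩
    linear_combination h3' + F.n * h4' + (F.n ^ 2 - (F.n - 1 - F.s + F.t)) * h5'
  have h8 : IsCoprime (p ^ 2) (q ^ 2) := hpq.pow
  obtain ⟨u, v, huv⟩ := h8
  have h9 : m = u * (m * p ^ 2) + v * (m * q ^ 2) := by linear_combination -m * huv
  rw [h9]
  exact dvd_add (Dvd.dvd.mul_left h7 u) (Dvd.dvd.mul_left h6 v)

end Pool.Agent.Lib_helper72.GC
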