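import Pool.Agent.Lib_helper72.GC.W1

set_option autoImplicit false

namespace Pool.Agent.Lib_helper72.GC

open Pool.Agent.Lib_helper83.CS

theorem c1_bounds_h78 (F : Frame) (h : 10 ^ 6 + 10 ≤ |F.n|) :
    |F.θ (F.e 1)| ≤ 1 / 100 ∧ |F.θ (F.e 2) - 1| ≤ 1 / 100 ∧ 1000 ≤ |F.θ (F.e 0)| := by
  obtain ⟨-, h1, -, h2, h3⟩ := sharp F
  have hn : (10 : ℝ) ^ 6 + 10 ≤ |(F.n : ℝ)| := by
    have : ((10 ^ 6 + 10 : ℤ) : ℝ) ≤ ((|F.n| : ℤ) : ℝ) := by exact_mod_cast h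
    rw [Int.cast_abs] at this
    push_cast at this
    linarith
  have hpos : (0 : ℝ) < |(F.n : ℝ)| := by linarith
  have h10 : 10 / |(F.n : ℝ)| ≤ 1 := by
    rw [div_le_one hpos]; linarith
  have h3' : 3 / |(F.n : ℝ)| ≤ 1 := by
    rw [div_le_one hpos]; linarith
  refine ⟨?_, ?_, ?_⟩
  · by_contra hc
    push Not at hc
    nlinarith [abs_nonneg (F.θ (F.e 1))]
  · by_contra hc
    push Not at hc
    nlinarith [abs_nonneg (F.θ (F.e 2) - 1)]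
  · have h4 : |(F.n : ℝ)| ≤ |F.θ (F.e 0)| + 1 + |F.θ (F.e 0) - F.n + 1| := by
      have h5 : (F.n : ℝ) = F.θ (F.e 0) + 1 - (F.θ (F.e 0) - F.n + 1) := by ring
      calc |(F.n : ℝ)| = |F.θ (F.e 0) + 1 - (F.θ (F.e 0) - F.n + 1)| := by rw [← h5]
        _ ≤ |F.θ (F.e 0) + 1| + |F.θ (F.e 0) - F.n + 1| := abs_sub _ _
        _ ≤ |F.θ (F.e 0)| + 1 + |F.θ (F.e 0) - F.n + 1| := by
          have := abs_add_le (F.θ (F.e 0)) 1
          rw [abs_one] at this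
          linarith
    linarith

theorem swap01 (F : Frame) (h : 10 ^ 6 + 10 ≤ |F.n|) :
    ∃ F' : Frame, F'.s = F.s ∧ F'.t = F.s * F.t ∧ F'.n = -F.s * (F.n - 1 - F.s + F.t) ∧
      F'.e = F.e * Equiv.swap 0 1 ∧ ∀ i, F'.θ i = 1 / F.θ i := by
  obtain ⟨b1, b2, b3⟩ := c1_bounds_h78 F h
  have hne : ∀ i, F.θ i ≠ 0 := fun i => (theta_ne F i).1
  refine ⟨{ s := F.s, t := F.s * F.t, n := -F.s * (F.n - 1 - F.s + F.t), θ := fun i => 1 / F.θ i,
            e := F.e * Equiv.swap 0 1, hs := F.hs, ht := ?_, hn := ?_, root := ?_, near0 := ?_,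
            near1 := ?_, big := ?_ }, rfl, rfl, rfl, rfl, fun _ => rfl⟩
  · rcases F.hs with hs | hs <;> rcases F.ht with ht | ht <;> rw [hs, ht] <;> norm_num
  · rw [abs_mul, abs_neg]
    have h1 : |F.s| = 1 := by rcases F.hs with hs | hs <;> rw [hs] <;> norm_num
    rw [h1, one_mul]
    have ht := F.ht
    have hs := F.hs
    rcases abs_cases F.n with ⟨ha, hb⟩ | ⟨ha, hb⟩ <;>
      rcases abs_cases (F.n - 1 - F.s + F.t) with ⟨ha', hb'⟩ | ⟨ha', hb'⟩ <;> omega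
  · intro i
    have hr := F.root i
    have hs2 : (F.s : ℝ) * F.s = 1 := by
      rcases F.hs with hs | hs <;> rw [hs] <;> norm_num
    have hx := hne i
    push_cast
    field_simp
    linear_combination (F.s : ℝ) * hr + (F.θ i ^ 2 - 1) * hs2
  · show |1 / F.θ ((F.e * Equiv.swap 0 1 : Equiv.Perm (Fin 3)) 1)| ≤ 1 / 2
    have e1 : (F.e * Equiv.swap 0 1 : Equiv.Perm (Fin 3)) 1 = F.e 0 := by
      rw [Equiv.Perm.mul_apply, Equiv.swap_apply_right]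
    rw [e1, abs_div, abs_one, div_le_div_iff₀ (by linarith) (by norm_num)]
    linarith
  · show |1 / F.θ ((F.e * Equiv.swap 0 1 : Equiv.Perm (Fin 3)) 2) - 1| ≤ 1 / 4
    have e1 : (F.e * Equiv.swap 0 1 : Equiv.Perm (Fin 3)) 2 = F.e 2 := by
      rw [Equiv.Perm.mul_apply, Equiv.swap_apply_of_ne_of_ne (by decide) (by decide)]
    rw [e1]
    have h1 : 1 / F.θ (F.e 2) - 1 = (1 - F.θ (F.e 2)) / F.θ (F.e 2) := by
      have := hne (F.e 2)
      field_simp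
    have h2 : (99 : ℝ) / 100 ≤ |F.θ (F.e 2)| := by
      rcases abs_le.1 b2 with ⟨h3, h4⟩
      rw [abs_of_pos (by linarith)]
      linarith
    rw [h1, abs_div, div_le_iff₀ (by linarith), abs_sub_comm]
    linarith
  · show 10 ≤ |1 / F.θ ((F.e * Equiv.swap 0 1 : Equiv.Perm (Fin 3)) 0)|
    have e1 : (F.e * Equiv.swap 0 1 : Equiv.Perm (Fin 3)) 0 = F.e 1 := by
      rw [Equiv.Perm.mul_apply, Equiv.swap_apply_left]
    rw [e1, abs_div, abs_one, le_div_iff₀ (abs_pos.2 (hne _))]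
    linarith

theorem swap12 (F : Frame) (h : 10 ^ 6 + 10 ≤ |F.n|) :
    ∃ F' : Frame, F'.s = -F.t ∧ F'.t = -F.s ∧ F'.n = 3 - F.n ∧
      F'.e = F.e * Equiv.swap 1 2 ∧ ∀ i, F'.θ i = 1 - F.θ i := by
  obtain ⟨b1, b2, b3⟩ := c1_bounds_h78 F h
  refine ⟨{ s := -F.t, t := -F.s, n := 3 - F.n, θ := fun i => 1 - F.θ i,
            e := F.e * Equiv.swap 1 2, hs := ?_, ht := ?_, hn := ?_, root := ?_, near0 := ?_,
            near1 := ?_, big := ?_ }, rfl, rfl, rfl, rfl, fun _ => rfl⟩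
  · rcases F.ht with ht | ht <;> rw [ht] <;> norm_num
  · rcases F.hs with hs | hs <;> rw [hs] <;> norm_num
  · rcases abs_cases F.n with ⟨ha, hb⟩ | ⟨ha, hb⟩ <;>
      rcases abs_cases (3 - F.n) with ⟨ha', hb'⟩ | ⟨ha', hb'⟩ <;> omega
  · intro i
    have hr := F.root i
    push_cast
    linear_combination -hr
  · show |1 - F.θ ((F.e * Equiv.swap 1 2 : Equiv.Perm (Fin 3)) 1)| ≤ 1 / 2
    have e1 : (F.e * Equiv.swap 1 2 : Equiv.Perm (Fin 3)) 1 = F.e 2 := by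
      rw [Equiv.Perm.mul_apply, Equiv.swap_apply_left]
    rw [e1, abs_sub_comm]
    linarith
  · show |1 - F.θ ((F.e * Equiv.swap 1 2 : Equiv.Perm (Fin 3)) 2) - 1| ≤ 1 / 4
    have e1 : (F.e * Equiv.swap 1 2 : Equiv.Perm (Fin 3)) 2 = F.e 1 := by
      rw [Equiv.Perm.mul_apply, Equiv.swap_apply_right]
    rw [e1]
    have h1 : 1 - F.θ (F.e 1) - 1 = -F.θ (F.e 1) := by ring
    rw [h1, abs_neg]
    linarith
  · show 10 ≤ |1 - F.θ ((F.e * Equiv.swap 1 2 : Equiv.Perm (Fin 3)) 0)|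
    have e1 : (F.e * Equiv.swap 1 2 : Equiv.Perm (Fin 3)) 0 = F.e 0 := by
      rw [Equiv.Perm.mul_apply, Equiv.swap_apply_of_ne_of_ne (by decide) (by decide)]
    rw [e1]
    have h1 : |F.θ (F.e 0)| ≤ |1 - F.θ (F.e 0)| + 1 := by
      have h2 : F.θ (F.e 0) = 1 - (1 - F.θ (F.e 0)) := by ring
      calc |F.θ (F.e 0)| = |1 - (1 - F.θ (F.e 0))| := by rw [← h2]
        _ ≤ |(1 : ℝ)| + |1 - F.θ (F.e 0)| := abs_sub _ _
        _ = |1 - F.θ (F.e 0)| + 1 := by rw [abs_one]; ring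
    linarith

end Pool.Agent.Lib_helper72.GC
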