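import Pool.Agent.Lib_helper72.GC.W1

/-! # Block C2 -/

set_option autoImplicit false

namespace Pool.Agent.Lib_helper72.GC

open Pool.Agent.Lib_helper83.CS

theorem C2_sq_h2 {s : ℤ} (hs : s = 1 ∨ s = -1) : s * s = 1 := by
  rcases hs with rfl | rfl <;> norm_num

theorem C2_odd_h2 {s : ℤ} (hs : s = 1 ∨ s = -1) : Odd s := by
  rcases hs with rfl | rfl
  · exact odd_one
  · exact odd_one.neg

theorem lab_coprime {s t n d c : ℤ} (hs : s = 1 ∨ s = -1) (ht : t = 1 ∨ t = -1)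
    (h : IsLab s t n d c) : IsCoprime c d ∧ IsCoprime (c - 1) d ∧ Odd d := by
  obtain ⟨-, k, hk⟩ := h
  have hs2 := C2_sq_h2 hs
  have ht2 := C2_sq_h2 ht
  refine ⟨⟨-s * (c ^ 2 - n * c + (n - 1 - s + t)), s * k, ?_⟩,
    ⟨-t * (c ^ 2 + (1 - n) * c + (t - s)), t * k, ?_⟩, ?_⟩
  · have : s * k * d = s * FF s t n c 1 := by rw [hk]; ring
    rw [this]
    unfold FF
    linear_combination hs2
  · have : t * k * d = t * FF s t n c 1 := by rw [hk]; ring
    rw [this]
    unfold FF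
    linear_combination ht2
  · have h1 : Odd (FF s t n c 1) := by
      have e1 : FF s t n c 1 = c * (c + 1) * (c - 1 - n) + 2 * (n * c) + (t - s) * c + s := by
        unfold FF
        ring
      have h2 : Even (c * (c + 1)) := Int.even_mul_succ_self c
      have h3 : Even (t - s) := (C2_odd_h2 ht).sub_odd (C2_odd_h2 hs)
      rw [e1]
      refine Even.add_odd (Even.add (Even.add (h2.mul_right _) (even_two_mul _))
        (h3.mul_right _)) (C2_odd_h2 hs)
    rw [hk] at h1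
    exact (Int.odd_mul.mp h1).1

/-- `H(p,q) = 0` and `d ∣ p - c q`: then `d` divides `p` and `q`. -/
theorem H_zero_dvd {s t n d c p q : ℤ} (hs : s = 1 ∨ s = -1) (ht : t = 1 ∨ t = -1)
    (h : IsLab s t n d c) (hH : H p q = 0) (hd : d ∣ p - c * q) : d ∣ p ∧ d ∣ q := by
  obtain ⟨h1, h2, -⟩ := lab_coprime hs ht h
  unfold H at hH
  rcases mul_eq_zero.mp hH with h3 | h3
  · rcases mul_eq_zero.mp h3 with h4 | h4
    · subst h4
      refine ⟨dvd_zero d, ?_⟩
      rw [zero_sub, dvd_neg] at hd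
      exact h1.symm.dvd_of_dvd_mul_left hd
    · subst h4
      rw [mul_zero, sub_zero] at hd
      exact ⟨hd, dvd_zero d⟩
  · have h4 : q = p := by omega
    subst h4
    have h5 : d ∣ (c - 1) * q := by
      have : (c - 1) * q = -(q - c * q) := by ring
      rw [this, dvd_neg]
      exact hd
    have h6 := h2.symm.dvd_of_dvd_mul_left h5
    exact ⟨h6, h6⟩

theorem C2_sub_h2 (θ : V) {d c c' : ℤ} (h : d ∣ c - c') : Lam θ d c ⊆ Lam θ d c' := by
  rintro x ⟨h1, h2⟩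
  obtain ⟨k, hk⟩ := h
  refine ⟨h1, ?_⟩
  have h3 := O_add h2 (O_smul k h1)
  have hk' : (c : ℝ) - c' = d * k := by exact_mod_cast hk
  have h4 : (fun i => (θ i - c') * x i) = (fun i => (θ i - c) * x i + k * ((d : ℝ) * x i)) := by
    funext i
    linear_combination x i * hk'
  show (fun i => (θ i - c') * x i) ∈ O θ
  rw [h4]
  exact h3

theorem Lam_congr (θ : V) {d c c' : ℤ} (h : d ∣ c - c') : Lam θ d c = Lam θ d c' := by
  refine Set.Subset.antisymm (C2_sub_h2 θ h) (C2_sub_h2 θ ?_)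
  have : c' - c = -(c - c') := by ring
  rw [this, dvd_neg]
  exact h

theorem lab_inv {s t n d c c' : ℤ} (hs : s = 1 ∨ s = -1) (ht : t = 1 ∨ t = -1)
    (h : IsLab s t n d c) (hc : d ∣ c * c' - 1) :
    IsLab s (s * t) (-s * (n - 1 - s + t)) d c' := by
  obtain ⟨h0, k, hk⟩ := h
  obtain ⟨m, hm⟩ := hc
  have hs2 := C2_sq_h2 hs
  refine ⟨h0, s * c' ^ 3 * k - m * (s * ((c * c') ^ 2 + c * c' + 1) - s * n * c' * (c * c' + 1)
    + s * (n - 1 - s + t) * c' ^ 2), ?_⟩
  have e1 : d * (s * c' ^ 3 * k - m * (s * ((c * c') ^ 2 + c * c' + 1)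
      - s * n * c' * (c * c' + 1) + s * (n - 1 - s + t) * c' ^ 2))
      = s * c' ^ 3 * (d * k) - (d * m) * (s * ((c * c') ^ 2 + c * c' + 1)
      - s * n * c' * (c * c' + 1) + s * (n - 1 - s + t) * c' ^ 2) := by ring
  rw [e1, ← hk, ← hm]
  unfold FF
  linear_combination (-c' ^ 3 + c') * hs2

theorem lab_sub1 {s t n d c : ℤ} (hs : s = 1 ∨ s = -1) (ht : t = 1 ∨ t = -1)
    (h : IsLab s t n d c) : IsLab (-t) (-s) (3 - n) d (1 - c) := by
  obtain ⟨h0, h1⟩ := h
  refine ⟨h0, ?_⟩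
  have : FF (-t) (-s) (3 - n) (1 - c) 1 = -FF s t n c 1 := by
    unfold FF
    ring
  rw [this, dvd_neg]
  exact h1

end Pool.Agent.Lib_helper72.GC
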