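import Pool.Agent.Lib_helper72.GC.W1

/-!
# GC, block C3: triples
-/

set_option autoImplicit false

namespace Pool.Agent.Lib_helper72.GC

open Pool.Agent.Lib_helper83.CS

theorem c3_cub (F : Frame) (i : Fin 3) :
    F.θ i ^ 3 = F.n * F.θ i ^ 2 - (F.n - 1 - F.s + F.t) * F.θ i - F.s := by
  have h := F.root i
  linarith

theorem c3_ss (F : Frame) : F.s * F.s = 1 := by
  rcases F.hs with h | h <;> rw [h] <;> norm_num

theorem Lam_el (F : Frame) {d c : ℤ} (h : IsLab F.s F.t F.n d c) {x : V}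
    (hx : x ∈ Lam F.θ d c) :
    ∃ X Z X' : ℤ, x = el F.s F.n F.θ d X Z X' ∧ d ∣ Z - c * X ∧ d ∣ X' - c * Z := by
  obtain ⟨⟨a, b, e, h1⟩, ⟨a', b', e', h2⟩⟩ := hx
  have hd : (d : ℝ) ≠ 0 := by exact_mod_cast h.1.ne'
  have hss := c3_ss F
  have key := O_indep F ((-F.s * e - c * a - d * a' : ℤ) : ℝ)
    ((a - (F.n - 1 - F.s + F.t) * e - c * b - d * b' : ℤ) : ℝ)
    ((b + F.n * e - c * e - d * e' : ℤ) : ℝ) (fun i => by
      have e1 := h1 i
      have e2 := h2 i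
      have e3 := c3_cub F i
      simp only at e1 e2
      have e4 : (F.θ i - c) * ((d : ℝ) * x i) = d * ((F.θ i - c) * x i) := by ring
      rw [e1, e2] at e4
      push_cast
      linear_combination e4 - (e : ℝ) * e3)
  obtain ⟨k1, -, k3⟩ := key
  have k1' : -F.s * e - c * a - d * a' = 0 := by exact_mod_cast k1
  have k3' : b + F.n * e - c * e - d * e' = 0 := by exact_mod_cast k3
  refine ⟨-F.s * a, e, b + F.n * e, ?_, ⟨-F.s * a', ?_⟩, ⟨e', ?_⟩⟩
  · funext i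
    have e1 := h1 i
    simp only at e1
    have hss' : (F.s : ℝ) * F.s = 1 := by exact_mod_cast hss
    unfold el
    rw [eq_div_iff hd]
    push_cast
    linear_combination e1 - a * hss'
  · linear_combination (-F.s) * k1' + (-e) * hss
  · linear_combination k3'

theorem el_Lam (F : Frame) {d c : ℤ} (h : IsLab F.s F.t F.n d c) {X Z X' : ℤ}
    (h1 : d ∣ Z - c * X) (h2 : d ∣ X' - c * Z) : el F.s F.n F.θ d X Z X' ∈ Lam F.θ d c := by
  obtain ⟨hd0, k3, hk3⟩ := h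
  have hd : (d : ℝ) ≠ 0 := by exact_mod_cast hd0.ne'
  obtain ⟨k1, hk1⟩ := h1
  obtain ⟨k2, hk2⟩ := h2
  refine ⟨⟨-F.s * X, X' - F.n * Z, Z, fun i => ?_⟩,
    ⟨-F.s * k1, -X * k3 - k1 * (F.n - 1 - F.s + F.t + c ^ 2 - c * F.n) - c * k2, k2,
      fun i => ?_⟩⟩
  · show (d : ℝ) * ((-F.s * X + (X' - F.n * Z) * F.θ i + Z * F.θ i ^ 2) / d) = _
    rw [mul_div_cancel₀ _ hd]
    push_cast
    ring
  · show (F.θ i - c) * ((-F.s * X + (X' - F.n * Z) * F.θ i + Z * F.θ i ^ 2) / d) = _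
    have e3 := c3_cub F i
    have r1 : (Z : ℝ) - c * X = d * k1 := by exact_mod_cast hk1
    have r2 : (X' : ℝ) - c * Z = d * k2 := by exact_mod_cast hk2
    have r3 : (c : ℝ) ^ 3 - F.n * c ^ 2 + (F.n - 1 - F.s + F.t) * c + F.s = d * k3 := by
      have h3 : c ^ 3 - F.n * c ^ 2 + (F.n - 1 - F.s + F.t) * c + F.s = d * k3 := by
        rw [← hk3, FF]
        ring
      exact_mod_cast h3
    rw [← mul_div_assoc, div_eq_iff hd]
    push_cast
    linear_combination (Z : ℝ) * e3 - (F.s : ℝ) * r1 - (X : ℝ) * F.θ i * r3 -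
      F.θ i * (F.n - 1 - F.s + F.t + c ^ 2 - c * F.n) * r1 - c * F.θ i * r2 + F.θ i ^ 2 * r2

theorem el_inj (F : Frame) {d : ℤ} (hd : d ≠ 0) {X Z X' Y W Y' : ℤ}
    (h : el F.s F.n F.θ d X Z X' = el F.s F.n F.θ d Y W Y') : X = Y ∧ Z = W ∧ X' = Y' := by
  have hd' : (d : ℝ) ≠ 0 := by exact_mod_cast hd
  have key := O_indep F ((-F.s * X + F.s * Y : ℤ) : ℝ)
    (((X' - F.n * Z) - (Y' - F.n * W) : ℤ) : ℝ) ((Z - W : ℤ) : ℝ) (fun i => by
      have e1 := congrFun h i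
      unfold el at e1
      rw [div_left_inj' hd'] at e1
      push_cast
      linear_combination e1)
  obtain ⟨k1, k2, k3⟩ := key
  have k1' : -F.s * X + F.s * Y = 0 := by exact_mod_cast k1
  have k2' : (X' - F.n * Z) - (Y' - F.n * W) = 0 := by exact_mod_cast k2
  have k3' : Z - W = 0 := by exact_mod_cast k3
  have hZ : Z = W := by linarith
  subst hZ
  have hss := c3_ss F
  refine ⟨?_, rfl, by linarith⟩
  have : F.s * (-F.s * X + F.s * Y) = 0 := by rw [k1', mul_zero]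
  linear_combination (-1) * this + (Y - X) * hss

/-- The triple of `θ x`. -/
theorem el_theta (F : Frame) {d : ℤ} (hd : d ≠ 0) (X Z X' : ℤ) (i : Fin 3) :
    F.θ i * el F.s F.n F.θ d X Z X' i =
      el F.s F.n F.θ d Z X' (F.n * X' - (F.n - 1 - F.s + F.t) * Z - F.s * X) i := by
  have hd' : (d : ℝ) ≠ 0 := by exact_mod_cast hd
  have e3 := c3_cub F i
  unfold el
  rw [← mul_div_assoc, div_left_inj' hd']
  push_cast
  linear_combination (Z : ℝ) * e3

end Pool.Agent.Lib_helper72.GC
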