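import Pool.Agent.Lib_helper72.GC.W1

/-!
# GC, block C5: linear elements up to units
-/

set_option autoImplicit false

namespace Pool.Agent.Lib_helper72.GC

open Pool.Agent.Lib_helper83.CS

theorem LH_lin (θ : V) (p q : ℤ) : LH θ (fun i => p - q * θ i) |H p q| :=
  ⟨fun _ => (1 : ℝ), Un_one θ, p, q, fun i => by simp, rfl⟩

theorem LH_unit (F : Frame) {u v : V} {h : ℤ} (hu : u ∈ Un F.θ) (hv : LH F.θ v h) :
    LH F.θ (fun i => u i * v i) h := by
  obtain ⟨u', hu', p, q, h1, h2⟩ := hv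
  refine ⟨fun i => u i * u' i, Un_mul F hu hu', p, q, fun i => ?_, h2⟩
  show u i * v i = u i * u' i * _
  rw [h1, mul_assoc]

theorem LH_O (F : Frame) {v : V} {h : ℤ} (hv : LH F.θ v h) : v ∈ O F.θ := by
  obtain ⟨u, hu, p, q, h1, -⟩ := hv
  have h2 := O_mul F (Un_O F hu) (O_lin (θ := F.θ) p q)
  have h3 : v = fun i => u i * ((p : ℝ) - q * F.θ i) := funext h1
  rw [h3]
  exact h2

theorem Un_theta_one_h33 (θ : V) : (fun i => θ i - 1) ∈ Un θ :=
  ⟨1, 0, 1, Or.inl rfl, fun k => by simp⟩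

theorem LH_zero (F : Frame) {v : V} (hv : LH F.θ v 0) :
    ∃ u ∈ Un F.θ, ∃ m : ℤ, ∀ i, v i = m * u i := by
  obtain ⟨u, hu, p, q, h1, h2⟩ := hv
  have h3 : H p q = 0 := abs_eq_zero.1 h2
  have h4 : p * q * (p - q) = 0 := h3
  rcases mul_eq_zero.1 h4 with h5 | h5
  · rcases mul_eq_zero.1 h5 with rfl | rfl
    · refine ⟨_, Un_mul F hu (Un_theta F), -q, fun i => ?_⟩
      rw [h1]
      push_cast
      ring
    · refine ⟨u, hu, p, fun i => ?_⟩
      rw [h1]
      push_cast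
      ring
  · have h6 : p = q := by omega
    subst h6
    refine ⟨_, Un_mul F hu (Un_theta_one_h33 F.θ), -p, fun i => ?_⟩
    rw [h1]
    push_cast
    ring

theorem LH_even {θ : V} {v : V} {h : ℤ} (hv : LH θ v h) : 0 ≤ h ∧ Even h := by
  obtain ⟨u, -, p, q, -, rfl⟩ := hv
  refine ⟨abs_nonneg _, even_abs.2 ?_⟩
  show Even (p * q * (p - q))
  rcases Int.even_or_odd p with hp | hp
  · exact (hp.mul_right q).mul_right _
  · rcases Int.even_or_odd q with hq | hq
    · exact (hq.mul_left p).mul_right _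
    · exact (hp.sub_odd hq).mul_left _

theorem Qp_unit (F : Frame) {u x : V} (hu : u ∈ Un F.θ) (hx : Qp F.θ (fun i => u i * x i)) :
    Qp F.θ x := by
  rcases hx with ⟨h, hh⟩ | ⟨v, h, r, hv, hv0, hr⟩
  · left
    refine ⟨h, ?_⟩
    have h1 := LH_unit F (Un_inv F hu) hh
    have h2 : x = fun i => (u i)⁻¹ * (u i * x i) := by
      funext i
      rw [← mul_assoc, inv_mul_cancel₀ (Un_ne F hu i), one_mul]
    rw [h2]
    exact h1
  · right
    refine ⟨fun i => u i * v i, h, r, LH_unit F hu hv,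
      fun i => mul_ne_zero (Un_ne F hu i) (hv0 i), fun i => ?_⟩
    rw [← hr i]
    ring

end Pool.Agent.Lib_helper72.GC
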