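import Pool.Agent.Lib_helper72.GC.W1

set_option autoImplicit false

namespace Pool.Agent.Lib_helper72.GC

open Pool.Agent.Lib_helper83.CS

theorem e1h55_theta0 (F : Frame) (i : Fin 3) : F.θ i ≠ 0 := (theta_ne F i).1

theorem e1h55_ss (F : Frame) : (F.s : ℝ) * F.s = 1 := by
  rcases F.hs with h | h <;> simp [h]

/-- `1/θ` -/
theorem e1h55_inv1 (F : Frame) (i : Fin 3) :
    1 / F.θ i = -F.s * (F.θ i ^ 2 - F.n * F.θ i + (F.n - 1 - F.s + F.t)) := by
  have h0 := e1h55_theta0 F i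
  have h1 := F.root i
  have h2 := e1h55_ss F
  rw [div_eq_iff h0]
  linear_combination (F.s : ℝ) * h1 - h2

/-- `1/θ^2` -/
theorem e1h55_inv2 (F : Frame) (i : Fin 3) :
    (1 / F.θ i) ^ 2 = -F.s * (F.θ i - F.n + (F.n - 1 - F.s + F.t) * (1 / F.θ i)) := by
  have h0 := e1h55_theta0 F i
  have h1 := F.root i
  have h2 := e1h55_ss F
  have h3 : (F.θ i - F.n + (F.n - 1 - F.s + F.t) * (1 / F.θ i)) * F.θ i ^ 2 = -F.s := by
    field_simp
    linear_combination h1
  have h4 : F.θ i ^ 2 ≠ 0 := pow_ne_zero 2 h0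
  apply mul_right_cancel₀ h4
  have h5 : (1 / F.θ i) ^ 2 * F.θ i ^ 2 = 1 := by
    field_simp
  rw [h5]
  linear_combination (F.s : ℝ) * h3 - h2

/-- `θ` in terms of `1/θ` -/
theorem e1h55_th1 (F : Frame) (i : Fin 3) :
    F.θ i = F.n - (F.n - 1 - F.s + F.t) * (1 / F.θ i) - F.s * (1 / F.θ i) ^ 2 := by
  have h2 := e1h55_ss F
  have h3 := e1h55_inv2 F i
  linear_combination (F.s : ℝ) * h3 -
    (F.θ i - F.n + (F.n - 1 - F.s + F.t) * (1 / F.θ i)) * h2

theorem e1h55_th2 (F : Frame) (i : Fin 3) :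
    F.θ i ^ 2 = F.n * F.θ i - (F.n - 1 - F.s + F.t) - F.s * (1 / F.θ i) := by
  have h2 := e1h55_ss F
  have h3 := e1h55_inv1 F i
  linear_combination (F.s : ℝ) * h3 -
    (F.θ i ^ 2 - F.n * F.θ i + (F.n - 1 - F.s + F.t)) * h2

theorem O_inv (F : Frame) : O (fun i => 1 / F.θ i) = O F.θ := by
  apply Set.Subset.antisymm
  · rintro x ⟨a, b, c, h⟩
    refine ⟨a - b * F.s * (F.n - 1 - F.s + F.t) + c * (F.s * F.n +
        (F.n - 1 - F.s + F.t) * (F.n - 1 - F.s + F.t)),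
      b * F.s * F.n - c * (F.s + (F.n - 1 - F.s + F.t) * F.n),
      -b * F.s + c * (F.n - 1 - F.s + F.t), fun i => ?_⟩
    have h1 := e1h55_inv1 F i
    have h2 := e1h55_inv2 F i
    have h3 := e1h55_ss F
    have h4 := h i
    simp only at h4
    rw [h4, h2, h1]
    push_cast
    linear_combination (c : ℝ) * (F.n - 1 - F.s + F.t) *
      (F.θ i ^ 2 - F.n * F.θ i + (F.n - 1 - F.s + F.t)) * h3
  · rintro x ⟨a, b, c, h⟩
    refine ⟨a + b * F.n + c * (F.n * F.n - (F.n - 1 - F.s + F.t)),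
      -b * (F.n - 1 - F.s + F.t) - c * (F.n * (F.n - 1 - F.s + F.t) + F.s),
      -b * F.s - c * F.n * F.s, fun i => ?_⟩
    have h1 := e1h55_th1 F i
    have h2 := e1h55_th2 F i
    have h4 := h i
    simp only
    rw [h4, h2]
    push_cast
    linear_combination (b + c * F.n : ℝ) * h1

theorem e1h55_Un_sub (φ : V) (h0 : ∀ i, φ i ≠ 0) : Un (fun i => 1 / φ i) ⊆ Un φ := by
  rintro u ⟨ε, i, j, hε, hu⟩
  rcases Int.even_or_odd j with hj | hj
  · refine ⟨ε, -i - j, j, hε, fun k => ?_⟩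
    have h1 := h0 k
    have h2 : 1 / φ k - 1 = -((φ k - 1) * (φ k)⁻¹) := by
      field_simp
      ring
    have hk := hu k
    simp only at hk
    rw [hk, h2, hj.neg_zpow, mul_zpow, one_div, inv_zpow', inv_zpow', sub_eq_add_neg (-i) j,
      zpow_add₀ h1]
    ring
  · refine ⟨-ε, -i - j, j, ?_, fun k => ?_⟩
    · rcases hε with h | h <;> simp [h]
    · have h1 := h0 k
      have h2 : 1 / φ k - 1 = -((φ k - 1) * (φ k)⁻¹) := by
        field_simp
        ring
      have hk := hu k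
      simp only at hk
      rw [hk, h2, hj.neg_zpow, mul_zpow, one_div, inv_zpow', inv_zpow', sub_eq_add_neg (-i) j,
        zpow_add₀ h1]
      push_cast
      ring

theorem e1h55_invinv (φ : V) : (fun i => 1 / (fun i => 1 / φ i) i) = φ := by
  funext i
  simp

theorem UnG_inv (F : Frame) : Un (fun i => 1 / F.θ i) = Un F.θ := by
  apply Set.Subset.antisymm
  · exact e1h55_Un_sub F.θ (e1h55_theta0 F)
  · have h := e1h55_Un_sub (fun i => 1 / F.θ i) (fun i => one_div_ne_zero (e1h55_theta0 F i))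
    rw [e1h55_invinv] at h
    exact h

theorem e1h55_LH_sub (φ : V) (h0 : ∀ i, φ i ≠ 0) (v : V) (h : ℤ) (hv : LH (fun i => 1 / φ i) v h) :
    LH φ v h := by
  obtain ⟨u, hu, p, q, h1, h2⟩ := hv
  obtain ⟨ε, i, j, hε, hu'⟩ := e1h55_Un_sub φ h0 hu
  refine ⟨fun k => -(u k * (φ k)⁻¹), ⟨-ε, i - 1, j, ?_, fun k => ?_⟩, q, p, fun k => ?_, ?_⟩
  · rcases hε with h | h <;> simp [h]
  · simp only
    rw [hu' k, zpow_sub_one₀ (h0 k)]
    push_cast
    ring
  · have h3 := h0 k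
    rw [h1 k]
    field_simp
    ring
  · rw [← h2, ← abs_neg]
    congr 1
    unfold H
    ring

theorem LH_inv (F : Frame) (v : V) (h : ℤ) : LH (fun i => 1 / F.θ i) v h ↔ LH F.θ v h := by
  constructor
  · exact e1h55_LH_sub F.θ (e1h55_theta0 F) v h
  · intro hv
    apply e1h55_LH_sub (fun i => 1 / F.θ i) (fun i => one_div_ne_zero (e1h55_theta0 F i)) v h
    rw [e1h55_invinv]
    exact hv

theorem e1h55_inv_mem (F : Frame) : (fun i => 1 / F.θ i) ∈ O F.θ := by
  rw [← O_inv]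
  exact ⟨0, 1, 0, fun i => by simp⟩

theorem e1h55_th_mem (F : Frame) : F.θ ∈ O F.θ := ⟨0, 1, 0, fun i => by simp⟩

theorem Lam_inv (F : Frame) {d c c' : ℤ} (h : IsLab F.s F.t F.n d c) (hc : d ∣ c * c' - 1) :
    Lam (fun i => 1 / F.θ i) d c' = Lam F.θ d c := by
  obtain ⟨k, hk⟩ := hc
  have hkR : (c : ℝ) * c' - 1 = d * k := by exact_mod_cast hk
  unfold Lam
  rw [O_inv]
  ext x
  constructor
  · rintro ⟨h1, h2⟩
    refine ⟨h1, ?_⟩
    have h3 := O_add (O_smul (-c) (O_mul F (e1h55_th_mem F) h2)) (O_smul (-k) (O_mul F (e1h55_th_mem F) h1))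
    convert h3 using 1
    funext i
    have h0 := e1h55_theta0 F i
    have h4 : (F.θ i - c) * x i = -c * (F.θ i * ((1 / F.θ i - c') * x i)) +
        F.θ i * x i * (1 - c * c') := by
      field_simp
      ring
    rw [h4]
    push_cast
    linear_combination (-(F.θ i * x i)) * hkR
  · rintro ⟨h1, h2⟩
    refine ⟨h1, ?_⟩
    have h3 := O_add (O_smul (-c') (O_mul F (e1h55_inv_mem F) h2))
      (O_smul (-k) (O_mul F (e1h55_inv_mem F) h1))
    convert h3 using 1
    funext i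
    have h0 := e1h55_theta0 F i
    have h4 : (1 / F.θ i - c') * x i = -c' * (1 / F.θ i * ((F.θ i - c) * x i)) +
        1 / F.θ i * x i * (1 - c * c') := by
      field_simp
      ring
    rw [h4]
    push_cast
    linear_combination (-(1 / F.θ i * x i)) * hkR

theorem e1h55_prod (F : Frame) : |F.θ 0 * F.θ 1 * F.θ 2| = 1 := by
  have h1 := (vieta F).2.2
  have h2 : ∏ i, F.θ (F.e i) = ∏ i, F.θ i := Equiv.prod_comp F.e F.θ
  rw [Fin.prod_univ_three, Fin.prod_univ_three] at h2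
  rw [← h2, h1]
  rcases F.hs with h | h <;> simp [h]

theorem am_inv (F : Frame) (x : V) (i : Fin 3) :
    am (fun i => 1 / F.θ i) (fun i => x i / F.θ i) i = am F.θ x i := by
  have h0 := e1h55_theta0 F i
  have h1 := e1h55_theta0 F (i + 1)
  have h2 := e1h55_theta0 F (i + 2)
  have hf : fd (fun i => 1 / F.θ i) i =
      fd F.θ i / (F.θ i * (F.θ i * F.θ (i + 1) * F.θ (i + 2))) := by
    unfold fd
    field_simp
    ring
  have hp : |F.θ i * F.θ (i + 1) * F.θ (i + 2)| = 1 := by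
    rw [← e1h55_prod F]
    congr 1
    fin_cases i
    · rfl
    · show F.θ 1 * F.θ (1 + 1) * F.θ (1 + 2) = _
      have e1 : (1 + 1 : Fin 3) = 2 := rfl
      have e2 : (1 + 2 : Fin 3) = 0 := rfl
      rw [e1, e2]
      ring
    · show F.θ 2 * F.θ (2 + 1) * F.θ (2 + 2) = _
      have e1 : (2 + 1 : Fin 3) = 0 := rfl
      have e2 : (2 + 2 : Fin 3) = 1 := rfl
      rw [e1, e2]
      ring
  unfold am
  simp only
  rw [hf]
  have h3 : x i / F.θ i / (fd F.θ i / (F.θ i * (F.θ i * F.θ (i + 1) * F.θ (i + 2)))) =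
      x i / fd F.θ i * (F.θ i * F.θ (i + 1) * F.θ (i + 2)) := by
    have h4 := fd_ne F i
    field_simp
  rw [h3, abs_mul, hp, mul_one]

end Pool.Agent.Lib_helper72.GC
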