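import Pool.Agent.Lib_helper72.GC.W1

/-!
# GC, block E2: the substitution `θ → 1 - θ`
-/

set_option autoImplicit false

namespace Pool.Agent.Lib_helper72.GC

open Pool.Agent.Lib_helper83.CS

theorem E2_invol (θ : V) : (fun i => 1 - (fun i => 1 - θ i) i) = θ := by
  funext i
  simp only [sub_sub_cancel]

theorem E2_O (θ : V) {x : V} (h : x ∈ O θ) : x ∈ O (fun i => 1 - θ i) := by
  obtain ⟨a, b, c, h⟩ := h
  refine ⟨a + b + c, -b - 2 * c, c, fun i => ?_⟩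
  rw [h i]
  push_cast
  ring

theorem E2_O_eq (θ : V) : O (fun i => 1 - θ i) = O θ := by
  ext x
  refine ⟨fun h => ?_, E2_O θ⟩
  have := E2_O _ h
  rw [E2_invol] at this
  exact this

theorem E2_sgn (i : ℤ) : ∃ ε : ℤ, (ε = 1 ∨ ε = -1) ∧ ((-1 : ℝ) ^ i = ε) := by
  rcases Int.even_or_odd i with h | h
  · exact ⟨1, Or.inl rfl, by rw [h.neg_one_zpow]; norm_num⟩
  · exact ⟨-1, Or.inr rfl, by rw [h.neg_one_zpow]; norm_num⟩

theorem E2_Un (θ : V) {u : V} (h : u ∈ Un θ) : u ∈ Un (fun i => 1 - θ i) := by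
  obtain ⟨ε, i, j, hε, h⟩ := h
  obtain ⟨ε1, hε1, e1⟩ := E2_sgn i
  obtain ⟨ε2, hε2, e2⟩ := E2_sgn j
  refine ⟨ε * ε1 * ε2, j, i, ?_, fun k => ?_⟩
  · rcases hε with rfl | rfl <;> rcases hε1 with rfl | rfl <;> rcases hε2 with rfl | rfl <;> simp
  · rw [h k]
    have h1 : θ k = -1 * (1 - θ k - 1) := by ring
    have h2 : θ k - 1 = -1 * (1 - θ k) := by ring
    have h3 : θ k ^ i = (-1 : ℝ) ^ i * (1 - θ k - 1) ^ i := by
      conv_lhs => rw [h1]
      exact mul_zpow _ _ _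
    have h4 : (θ k - 1) ^ j = (-1 : ℝ) ^ j * (1 - θ k) ^ j := by
      rw [h2, mul_zpow]
    rw [h3, h4, e1, e2]
    push_cast
    ring

theorem E2_Un_eq (θ : V) : Un (fun i => 1 - θ i) = Un θ := by
  ext x
  refine ⟨fun h => ?_, E2_Un θ⟩
  have := E2_Un _ h
  rw [E2_invol] at this
  exact this

theorem E2_LH (θ : V) (v : V) (h : ℤ) (hv : LH θ v h) : LH (fun i => 1 - θ i) v h := by
  obtain ⟨u, hu, p, q, h1, h2⟩ := hv
  refine ⟨u, E2_Un θ hu, p - q, -q, fun i => ?_, ?_⟩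
  · rw [h1 i]
    push_cast
    ring
  · rw [← h2]
    have : H (p - q) (-q) = -H p q := by unfold H; ring
    rw [this, abs_neg]

theorem E2_Lam (θ : V) (d c : ℤ) {x : V} (hx : x ∈ Lam θ d c) :
    x ∈ Lam (fun i => 1 - θ i) d (1 - c) := by
  obtain ⟨h1, h2⟩ := hx
  refine ⟨E2_O θ h1, ?_⟩
  obtain ⟨a, b, e, h3⟩ := E2_O θ h2
  refine ⟨-a, -b, -e, fun i => ?_⟩
  have h4 : (θ i - c) * x i = a + b * (1 - θ i) + e * (1 - θ i) ^ 2 := h3 i
  have h5 : (1 - θ i - ((1 - c : ℤ) : ℝ)) * x i = -((θ i - c) * x i) := by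
    push_cast
    ring
  change (1 - θ i - ((1 - c : ℤ) : ℝ)) * x i = _
  rw [h5, h4]
  push_cast
  ring

theorem O_sub1 (F : Frame) : O (fun i => 1 - F.θ i) = O F.θ := E2_O_eq F.θ

theorem Un_sub1 (F : Frame) : Un (fun i => 1 - F.θ i) = Un F.θ := E2_Un_eq F.θ

theorem LH_sub1 (F : Frame) (v : V) (h : ℤ) :
    LH (fun i => 1 - F.θ i) v h ↔ LH F.θ v h := by
  refine ⟨fun hv => ?_, E2_LH F.θ v h⟩
  have := E2_LH _ v h hv
  rw [E2_invol] at this
  exact this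

theorem Lam_sub1 (F : Frame) (d c : ℤ) :
    Lam (fun i => 1 - F.θ i) d (1 - c) = Lam F.θ d c := by
  ext x
  refine ⟨fun h => ?_, E2_Lam F.θ d c⟩
  have := E2_Lam _ _ _ h
  rw [E2_invol, sub_sub_cancel] at this
  exact this

theorem am_sub1 (F : Frame) (x : V) (i : Fin 3) :
    am (fun i => 1 - F.θ i) x i = am F.θ x i := by
  have : fd (fun i => 1 - F.θ i) i = fd F.θ i := by
    unfold fd
    ring
  unfold am
  rw [this]

end Pool.Agent.Lib_helper72.GC
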