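import Pool.Agent.Lib_helper72.GC.W2

/-!
# GC, block K1: the module of a label
-/

set_option autoImplicit false

namespace Pool.Agent.Lib_helper72.GC

open Pool.Agent.Lib_helper83.CS

theorem k1_gen_h47 (F : Frame) {d c : ℤ} (h : IsLab F.s F.t F.n d c) :
    el F.s F.n F.θ d 1 c (c ^ 2) ∈ Lam F.θ d c :=
  el_Lam F h (by rw [mul_one, sub_self]; exact dvd_zero d) (by rw [pow_two, sub_self]; exact dvd_zero d)

theorem lin_Lam (F : Frame) {d c : ℤ} (h : IsLab F.s F.t F.n d c) (p q : ℤ) :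
    (∀ x ∈ Lam F.θ d c, (fun i => (p - q * F.θ i) * x i) ∈ O F.θ) ↔ d ∣ p - c * q := by
  have hd0 : (d : ℝ) ≠ 0 := by exact_mod_cast h.1.ne'
  constructor
  · intro hall
    obtain ⟨a, b, a2, hx⟩ := hall _ (k1_gen_h47 F h)
    have h1 := O_indep F (-(F.s : ℝ) * (p - q * c) - d * a)
      ((p : ℝ) * (c ^ 2 - F.n * c) + F.s * q + q * c * (F.n - 1 - F.s + F.t) - d * b)
      ((p : ℝ) * c - q * (c ^ 2 - F.n * c) - q * c * F.n - d * a2) (fun i => by
        have h2 := hx i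
        have h3 := F.root i
        change (p - q * F.θ i) * ((-F.s * ((1 : ℤ) : ℝ) + (((c ^ 2 : ℤ) : ℝ) - F.n * c) * F.θ i +
          c * F.θ i ^ 2) / d) = a + b * F.θ i + a2 * F.θ i ^ 2 at h2
        rw [mul_div_assoc', div_eq_iff hd0] at h2
        push_cast at h2
        linear_combination h2 + (q : ℝ) * c * h3)
    obtain ⟨h4, _, _⟩ := h1
    have h5 : -F.s * (p - q * c) - d * a = 0 := by exact_mod_cast h4
    rcases F.hs with hs | hs
    · rw [hs] at h5
      exact ⟨-a, by linear_combination -h5⟩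
    · rw [hs] at h5
      exact ⟨a, by linear_combination h5⟩
  · rintro ⟨k, hk⟩ x hx
    obtain ⟨hx1, hx2⟩ := hx
    have h1 := O_add (O_smul k hx1) (O_smul (-q) hx2)
    have h2 : (fun i => (p - q * F.θ i) * x i) =
        fun i => ((k : ℝ) * (d * x i)) + (((-q : ℤ) : ℝ) * ((F.θ i - c) * x i)) := by
      funext i
      have hk' : (p : ℝ) - c * q = d * k := by exact_mod_cast hk
      push_cast
      linear_combination x i * hk'
    rw [h2]
    exact h1

theorem k1_one_h47 (θ : V) : (fun _ => (1 : ℝ)) ∈ O θ := ⟨1, 0, 0, fun i => by simp⟩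

theorem prim_one (F : Frame) {d c : ℤ} (h : IsLab F.s F.t F.n d c) :
    Prim (Lam F.θ d c) (fun _ => 1) := by
  refine ⟨O_sub_Lam F (k1_one_h47 _), ?_⟩
  intro m y hy hm
  obtain ⟨_, a, b, a2, hb⟩ := hy
  have h1 := O_indep F (-(c : ℝ) - m * a) ((1 : ℝ) - m * b) (-(m : ℝ) * a2) (fun i => by
    have h2 := hb i
    have h3 := hm i
    change (F.θ i - c) * y i = a + b * F.θ i + a2 * F.θ i ^ 2 at h2
    change (1 : ℝ) = m * y i at h3
    linear_combination (m : ℝ) * h2 + (F.θ i - c) * h3)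
  have h4 : 1 - m * b = 0 := by exact_mod_cast h1.2.1
  have h5 : m * b = 1 := by linear_combination -h4
  exact Int.isUnit_iff.1 (IsUnit.of_mul_eq_one b h5)

/-- Rational numbers in `Lam` are integers. -/
theorem Lam_rat (F : Frame) {d c : ℤ} (h : IsLab F.s F.t F.n d c) {x : V}
    (hx : x ∈ Lam F.θ d c) {m r : ℤ} (hm : m ≠ 0) (hr : ∀ i, (m : ℝ) * x i = r) : m ∣ r := by
  obtain ⟨_, a, b, a2, hb⟩ := hx
  have h1 := O_indep F (-(c : ℝ) * r - m * a) ((r : ℝ) - m * b) (-(m : ℝ) * a2) (fun i => by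
    have h2 := hb i
    have h3 := hr i
    change (F.θ i - c) * x i = a + b * F.θ i + a2 * F.θ i ^ 2 at h2
    linear_combination (m : ℝ) * h2 - (F.θ i - c) * h3)
  have h4 : r - m * b = 0 := by exact_mod_cast h1.2.1
  exact ⟨b, by linear_combination h4⟩

theorem Lam_label (F : Frame) {d c c' : ℤ} (h : IsLab F.s F.t F.n d c)
    (h' : IsLab F.s F.t F.n d c') (he : Lam F.θ d c = Lam F.θ d c') : d ∣ c - c' := by
  have h1 := k1_gen_h47 F h
  rw [he] at h1
  obtain ⟨X, Z, X', h2, h3, _⟩ := Lam_el F h' h1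
  obtain ⟨e1, e2, _⟩ := el_inj F h.1.ne' h2
  rw [← e1, ← e2, mul_one] at h3
  exact h3

end Pool.Agent.Lib_helper72.GC
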