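import Pool.Agent.Lib_helper72.GC.W2

/-!
# GC, block K2: `RC_el`, `Prim_el`
-/

set_option autoImplicit false

namespace Pool.Agent.Lib_helper72.GC

open Pool.Agent.Lib_helper83.CS

/-- `el` is additive-linear in the triple. -/
theorem K2_lin_h88 (s n : ℤ) (θ : V) (d m X Z X' Y W Y' : ℤ) (i : Fin 3) :
    el s n θ d (Y - m * X) (W - m * Z) (Y' - m * X') i =
      el s n θ d Y W Y' i - m * el s n θ d X Z X' i := by
  unfold el
  push_cast
  ring

theorem K2_smul_h88 (s n : ℤ) (θ : V) (d m X Z X' : ℤ) (i : Fin 3) :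
    el s n θ d (m * X) (m * Z) (m * X') i = m * el s n θ d X Z X' i := by
  unfold el
  push_cast
  ring

theorem K2_theta_mem_h88 (θ : V) : θ ∈ O θ := ⟨0, 1, 0, fun i => by push_cast; ring⟩

theorem RC_el (G : Frame) {d c : ℤ} (hl : IsLab G.s G.t G.n d c) (X Z X' R : ℤ)
    (h1 : d ∣ Z - c * X) (h2 : d ∣ X' - c * Z) (hR : X * X' - Z ^ 2 = d * R)
    (hR0 : R ≠ 0) (hR4 : |R| ≤ 4) :
    RC G.θ (Lam G.θ d c) (el G.s G.n G.θ d X Z X') := by
  intro r hr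
  have hd0 : d ≠ 0 := hl.1.ne'
  obtain ⟨m, z, hz, hzi⟩ := hr G.θ (K2_theta_mem_h88 G.θ)
  obtain ⟨Y, W, Y', rfl, hY1, -⟩ := Lam_el G hl hz
  have key : el G.s G.n G.θ d (Z - m * X) (X' - m * Z)
      ((G.n * X' - (G.n - 1 - G.s + G.t) * Z - G.s * X) - m * X') =
      el G.s G.n G.θ d (r * Y) (r * W) (r * Y') := by
    funext i
    rw [K2_lin_h88, K2_smul_h88, ← el_theta G hd0, ← hzi i]
    ring
  obtain ⟨e1, e2, -⟩ := el_inj G hd0 key
  have e3 : r * (X * W - Z * Y) = d * R := by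
    rw [← hR]
    linear_combination -X * e2 + Z * e1
  have e4 : d ∣ X * W - Z * Y := by
    obtain ⟨a, ha⟩ := h1
    obtain ⟨b, hb⟩ := hY1
    exact ⟨X * b - Y * a, by linear_combination X * hb - Y * ha⟩
  obtain ⟨k, hk⟩ := e4
  have e5 : R = r * k := by
    have : d * R = d * (r * k) := by rw [← e3, hk]; ring
    exact mul_left_cancel₀ hd0 this
  have e6 : k ≠ 0 := by
    rintro rfl
    exact hR0 (by rw [e5]; ring)
  calc |r| = |r| * 1 := (mul_one _).symm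
    _ ≤ |r| * |k| := mul_le_mul_of_nonneg_left (Int.one_le_abs e6) (abs_nonneg _)
    _ = |R| := by rw [e5, abs_mul]
    _ ≤ 4 := hR4

/-- Primitivity depends on the triple only. -/
theorem Prim_el (F G : Frame) {d c : ℤ} (hF : IsLab F.s F.t F.n d c)
    (hG : IsLab G.s G.t G.n d c) (hs : F.s = G.s) (X Z X' : ℤ)
    (h : Prim (Lam F.θ d c) (el F.s F.n F.θ d X Z X')) :
    Prim (Lam G.θ d c) (el G.s G.n G.θ d X Z X') := by
  have hd0 : d ≠ 0 := hF.1.ne'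
  obtain ⟨h0, hp⟩ := h
  obtain ⟨Y, W, Y', hY, hY1, hY2⟩ := Lam_el F hF h0
  obtain ⟨rfl, rfl, rfl⟩ := el_inj F hd0 hY
  refine ⟨el_Lam G hG hY1 hY2, fun m y hy hxy => ?_⟩
  obtain ⟨Y, W, Y', rfl, hy1, hy2⟩ := Lam_el G hG hy
  have key : el G.s G.n G.θ d X Z X' = el G.s G.n G.θ d (m * Y) (m * W) (m * Y') := by
    funext i
    rw [K2_smul_h88]
    exact hxy i
  obtain ⟨rfl, rfl, rfl⟩ := el_inj G hd0 key
  exact hp m (el F.s F.n F.θ d Y W Y') (el_Lam F hF hy1 hy2) fun i => K2_smul_h88 _ _ _ _ _ _ _ _ i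

end Pool.Agent.Lib_helper72.GC
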