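import Pool.Agent.Lib_helper72.GC.W2

/-!
# GC, block K3: the identities (3)
-/

set_option autoImplicit false

namespace Pool.Agent.Lib_helper72.GC

open Pool.Agent.Lib_helper83.CS

theorem Nm_mul_h18 (x y : V) : Nm (fun i => x i * y i) = Nm x * Nm y := by
  simp only [Nm]
  ring

theorem ident (G : Frame) {d c : ℤ} (hl : IsLab G.s G.t G.n d c) (X Z X' R : ℤ)
    (h1 : d ∣ Z - c * X) (h2 : d ∣ X' - c * Z) (hR : X * X' - Z ^ 2 = d * R) :
    ∃ p : ℤ, d * p = Z * X' - G.n * Z ^ 2 + (G.n - 1 - G.s + G.t) * X * Z + G.s * X ^ 2 ∧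
      FF G.s G.t G.n Z X = d * (X * p - Z * R) ∧
      (∀ i, G.θ i * (p - R * G.θ i) = el G.s G.n G.θ d X Z X' i * (Z - X * G.θ i)) ∧
      (FF G.s G.t G.n p R : ℝ) =
        -G.s * d * Nm (el G.s G.n G.θ d X Z X') * (X * p - Z * R) := by
  obtain ⟨hd, hf⟩ := hl
  obtain ⟨u, hu⟩ := h1
  obtain ⟨v, hv⟩ := h2
  obtain ⟨w, hw⟩ := hf
  have hZ : Z = c * X + d * u := by linarith
  have hX' : X' = c * Z + d * v := by linarith
  obtain ⟨p, hp⟩ : d ∣ Z * X' - G.n * Z ^ 2 + (G.n - 1 - G.s + G.t) * X * Z + G.s * X ^ 2 := by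
    have hw' : c ^ 3 - G.n * c ^ 2 * 1 + (G.n - 1 - G.s + G.t) * c * 1 ^ 2 + G.s * 1 ^ 3 = d * w := hw
    refine ⟨Z * v + c * (2 * c * X * u + d * u ^ 2) - G.n * (2 * c * X * u + d * u ^ 2) +
      (G.n - 1 - G.s + G.t) * X * u + X ^ 2 * w, ?_⟩
    rw [hX', hZ]
    linear_combination X ^ 2 * hw'
  have e2 : FF G.s G.t G.n Z X = d * (X * p - Z * R) := by
    have : d * (X * p - Z * R) = X * (d * p) - Z * (d * R) := by ring
    rw [this, ← hp, ← hR, FF]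
    ring
  have hd0 : (d : ℝ) ≠ 0 := by
    have : (0 : ℝ) < d := by exact_mod_cast hd
    exact this.ne'
  have hpR : (d : ℝ) * p = Z * X' - G.n * Z ^ 2 + (G.n - 1 - G.s + G.t) * X * Z + G.s * X ^ 2 := by
    exact_mod_cast hp.symm
  have hRR : (X : ℝ) * X' - Z ^ 2 = d * R := by exact_mod_cast hR
  have e3 : ∀ i, G.θ i * (p - R * G.θ i) = el G.s G.n G.θ d X Z X' i * (Z - X * G.θ i) := by
    intro i
    have h3 := G.root i
    have h4 : (d : ℝ) * (G.θ i * (p - R * G.θ i)) =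
        (-G.s * X + (X' - G.n * Z) * G.θ i + Z * G.θ i ^ 2) * (Z - X * G.θ i) := by
      linear_combination G.θ i * hpR + G.θ i ^ 2 * hRR + (X : ℝ) * Z * h3
    have h5 : el G.s G.n G.θ d X Z X' i =
        (-G.s * X + (X' - G.n * Z) * G.θ i + Z * G.θ i ^ 2) / d := rfl
    rw [h5, div_mul_eq_mul_div, eq_div_iff hd0, ← h4]
    ring
  refine ⟨p, hp.symm, e2, e3, ?_⟩
  have hs2 : (G.s : ℝ) * G.s = 1 := by
    rcases G.hs with h | h <;> rw [h] <;> norm_num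
  have h6 : Nm (fun i => G.θ i * ((p : ℝ) - R * G.θ i)) =
      Nm (fun i => el G.s G.n G.θ d X Z X' i * (Z - X * G.θ i)) := by
    congr 1
    funext i
    exact e3 i
  rw [Nm_mul_h18 G.θ (fun i => (p : ℝ) - R * G.θ i),
    Nm_mul_h18 (el G.s G.n G.θ d X Z X') (fun i => (Z : ℝ) - X * G.θ i), Nm_lin, Nm_lin, e2] at h6
  have h7 : Nm G.θ = -G.s := by
    have h8 := Nm_lin G 0 (-1)
    have h9 : (fun i => ((0 : ℤ) : ℝ) - ((-1 : ℤ) : ℝ) * G.θ i) = G.θ := by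
      funext i
      push_cast
      ring
    rw [h9] at h8
    rw [h8, FF]
    push_cast
    ring
  rw [h7] at h6
  push_cast at h6
  linear_combination (-(G.s : ℝ)) * h6 - (FF G.s G.t G.n p R : ℝ) * hs2

end Pool.Agent.Lib_helper72.GC
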