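import Pool.Agent.Lib_helper72.GC.W2

/-!
# GC, block K4: the balanced lemma (and the sizes, and the Lagrange identities, used also in K5)
-/

set_option autoImplicit false

namespace Pool.Agent.Lib_helper72.GC

open Pool.Agent.Lib_helper83.CS

/-- The three roles. -/
theorem h25_perm (e : Equiv.Perm (Fin 3)) :
    ((e 0 + 1 = e 1 ∧ e 0 + 2 = e 2) ∨ (e 0 + 1 = e 2 ∧ e 0 + 2 = e 1)) ∧
    ((e 1 + 1 = e 0 ∧ e 1 + 2 = e 2) ∨ (e 1 + 1 = e 2 ∧ e 1 + 2 = e 0)) ∧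
    ((e 2 + 1 = e 0 ∧ e 2 + 2 = e 1) ∨ (e 2 + 1 = e 1 ∧ e 2 + 2 = e 0)) := by
  revert e
  decide

theorem h25_fd (θ : V) (e : Equiv.Perm (Fin 3)) :
    fd θ (e 0) = (θ (e 0) - θ (e 1)) * (θ (e 0) - θ (e 2)) ∧
    fd θ (e 1) = (θ (e 1) - θ (e 0)) * (θ (e 1) - θ (e 2)) ∧
    fd θ (e 2) = (θ (e 2) - θ (e 0)) * (θ (e 2) - θ (e 1)) := by
  obtain ⟨h0, h1, h2⟩ := h25_perm e
  refine ⟨?_, ?_, ?_⟩
  · rcases h0 with ⟨a, b⟩ | ⟨a, b⟩
    · unfold fd; rw [a, b]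
    · unfold fd; rw [a, b]; ring
  · rcases h1 with ⟨a, b⟩ | ⟨a, b⟩
    · unfold fd; rw [a, b]
    · unfold fd; rw [a, b]; ring
  · rcases h2 with ⟨a, b⟩ | ⟨a, b⟩
    · unfold fd; rw [a, b]
    · unfold fd; rw [a, b]; ring

/-- Every index is one of the three roles. -/
theorem h25_role (e : Equiv.Perm (Fin 3)) (i : Fin 3) : i = e 0 ∨ i = e 1 ∨ i = e 2 := by
  have h : ∀ (e : Equiv.Perm (Fin 3)) (i : Fin 3), i = e 0 ∨ i = e 1 ∨ i = e 2 := by decide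
  exact h e i

/-- Sizes of the roots. -/
theorem h25_size (F : Frame) (h : 10 ^ 20 ≤ |F.n|) :
    (10 : ℝ) ^ 20 ≤ |(F.n : ℝ)| ∧
    |(F.n : ℝ)| * (1 - 1 / 10 ^ 7) ≤ |F.θ (F.e 0)| ∧
    |F.θ (F.e 0)| ≤ |(F.n : ℝ)| * (1 + 1 / 10 ^ 7) ∧
    |(F.n : ℝ)| * (1 - 1 / 10 ^ 7) ≤ |F.θ (F.e 0) - 1| ∧
    |F.θ (F.e 0) - 1| ≤ |(F.n : ℝ)| * (1 + 1 / 10 ^ 7) ∧
    1 - 1 / 10 ^ 7 ≤ |F.θ (F.e 1)| * |(F.n : ℝ)| ∧
    |F.θ (F.e 1)| * |(F.n : ℝ)| ≤ 1 + 1 / 10 ^ 7 ∧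
    |F.θ (F.e 1)| ≤ 1 / 10 ^ 7 ∧
    1 - 1 / 10 ^ 7 ≤ |F.θ (F.e 1) - 1| ∧ |F.θ (F.e 1) - 1| ≤ 1 + 1 / 10 ^ 7 ∧
    1 - 1 / 10 ^ 7 ≤ |F.θ (F.e 2) - 1| * |(F.n : ℝ)| ∧
    |F.θ (F.e 2) - 1| * |(F.n : ℝ)| ≤ 1 + 1 / 10 ^ 7 ∧
    |F.θ (F.e 2) - 1| ≤ 1 / 10 ^ 7 ∧
    1 - 1 / 10 ^ 7 ≤ |F.θ (F.e 2)| ∧ |F.θ (F.e 2)| ≤ 1 + 1 / 10 ^ 7 := by
  obtain ⟨s1, s2, s3, s4, s5⟩ := sharp F
  have hν : (10 : ℝ) ^ 20 ≤ |(F.n : ℝ)| := by
    rw [← Int.cast_abs]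
    exact_mod_cast h
  set ν : ℝ := |(F.n : ℝ)| with hνd
  have hν0 : 0 < ν := lt_of_lt_of_le (by norm_num) hν
  have h10 : 10 / ν ≤ 1 / 10 ^ 7 := by
    rw [div_le_div_iff₀ hν0 (by norm_num)]
    linarith [hν]
  have h3 : 3 / ν ≤ 1 := by
    rw [div_le_one hν0]; linarith
  have hb1 : |F.θ (F.e 1)| ≤ 1 / 10 ^ 7 := by
    by_contra hc
    push Not at hc
    have := mul_le_mul hc.le hν (by positivity) (abs_nonneg _)
    linarith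
  have hb2 : |F.θ (F.e 2) - 1| ≤ 1 / 10 ^ 7 := by
    by_contra hc
    push Not at hc
    have := mul_le_mul hc.le hν (by positivity) (abs_nonneg _)
    linarith
  have ha1 : |F.θ (F.e 0)| ≤ ν + 2 := by
    have : F.θ (F.e 0) = (F.θ (F.e 0) - F.n + 1) + (F.n + (-1)) := by ring
    rw [this]
    calc |(F.θ (F.e 0) - F.n + 1) + (F.n + (-1))|
        ≤ |F.θ (F.e 0) - F.n + 1| + |(F.n : ℝ) + (-1)| := abs_add_le _ _
      _ ≤ 1 + (|(F.n : ℝ)| + |(-1 : ℝ)|) := by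
          gcongr
          · linarith
          · exact abs_add_le _ _
      _ = ν + 2 := by rw [abs_neg, abs_one]; ring
  have ha2 : ν - 2 ≤ |F.θ (F.e 0)| := by
    have : (F.n : ℝ) = F.θ (F.e 0) + (1 + -(F.θ (F.e 0) - F.n + 1)) := by ring
    have h2 : ν ≤ |F.θ (F.e 0)| + (|(1 : ℝ)| + |-(F.θ (F.e 0) - F.n + 1)|) := by
      rw [hνd, this]
      refine (abs_add_le _ _).trans ?_
      have h3 := abs_add_le (1 : ℝ) (-(F.θ (F.e 0) - F.n + 1))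
      have h4 : F.θ (F.e 0) - (F.θ (F.e 0) + (1 + -(F.θ (F.e 0) - F.n + 1))) + 1
        = F.θ (F.e 0) - F.n + 1 := by ring
      rw [h4]
      linarith
    rw [abs_neg, abs_one] at h2
    linarith
  have ha3 : |F.θ (F.e 0) - 1| ≤ |F.θ (F.e 0)| + 1 := by
    have := abs_sub (F.θ (F.e 0)) 1
    rwa [abs_one] at this
  have ha4 : |F.θ (F.e 0)| - 1 ≤ |F.θ (F.e 0) - 1| := by
    have := abs_sub_abs_le_abs_sub (F.θ (F.e 0)) 1
    rwa [abs_one] at this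
  have hc1 : |F.θ (F.e 1) - 1| ≤ 1 + |F.θ (F.e 1)| := by
    have := abs_sub (F.θ (F.e 1)) 1
    rw [abs_one] at this
    linarith
  have hc2 : 1 - |F.θ (F.e 1)| ≤ |F.θ (F.e 1) - 1| := by
    have := abs_sub_abs_le_abs_sub 1 (F.θ (F.e 1))
    rw [abs_one, abs_sub_comm] at this
    linarith
  have hg1 : |F.θ (F.e 2)| ≤ 1 + |F.θ (F.e 2) - 1| := by
    have := abs_add_le (F.θ (F.e 2) - 1) 1
    rw [abs_one, sub_add_cancel] at this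
    linarith
  have hg2 : 1 - |F.θ (F.e 2) - 1| ≤ |F.θ (F.e 2)| := by
    have := abs_sub_abs_le_abs_sub 1 (1 - F.θ (F.e 2))
    rw [abs_one, sub_sub_cancel, abs_sub_comm 1] at this
    linarith
  have hh : (10 : ℝ) ^ 20 = 10 ^ 7 * 10 ^ 13 := by norm_num
  refine ⟨hν, by linarith, by linarith, by linarith, by linarith, by linarith, by linarith, hb1,
    by linarith, by linarith, by linarith, by linarith, hb2, by linarith, by linarith⟩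

/-- Lagrange interpolation. -/
theorem h25_lag (F : Frame) {d : ℤ} (hd : d ≠ 0) (X Z X' : ℤ) :
    (∑ i, el F.s F.n F.θ d X Z X' i / fd F.θ i) = Z / d ∧
    (∑ i, el F.s F.n F.θ d X Z X' i / fd F.θ i / F.θ i) = X / d ∧
    (∑ i, el F.s F.n F.θ d X Z X' i / fd F.θ i * F.θ i) = X' / d := by
  have hd' : (d : ℝ) ≠ 0 := by exact_mod_cast hd
  obtain ⟨v1, v2, v3⟩ := vieta F
  obtain ⟨f0, f1, f2⟩ := h25_fd F.θ F.e
  have n0 := fd_ne F (F.e 0)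
  have n1 := fd_ne F (F.e 1)
  have n2 := fd_ne F (F.e 2)
  have t0 := (theta_ne F (F.e 0)).1
  have t1 := (theta_ne F (F.e 1)).1
  have t2 := (theta_ne F (F.e 2)).1
  rw [f0] at n0
  rw [f1] at n1
  rw [f2] at n2
  have a01 : F.θ (F.e 0) - F.θ (F.e 1) ≠ 0 := fun h => n0 (by rw [h]; ring)
  have a02 : F.θ (F.e 0) - F.θ (F.e 2) ≠ 0 := fun h => n0 (by rw [h]; ring)
  have a12 : F.θ (F.e 1) - F.θ (F.e 2) ≠ 0 := fun h => n1 (by rw [h]; ring)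
  have a10 : F.θ (F.e 1) - F.θ (F.e 0) ≠ 0 := fun h => n1 (by rw [h]; ring)
  have a20 : F.θ (F.e 2) - F.θ (F.e 0) ≠ 0 := fun h => n2 (by rw [h]; ring)
  have a21 : F.θ (F.e 2) - F.θ (F.e 1) ≠ 0 := fun h => n2 (by rw [h]; ring)
  have hs : (F.s : ℝ) = -(F.θ (F.e 0) * F.θ (F.e 1) * F.θ (F.e 2)) := by linarith
  have hsum : ∀ g : Fin 3 → ℝ, ∑ i, g i = g (F.e 0) + g (F.e 1) + g (F.e 2) := by
    intro g
    rw [← Equiv.sum_comp F.e g, Fin.sum_univ_three]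
  rw [hsum, hsum, hsum, f0, f1, f2]
  unfold el
  rw [hs, ← v1]
  generalize F.θ (F.e 0) = α at *
  generalize F.θ (F.e 1) = β at *
  generalize F.θ (F.e 2) = γ at *
  have b10 : β - α = -(α - β) := by ring
  have b20 : γ - α = -(α - γ) := by ring
  have b21 : γ - β = -(β - γ) := by ring
  rw [b10, b20, b21]
  refine ⟨?_, ?_, ?_⟩
  · field_simp
    ring
  · field_simp
    ring
  · field_simp
    ring

/-- The core real inequality for one role. -/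
theorem h25_core {ν p q r P Q R P' Q' R' : ℝ} (hν : 10 ^ 20 ≤ ν) (hp : 0 ≤ p) (hq : 0 ≤ q)
    (hr : 0 ≤ r) (hP : P ≤ ν * (1 + 1 / 10 ^ 6)) (hQ : Q ≤ 1 / 10 ^ 6) (hR : R ≤ 1 + 1 / 10 ^ 6)
    (hP' : P' ≤ ν * (1 + 1 / 10 ^ 6)) (hQ' : Q' ≤ 1 + 1 / 10 ^ 6) (hR' : R' ≤ 1 / 10 ^ 6)
    (h1 : p + q + r ≤ P * p + Q * q + R * r) (h2 : p + q + r ≤ P' * p + Q' * q + R' * r) :
    q ≤ 1.001 * ν * p ∧ r ≤ 1.001 * ν * p := by
  have e1 := mul_le_mul_of_nonneg_right hP hp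
  have e2 := mul_le_mul_of_nonneg_right hQ hq
  have e3 := mul_le_mul_of_nonneg_right hR hr
  have e4 := mul_le_mul_of_nonneg_right hP' hp
  have e5 := mul_le_mul_of_nonneg_right hQ' hq
  have e6 := mul_le_mul_of_nonneg_right hR' hr
  have e7 : 0 ≤ ν * p := by positivity
  rcases le_total q r with hqr | hqr
  · constructor <;> nlinarith
  · constructor <;> nlinarith

/-- Ratios of the sizes. -/
theorem h25_ratios {ν α β γ α' β' γ' : ℝ} (hν : 10 ^ 20 ≤ ν)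
    (za1 : ν * (1 - 1 / 10 ^ 7) ≤ α) (za2 : α ≤ ν * (1 + 1 / 10 ^ 7))
    (za3 : ν * (1 - 1 / 10 ^ 7) ≤ α') (za4 : α' ≤ ν * (1 + 1 / 10 ^ 7))
    (zb1 : 1 - 1 / 10 ^ 7 ≤ β * ν) (zb3 : β ≤ 1 / 10 ^ 7)
    (zb4 : 1 - 1 / 10 ^ 7 ≤ β') (zb5 : β' ≤ 1 + 1 / 10 ^ 7)
    (zc1 : 1 - 1 / 10 ^ 7 ≤ γ' * ν) (zc3 : γ' ≤ 1 / 10 ^ 7)
    (zc4 : 1 - 1 / 10 ^ 7 ≤ γ) (zc5 : γ ≤ 1 + 1 / 10 ^ 7) :
    α⁻¹ ≤ 1 / 10 ^ 7 ∧ α'⁻¹ ≤ 1 / 10 ^ 7 ∧ β⁻¹ ≤ ν * (1 + 2 / 10 ^ 7) ∧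
    γ'⁻¹ ≤ ν * (1 + 2 / 10 ^ 7) ∧ γ⁻¹ ≤ 1 + 2 / 10 ^ 7 ∧ β'⁻¹ ≤ 1 + 2 / 10 ^ 7 ∧
    α' * α⁻¹ ≤ 1 + 1 / 10 ^ 6 ∧ α * α'⁻¹ ≤ 1 + 1 / 10 ^ 6 ∧
    β' * β⁻¹ ≤ ν * (1 + 1 / 10 ^ 6) ∧ β * β'⁻¹ ≤ 1 / 10 ^ 6 ∧
    γ' * γ⁻¹ ≤ 1 / 10 ^ 6 ∧ γ * γ'⁻¹ ≤ ν * (1 + 1 / 10 ^ 6) := by
  have hν0 : 0 < ν := lt_of_lt_of_le (by norm_num) hν
  have pα : 0 < α := by linarith
  have pα' : 0 < α' := by linarith
  have pβ : 0 < β := by
    by_contra hc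
    push Not at hc
    have : β * ν ≤ 0 := mul_nonpos_of_nonpos_of_nonneg hc hν0.le
    linarith
  have pγ : 0 < γ := by linarith
  have pβ' : 0 < β' := by linarith
  have pγ' : 0 < γ' := by
    by_contra hc
    push Not at hc
    have : γ' * ν ≤ 0 := mul_nonpos_of_nonpos_of_nonneg hc hν0.le
    linarith
  have iβ : β⁻¹ ≤ ν * (1 + 2 / 10 ^ 7) := by
    rw [inv_le_iff_one_le_mul₀ pβ]
    have : ν * (1 + 2 / 10 ^ 7) * β = (β * ν) * (1 + 2 / 10 ^ 7) := by ring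
    rw [this]; linarith
  have iγ' : γ'⁻¹ ≤ ν * (1 + 2 / 10 ^ 7) := by
    rw [inv_le_iff_one_le_mul₀ pγ']
    have : ν * (1 + 2 / 10 ^ 7) * γ' = (γ' * ν) * (1 + 2 / 10 ^ 7) := by ring
    rw [this]; linarith
  refine ⟨?_, ?_, iβ, iγ', ?_, ?_, ?_, ?_, ?_, ?_, ?_, ?_⟩
  · rw [inv_le_comm₀ pα (by norm_num)]
    norm_num
    linarith
  · rw [inv_le_comm₀ pα' (by norm_num)]
    norm_num
    linarith
  · rw [inv_le_iff_one_le_mul₀ pγ]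
    linarith
  · rw [inv_le_iff_one_le_mul₀ pβ']
    linarith
  · rw [← div_eq_mul_inv, div_le_iff₀ pα]
    linarith
  · rw [← div_eq_mul_inv, div_le_iff₀ pα']
    linarith
  · have h1 : 0 < β⁻¹ := by positivity
    calc β' * β⁻¹ ≤ (1 + 1 / 10 ^ 7) * (ν * (1 + 2 / 10 ^ 7)) := by gcongr
      _ ≤ ν * (1 + 1 / 10 ^ 6) := by linarith
  · rw [← div_eq_mul_inv, div_le_iff₀ pβ']
    linarith
  · rw [← div_eq_mul_inv, div_le_iff₀ pγ]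
    linarith
  · have h1 : 0 < γ'⁻¹ := by positivity
    calc γ * γ'⁻¹ ≤ (1 + 1 / 10 ^ 7) * (ν * (1 + 2 / 10 ^ 7)) := by gcongr
      _ ≤ ν * (1 + 1 / 10 ^ 6) := by linarith

theorem balanced (F : Frame) (h : 10 ^ 20 ≤ |F.n|) {d c : ℤ} (hl : IsLab F.s F.t F.n d c) (x : V)
    (hx : x ∈ Lam F.θ d c) (h0 : ∀ i, x i ≠ 0) :
    ∃ u ∈ Un F.θ, ∀ i j, am F.θ (fun i => u i * x i) i ≤
      1.001 * |(F.n : ℝ)| * am F.θ (fun i => u i * x i) j := by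
  classical
  have hd0 : 0 < d := hl.1
  have hdr : (0 : ℝ) < d := by exact_mod_cast hd0
  obtain ⟨hν, za1, za2, za3, za4, zb1, zb2, zb3, zb4, zb5, zc1, zc2, zc3, zc4, zc5⟩ := h25_size F h
  set S : V → ℝ := fun y => ∑ i, am F.θ y i with hS
  have hamnn : ∀ (y : V) (i : Fin 3), 0 ≤ am F.θ y i := fun y i => abs_nonneg _
  have hS0 : ∀ y i, am F.θ y i ≤ S y := fun y i =>
    Finset.single_le_sum (f := fun i => am F.θ y i) (fun j _ => hamnn y j) (Finset.mem_univ i)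
  set S0 : ℝ := S x with hS0d
  have hS0nn : 0 ≤ S0 := Finset.sum_nonneg fun i _ => hamnn x i
  set C : ℝ := 1 + (∑ i, |F.θ i|) + ∑ i, |1 / F.θ i| with hC
  -- the finite set of triples
  set B : Set (ℤ × ℤ × ℤ) := {T | ∃ u ∈ Un F.θ,
    (fun i => u i * x i) = el F.s F.n F.θ d T.1 T.2.1 T.2.2 ∧
    S (el F.s F.n F.θ d T.1 T.2.1 T.2.2) ≤ S0} with hB
  have hC1 : ∀ i, |F.θ i| ≤ C := by
    intro i
    have h1 : |F.θ i| ≤ ∑ i, |F.θ i| :=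
      Finset.single_le_sum (f := fun i => |F.θ i|) (fun j _ => abs_nonneg _) (Finset.mem_univ i)
    have h2 : 0 ≤ ∑ i, |1 / F.θ i| := Finset.sum_nonneg fun i _ => abs_nonneg _
    rw [hC]; linarith
  have hC2 : ∀ i, |1 / F.θ i| ≤ C := by
    intro i
    have h1 : |1 / F.θ i| ≤ ∑ i, |1 / F.θ i| :=
      Finset.single_le_sum (f := fun i => |1 / F.θ i|) (fun j _ => abs_nonneg _)
        (Finset.mem_univ i)
    have h2 : 0 ≤ ∑ i, |F.θ i| := Finset.sum_nonneg fun i _ => abs_nonneg _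
    rw [hC]; linarith
  have hC0 : 1 ≤ C := by
    have h2 : 0 ≤ ∑ i, |F.θ i| := Finset.sum_nonneg fun i _ => abs_nonneg _
    have h3 : 0 ≤ ∑ i, |1 / F.θ i| := Finset.sum_nonneg fun i _ => abs_nonneg _
    rw [hC]; linarith
  have hbd : ∀ X Z X' : ℤ, S (el F.s F.n F.θ d X Z X') ≤ S0 →
      |(X : ℝ)| ≤ d * (C * S0) ∧ |(Z : ℝ)| ≤ d * (C * S0) ∧ |(X' : ℝ)| ≤ d * (C * S0) := by
    intro X Z X' hT
    obtain ⟨l1, l2, l3⟩ := h25_lag F hd0.ne' X Z X'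
    set y := el F.s F.n F.θ d X Z X' with hy
    have g1 : |∑ i, y i / fd F.θ i| ≤ S y := Finset.abs_sum_le_sum_abs _ _
    have g2 : |∑ i, y i / fd F.θ i / F.θ i| ≤ C * S y := by
      refine (Finset.abs_sum_le_sum_abs _ _).trans ?_
      rw [hS, Finset.mul_sum]
      refine Finset.sum_le_sum fun i _ => ?_
      have : y i / fd F.θ i / F.θ i = (1 / F.θ i) * (y i / fd F.θ i) := by ring
      rw [this, abs_mul]
      exact mul_le_mul_of_nonneg_right (hC2 i) (abs_nonneg _)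
    have g3 : |∑ i, y i / fd F.θ i * F.θ i| ≤ C * S y := by
      refine (Finset.abs_sum_le_sum_abs _ _).trans ?_
      rw [hS, Finset.mul_sum]
      refine Finset.sum_le_sum fun i _ => ?_
      rw [abs_mul, mul_comm]
      exact mul_le_mul_of_nonneg_right (hC1 i) (abs_nonneg _)
    have hSy : C * S y ≤ C * S0 := mul_le_mul_of_nonneg_left hT (by linarith)
    have hSy1 : S y ≤ C * S0 := by
      have : S0 ≤ C * S0 := by nlinarith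
      linarith
    rw [l1, abs_div, abs_of_pos hdr] at g1
    rw [l2, abs_div, abs_of_pos hdr] at g2
    rw [l3, abs_div, abs_of_pos hdr] at g3
    refine ⟨?_, ?_, ?_⟩
    · have := g2.trans hSy
      rwa [div_le_iff₀ hdr, mul_comm] at this
    · have := g1.trans hSy1
      rwa [div_le_iff₀ hdr, mul_comm] at this
    · have := g3.trans hSy
      rwa [div_le_iff₀ hdr, mul_comm] at this
  have hBfin : B.Finite := by
    set K : ℤ := ⌈(d : ℝ) * (C * S0)⌉ with hK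
    refine Set.Finite.subset (Set.finite_Icc ((-K, -K, -K) : ℤ × ℤ × ℤ) (K, K, K)) ?_
    rintro ⟨X, Z, X'⟩ ⟨u, -, -, hT⟩
    obtain ⟨b1, b2, b3⟩ := hbd X Z X' hT
    have key : ∀ W : ℤ, |(W : ℝ)| ≤ d * (C * S0) → -K ≤ W ∧ W ≤ K := by
      intro W hW
      have h1 : |(W : ℝ)| ≤ (K : ℝ) := hW.trans (Int.le_ceil _)
      have h2 : |W| ≤ K := by exact_mod_cast h1
      exact abs_le.mp h2
    obtain ⟨p1, p2⟩ := key X b1
    obtain ⟨q1, q2⟩ := key Z b2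
    obtain ⟨r1, r2⟩ := key X' b3
    exact ⟨⟨p1, q1, r1⟩, ⟨p2, q2, r2⟩⟩
  have hmemB : ∀ u ∈ Un F.θ, S (fun i => u i * x i) ≤ S0 → ∃ T ∈ B,
      (fun i => u i * x i) = el F.s F.n F.θ d T.1 T.2.1 T.2.2 := by
    intro u hu hle
    obtain ⟨X, Z, X', he, -, -⟩ := Lam_el F hl (Lam_mul F (Un_O F hu) hx)
    exact ⟨(X, Z, X'), ⟨u, hu, he, by rw [← he]; exact hle⟩, he⟩
  have hBne : B.Nonempty := by
    obtain ⟨T, hT, -⟩ := hmemB (fun _ => 1) (Un_one _) (by simp [hS0d])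
    exact ⟨T, hT⟩
  obtain ⟨T, ⟨u, hu, hue, huS⟩, hmin⟩ := Set.exists_min_image B
    (fun T => S (el F.s F.n F.θ d T.1 T.2.1 T.2.2)) hBfin hBne
  have hmin' : ∀ v ∈ Un F.θ, S (fun i => u i * x i) ≤ S (fun i => v i * x i) := by
    intro v hv
    by_cases hle : S (fun i => v i * x i) ≤ S0
    · obtain ⟨T', hT', he⟩ := hmemB v hv hle
      have := hmin T' hT'
      rw [he, hue]
      exact this
    · push Not at hle
      rw [hue]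
      exact huS.trans hle.le
  -- the six units
  have hsum : ∀ g : Fin 3 → ℝ, ∑ i, g i = g (F.e 0) + g (F.e 1) + g (F.e 2) := by
    intro g
    rw [← Equiv.sum_comp F.e g, Fin.sum_univ_three]
  set a : Fin 3 → ℝ := fun i => am F.θ (fun i => u i * x i) i with ha
  have hann : ∀ i, 0 ≤ a i := fun i => abs_nonneg _
  have hη : ∀ η ∈ Un F.θ, a (F.e 0) + a (F.e 1) + a (F.e 2) ≤
      |η (F.e 0)| * a (F.e 0) + |η (F.e 1)| * a (F.e 1) + |η (F.e 2)| * a (F.e 2) := by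
    intro η hη
    have h1 := hmin' (fun i => η i * u i) (Un_mul F hη hu)
    have h2 : S (fun i => η i * u i * x i) = ∑ i, |η i| * a i := by
      refine Finset.sum_congr rfl fun i _ => ?_
      show |η i * u i * x i / fd F.θ i| = |η i| * |u i * x i / fd F.θ i|
      rw [← abs_mul]; ring_nf
    rw [h2, hsum] at h1
    have h3 : S (fun i => u i * x i) = ∑ i, a i := rfl
    rw [h3, hsum] at h1
    exact h1
  have hθ := Un_theta F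
  have hθ1 : (fun i => F.θ i - 1) ∈ Un F.θ := ⟨1, 0, 1, Or.inl rfl, fun k => by simp⟩
  have hi := Un_inv F hθ
  have hi1 := Un_inv F hθ1
  have u1 := hη _ hθ
  have u2 := hη _ hθ1
  have u3 := hη _ hi
  have u4 := hη _ (Un_mul F hθ1 hi)
  have u5 := hη _ hi1
  have u6 := hη _ (Un_mul F hθ hi1)
  simp only [abs_mul, abs_inv] at u1 u2 u3 u4 u5 u6
  set ν : ℝ := |(F.n : ℝ)| with hνd
  have hν0 : 0 < ν := lt_of_lt_of_le (by norm_num) hν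
  obtain ⟨iα, iα', iβ, iγ', iγ, iβ', jα, jα', jβ, jβ', jγ, jγ'⟩ := h25_ratios hν za1 za2 za3 za4
    zb1 zb3 zb4 zb5 zc1 zc3 zc4 zc5
  clear hη hmin' hmemB hBfin hbd hmin hBne hC0 hC1 hC2 hue huS hS0 hS0nn hS0d
  generalize |F.θ (F.e 0)| = α at *
  generalize |F.θ (F.e 1)| = β at *
  generalize |F.θ (F.e 2)| = γ at *
  generalize |F.θ (F.e 0) - 1| = α' at *
  generalize |F.θ (F.e 1) - 1| = β' at *
  generalize |F.θ (F.e 2) - 1| = γ' at *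
  have n0 := hann (F.e 0)
  have n1 := hann (F.e 1)
  have n2 := hann (F.e 2)
  obtain ⟨r01, r02⟩ := h25_core hν n0 n1 n2 (P := α) (Q := β) (R := γ) (P' := α') (Q' := β')
    (R' := γ') (by linarith) (by linarith) (by linarith) (by linarith) (by linarith) (by linarith)
    u1 u2
  obtain ⟨r10, r12⟩ := h25_core hν n1 n0 n2 (P := β⁻¹) (Q := α⁻¹) (R := γ⁻¹)
    (P' := β' * β⁻¹) (Q' := α' * α⁻¹) (R' := γ' * γ⁻¹) (by linarith) (by linarith) (by linarith) (by linarith)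
    (by linarith) (by linarith) (by linarith) (by linarith)
  obtain ⟨r20, r21⟩ := h25_core hν n2 n0 n1 (P := γ'⁻¹) (Q := α'⁻¹) (R := β'⁻¹)
    (P' := γ * γ'⁻¹) (Q' := α * α'⁻¹) (R' := β * β'⁻¹) (by linarith) (by linarith) (by linarith)
    (by linarith) (by linarith) (by linarith) (by linarith) (by linarith)
  have hself : ∀ i, a i ≤ 1.001 * ν * a i := by
    intro i
    have := hann i
    nlinarith
  refine ⟨u, hu, fun i j => ?_⟩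
  show a i ≤ 1.001 * ν * a j
  rcases h25_role F.e i with rfl | rfl | rfl <;> rcases h25_role F.e j with rfl | rfl | rfl
  · exact hself _
  · exact r10
  · exact r20
  · exact r01
  · exact hself _
  · exact r21
  · exact r02
  · exact r12
  · exact hself _

end Pool.Agent.Lib_helper72.GC
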