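import Pool.Agent.Lib_helper72.GC.W2

/-!
# GC, block K5: the analysis at N
-/

set_option autoImplicit false

namespace Pool.Agent.Lib_helper72.GC

open Pool.Agent.Lib_helper83.CS

/-- The three roles. -/
theorem h25b_perm (e : Equiv.Perm (Fin 3)) :
    ((e 0 + 1 = e 1 ∧ e 0 + 2 = e 2) ∨ (e 0 + 1 = e 2 ∧ e 0 + 2 = e 1)) ∧
    ((e 1 + 1 = e 0 ∧ e 1 + 2 = e 2) ∨ (e 1 + 1 = e 2 ∧ e 1 + 2 = e 0)) ∧
    ((e 2 + 1 = e 0 ∧ e 2 + 2 = e 1) ∨ (e 2 + 1 = e 1 ∧ e 2 + 2 = e 0)) := by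
  revert e
  decide

theorem h25b_fd (θ : V) (e : Equiv.Perm (Fin 3)) :
    fd θ (e 0) = (θ (e 0) - θ (e 1)) * (θ (e 0) - θ (e 2)) ∧
    fd θ (e 1) = (θ (e 1) - θ (e 0)) * (θ (e 1) - θ (e 2)) ∧
    fd θ (e 2) = (θ (e 2) - θ (e 0)) * (θ (e 2) - θ (e 1)) := by
  obtain ⟨h0, h1, h2⟩ := h25b_perm e
  refine ⟨?_, ?_, ?_⟩
  · rcases h0 with ⟨a, b⟩ | ⟨a, b⟩
    · unfold fd; rw [a, b]
    · unfold fd; rw [a, b]; ring
  · rcases h1 with ⟨a, b⟩ | ⟨a, b⟩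
    · unfold fd; rw [a, b]
    · unfold fd; rw [a, b]; ring
  · rcases h2 with ⟨a, b⟩ | ⟨a, b⟩
    · unfold fd; rw [a, b]
    · unfold fd; rw [a, b]; ring

/-- Every index is one of the three roles. -/
theorem h25b_role (e : Equiv.Perm (Fin 3)) (i : Fin 3) : i = e 0 ∨ i = e 1 ∨ i = e 2 := by
  have h : ∀ (e : Equiv.Perm (Fin 3)) (i : Fin 3), i = e 0 ∨ i = e 1 ∨ i = e 2 := by decide
  exact h e i

/-- Sizes of the roots. -/
theorem h25b_size (F : Frame) (h : 10 ^ 20 ≤ |F.n|) :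
    (10 : ℝ) ^ 20 ≤ |(F.n : ℝ)| ∧
    |(F.n : ℝ)| * (1 - 1 / 10 ^ 7) ≤ |F.θ (F.e 0)| ∧
    |F.θ (F.e 0)| ≤ |(F.n : ℝ)| * (1 + 1 / 10 ^ 7) ∧
    |(F.n : ℝ)| * (1 - 1 / 10 ^ 7) ≤ |F.θ (F.e 0) - 1| ∧
    |F.θ (F.e 0) - 1| ≤ |(F.n : ℝ)| * (1 + 1 / 10 ^ 7) ∧
    1 - 1 / 10 ^ 7 ≤ |F.θ (F.e 1)| * |(F.n : ℝ)| ∧
    |F.θ (F.e 1)| * |(F.n : ℝ)| ≤ 1 + 1 / 10 ^ 7 ∧
    |F.θ (F.e 1)| ≤ 1 / 10 ^ 7 ∧
    1 - 1 / 10 ^ 7 ≤ |F.θ (F.e 1) - 1| ∧ |F.θ (F.e 1) - 1| ≤ 1 + 1 / 10 ^ 7 ∧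
    1 - 1 / 10 ^ 7 ≤ |F.θ (F.e 2) - 1| * |(F.n : ℝ)| ∧
    |F.θ (F.e 2) - 1| * |(F.n : ℝ)| ≤ 1 + 1 / 10 ^ 7 ∧
    |F.θ (F.e 2) - 1| ≤ 1 / 10 ^ 7 ∧
    1 - 1 / 10 ^ 7 ≤ |F.θ (F.e 2)| ∧ |F.θ (F.e 2)| ≤ 1 + 1 / 10 ^ 7 := by
  obtain ⟨s1, s2, s3, s4, s5⟩ := sharp F
  have hν : (10 : ℝ) ^ 20 ≤ |(F.n : ℝ)| := by
    rw [← Int.cast_abs]
    exact_mod_cast h
  set ν : ℝ := |(F.n : ℝ)| with hνd
  have hν0 : 0 < ν := lt_of_lt_of_le (by norm_num) hν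
  have h10 : 10 / ν ≤ 1 / 10 ^ 7 := by
    rw [div_le_div_iff₀ hν0 (by norm_num)]
    linarith [hν]
  have h3 : 3 / ν ≤ 1 := by
    rw [div_le_one hν0]; linarith
  have hb1 : |F.θ (F.e 1)| ≤ 1 / 10 ^ 7 := by
    by_contra hc
    push Not at hc
    have := mul_le_mul hc.le hν (by positivity) (abs_nonneg _)
    linarith
  have hb2 : |F.θ (F.e 2) - 1| ≤ 1 / 10 ^ 7 := by
    by_contra hc
    push Not at hc
    have := mul_le_mul hc.le hν (by positivity) (abs_nonneg _)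
    linarith
  have ha1 : |F.θ (F.e 0)| ≤ ν + 2 := by
    have : F.θ (F.e 0) = (F.θ (F.e 0) - F.n + 1) + (F.n + (-1)) := by ring
    rw [this]
    calc |(F.θ (F.e 0) - F.n + 1) + (F.n + (-1))|
        ≤ |F.θ (F.e 0) - F.n + 1| + |(F.n : ℝ) + (-1)| := abs_add_le _ _
      _ ≤ 1 + (|(F.n : ℝ)| + |(-1 : ℝ)|) := by
          gcongr
          · linarith
          · exact abs_add_le _ _
      _ = ν + 2 := by rw [abs_neg, abs_one]; ring
  have ha2 : ν - 2 ≤ |F.θ (F.e 0)| := by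
    have : (F.n : ℝ) = F.θ (F.e 0) + (1 + -(F.θ (F.e 0) - F.n + 1)) := by ring
    have h2 : ν ≤ |F.θ (F.e 0)| + (|(1 : ℝ)| + |-(F.θ (F.e 0) - F.n + 1)|) := by
      rw [hνd, this]
      refine (abs_add_le _ _).trans ?_
      have h3 := abs_add_le (1 : ℝ) (-(F.θ (F.e 0) - F.n + 1))
      have h4 : F.θ (F.e 0) - (F.θ (F.e 0) + (1 + -(F.θ (F.e 0) - F.n + 1))) + 1
        = F.θ (F.e 0) - F.n + 1 := by ring
      rw [h4]
      linarith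
    rw [abs_neg, abs_one] at h2
    linarith
  have ha3 : |F.θ (F.e 0) - 1| ≤ |F.θ (F.e 0)| + 1 := by
    have := abs_sub (F.θ (F.e 0)) 1
    rwa [abs_one] at this
  have ha4 : |F.θ (F.e 0)| - 1 ≤ |F.θ (F.e 0) - 1| := by
    have := abs_sub_abs_le_abs_sub (F.θ (F.e 0)) 1
    rwa [abs_one] at this
  have hc1 : |F.θ (F.e 1) - 1| ≤ 1 + |F.θ (F.e 1)| := by
    have := abs_sub (F.θ (F.e 1)) 1
    rw [abs_one] at this
    linarith
  have hc2 : 1 - |F.θ (F.e 1)| ≤ |F.θ (F.e 1) - 1| := by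
    have := abs_sub_abs_le_abs_sub 1 (F.θ (F.e 1))
    rw [abs_one, abs_sub_comm] at this
    linarith
  have hg1 : |F.θ (F.e 2)| ≤ 1 + |F.θ (F.e 2) - 1| := by
    have := abs_add_le (F.θ (F.e 2) - 1) 1
    rw [abs_one, sub_add_cancel] at this
    linarith
  have hg2 : 1 - |F.θ (F.e 2) - 1| ≤ |F.θ (F.e 2)| := by
    have := abs_sub_abs_le_abs_sub 1 (1 - F.θ (F.e 2))
    rw [abs_one, sub_sub_cancel, abs_sub_comm 1] at this
    linarith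
  have hh : (10 : ℝ) ^ 20 = 10 ^ 7 * 10 ^ 13 := by norm_num
  refine ⟨hν, by linarith, by linarith, by linarith, by linarith, by linarith, by linarith, hb1,
    by linarith, by linarith, by linarith, by linarith, hb2, by linarith, by linarith⟩

/-- Lagrange interpolation. -/
theorem h25b_lag (F : Frame) {d : ℤ} (hd : d ≠ 0) (X Z X' : ℤ) :
    (∑ i, el F.s F.n F.θ d X Z X' i / fd F.θ i) = Z / d ∧
    (∑ i, el F.s F.n F.θ d X Z X' i / fd F.θ i / F.θ i) = X / d ∧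
    (∑ i, el F.s F.n F.θ d X Z X' i / fd F.θ i * F.θ i) = X' / d := by
  have hd' : (d : ℝ) ≠ 0 := by exact_mod_cast hd
  obtain ⟨v1, v2, v3⟩ := vieta F
  obtain ⟨f0, f1, f2⟩ := h25b_fd F.θ F.e
  have n0 := fd_ne F (F.e 0)
  have n1 := fd_ne F (F.e 1)
  have n2 := fd_ne F (F.e 2)
  have t0 := (theta_ne F (F.e 0)).1
  have t1 := (theta_ne F (F.e 1)).1
  have t2 := (theta_ne F (F.e 2)).1
  rw [f0] at n0
  rw [f1] at n1
  rw [f2] at n2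
  have a01 : F.θ (F.e 0) - F.θ (F.e 1) ≠ 0 := fun h => n0 (by rw [h]; ring)
  have a02 : F.θ (F.e 0) - F.θ (F.e 2) ≠ 0 := fun h => n0 (by rw [h]; ring)
  have a12 : F.θ (F.e 1) - F.θ (F.e 2) ≠ 0 := fun h => n1 (by rw [h]; ring)
  have a10 : F.θ (F.e 1) - F.θ (F.e 0) ≠ 0 := fun h => n1 (by rw [h]; ring)
  have a20 : F.θ (F.e 2) - F.θ (F.e 0) ≠ 0 := fun h => n2 (by rw [h]; ring)
  have a21 : F.θ (F.e 2) - F.θ (F.e 1) ≠ 0 := fun h => n2 (by rw [h]; ring)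
  have hs : (F.s : ℝ) = -(F.θ (F.e 0) * F.θ (F.e 1) * F.θ (F.e 2)) := by linarith
  have hsum : ∀ g : Fin 3 → ℝ, ∑ i, g i = g (F.e 0) + g (F.e 1) + g (F.e 2) := by
    intro g
    rw [← Equiv.sum_comp F.e g, Fin.sum_univ_three]
  rw [hsum, hsum, hsum, f0, f1, f2]
  unfold el
  rw [hs, ← v1]
  generalize F.θ (F.e 0) = α at *
  generalize F.θ (F.e 1) = β at *
  generalize F.θ (F.e 2) = γ at *
  have b10 : β - α = -(α - β) := by ring
  have b20 : γ - α = -(α - γ) := by ring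
  have b21 : γ - β = -(β - γ) := by ring
  rw [b10, b20, b21]
  refine ⟨?_, ?_, ?_⟩
  · field_simp
    ring
  · field_simp
    ring
  · field_simp
    ring

/-- The quadratic identity. -/
theorem h25b_quad {n a b c α β γ x z w : ℝ} (hα : α ≠ 0) (hβ : β ≠ 0) (hγ : γ ≠ 0)
    (hz : n * z = a + b + c) (hx : n * x = a / α + b / β + c / γ)
    (hw : n * w = a * α + b * β + c * γ) :
    n ^ 2 * (x * w - z ^ 2) = a * b * ((α - β) ^ 2 / (α * β)) + a * c * ((α - γ) ^ 2 / (α * γ))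
      + b * c * ((β - γ) ^ 2 / (β * γ)) := by
  have : n ^ 2 * (x * w - z ^ 2) = (n * x) * (n * w) - (n * z) ^ 2 := by ring
  rw [this, hx, hw, hz]
  field_simp
  ring

/-- Bounds of the three quotients. -/
theorem h25b_quot {ν α β γ : ℝ} (hν : 10 ^ 20 ≤ ν)
    (za1 : ν * (1 - 1 / 10 ^ 7) ≤ |α|) (za2 : |α| ≤ ν * (1 + 1 / 10 ^ 7))
    (zb1 : 1 - 1 / 10 ^ 7 ≤ |β| * ν) (zb3 : |β| ≤ 1 / 10 ^ 7)
    (zc4 : 1 - 1 / 10 ^ 7 ≤ |γ|) (zc5 : |γ| ≤ 1 + 1 / 10 ^ 7) :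
    |(α - β) ^ 2 / (α * β)| ≤ ν ^ 2 * (1 + 1 / 10 ^ 6) ∧
    |(α - γ) ^ 2 / (α * γ)| ≤ ν * (1 + 1 / 10 ^ 6) ∧
    |(β - γ) ^ 2 / (β * γ)| ≤ ν * (1 + 1 / 10 ^ 6) := by
  have hν0 : 0 < ν := lt_of_lt_of_le (by norm_num) hν
  have hν2 : 0 < ν ^ 2 := by positivity
  have pα : 0 < |α| := by linarith
  have pβ : 0 < |β| := by
    rcases (abs_nonneg β).lt_or_eq with hc | hc
    · exact hc
    · rw [← hc] at zb1; linarith
  have pγ : 0 < |γ| := by linarith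
  have d1 : |α - β| ≤ ν * (1 + 2 / 10 ^ 7) := by
    have := abs_sub α β
    linarith
  have d2 : |α - γ| ≤ ν * (1 + 2 / 10 ^ 7) := by
    have := abs_sub α γ
    linarith
  have d3 : |β - γ| ≤ 1 + 2 / 10 ^ 7 := by
    have := abs_sub β γ
    linarith
  refine ⟨?_, ?_, ?_⟩
  · rw [abs_div, abs_pow, abs_mul, div_le_iff₀ (by positivity)]
    calc |α - β| ^ 2 ≤ (ν * (1 + 2 / 10 ^ 7)) ^ 2 := by gcongr
      _ = ν ^ 2 * (1 + 2 / 10 ^ 7) ^ 2 := by ring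
      _ ≤ ν ^ 2 * ((1 + 1 / 10 ^ 6) * ((1 - 1 / 10 ^ 7) * (1 - 1 / 10 ^ 7))) := by
          gcongr; norm_num
      _ = (1 + 1 / 10 ^ 6) * ν * ((ν * (1 - 1 / 10 ^ 7)) * (1 - 1 / 10 ^ 7)) := by ring
      _ ≤ (1 + 1 / 10 ^ 6) * ν * (|α| * (|β| * ν)) := by
          gcongr
      _ = ν ^ 2 * (1 + 1 / 10 ^ 6) * (|α| * |β|) := by ring
  · rw [abs_div, abs_pow, abs_mul, div_le_iff₀ (by positivity)]
    calc |α - γ| ^ 2 ≤ (ν * (1 + 2 / 10 ^ 7)) ^ 2 := by gcongr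
      _ = ν ^ 2 * (1 + 2 / 10 ^ 7) ^ 2 := by ring
      _ ≤ ν ^ 2 * ((1 + 1 / 10 ^ 6) * ((1 - 1 / 10 ^ 7) * (1 - 1 / 10 ^ 7))) := by
          gcongr; norm_num
      _ = (1 + 1 / 10 ^ 6) * ν * ((ν * (1 - 1 / 10 ^ 7)) * (1 - 1 / 10 ^ 7)) := by ring
      _ ≤ (1 + 1 / 10 ^ 6) * ν * (|α| * |γ|) := by
          gcongr
      _ = ν * (1 + 1 / 10 ^ 6) * (|α| * |γ|) := by ring
  · rw [abs_div, abs_pow, abs_mul, div_le_iff₀ (by positivity)]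
    calc |β - γ| ^ 2 ≤ (1 + 2 / 10 ^ 7) ^ 2 := by gcongr
      _ ≤ (1 + 1 / 10 ^ 6) * ((1 - 1 / 10 ^ 7) * (1 - 1 / 10 ^ 7)) := by norm_num
      _ ≤ (1 + 1 / 10 ^ 6) * ((|β| * ν) * |γ|) := by
          gcongr
      _ = ν * (1 + 1 / 10 ^ 6) * (|β| * |γ|) := by ring

/-- The first round of inequalities. `B1, B2, B3` are the sizes (big, near 0, near 1). -/
theorem h25b_round1 {ν d B1 B2 B3 r z : ℝ} (hν : 10 ^ 20 ≤ ν) (hd : 0 < d)
    (h2 : 0 ≤ B2) (h21 : B2 ≤ B1) (h13 : B1 ≤ B3) (h32 : B3 ≤ 1.01 * ν * B2)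
    (hP : B1 * B2 * B3 ≤ 4.502 * d * ν) (hr : 1 ≤ r)
    (hR : d * r ≤ (1 + 1 / 10 ^ 6) * (B1 * B2 + B1 * B3 / ν + B2 * B3 / ν))
    (hz : ν * z ≤ B1 + B2 + B3) :
    B3 ≤ 14 * ν ∧ z ≤ 42 := by
  have hν0 : 0 < ν := lt_of_lt_of_le (by norm_num) hν
  have hB3 : 0 < B3 := by
    rcases (h2.trans (h21.trans h13)).lt_or_eq with hc | hc
    · exact hc
    · exfalso
      have e1 : B1 = 0 := by linarith
      rw [← hc, e1] at hR
      have : 0 < d * r := by positivity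
      simp at hR
      linarith
  have k1 : B1 * B3 / ν * B3 ≤ 1.01 * (B1 * B2 * B3) := by
    rw [div_mul_eq_mul_div, div_le_iff₀ hν0]
    have : B1 * B3 * B3 ≤ B1 * B3 * (1.01 * ν * B2) := by
      apply mul_le_mul_of_nonneg_left h32
      exact mul_nonneg (h2.trans h21) hB3.le
    calc B1 * B3 * B3 ≤ B1 * B3 * (1.01 * ν * B2) := this
      _ = 1.01 * (B1 * B2 * B3) * ν := by ring
  have k2 : B2 * B3 / ν * B3 ≤ 1.01 * (B1 * B2 * B3) := by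
    refine le_trans ?_ k1
    gcongr
  have k3 : d * r * B3 ≤ 14 * ν * d := by
    have h1 : d * r * B3 ≤ (1 + 1 / 10 ^ 6) * (B1 * B2 + B1 * B3 / ν + B2 * B3 / ν) * B3 := by
      gcongr
    have h2 : (1 + 1 / 10 ^ 6) * (B1 * B2 + B1 * B3 / ν + B2 * B3 / ν) * B3
        = (1 + 1 / 10 ^ 6) * (B1 * B2 * B3 + B1 * B3 / ν * B3 + B2 * B3 / ν * B3) := by ring
    have h3 : B1 * B2 * B3 + B1 * B3 / ν * B3 + B2 * B3 / ν * B3 ≤ 3.02 * (4.502 * d * ν) := by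
      linarith
    have h4 : 0 < d * ν := by positivity
    linarith
  have k4 : B3 ≤ 14 * ν := by
    have h1 : d * B3 ≤ d * (14 * ν) := by
      have : d * B3 ≤ d * r * B3 := by
        have : d * 1 * B3 ≤ d * r * B3 := by gcongr
        linarith
      linarith
    exact le_of_mul_le_mul_left h1 hd
  refine ⟨k4, ?_⟩
  have h5 : ν * z ≤ ν * 42 := by linarith
  exact le_of_mul_le_mul_left h5 hν0

/-- The second round. -/
theorem h25b_round2 {ν d B1 B2 B3 r z x : ℝ} (hν : 10 ^ 20 ≤ ν) (hd : 10 ^ 20 ≤ d)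
    (hd' : d ≤ 1.51 * ν)
    (h2 : 0 ≤ B2) (h21 : B2 ≤ B1) (h13 : B1 ≤ B3)
    (hP : B1 * B2 * B3 ≤ 4.502 * d * ν) (hr : 1 ≤ r) (hz1 : 1 ≤ z)
    (hR : d * r ≤ (1 + 1 / 10 ^ 6) * (B1 * B2 + B1 * B3 / ν + B2 * B3 / ν))
    (hz : ν * z ≤ B1 + B2 + B3) (h14 : B3 ≤ 14 * ν) (hx : 1500 ≤ x)
    (hxb : x ≤ (1 + 1 / 10 ^ 6) * (B2 + 15)) :
    z * r < 5 ∧ x ^ 2 ≤ 6 * d := by
  have hν0 : 0 < ν := lt_of_lt_of_le (by norm_num) hν
  have hd0 : 0 < d := lt_of_lt_of_le (by norm_num) hd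
  have hB2 : 1480 ≤ B2 := by
    by_contra hc
    push Not at hc
    linarith
  have hB1 : 1480 ≤ B1 := by linarith
  have hB3 : 0 < B3 := by linarith
  have hB12 : 0 < B1 * B2 := by positivity
  have hB3ν : B3 / ν ≤ 14 := by rwa [div_le_iff₀ hν0]
  have hB3ν0 : 0 ≤ B3 / ν := by positivity
  have m1 : B1 * B3 / ν ≤ 0.0095 * (B1 * B2) := by
    have : B1 * B3 / ν = B1 * (B3 / ν) := by ring
    rw [this]
    have h3 : B3 / ν ≤ 0.0095 * B2 := by linarith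
    calc B1 * (B3 / ν) ≤ B1 * (0.0095 * B2) := by gcongr
      _ = 0.0095 * (B1 * B2) := by ring
  have m2 : B2 * B3 / ν ≤ 0.0095 * (B1 * B2) := by
    have : B2 * B3 / ν = B2 * (B3 / ν) := by ring
    rw [this]
    have h3 : B3 / ν ≤ 0.0095 * B1 := by linarith
    calc B2 * (B3 / ν) ≤ B2 * (0.0095 * B1) := by gcongr
      _ = 0.0095 * (B1 * B2) := by ring
  have hR2 : d * r ≤ 1.0191 * (B1 * B2) := by linarith
  have k1 : B3 * r ≤ 4.6 * ν := by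
    have h1 : d * (B3 * r) ≤ d * (4.6 * ν) := by
      calc d * (B3 * r) = d * r * B3 := by ring
        _ ≤ 1.0191 * (B1 * B2) * B3 := by gcongr
        _ = 1.0191 * (B1 * B2 * B3) := by ring
        _ ≤ 1.0191 * (4.502 * d * ν) := by gcongr
        _ ≤ d * (4.6 * ν) := by
          have : 0 < d * ν := by positivity
          linarith
    exact le_of_mul_le_mul_left h1 hd0
  have k2 : ν ≤ 3 * B3 := by
    have : ν * 1 ≤ ν * z := by gcongr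
    linarith
  have k3 : B1 * B2 ≤ 13.6 * d := by
    have h1 : B1 * B2 * ν ≤ 13.6 * d * ν := by
      have : B1 * B2 * ν ≤ B1 * B2 * (3 * B3) := by gcongr
      have h5 : 0 < d * ν := by positivity
      linarith
    exact le_of_mul_le_mul_right h1 hν0
  have k4 : B1 ≤ 0.0139 * ν := by
    have h1 : B1 * 1480 ≤ B1 * B2 := by gcongr
    linarith
  have k5 : B2 ≤ 1 / 10 ^ 6 * ν := by
    by_contra hc
    push Not at hc
    have h1 : (1 / 10 ^ 6 * ν) * (1 / 10 ^ 6 * ν) ≤ B1 * B2 := by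
      have : 0 ≤ 1 / 10 ^ 6 * ν := by positivity
      have h3 : 1 / 10 ^ 6 * ν ≤ B1 := by linarith
      exact mul_le_mul h3 hc.le this (by linarith)
    have h2 : (1 / 10 ^ 6 * ν) * (1 / 10 ^ 6 * ν) = 1 / 10 ^ 12 * ν * ν := by ring
    have h3 : 1 / 10 ^ 12 * ν * ν ≥ 1 / 10 ^ 12 * ν * 10 ^ 20 := by gcongr
    have h4 : 1 / 10 ^ 12 * ν * 10 ^ 20 = 10 ^ 8 * ν := by ring
    rw [h2] at h1
    linarith
  have k6 : ν * z ≤ 1.0418 * B3 := by linarith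
  constructor
  · have h1 : ν * (z * r) < ν * 5 := by
      calc ν * (z * r) = ν * z * r := by ring
        _ ≤ 1.0418 * B3 * r := by gcongr
        _ = 1.0418 * (B3 * r) := by ring
        _ ≤ 1.0418 * (4.6 * ν) := by gcongr
        _ < ν * 5 := by linarith
    exact lt_of_mul_lt_mul_left h1 hν0.le
  · have h0 : 0.9598 * ν ≤ B3 := by
      have : ν * 1 ≤ ν * z := by gcongr
      linarith
    have h1 : B1 * B2 ≤ 4.75 * d := by
      have h2 : B1 * B2 * (0.9598 * ν) ≤ B1 * B2 * B3 := by gcongr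
      have h3 : B1 * B2 * ν ≤ 4.75 * d * ν := by
        have : 0 < d * ν := by positivity
        linarith
      exact le_of_mul_le_mul_right h3 hν0
    have h2 : B2 * B2 ≤ 4.75 * d := by
      have : B2 * B2 ≤ B1 * B2 := by gcongr
      linarith
    have h3 : x ≤ 1.011 * B2 := by linarith
    calc x ^ 2 ≤ (1.011 * B2) ^ 2 := by gcongr
      _ = 1.022121 * (B2 * B2) := by ring
      _ ≤ 6 * d := by linarith

theorem NAn (F : Frame) (hn : 10 ^ 20 ≤ |F.n|) {d c : ℤ} (hl : IsLab F.s F.t F.n d c)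
    (hd : 10 ^ 20 ≤ d) (hd' : (d : ℝ) ≤ 1.51 * |(F.n : ℝ)|)
    (hII : ∀ p q : ℤ, d ∣ p - c * q → |H p q| ≤ H0 → H p q = 0)
    (X Z X' R : ℤ) (h1 : d ∣ Z - c * X) (h2 : d ∣ X' - c * Z) (hR : X * X' - Z ^ 2 = d * R)
    (hZ0 : Z ≠ 0) (hR0 : R ≠ 0)
    (hK : (d : ℝ) ^ 2 * |Nm (el F.s F.n F.θ d X Z X')| ≤ 4.501 * (F.n : ℝ) ^ 2)
    (hbal : ∀ i j, am F.θ (el F.s F.n F.θ d X Z X') i ≤
      1.01 * |(F.n : ℝ)| * am F.θ (el F.s F.n F.θ d X Z X') j)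
    (hs1 : am F.θ (el F.s F.n F.θ d X Z X') (F.e 1) ≤ am F.θ (el F.s F.n F.θ d X Z X') (F.e 0))
    (hs2 : am F.θ (el F.s F.n F.θ d X Z X') (F.e 0) ≤ am F.θ (el F.s F.n F.θ d X Z X') (F.e 2)) :
    |Z * R| ≤ 4 ∧ X ^ 2 ≤ 6 * d ∧ 1500 ≤ |X| := by
  have hd0 : 0 < d := lt_of_lt_of_le (by norm_num) hd
  have hdr : (0 : ℝ) < d := by exact_mod_cast hd0
  have hdR : (10 : ℝ) ^ 20 ≤ d := by exact_mod_cast hd
  obtain ⟨hν, za1, za2, -, -, zb1, zb2, zb3, -, -, zc1, zc2, zc3, zc4, zc5⟩ := h25b_size F hn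
  obtain ⟨l1, l2, l3⟩ := h25b_lag F hd0.ne' X Z X'
  obtain ⟨g1, g2⟩ := am_prod F hn (el F.s F.n F.θ d X Z X') |> fun h => And.intro h h
  clear g2
  have hprod := g1
  set y := el F.s F.n F.θ d X Z X' with hy
  set ν : ℝ := |(F.n : ℝ)| with hνd
  have hν0 : 0 < ν := lt_of_lt_of_le (by norm_num) hν
  have hsum : ∀ g : Fin 3 → ℝ, ∑ i, g i = g (F.e 0) + g (F.e 1) + g (F.e 2) := by
    intro g
    rw [← Equiv.sum_comp F.e g, Fin.sum_univ_three]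
  rw [hsum] at l1 l2 l3
  have t0 := (theta_ne F (F.e 0)).1
  have t1 := (theta_ne F (F.e 1)).1
  have t2 := (theta_ne F (F.e 2)).1
  set a0 := am F.θ y (F.e 0) with ha0
  set a1 := am F.θ y (F.e 1) with ha1
  set a2 := am F.θ y (F.e 2) with ha2
  have e0 : a0 = |y (F.e 0) / fd F.θ (F.e 0)| := rfl
  have e1 : a1 = |y (F.e 1) / fd F.θ (F.e 1)| := rfl
  have e2 : a2 = |y (F.e 2) / fd F.θ (F.e 2)| := rfl
  obtain ⟨q1, q2, q3⟩ := h25b_quot hν za1 za2 zb1 zb3 zc4 zc5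
  have hNm : 0 ≤ |Nm y| := abs_nonneg _
  have hnn : (F.n : ℝ) ^ 2 = ν ^ 2 := by rw [hνd, sq_abs]
  have b32 := hbal (F.e 2) (F.e 1)
  rw [← ha2, ← ha1] at b32
  rw [hnn] at hK
  clear_value a0 a1 a2
  generalize y (F.e 0) / fd F.θ (F.e 0) = u0 at *
  generalize y (F.e 1) / fd F.θ (F.e 1) = u1 at *
  generalize y (F.e 2) / fd F.θ (F.e 2) = u2 at *
  generalize Nm y = NN at *
  clear_value y
  clear hy ha0 ha1 ha2 hbal
  generalize F.θ (F.e 0) = α at *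
  generalize F.θ (F.e 1) = β at *
  generalize F.θ (F.e 2) = γ at *
  have hn0 : (F.n : ℝ) ≠ 0 := by
    intro h
    rw [hνd, h, abs_zero] at hν0
    exact lt_irrefl _ hν0
  -- the b_i
  set B1 := ν * d * a0 with hB1
  set B2 := ν * d * a1 with hB2
  set B3 := ν * d * a2 with hB3
  have ab0 : |(F.n : ℝ) * d * u0| = B1 := by
    rw [abs_mul, abs_mul, abs_of_pos hdr, ← e0]
  have ab1 : |(F.n : ℝ) * d * u1| = B2 := by
    rw [abs_mul, abs_mul, abs_of_pos hdr, ← e1]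
  have ab2 : |(F.n : ℝ) * d * u2| = B3 := by
    rw [abs_mul, abs_mul, abs_of_pos hdr, ← e2]
  have hνd0 : 0 < ν * d := by positivity
  have a1nn : 0 ≤ a1 := by rw [e1]; exact abs_nonneg _
  have c2 : 0 ≤ B2 := mul_nonneg hνd0.le a1nn
  have c21 : B2 ≤ B1 := mul_le_mul_of_nonneg_left hs1 hνd0.le
  have c13 : B1 ≤ B3 := mul_le_mul_of_nonneg_left hs2 hνd0.le
  have c32 : B3 ≤ 1.01 * ν * B2 := by
    calc B3 = ν * d * a2 := hB3
      _ ≤ ν * d * (1.01 * ν * a1) := mul_le_mul_of_nonneg_left b32 hνd0.le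
      _ = 1.01 * ν * B2 := by rw [hB2]; ring
  have cP : B1 * B2 * B3 ≤ 4.502 * d * ν := by
    have i1 : B1 * B2 * B3 * ν = (a0 * a1 * a2 * ν ^ 4) * d ^ 3 := by
      rw [hB1, hB2, hB3]; ring
    have i2 : (a0 * a1 * a2 * ν ^ 4) * d ^ 3 ≤ (1.0001 * |NN|) * d ^ 3 := by gcongr
    have i3 : (1.0001 * |NN|) * d ^ 3 = 1.0001 * (d ^ 2 * |NN|) * d := by ring
    have i4 : 1.0001 * ((d : ℝ) ^ 2 * |NN|) * d ≤ 1.0001 * (4.501 * ν ^ 2) * d := by gcongr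
    have i5 : 1.0001 * (4.501 * ν ^ 2) * d ≤ (4.502 * d * ν) * ν := by
      have : 0 < d * ν ^ 2 := by positivity
      nlinarith
    have i6 : B1 * B2 * B3 * ν ≤ (4.502 * d * ν) * ν := by
      rw [i1]
      refine i2.trans ?_
      rw [i3]
      exact i4.trans i5
    exact le_of_mul_le_mul_right i6 hν0
  -- the three linear identities
  have z1 : (F.n : ℝ) * Z = F.n * d * u0 + F.n * d * u1 + F.n * d * u2 := by
    have : (Z : ℝ) = d * (Z / d) := by field_simp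
    rw [this, ← l1]; ring
  have z2 : (F.n : ℝ) * X = F.n * d * u0 / α + F.n * d * u1 / β + F.n * d * u2 / γ := by
    have : (X : ℝ) = d * (X / d) := by field_simp
    rw [this, ← l2]; ring
  have z3 : (F.n : ℝ) * X' = F.n * d * u0 * α + F.n * d * u1 * β + F.n * d * u2 * γ := by
    have : (X' : ℝ) = d * (X' / d) := by field_simp
    rw [this, ← l3]; ring
  have z4 := h25b_quad t0 t1 t2 z1 z2 z3
  have hRr : (X : ℝ) * X' - (Z : ℝ) ^ 2 = d * R := by exact_mod_cast hR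
  rw [hRr] at z4
  generalize (F.n : ℝ) * d * u0 = v0 at *
  generalize (F.n : ℝ) * d * u1 = v1 at *
  generalize (F.n : ℝ) * d * u2 = v2 at *
  have cR : d * |(R : ℝ)| ≤ (1 + 1 / 10 ^ 6) * (B1 * B2 + B1 * B3 / ν + B2 * B3 / ν) := by
    have j1 : ν ^ 2 * (d * |(R : ℝ)|) ≤
        B1 * B2 * (ν ^ 2 * (1 + 1 / 10 ^ 6)) + B1 * B3 * (ν * (1 + 1 / 10 ^ 6))
          + B2 * B3 * (ν * (1 + 1 / 10 ^ 6)) := by
      have j2 : ν ^ 2 * (d * |(R : ℝ)|) = |(F.n : ℝ) ^ 2 * (d * R)| := by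
        rw [abs_mul, abs_mul, abs_of_pos hdr, abs_pow]
      rw [j2, z4]
      refine (abs_add_three _ _ _).trans ?_
      rw [abs_mul, abs_mul, abs_mul (v0 * v2), abs_mul v0 v2, abs_mul (v1 * v2), abs_mul v1 v2,
        ab0, ab1, ab2]
      have p1 : 0 ≤ B1 * B2 := mul_nonneg (by linarith) c2
      have p2 : 0 ≤ B1 * B3 := mul_nonneg (by linarith) (by linarith)
      have p3 : 0 ≤ B2 * B3 := mul_nonneg c2 (by linarith)
      gcongr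
    have j3 : B1 * B2 * (ν ^ 2 * (1 + 1 / 10 ^ 6)) + B1 * B3 * (ν * (1 + 1 / 10 ^ 6))
          + B2 * B3 * (ν * (1 + 1 / 10 ^ 6))
        = ν ^ 2 * ((1 + 1 / 10 ^ 6) * (B1 * B2 + B1 * B3 / ν + B2 * B3 / ν)) := by
      field_simp
    rw [j3] at j1
    exact le_of_mul_le_mul_left j1 (by positivity)
  have cZ : ν * |(Z : ℝ)| ≤ B1 + B2 + B3 := by
    have : ν * |(Z : ℝ)| = |(F.n : ℝ) * Z| := by rw [abs_mul]
    rw [this, z1]
    refine (abs_add_three _ _ _).trans ?_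
    rw [ab0, ab1, ab2]
  have hRabs : (1 : ℝ) ≤ |(R : ℝ)| := by exact_mod_cast Int.one_le_abs hR0
  have hZabs : (1 : ℝ) ≤ |(Z : ℝ)| := by exact_mod_cast Int.one_le_abs hZ0
  obtain ⟨w1, w2⟩ := h25b_round1 hν hdr c2 c21 c13 c32 cP hRabs cR cZ
  have cX : |(X : ℝ)| ≤ (1 + 1 / 10 ^ 6) * (B2 + 15) := by
    have j2 : ν * |(X : ℝ)| = |(F.n : ℝ) * X| := by rw [abs_mul]
    have j3 : |v0 / α| ≤ B1 / ν * (1 + 2 / 10 ^ 7) := by
      rw [abs_div, ab0, div_le_iff₀ (by linarith)]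
      have : B1 = B1 / ν * ν := by field_simp
      have p : 0 ≤ B1 / ν := by
        have : 0 ≤ B1 := by linarith
        positivity
      calc B1 = B1 / ν * ν := this
        _ ≤ B1 / ν * ((1 + 2 / 10 ^ 7) * (ν * (1 - 1 / 10 ^ 7))) := by
            gcongr
            linarith
        _ ≤ B1 / ν * ((1 + 2 / 10 ^ 7) * |α|) := by gcongr
        _ = B1 / ν * (1 + 2 / 10 ^ 7) * |α| := by ring
    have j4 : |v1 / β| ≤ ν * B2 * (1 + 2 / 10 ^ 7) := by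
      have pβ : 0 < |β| := abs_pos.mpr t1
      rw [abs_div, ab1, div_le_iff₀ pβ]
      calc B2 = B2 * 1 := by ring
        _ ≤ B2 * ((1 + 2 / 10 ^ 7) * (|β| * ν)) := by
            gcongr
            linarith
        _ = ν * B2 * (1 + 2 / 10 ^ 7) * |β| := by ring
    have j5 : |v2 / γ| ≤ B3 * (1 + 2 / 10 ^ 7) := by
      rw [abs_div, ab2, div_le_iff₀ (by linarith)]
      have p : 0 ≤ B3 := by linarith
      calc B3 = B3 * 1 := by ring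
        _ ≤ B3 * ((1 + 2 / 10 ^ 7) * |γ|) := by
            gcongr
            linarith
        _ = B3 * (1 + 2 / 10 ^ 7) * |γ| := by ring
    have j6 : B1 / ν ≤ 14 := by
      rw [div_le_iff₀ hν0]
      linarith
    have j7 : ν * |(X : ℝ)| ≤ ν * ((1 + 1 / 10 ^ 6) * (B2 + 15)) := by
      rw [j2, z2]
      refine (abs_add_three _ _ _).trans ?_
      have p2 : 0 ≤ ν * B2 := by positivity
      linarith
    exact le_of_mul_le_mul_left j7 hν0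
  -- invariant (II)
  have hX1 : 1500 ≤ |X| := by
    by_contra hc
    push Not at hc
    have hZ42 : |Z| ≤ 42 := by exact_mod_cast w2
    have hH : |H Z X| ≤ H0 := by
      have e : H Z X = Z * X * (Z - X) := rfl
      rw [e, abs_mul, abs_mul]
      have : |Z - X| ≤ |Z| + |X| := abs_sub _ _
      unfold H0
      calc |Z| * |X| * |Z - X| ≤ 42 * 1500 * (42 + 1500) := by
            gcongr
            linarith
        _ ≤ 10 ^ 8 := by norm_num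
    have hH0 := hII Z X h1 hH
    obtain ⟨m1, -⟩ := H_zero_dvd F.hs F.ht hl hH0 h1
    have := Int.le_of_dvd (abs_pos.mpr hZ0) ((dvd_abs d Z).mpr m1)
    linarith
  have hX1r : (1500 : ℝ) ≤ |(X : ℝ)| := by exact_mod_cast hX1
  obtain ⟨k1, k2⟩ := h25b_round2 hν hdR hd' c2 c21 c13 cP hRabs hZabs cR cZ w1 hX1r cX
  refine ⟨?_, ?_, hX1⟩
  · have : |(Z : ℝ) * R| < 5 := by rw [abs_mul]; exact k1
    have h5 : |Z * R| < 5 := by exact_mod_cast this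
    omega
  · rw [sq_abs] at k2
    exact_mod_cast k2

end Pool.Agent.Lib_helper72.GC
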