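import Pool.Agent.Lib_helper72.GC.W2

/-!
# GC block K6: section 4.7
-/

set_option autoImplicit false

namespace Pool.Agent.Lib_helper72.GC

open Pool.Agent.Lib_helper83.CS

theorem step47 (G : Frame) (p R Z X : ℤ) (D : ℝ) (hR0 : R ≠ 0) (hR4 : |R| ≤ 4)
    (he : X * p - Z * R ≠ 0) (hD : 5 ≤ |D|)
    (hF : (FF G.s G.t G.n p R : ℝ) = D * (X * p - Z * R))
    {z : V} (hz : z ∈ O G.θ) (h : ∀ i, Z - X * G.θ i = (p - R * G.θ i) * z i) : False := by
  obtain ⟨g, hg⟩ : ∃ g : ℤ, g = (Int.gcd p R : ℤ) := ⟨_, rfl⟩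
  have hg0 : 0 < g := by
    rw [hg]
    exact_mod_cast Int.gcd_pos_of_ne_zero_right p hR0
  have hgR : g ∣ R := by rw [hg]; exact Int.gcd_dvd_right _ _
  have hgp : g ∣ p := by rw [hg]; exact Int.gcd_dvd_left _ _
  have hg4 : g ≤ 4 := by
    have h1 : |g| ≤ |R| := by
      have := Int.le_of_dvd (abs_pos.2 hR0) ((dvd_abs _ _).2 ((abs_dvd _ _).2 hgR))
      exact this
    rw [abs_of_pos hg0] at h1
    exact h1.trans hR4
  obtain ⟨p1, hp1⟩ := hgp
  obtain ⟨R1, hR1⟩ := hgR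
  have hcop : IsCoprime p1 R1 := by
    rw [Int.isCoprime_iff_gcd_eq_one]
    have h1 : Int.gcd p R = g.natAbs * Int.gcd p1 R1 := by
      rw [hp1, hR1, Int.gcd_mul_left]
    have h2 : g.natAbs = Int.gcd p R := by rw [hg]; simp
    rw [h2] at h1
    have h3 : 0 < Int.gcd p R := Int.gcd_pos_of_ne_zero_right p hR0
    exact (Nat.eq_of_mul_eq_mul_left h3 (by rw [mul_one]; exact h1)).symm
  -- the product `w' z` is in the order
  have hwz : (fun i => ((p1 : ℝ) - R1 * G.θ i) * z i) ∈ O G.θ := O_mul G (O_lin p1 R1) hz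
  obtain ⟨a, b, c, habc⟩ := hwz
  have hgR' : (g : ℝ) ≠ 0 := by exact_mod_cast hg0.ne'
  have hind := O_indep G ((g : ℝ) * a - Z) ((g : ℝ) * b + X) ((g : ℝ) * c) (by
    intro i
    have h1 := habc i
    have h2 := h i
    rw [hp1, hR1] at h2
    push_cast at h2
    simp only at h1
    linear_combination (-(g : ℝ)) * h1 - h2)
  have hZ : Z = g * a := by
    have := hind.1
    have h1 : (Z : ℝ) = g * a := by linarith
    exact_mod_cast h1
  have hX : X = -(g * b) := by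
    have := hind.2.1
    have h1 : (X : ℝ) = -(g * b) := by linarith
    exact_mod_cast h1
  have hc0 : (c : ℝ) = 0 := by
    rcases mul_eq_zero.1 hind.2.2 with h1 | h1
    · exact absurd h1 hgR'
    · exact h1
  -- the integer `m = R1 a + b p1`
  have hy : (fun i => (R1 : ℝ) * z i + (b : ℝ)) ∈ O G.θ := by
    have h1 := O_add (O_smul R1 hz) (O_lin (θ := G.θ) b 0)
    obtain ⟨a', b', c', h'⟩ := h1
    refine ⟨a', b', c', fun i => ?_⟩
    rw [← h' i]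
    push_cast
    ring
  have hm : FF G.s G.t G.n p1 R1 ∣ R1 * a + b * p1 := by
    refine lin_O_int G p1 R1 (R1 * a + b * p1) hcop hy fun i => ?_
    have h1 := habc i
    simp only at h1
    rw [hc0] at h1
    push_cast
    linear_combination (-(R1 : ℝ)) * h1
  have he1 : X * p - Z * R = -(g ^ 2 * (R1 * a + b * p1)) := by
    rw [hX, hZ, hp1, hR1]
    ring
  have hm0 : R1 * a + b * p1 ≠ 0 := by
    intro h0
    apply he
    rw [he1, h0]
    ring
  have hle : |FF G.s G.t G.n p1 R1| ≤ |R1 * a + b * p1| :=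
    Int.le_of_dvd (abs_pos.2 hm0) ((dvd_abs _ _).2 ((abs_dvd _ _).2 hm))
  have hF3 : FF G.s G.t G.n p R = g ^ 3 * FF G.s G.t G.n p1 R1 := by
    rw [hp1, hR1]
    unfold FF
    ring
  have hleR : |(FF G.s G.t G.n p1 R1 : ℝ)| ≤ |((R1 * a + b * p1 : ℤ) : ℝ)| := by
    exact_mod_cast hle
  have hFR : (g : ℝ) ^ 3 * |(FF G.s G.t G.n p1 R1 : ℝ)| =
      |D| * ((g : ℝ) ^ 2 * |((R1 * a + b * p1 : ℤ) : ℝ)|) := by
    have h1 : |(FF G.s G.t G.n p R : ℝ)| = |D| * |((X * p - Z * R : ℤ) : ℝ)| := by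
      rw [hF, abs_mul]
      push_cast
      rfl
    have h2 : |(FF G.s G.t G.n p R : ℝ)| = (g : ℝ) ^ 3 * |(FF G.s G.t G.n p1 R1 : ℝ)| := by
      rw [hF3]
      push_cast
      rw [abs_mul, abs_pow, abs_of_pos (show (0 : ℝ) < g by exact_mod_cast hg0)]
    have h3 : |((X * p - Z * R : ℤ) : ℝ)| = (g : ℝ) ^ 2 * |((R1 * a + b * p1 : ℤ) : ℝ)| := by
      rw [he1]
      push_cast
      rw [abs_neg, abs_mul, abs_pow, abs_of_pos (show (0 : ℝ) < g by exact_mod_cast hg0)]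
    rw [← h2, h1, h3]
  have hgR0 : (0 : ℝ) < g := by exact_mod_cast hg0
  have hgR4 : (g : ℝ) ≤ 4 := by exact_mod_cast hg4
  have hmR : 0 < |((R1 * a + b * p1 : ℤ) : ℝ)| := by
    rw [abs_pos]
    exact_mod_cast hm0
  set m := |((R1 * a + b * p1 : ℤ) : ℝ)| with hmdef
  have h1 : 5 * ((g : ℝ) ^ 2 * m) ≤ (g : ℝ) ^ 3 * m := by
    calc 5 * ((g : ℝ) ^ 2 * m) ≤ |D| * ((g : ℝ) ^ 2 * m) :=
          mul_le_mul_of_nonneg_right hD (by positivity)
      _ = (g : ℝ) ^ 3 * |(FF G.s G.t G.n p1 R1 : ℝ)| := hFR.symm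
      _ ≤ (g : ℝ) ^ 3 * m := mul_le_mul_of_nonneg_left hleR (by positivity)
  have h2 : (5 : ℝ) ≤ g := by
    have h3 : 0 < (g : ℝ) ^ 2 * m := by positivity
    have h4 : 5 * ((g : ℝ) ^ 2 * m) ≤ g * ((g : ℝ) ^ 2 * m) := by
      calc 5 * ((g : ℝ) ^ 2 * m) ≤ (g : ℝ) ^ 3 * m := h1
        _ = g * ((g : ℝ) ^ 2 * m) := by ring
    exact le_of_mul_le_mul_right h4 h3
  linarith

end Pool.Agent.Lib_helper72.GC
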