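import Pool.Agent.Lib_helper72.GC.DefsM

/-!
# GC block L1: the inequalities of 4.3 and 4.4
-/

set_option autoImplicit false

namespace Pool.Agent.Lib_helper72.GC

open Pool.Agent.Lib_helper83.CS

theorem L1_abs_le_h5 {Z R : ℤ} (hZR : |Z * R| ≤ 4) (hR0 : R ≠ 0) : |Z| ≤ 4 := by
  have h1 : 1 ≤ |R| := Int.one_le_abs hR0
  rw [abs_mul] at hZR
  nlinarith [abs_nonneg Z]

theorem ineq43 (s t n d X Z X' R p : ℤ) (hs : s = 1 ∨ s = -1) (ht : t = 1 ∨ t = -1)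
    (hn : 10 ^ 20 ≤ |n|) (hd : 2.99 * |(n : ℝ)| ≤ d)
    (hR : X * X' - Z ^ 2 = d * R)
    (hp : d * p = Z * X' - n * Z ^ 2 + (n - 1 - s + t) * X * Z + s * X ^ 2)
    (hZR : |Z * R| ≤ 4) (hZ0 : Z ≠ 0) (hR0 : R ≠ 0) (hX2 : X ^ 2 ≤ 6 * d) (hX : 1500 ≤ |X|) :
    |(p : ℝ)| ≤ 13 + 1.02 * |(n : ℝ)| * |(Z : ℝ)| * |(X : ℝ)| / d := by
  have hnR : (10 : ℝ) ^ 20 ≤ |(n : ℝ)| := by exact_mod_cast hn
  have hdR : (0 : ℝ) < d := by nlinarith
  have hZ4 : |(Z : ℝ)| ≤ 4 := by exact_mod_cast L1_abs_le_h5 hZR hR0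
  have hZ1 : 1 ≤ |(Z : ℝ)| := by exact_mod_cast Int.one_le_abs hZ0
  have hXR : (1500 : ℝ) ≤ |(X : ℝ)| := by exact_mod_cast hX
  have hX2R : |(X : ℝ)| ^ 2 ≤ 6 * d := by
    rw [sq_abs]
    exact_mod_cast hX2
  have hZRR : |(Z : ℝ)| * |(R : ℝ)| ≤ 4 := by
    rw [← abs_mul]
    exact_mod_cast hZR
  have hRR : (X : ℝ) * X' - (Z : ℝ) ^ 2 = d * R := by exact_mod_cast hR
  have hpR : (d : ℝ) * p = Z * X' - n * (Z : ℝ) ^ 2 + (n - 1 - s + t) * X * Z + s * (X : ℝ) ^ 2 := by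
    exact_mod_cast hp
  set z := |(Z : ℝ)| with hz
  set x := |(X : ℝ)| with hx
  set N := |(n : ℝ)| with hN
  have hx0 : 0 < x := by linarith
  have hN0 : 0 < N := by linarith
  -- bound of `Z X'`
  have h1 : |(Z : ℝ) * X'| ≤ 0.01 * d := by
    have e : (X : ℝ) * (Z * X') = Z * (d * R + (Z : ℝ) ^ 2) := by linear_combination (Z : ℝ) * hRR
    have e2 : x * |(Z : ℝ) * X'| ≤ 4 * d + 64 := by
      rw [hx, ← abs_mul, e]
      have e3 : (Z : ℝ) * (d * R + (Z : ℝ) ^ 2) = d * (Z * R) + (Z : ℝ) ^ 3 := by ring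
      rw [e3]
      refine (abs_add_le _ _).trans ?_
      rw [abs_mul, abs_mul, abs_pow, abs_of_pos hdR]
      have e4 : z ^ 3 ≤ 4 ^ 3 := pow_le_pow_left₀ (abs_nonneg _) hZ4 3
      nlinarith
    have e5 : 1500 * |(Z : ℝ) * X'| ≤ x * |(Z : ℝ) * X'| :=
      mul_le_mul_of_nonneg_right hXR (abs_nonneg _)
    have hdbig : (10 : ℝ) ^ 20 ≤ d := by linarith
    nlinarith
  -- bound of `n Z^2`
  have h2 : |(n : ℝ) * (Z : ℝ) ^ 2| ≤ 0.003 * (N * z * x) := by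
    rw [abs_mul, abs_pow]
    have e : z ^ 2 ≤ 0.003 * (z * x) := by nlinarith
    calc N * z ^ 2 ≤ N * (0.003 * (z * x)) := mul_le_mul_of_nonneg_left e hN0.le
      _ = 0.003 * (N * z * x) := by ring
  have h3 : |((n : ℝ) - 1 - s + t) * X * Z| ≤ 1.001 * (N * z * x) := by
    rw [abs_mul, abs_mul]
    have e : |(n : ℝ) - 1 - s + t| ≤ 1.001 * N := by
      have e1 : |(n : ℝ) - 1 - s + t| ≤ N + 3 := by
        have es : |(s : ℝ)| = 1 := by
          rcases hs with rfl | rfl <;> simp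
        have et : |(t : ℝ)| = 1 := by
          rcases ht with rfl | rfl <;> simp
        have e2 : (n : ℝ) - 1 - s + t = n + (-1) + (-s) + t := by ring
        rw [e2]
        refine (abs_add_le _ _).trans ?_
        have e3 := abs_add_le ((n : ℝ) + (-1)) (-s)
        have e4 := abs_add_le (n : ℝ) (-1)
        rw [abs_neg] at e3 e4
        rw [abs_one] at e4
        rw [et]
        linarith
      linarith
    calc |(n : ℝ) - 1 - s + t| * |(X : ℝ)| * |(Z : ℝ)| ≤ 1.001 * N * x * z := by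
          gcongr
      _ = 1.001 * (N * z * x) := by ring
  have h4 : |(s : ℝ) * (X : ℝ) ^ 2| ≤ 6 * d := by
    have es : |(s : ℝ)| = 1 := by
      rcases hs with rfl | rfl <;> simp
    rw [abs_mul, es, one_mul, abs_pow]
    exact hX2R
  have h5 : (d : ℝ) * |(p : ℝ)| ≤ 13 * d + 1.02 * N * z * x := by
    have e : (d : ℝ) * |(p : ℝ)| = |(d : ℝ) * p| := by rw [abs_mul, abs_of_pos hdR]
    rw [e, hpR]
    have e1 := abs_add_le ((Z : ℝ) * X' - n * (Z : ℝ) ^ 2 + (n - 1 - s + t) * X * Z)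
      (s * (X : ℝ) ^ 2)
    have e2 := abs_add_le ((Z : ℝ) * X' - n * (Z : ℝ) ^ 2) ((n - 1 - s + t) * X * Z)
    have e3 := abs_sub ((Z : ℝ) * X') (n * (Z : ℝ) ^ 2)
    have e4 : 0 ≤ N * z * x := by positivity
    nlinarith
  have h6 : |(p : ℝ)| ≤ (13 * d + 1.02 * N * z * x) / d := by
    rw [le_div_iff₀ hdR]
    linarith
  have h7 : (13 * d + 1.02 * N * z * x) / d = 13 + 1.02 * N * z * x / d := by
    field_simp
  rw [h7] at h6
  exact h6

theorem ineq44 (s t n R p : ℤ) (hs : s = 1 ∨ s = -1) (ht : t = 1 ∨ t = -1)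
    (hn : 10 ^ 20 ≤ |n|) (hR4 : |R| ≤ 4) (hp : |p| ≤ 2700) :
    |(FF s t n p R : ℝ)| ≤ 4.2 * 2700 ^ 2 * |(n : ℝ)| ∧ |H p R| ≤ H0 ∧
    (H p R = 0 → R ≠ 0 → |FF s t n p R| ≤ 64) := by
  have hs1 : |s| = 1 := by rcases hs with rfl | rfl <;> simp
  have ht1 : |t| = 1 := by rcases ht with rfl | rfl <;> simp
  have hp0 : 0 ≤ |p| := abs_nonneg p
  have hR0 : 0 ≤ |R| := abs_nonneg R
  have hp2 : |p| ^ 2 ≤ 2700 ^ 2 := pow_le_pow_left₀ hp0 hp 2
  have hp3 : |p| ^ 3 ≤ 2700 ^ 3 := pow_le_pow_left₀ hp0 hp 3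
  have hR2 : |R| ^ 2 ≤ 4 ^ 2 := pow_le_pow_left₀ hR0 hR4 2
  have hR3 : |R| ^ 3 ≤ 4 ^ 3 := pow_le_pow_left₀ hR0 hR4 3
  refine ⟨?_, ?_, ?_⟩
  · have key : |FF s t n p R| ≤ 2700 ^ 3 + |n| * (2700 ^ 2 * 4) + (|n| + 3) * (2700 * 4 ^ 2) + 4 ^ 3 := by
      unfold FF
      have e1 := abs_add_le (p ^ 3 - n * p ^ 2 * R + (n - 1 - s + t) * p * R ^ 2) (s * R ^ 3)
      have e2 := abs_add_le (p ^ 3 - n * p ^ 2 * R) ((n - 1 - s + t) * p * R ^ 2)
      have e3 := abs_sub (p ^ 3) (n * p ^ 2 * R)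
      have f1 : |p ^ 3| ≤ 2700 ^ 3 := by rw [abs_pow]; exact hp3
      have f2 : |n * p ^ 2 * R| ≤ |n| * (2700 ^ 2 * 4) := by
        rw [mul_assoc, abs_mul, abs_mul, abs_pow]
        gcongr
      have f3 : |(n - 1 - s + t) * p * R ^ 2| ≤ (|n| + 3) * (2700 * 4 ^ 2) := by
        rw [mul_assoc, abs_mul, abs_mul, abs_pow]
        have g : |n - 1 - s + t| ≤ |n| + 3 := by
          have g1 : n - 1 - s + t = n + (-1) + (-s) + t := by ring
          rw [g1]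
          have g2 := abs_add_le (n + (-1) + (-s)) t
          have g3 := abs_add_le (n + (-1)) (-s)
          have g4 := abs_add_le n (-1)
          rw [abs_neg] at g3 g4
          rw [abs_one] at g4
          rw [ht1] at g2
          linarith
        gcongr
      have f4 : |s * R ^ 3| ≤ 4 ^ 3 := by
        rw [abs_mul, hs1, one_mul, abs_pow]
        exact hR3
      linarith
    have key' : (|FF s t n p R| : ℝ) ≤ 2700 ^ 3 + |(n : ℝ)| * (2700 ^ 2 * 4) +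
        (|(n : ℝ)| + 3) * (2700 * 4 ^ 2) + 4 ^ 3 := by
      exact_mod_cast key
    have hnR : (10 : ℝ) ^ 20 ≤ |(n : ℝ)| := by exact_mod_cast hn
    refine key'.trans ?_
    norm_num
    norm_num at hnR
    linarith
  · unfold H H0
    rw [abs_mul, abs_mul]
    have g : |p - R| ≤ 2700 + 4 := (abs_sub p R).trans (add_le_add hp hR4)
    calc |p| * |R| * |p - R| ≤ 2700 * 4 * (2700 + 4) := by gcongr
      _ ≤ 10 ^ 8 := by norm_num
  · intro hH hR
    unfold H at hH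
    rcases mul_eq_zero.1 hH with h1 | h1
    · rcases mul_eq_zero.1 h1 with h2 | h2
      · have e : FF s t n p R = s * R ^ 3 := by
          unfold FF
          rw [h2]
          ring
        rw [e, abs_mul, hs1, one_mul, abs_pow]
        linarith
      · exact absurd h2 hR
    · have h2 : p = R := by linarith
      have e : FF s t n p R = t * R ^ 3 := by
        unfold FF
        rw [h2]
        ring
      rw [e, abs_mul, ht1, one_mul, abs_pow]
      linarith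

end Pool.Agent.Lib_helper72.GC
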