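import Pool.Agent.Lib_helper72.GC.DefsM

/-!
# GC, block L2: section 4.6
-/

set_option autoImplicit false

namespace Pool.Agent.Lib_helper72.GC

open Pool.Agent.Lib_helper83.CS

theorem FFabs_h18 (s t n p q : ℤ) (hs : s = 1 ∨ s = -1) (ht : t = 1 ∨ t = -1) :
    |(FF s t n p q : ℝ)| ≤ |(p : ℝ)| ^ 3 + |(n : ℝ)| * |(p : ℝ)| ^ 2 * |(q : ℝ)| +
      (|(n : ℝ)| + 3) * |(p : ℝ)| * |(q : ℝ)| ^ 2 + |(q : ℝ)| ^ 3 := by
  have e : (FF s t n p q : ℝ) = (p : ℝ) ^ 3 + (-((n : ℝ) * (p : ℝ) ^ 2 * q)) +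
      ((n : ℝ) - 1 - s + t) * p * (q : ℝ) ^ 2 + s * (q : ℝ) ^ 3 := by
    rw [FF]
    push_cast
    ring
  have hs1 : |(s : ℝ)| = 1 := by rcases hs with h | h <;> rw [h] <;> simp
  have ht1 : |(t : ℝ)| = 1 := by rcases ht with h | h <;> rw [h] <;> simp
  have h1 : |(n : ℝ) - 1 - s + t| ≤ |(n : ℝ)| + 3 := by
    have a1 : |(n : ℝ) - 1 - s + t| ≤ |(n : ℝ) - 1 - s| + |(t : ℝ)| := abs_add_le _ _
    have a2 : |(n : ℝ) - 1 - s| ≤ |(n : ℝ) - 1| + |(s : ℝ)| := abs_sub _ _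
    have a3 : |(n : ℝ) - 1| ≤ |(n : ℝ)| + |(1 : ℝ)| := abs_sub _ _
    rw [abs_one] at a3
    linarith
  rw [e]
  have b1 := abs_add_le ((p : ℝ) ^ 3 + (-((n : ℝ) * (p : ℝ) ^ 2 * q)) +
      ((n : ℝ) - 1 - s + t) * p * (q : ℝ) ^ 2) (s * (q : ℝ) ^ 3)
  have b2 := abs_add_le ((p : ℝ) ^ 3 + (-((n : ℝ) * (p : ℝ) ^ 2 * q)))
      (((n : ℝ) - 1 - s + t) * p * (q : ℝ) ^ 2)
  have b3 := abs_add_le ((p : ℝ) ^ 3) (-((n : ℝ) * (p : ℝ) ^ 2 * q))
  rw [abs_neg, abs_mul, abs_mul, abs_pow, abs_pow] at b3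
  rw [abs_mul ((((n : ℝ) - 1 - s + t) * p)), abs_mul ((n : ℝ) - 1 - s + t), abs_pow] at b2
  rw [abs_mul (s : ℝ), hs1, one_mul, abs_pow] at b1
  have b4 : |(n : ℝ) - 1 - s + t| * |(p : ℝ)| * |(q : ℝ)| ^ 2 ≤
      (|(n : ℝ)| + 3) * |(p : ℝ)| * |(q : ℝ)| ^ 2 := by gcongr
  linarith

theorem ineq46 (s t n d X Z R p : ℤ) (D : ℝ) (hs : s = 1 ∨ s = -1) (ht : t = 1 ∨ t = -1)
    (hn : 10 ^ 20 ≤ |n|) (hd : 2.99 * |(n : ℝ)| ≤ d)
    (hZR : |Z * R| ≤ 4) (hZ0 : Z ≠ 0) (hR0 : R ≠ 0) (hX : 1500 ≤ |X|)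
    (hXn : |(X : ℝ)| ≤ |(n : ℝ)| / 100) (hp : 2700 < |p|) (hpn : |(p : ℝ)| ≤ |(n : ℝ)| / 60)
    (h1 : FF s t n Z X = d * (X * p - Z * R)) (h2 : (FF s t n p R : ℝ) = D * (X * p - Z * R)) :
    |D| * d ≤ 4.4 * (n : ℝ) ^ 2 := by
  have f1 := FFabs_h18 s t n Z X hs ht
  have f2 := FFabs_h18 s t n p R hs ht
  have hN : (10 : ℝ) ^ 20 ≤ |(n : ℝ)| := by exact_mod_cast hn
  have hz : (1 : ℝ) ≤ |(Z : ℝ)| := by
    have : (1 : ℤ) ≤ |Z| := Int.one_le_abs hZ0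
    exact_mod_cast this
  have hr : (1 : ℝ) ≤ |(R : ℝ)| := by
    have : (1 : ℤ) ≤ |R| := Int.one_le_abs hR0
    exact_mod_cast this
  have hzr : |(Z : ℝ)| * |(R : ℝ)| ≤ 4 := by
    rw [← abs_mul]
    exact_mod_cast hZR
  have ha : (1500 : ℝ) ≤ |(X : ℝ)| := by exact_mod_cast hX
  have hb : (2700 : ℝ) ≤ |(p : ℝ)| := by
    have : (2700 : ℤ) ≤ |p| := hp.le
    exact_mod_cast this
  have hd0 : (0 : ℝ) < d := by nlinarith
  set N : ℝ := |(n : ℝ)| with hNdef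
  set z : ℝ := |(Z : ℝ)| with hzdef
  set r : ℝ := |(R : ℝ)| with hrdef
  set a : ℝ := |(X : ℝ)| with hadef
  set b : ℝ := |(p : ℝ)| with hbdef
  have hz4 : z ≤ 4 := by nlinarith
  have hr4 : r ≤ 4 := by nlinarith
  -- first form
  have g1 : |(FF s t n Z X : ℝ)| ≤ 1.014 * N * z * a ^ 2 := by
    have c1 : z ^ 3 ≤ 16 * z := by nlinarith
    have c2 : N * z ^ 2 * a ≤ N * z * a ^ 2 * (4 / 1500) := by
      have : z * a ≤ a ^ 2 * (4 / 1500) := by nlinarith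
      have h0 : 0 ≤ N * z := by positivity
      nlinarith [mul_le_mul_of_nonneg_left this h0]
    have c3 : a ^ 3 ≤ N * z * a ^ 2 / 100 := by
      have : a ^ 3 ≤ (N / 100) * a ^ 2 := by
        have := mul_le_mul_of_nonneg_right hXn (sq_nonneg a)
        nlinarith
      have h0 : 0 ≤ N * a ^ 2 := by positivity
      nlinarith
    have c4 : 16 * z + 3 * z * a ^ 2 ≤ 0.0001 * (N * z * a ^ 2) := by
      have : (16 : ℝ) + 3 * a ^ 2 ≤ 0.0001 * (N * a ^ 2) := by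
        nlinarith [sq_nonneg a]
      nlinarith [mul_le_mul_of_nonneg_right this (by positivity : (0 : ℝ) ≤ z)]
    have c5 : 0 ≤ N * z * a ^ 2 := by positivity
    nlinarith
  have g2 : |(FF s t n p R : ℝ)| ≤ 1.019 * N * r * b ^ 2 := by
    have c1 : r ^ 3 ≤ 16 * r := by nlinarith
    have c2 : N * b * r ^ 2 ≤ N * r * b ^ 2 * (4 / 2700) := by
      have : b * r ≤ b ^ 2 * (4 / 2700) := by nlinarith
      have h0 : 0 ≤ N * r := by positivity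
      nlinarith [mul_le_mul_of_nonneg_left this h0]
    have c3 : b ^ 3 ≤ N * r * b ^ 2 / 60 := by
      have : b ^ 3 ≤ (N / 60) * b ^ 2 := by
        have := mul_le_mul_of_nonneg_right hpn (sq_nonneg b)
        nlinarith
      have h0 : 0 ≤ N * b ^ 2 := by positivity
      nlinarith
    have c4 : 16 * r + 3 * b * r ^ 2 ≤ 0.0001 * (N * r * b ^ 2) := by
      have h3 : 3 * b * r ^ 2 ≤ 12 * b * r := by
        have h0 : 0 ≤ b * r := by positivity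
        nlinarith
      have : (16 : ℝ) + 12 * b ≤ 0.0001 * (N * b ^ 2) := by
        nlinarith [sq_nonneg b]
      nlinarith [mul_le_mul_of_nonneg_right this (by positivity : (0 : ℝ) ≤ r)]
    have c5 : 0 ≤ N * r * b ^ 2 := by positivity
    nlinarith
  -- the common factor
  have he : 0.999 * (a * b) ≤ |(X : ℝ) * p - Z * R| := by
    have h3 : |(X : ℝ) * p| - |(Z : ℝ) * R| ≤ |(X : ℝ) * p - Z * R| := abs_sub_abs_le_abs_sub _ _
    rw [abs_mul, abs_mul] at h3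
    have h4 : (4 : ℝ) ≤ 0.001 * (a * b) := by nlinarith
    linarith
  set e : ℝ := |(X : ℝ) * p - Z * R| with hedef
  have k1 : (d : ℝ) * e = |(FF s t n Z X : ℝ)| := by
    rw [h1]
    push_cast
    rw [abs_mul, abs_of_pos hd0]
  have k2 : |D| * e = |(FF s t n p R : ℝ)| := by
    rw [h2, abs_mul]
  have k3 : (|D| * d) * e ^ 2 ≤ (1.014 * N * z * a ^ 2) * (1.019 * N * r * b ^ 2) := by
    have : (|D| * d) * e ^ 2 = (d * e) * (|D| * e) := by ring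
    rw [this, k1, k2]
    exact mul_le_mul g1 g2 (abs_nonneg _) (by positivity)
  have k4 : (1.014 * N * z * a ^ 2) * (1.019 * N * r * b ^ 2) ≤ 4.14 * N ^ 2 * (a * b) ^ 2 := by
    have h0 : 0 ≤ N ^ 2 * (a * b) ^ 2 := by positivity
    have : (1.014 * N * z * a ^ 2) * (1.019 * N * r * b ^ 2) =
        1.033266 * (z * r) * (N ^ 2 * (a * b) ^ 2) := by ring
    rw [this]
    nlinarith [mul_le_mul_of_nonneg_right hzr h0]
  have k5 : (0.999 * (a * b)) ^ 2 ≤ e ^ 2 := by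
    apply pow_le_pow_left₀ (by positivity) he
  have hDd : 0 ≤ |D| * d := by positivity
  have k6 : (|D| * d) * (0.999 * (a * b)) ^ 2 ≤ 4.14 * N ^ 2 * (a * b) ^ 2 :=
    (mul_le_mul_of_nonneg_left k5 hDd).trans (k3.trans k4)
  have hab : 0 < (a * b) ^ 2 := by positivity
  have k7 : (|D| * d) * 0.998 ≤ 4.14 * N ^ 2 := by
    by_contra hcon
    push Not at hcon
    have h5 := mul_lt_mul_of_pos_right hcon hab
    have h6 : 0 ≤ (|D| * d) * (a * b) ^ 2 := by positivity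
    nlinarith
  have k8 : N ^ 2 = (n : ℝ) ^ 2 := by rw [hNdef, sq_abs]
  rw [← k8]
  nlinarith [sq_nonneg N]

end Pool.Agent.Lib_helper72.GC
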