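import Pool.Agent.Lib_helper72.GC.W2

/-!
# GC block M1: the class of a matrix in standard form
-/

set_option autoImplicit false

namespace Pool.Agent.Lib_helper72.GC

open Pool.Agent.Lib_helper83.CS

namespace M1H89

theorem cs_X {a b c d e : ℤ} (h : IsCS (X a b c d e)) :
    a * d - b * c = 1 ∧ c * e - b = c + e - 1 := by
  obtain ⟨h1, h2⟩ := h
  rw [X, Matrix.det_fin_three] at h1 h2
  simp [Matrix.sub_apply] at h1 h2
  constructor
  · linarith
  · linarith

theorem d_ne {a b c d e : ℤ} (h : a * d - b * c = 1) (h' : c * e - b = c + e - 1) : d ≠ 0 := by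
  rintro rfl
  have h1 : b * c = -1 := by linarith
  have hu : IsUnit c := isUnit_of_dvd_one ⟨-b, by linarith⟩
  rcases Int.isUnit_iff.mp hu with rfl | rfl
  · omega
  · omega

end M1H89

theorem inClass_X (F : Frame) (hs : F.s = -1) (ht : F.t = -1) (a b c d e : ℤ)
    (h : IsCS (X a b c d e)) (hn : F.n = c + e) :
    IsLab (-1) (-1) F.n |d| c ∧
      InClass (X a b c d e) F.θ (Lam F.θ |d| c) (1 / |(d : ℝ)|) := by
  obtain ⟨h1, h2⟩ := M1H89.cs_X h
  have hd : d ≠ 0 := M1H89.d_ne h1 h2
  have hdR : (d : ℝ) ≠ 0 := by exact_mod_cast hd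
  have hlab : IsLab (-1) (-1) F.n |d| c := by
    refine ⟨abs_pos.mpr hd, ?_⟩
    rw [abs_dvd]
    refine ⟨-a, ?_⟩
    rw [FF, hn]
    linear_combination h1 - c * h2
  refine ⟨hlab, ?_⟩
  have hlabF : IsLab F.s F.t F.n |d| c := by rw [hs, ht]; exact hlab
  -- the roots
  have h1R : (a : ℝ) * d - b * c = 1 := by exact_mod_cast h1
  have h2R : (c : ℝ) * e - b = c + e - 1 := by exact_mod_cast h2
  have hroot : ∀ i, (F.θ i - c) * (F.θ i ^ 2 - e * F.θ i - b) = a * d := by
    intro i
    have hr := F.root i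
    rw [hs, ht, hn] at hr
    push_cast at hr
    linear_combination hr + F.θ i * h2R - h1R
  -- the sign
  obtain ⟨ε, hε, hεd⟩ : ∃ ε : ℤ, ε * ε = 1 ∧ |d| = ε * d := by
    rcases abs_choice d with h | h
    · exact ⟨1, by norm_num, by rw [h]; ring⟩
    · exact ⟨-1, by norm_num, by rw [h]; ring⟩
  have hεR : (ε : ℝ) * ε = 1 := by exact_mod_cast hε
  have hεdR : ((|d| : ℤ) : ℝ) = ε * d := by rw [hεd]; push_cast; ring
  have hε0 : (ε : ℝ) ≠ 0 := by
    intro h0
    rw [h0] at hεR
    norm_num at hεR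
  have hadR : ((|d| : ℤ) : ℝ) ≠ 0 := by rw [hεdR]; exact mul_ne_zero hε0 hdR
  refine ⟨![fun _ => 1, fun i => (F.θ i ^ 2 - e * F.θ i - b) / d, fun i => F.θ i], ?_, ?_, ?_⟩
  · -- Rep
    intro i j
    have hri := hroot i
    fin_cases j
    · simp [X, Fin.sum_univ_three]
    · simp only [X, Fin.sum_univ_three]
      simp
      field_simp
      linear_combination hri
    · simp only [X, Fin.sum_univ_three]
      simp
      field_simp
      ring
  · -- Span
    ext x
    constructor
    · rintro ⟨m, hm⟩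
      have key : x = el F.s F.n F.θ |d| (|d| * m 0 - b * (ε * m 1)) (ε * m 1)
          (|d| * m 2 + c * (ε * m 1)) := by
        funext i
        rw [hm i, Fin.sum_univ_three]
        simp only [el, hs, hn]
        simp
        rw [← Int.cast_abs, hεdR]
        field_simp
        linear_combination (m 1 : ℝ) * (F.θ i ^ 2 - e * F.θ i - b) * 0 * hεR
      rw [key]
      apply el_Lam F hlabF
      · refine ⟨a * m 1 - c * m 0, ?_⟩
        rw [hεd]
        linear_combination (-(ε : ℤ) * m 1) * h1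
      · exact ⟨m 2, by ring⟩
    · intro hx
      obtain ⟨X, Z, X', rfl, ⟨u, hu⟩, ⟨v, hv⟩⟩ := Lam_el F hlabF hx
      -- `m0 = (X + b Z) / |d|`
      have hm0 : X + b * Z = |d| * (b * u + ε * a * X) := by
        rw [hεd] at hu ⊢
        linear_combination b * hu - X * h1 + (a * d * X) * hε * (-1)
      refine ⟨![b * u + ε * a * X, ε * Z, v], fun i => ?_⟩
      rw [Fin.sum_univ_three]
      have hm0R : (X : ℝ) + b * Z = ε * d * (b * u + ε * a * X) := by
        rw [hεd] at hm0
        exact_mod_cast hm0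
      have hvR : (X' : ℝ) - c * Z = ε * d * v := by
        rw [hεd] at hv
        exact_mod_cast hv
      simp only [el, hs, hn]
      simp
      rw [← Int.cast_abs, hεdR]
      field_simp
      linear_combination hm0R + F.θ i * hvR - (Z : ℝ) * (F.θ i ^ 2 - e * F.θ i - b) * hεR
  · -- det
    rw [Matrix.det_fin_three]
    simp only [Matrix.of_apply, Vd]
    simp
    rw [← abs_inv, ← abs_mul, ← abs_mul, ← abs_mul]
    congr 1
    field_simp
    ring

end Pool.Agent.Lib_helper72.GC
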