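import Pool.Agent.Lib_helper72.GC.W0

/-!
# GC, block M3: the class of a matrix is unique
-/

set_option autoImplicit false

namespace Pool.Agent.Lib_helper72.GC

open Pool.Agent.Lib_helper83.CS

theorem m3_theta_inj_h50 (F : Frame) {a b : Fin 3} (h : a ≠ b) : F.θ a - F.θ b ≠ 0 := by
  have hV := Vd_ne F
  unfold Vd at hV
  have h01 : F.θ 0 - F.θ 1 ≠ 0 := fun h0 => hV (by rw [h0]; ring)
  have h02 : F.θ 0 - F.θ 2 ≠ 0 := fun h0 => hV (by rw [h0]; ring)
  have h12 : F.θ 1 - F.θ 2 ≠ 0 := fun h0 => hV (by rw [h0]; ring)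
  have h10 : F.θ 1 - F.θ 0 ≠ 0 := fun h0 => h01 (by linarith)
  have h20 : F.θ 2 - F.θ 0 ≠ 0 := fun h0 => h02 (by linarith)
  have h21 : F.θ 2 - F.θ 1 ≠ 0 := fun h0 => h12 (by linarith)
  fin_cases a <;> fin_cases b <;> first | exact absurd rfl h | assumption

/-- the matrix equation -/
theorem m3_rep_h50 {A : Matrix (Fin 3) (Fin 3) ℤ} {θ : V} {g : Fin 3 → V} (h : Rep A θ g) :
    (A.map (Int.cast : ℤ → ℝ)).transpose * (Matrix.of fun j i => g j i) =
      (Matrix.of fun j i => g j i) * Matrix.diagonal θ := by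
  ext j i
  rw [Matrix.mul_diagonal, Matrix.mul_apply]
  simp only [Matrix.transpose_apply, Matrix.map_apply, Matrix.of_apply]
  rw [mul_comm, h i j]

theorem inClass_unique (F : Frame) (A : Matrix (Fin 3) (Fin 3) ℤ) (L L' : Set V) (ρ ρ' : ℝ)
    (h0 : 0 < ρ) (h0' : 0 < ρ') (h : InClass A F.θ L ρ) (h' : InClass A F.θ L' ρ') :
    Eqv L' L (ρ / ρ') := by
  obtain ⟨g, hr, hL, hdet⟩ := h
  obtain ⟨g', hr', hL', hdet'⟩ := h'
  set G : Matrix (Fin 3) (Fin 3) ℝ := Matrix.of fun j i => g j i with hG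
  set G' : Matrix (Fin 3) (Fin 3) ℝ := Matrix.of fun j i => g' j i with hG'
  have hVd : 0 < |Vd F.θ| := abs_pos.2 (Vd_ne F)
  have hdG : G.det ≠ 0 := by
    rw [← abs_pos, hdet]; positivity
  have hdG' : G'.det ≠ 0 := by
    rw [← abs_pos, hdet']; positivity
  have hu : IsUnit G.det := isUnit_iff_ne_zero.2 hdG
  have e1 := m3_rep_h50 hr
  have e2 := m3_rep_h50 hr'
  rw [← hG] at e1
  rw [← hG'] at e2
  set C : Matrix (Fin 3) (Fin 3) ℝ := G⁻¹ * G' with hC
  have hGC : G * C = G' := by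
    rw [hC, ← Matrix.mul_assoc, Matrix.mul_nonsing_inv _ hu, Matrix.one_mul]
  -- `C` commutes with the diagonal matrix
  have hcomm : Matrix.diagonal F.θ * C = C * Matrix.diagonal F.θ := by
    have h1 : G * (Matrix.diagonal F.θ * C) = G * (C * Matrix.diagonal F.θ) := by
      rw [← Matrix.mul_assoc, ← e1, Matrix.mul_assoc, hGC, ← Matrix.mul_assoc, hGC, e2]
    have h2 := congrArg (fun Z => G⁻¹ * Z) h1
    simp only [← Matrix.mul_assoc, Matrix.nonsing_inv_mul _ hu, Matrix.one_mul] at h2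
    exact h2
  have hoff : ∀ a b, a ≠ b → C a b = 0 := by
    intro a b hab
    have h1 := congrFun (congrFun hcomm a) b
    rw [Matrix.diagonal_mul, Matrix.mul_diagonal] at h1
    have h2 : (F.θ a - F.θ b) * C a b = 0 := by linarith
    exact (mul_eq_zero.1 h2).resolve_left (m3_theta_inj_h50 F hab)
  have hg : ∀ j i, g' j i = g j i * C i i := by
    intro j i
    have h1 : G' j i = (G * C) j i := by rw [hGC]
    rw [Matrix.mul_apply, Finset.sum_eq_single i (fun k _ hk => by rw [hoff k i hk, mul_zero])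
      (fun hi => absurd (Finset.mem_univ i) hi)] at h1
    exact h1
  have hdC : G'.det = G.det * (C 0 0 * C 1 1 * C 2 2) := by
    have hCd : C = Matrix.diagonal fun i => C i i := by
      ext a b
      by_cases hab : a = b
      · subst hab; rw [Matrix.diagonal_apply_eq]
      · rw [Matrix.diagonal_apply_ne _ hab, hoff a b hab]
    have h1 : G'.det = G.det * C.det := by rw [← hGC, Matrix.det_mul]
    rw [h1, hCd, Matrix.det_diagonal, Fin.prod_univ_three]
    simp only [Matrix.diagonal_apply_eq]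
  have hCne : ∀ i, C i i ≠ 0 := by
    intro i h1
    apply hdG'
    rw [hdC]
    fin_cases i
    · simp only [Fin.zero_eta] at h1; rw [h1]; ring
    · simp only [Fin.mk_one] at h1; rw [h1]; ring
    · simp only [Fin.reduceFinMk] at h1; rw [h1]; ring
  refine ⟨fun i => (C i i)⁻¹, fun i => inv_ne_zero (hCne i), ?_, ?_⟩
  · intro x
    rw [← hL, ← hL']
    constructor
    · rintro ⟨m, hm⟩
      refine ⟨m, fun i => ?_⟩
      show (C i i)⁻¹ * x i = _
      rw [hm i, Finset.mul_sum]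
      refine Finset.sum_congr rfl fun j _ => ?_
      rw [hg j i]
      field_simp [hCne i]
    · rintro ⟨m, hm⟩
      refine ⟨m, fun i => ?_⟩
      have h1 : (C i i)⁻¹ * x i = ∑ j, (m j : ℝ) * g j i := hm i
      have h2 : x i = C i i * ((C i i)⁻¹ * x i) := by
        rw [← mul_assoc, mul_inv_cancel₀ (hCne i), one_mul]
      rw [h2, h1, Finset.mul_sum]
      refine Finset.sum_congr rfl fun j _ => ?_
      rw [hg j i]
      ring
  · have h1 : |Nm fun i => (C i i)⁻¹| * |G'.det| = |G.det| := by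
      rw [← abs_mul]
      congr 1
      rw [hdC]
      show (C 0 0)⁻¹ * (C 1 1)⁻¹ * (C 2 2)⁻¹ * _ = _
      field_simp [hCne 0, hCne 1, hCne 2]
    rw [hdet, hdet'] at h1
    rw [eq_div_iff h0'.ne']
    have h2 : (|Nm fun i => (C i i)⁻¹| * ρ') * |Vd F.θ| = ρ * |Vd F.θ| := by
      rw [← h1]; ring
    exact mul_right_cancel₀ hVd.ne' h2

end Pool.Agent.Lib_helper72.GC
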