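import Pool.Agent.Lib_helper72.GC.DefsM

/-!
# GC: block M4, the root matrix
-/

set_option autoImplicit false

namespace Pool.Agent.Lib_helper72.GC

open Pool.Agent.Lib_helper83.CS

/-- the generators of the root ideal -/
def groot_h16 (θ : V) : Fin 3 → V :=
  ![fun i => θ i - (lM : ℝ), fun _ => (EM : ℝ), fun i => θ i * (θ i - (lM : ℝ))]

theorem inClass_root (F : Frame) (hs : F.s = -1) (ht : F.t = -1) (d : ℤ)
    (hd : EM * d = -FF (-1) (-1) F.n lM 1) :
    IsCS (MM F.n d) ∧ InClass (MM F.n d) F.θ (JJ F.θ EM lM) EM := by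
  have hd1 : EM * d = -(lM ^ 3 - F.n * lM ^ 2 + (F.n - 1) * lM - 1) := by
    rw [hd]
    unfold FF
    ring
  have hroot : ∀ i, F.θ i ^ 3 - (F.n : ℝ) * F.θ i ^ 2 + ((F.n : ℝ) - 1) * F.θ i - 1 = 0 := by
    intro i
    have h := F.root i
    rw [hs, ht] at h
    push_cast at h
    linarith
  have hdR : (EM : ℝ) * d = -((lM : ℝ) ^ 3 - F.n * (lM : ℝ) ^ 2 + ((F.n : ℝ) - 1) * lM - 1) := by
    exact_mod_cast hd1
  refine ⟨⟨?_, ?_⟩, groot_h16 F.θ, ?_, ?_, ?_⟩
  · rw [MM, X, Matrix.det_fin_three]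
    simp only [Matrix.of_apply, Matrix.cons_val', Matrix.cons_val_zero, Matrix.cons_val_one,
      Matrix.cons_val]
    linarith [hd1]
  · have e1 : (MM F.n d - 1 : Matrix (Fin 3) (Fin 3) ℤ) =
        !![-1, EM, (lM - 1) * (F.n - lM - 1); 0, lM - 1, d; 1, 0, F.n - lM - 1] := by
      ext i j
      fin_cases i <;> fin_cases j <;> simp [MM, X]
    rw [e1, Matrix.det_fin_three]
    simp only [Matrix.of_apply, Matrix.cons_val', Matrix.cons_val_zero, Matrix.cons_val_one,
      Matrix.cons_val]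
    linarith [hd1]
  · intro i j
    have h := hroot i
    fin_cases j
    · simp [Fin.sum_univ_three, MM, X, groot_h16]
    · simp [Fin.sum_univ_three, MM, X, groot_h16]
      ring
    · simp [Fin.sum_univ_three, MM, X, groot_h16]
      linear_combination h - hdR
  · ext x
    constructor
    · rintro ⟨m, hm⟩
      refine ⟨-lM * m 0 + EM * m 1, m 0 - lM * m 2, m 2, fun i => ?_, ⟨m 1, by ring⟩⟩
      rw [hm i]
      simp [Fin.sum_univ_three, groot_h16]
      ring
    · rintro ⟨a, b, c, hx, k, hk⟩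
      refine ⟨![b + lM * c, k, c], fun i => ?_⟩
      have hkR : (a : ℝ) + b * lM + c * (lM : ℝ) ^ 2 = EM * k := by exact_mod_cast hk
      rw [hx i]
      simp [Fin.sum_univ_three, groot_h16]
      linear_combination hkR
  · have e1 : (Matrix.of fun j i => groot_h16 F.θ j i).det = (EM : ℝ) * Vd F.θ := by
      rw [Matrix.det_fin_three]
      simp [groot_h16, Vd]
      ring
    rw [e1, abs_mul, abs_of_nonneg (by unfold EM; norm_num)]

end Pool.Agent.Lib_helper72.GC
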