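import Pool.Agent.Lib_helper72.GC.W4

/-!
# GC, block P1
-/

set_option autoImplicit false

namespace Pool.Agent.Lib_helper72.GC

open Pool.Agent.Lib_helper83.CS

theorem Nm_mul_h37 (x y : V) : Nm (fun i => x i * y i) = Nm x * Nm y := by
  unfold Nm; ring

theorem Nm_ne_h37 {x : V} (h : ∀ i, x i ≠ 0) : Nm x ≠ 0 :=
  mul_ne_zero (mul_ne_zero (h 0) (h 1)) (h 2)

theorem F1_root (F : Frame) (hs : F.s = -1) (ht : F.t = -1) (hn : 10 ^ 24 ≤ |F.n|) {d c : ℤ}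
    (hE : EM ∣ FF (-1) (-1) F.n lM 1) (hl : IsLab (-1) (-1) F.n d c)
    (hq : Eqv (Lam F.θ d c) (JJ F.θ EM lM) (EM * d)) :
    Pool.Agent.Lib_helper72.GC.F1 F.θ (Lam F.θ d c) d := by
  obtain ⟨w, hw0, hw, hwN⟩ := hq
  intro v h hv hv0 hvL
  by_contra hcon
  push Not at hcon
  have hd : 0 < d := hl.1
  have hdR : (0 : ℝ) < d := by exact_mod_cast hd
  have hEM : (EM : ℝ) = 100000007 := by unfold EM; norm_num
  have hE0 : (E0 : ℝ) = 6 * 10 ^ 7 := by unfold E0; norm_num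
  have hnR : (10 : ℝ) ^ 24 ≤ |(F.n : ℝ)| := by
    have h1 : (((10 : ℤ) ^ 24 : ℤ) : ℝ) ≤ ((|F.n| : ℤ) : ℝ) := by exact_mod_cast hn
    rw [Int.cast_abs] at h1
    norm_num at h1 ⊢
    exact h1
  -- the two elements
  have hy0 : (fun i => (EM : ℝ) / w i) ∈ Lam F.θ d c := by
    rw [hw]
    refine ⟨EM, 0, 0, fun i => ?_, by simp⟩
    field_simp [hw0 i]
    simp
  have hy1 : (fun i => (F.θ i - lM) / w i) ∈ Lam F.θ d c := by
    rw [hw]
    refine ⟨-lM, 1, 0, fun i => ?_, by simp⟩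
    field_simp [hw0 i]
    push_cast
    ring
  set γ : V := fun i => v i * ((EM : ℝ) / w i) with hγ
  have hγO : γ ∈ O F.θ := hvL _ hy0
  have hγ0 : ∀ i, γ i ≠ 0 := fun i =>
    mul_ne_zero (hv0 i) (div_ne_zero (by rw [hEM]; norm_num) (hw0 i))
  have hNw : Nm w ≠ 0 := Nm_ne_h37 hw0
  have hγN : |Nm γ| * d = |Nm v| * EM ^ 2 := by
    have e1 : Nm γ * Nm w = Nm v * (EM : ℝ) ^ 3 := by
      have h0 := hw0 0
      have h1 := hw0 1
      have h2 := hw0 2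
      simp only [hγ, Nm]
      field_simp
    have e2 : |Nm γ| * |Nm w| = |Nm v| * (EM : ℝ) ^ 3 := by
      rw [← abs_mul, e1, abs_mul, abs_of_pos (show (0 : ℝ) < (EM : ℝ) ^ 3 by rw [hEM]; norm_num)]
    rw [hwN] at e2
    have hEMpos : (0 : ℝ) < EM := by rw [hEM]; norm_num
    have e3 : (EM : ℝ) * (|Nm γ| * d) = EM * (|Nm v| * EM ^ 2) := by linarith
    exact mul_left_cancel₀ hEMpos.ne' e3
  have hγle : |Nm γ| ≤ E0 * EM ^ 2 := by
    have h1 : |Nm γ| * d ≤ (E0 * EM ^ 2) * d := by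
      rw [hγN]
      have h2 : (0 : ℝ) ≤ (EM : ℝ) ^ 2 := by positivity
      calc |Nm v| * (EM : ℝ) ^ 2 ≤ (E0 * d) * EM ^ 2 := mul_le_mul_of_nonneg_right hcon h2
        _ = _ := by ring
    exact le_of_mul_le_mul_right h1 hdR
  have hval : (E0 : ℝ) * EM ^ 2 < 0.9 * 10 ^ 24 := by rw [hE0, hEM]; norm_num
  obtain ⟨k, hk, hkN⟩ := SN F (by linarith [show (10:ℤ) ^ 20 ≤ 10 ^ 24 by norm_num]) γ hγO hγ0 (by
    have h1 : (10 : ℝ) ^ 48 ≤ (F.n : ℝ) ^ 2 := by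
      rw [← sq_abs]
      calc (10 : ℝ) ^ 48 = (10 ^ 24) ^ 2 := by norm_num
        _ ≤ _ := pow_le_pow_left₀ (by norm_num) hnR 2
    have h2 : (0.9 : ℝ) * 10 ^ 24 ≤ 10 ^ 48 / 10 ^ 6 := by norm_num
    have h3 : (10 : ℝ) ^ 48 / 10 ^ 6 ≤ (F.n : ℝ) ^ 2 / 10 ^ 6 :=
      div_le_div_of_nonneg_right h1 (by norm_num)
    linarith)
  have hk0 : k = 0 := by
    have h1 := (LH_even hk).1
    by_contra hne
    have h2 : 1 ≤ k := by omega
    have h3 : (1 : ℝ) ≤ k := by exact_mod_cast h2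
    have h4 : 0.9 * 10 ^ 24 ≤ 0.9 * |(F.n : ℝ)| * k := by
      have : (0.9 : ℝ) * 10 ^ 24 ≤ 0.9 * |(F.n : ℝ)| := by linarith
      calc (0.9 : ℝ) * 10 ^ 24 ≤ 0.9 * |(F.n : ℝ)| := this
        _ ≤ _ := le_mul_of_one_le_right (by positivity) h3
    linarith
  subst hk0
  obtain ⟨u, hu, m, hm⟩ := LH_zero F hk
  have hu0 : ∀ i, u i ≠ 0 := fun i => Un_ne F hu i
  -- EM divides m
  have hdvd : EM ∣ m := by
    have h1 := hvL _ hy1
    have h2 := O_mul F (Un_O F (Un_inv F hu)) h1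
    obtain ⟨a, b, e, habe⟩ := h2
    have h3 : ∀ i, (-(m : ℝ) * lM - EM * a) + (m - EM * b) * F.θ i + (-EM * e) * F.θ i ^ 2 = 0 := by
      intro i
      have h4 := habe i
      have h5 := hm i
      simp only [hγ] at h5
      have hui := hu0 i
      have hwi := hw0 i
      have hEne : (EM : ℝ) ≠ 0 := by rw [hEM]; norm_num
      have h6 : v i * EM = m * u i * w i := by
        field_simp at h5
        linarith
      have h7 : v i * (F.θ i - lM) = u i * w i * (a + b * F.θ i + e * F.θ i ^ 2) := by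
        have : (u i)⁻¹ * (v i * ((F.θ i - lM) / w i)) = a + b * F.θ i + e * F.θ i ^ 2 := h4
        field_simp at this
        linarith
      have h8 : (m * u i * w i) * (F.θ i - lM) =
          EM * (u i * w i * (a + b * F.θ i + e * F.θ i ^ 2)) := by
        rw [← h6, ← h7]; ring
      have h9 : (u i * w i) * (m * (F.θ i - lM) - EM * (a + b * F.θ i + e * F.θ i ^ 2)) = 0 := by
        linarith
      rcases mul_eq_zero.1 h9 with h10 | h10
      · exact absurd h10 (mul_ne_zero hui hwi)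
      · linarith
    have h4 := (O_indep F _ _ _ h3).2.1
    have h5 : (m : ℝ) = ((EM * b : ℤ) : ℝ) := by push_cast; linarith
    exact ⟨b, by exact_mod_cast h5⟩
  have hm0 : m ≠ 0 := by
    rintro rfl
    exact hγ0 0 (by rw [hm 0]; simp)
  have hmabs : EM ≤ |m| := by
    have h1 : |EM| ≤ |m| := Int.le_of_dvd (abs_pos.2 hm0) ((abs_dvd_abs _ _).2 hdvd)
    have h2 : |EM| = EM := by unfold EM; norm_num
    rwa [h2] at h1
  have hγm : |Nm γ| = |(m : ℝ)| ^ 3 := by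
    have e1 : Nm γ = (m : ℝ) ^ 3 * Nm u := by
      simp only [Nm]
      rw [hm 0, hm 1, hm 2]
      ring
    rw [e1, abs_mul, Un_Nm F hu, mul_one, abs_pow]
  have hmR : (EM : ℝ) ≤ |(m : ℝ)| := by
    have : (EM : ℝ) ≤ ((|m| : ℤ) : ℝ) := by exact_mod_cast hmabs
    rwa [Int.cast_abs] at this
  have hfin : (EM : ℝ) ^ 3 ≤ |Nm γ| := by
    rw [hγm]
    exact pow_le_pow_left₀ (by rw [hEM]; norm_num) hmR 3
  have hlast : (E0 : ℝ) * EM ^ 2 < EM ^ 3 := by rw [hE0, hEM]; norm_num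
  linarith

end Pool.Agent.Lib_helper72.GC
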