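import Pool.Agent.Lib_helper72.GC.W4

/-!
# GC, block P2
-/

set_option autoImplicit false

namespace Pool.Agent.Lib_helper72.GC

open Pool.Agent.Lib_helper83.CS

section P2h37

theorem JJ_theta_h37 (F : Frame) (hs : F.s = -1) (ht : F.t = -1)
    (hE : EM ∣ FF (-1) (-1) F.n lM 1) {x : V} (hx : x ∈ JJ F.θ EM lM) :
    (fun i => F.θ i * x i) ∈ JJ F.θ EM lM := by
  obtain ⟨a, b, c, habc, hd⟩ := hx
  refine ⟨c, a - (F.n - 1) * c, b + F.n * c, fun i => ?_, ?_⟩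
  · have hr := F.root i
    rw [hs, ht] at hr
    show F.θ i * x i = _
    rw [habc i]
    push_cast at hr ⊢
    linear_combination (c : ℝ) * hr
  · have e : c + (a - (F.n - 1) * c) * lM + (b + F.n * c) * lM ^ 2
        = lM * (a + b * lM + c * lM ^ 2) - c * FF (-1) (-1) F.n lM 1 := by
      unfold FF; ring
    rw [e]
    exact dvd_sub (hd.mul_left _) (hE.mul_left _)

theorem JJ_add_h37 (F : Frame) {x y : V} (hx : x ∈ JJ F.θ EM lM) (hy : y ∈ JJ F.θ EM lM) :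
    (fun i => x i + y i) ∈ JJ F.θ EM lM := by
  obtain ⟨a, b, c, h1, h2⟩ := hx
  obtain ⟨a', b', c', h1', h2'⟩ := hy
  refine ⟨a + a', b + b', c + c', fun i => ?_, ?_⟩
  · show x i + y i = _
    rw [h1, h1']; push_cast; ring
  · have : a + a' + (b + b') * lM + (c + c') * lM ^ 2
        = (a + b * lM + c * lM ^ 2) + (a' + b' * lM + c' * lM ^ 2) := by ring
    rw [this]
    exact dvd_add h2 h2'

theorem JJ_smul_h37 (F : Frame) (k : ℤ) {x : V} (hx : x ∈ JJ F.θ EM lM) :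
    (fun i => k * x i) ∈ JJ F.θ EM lM := by
  obtain ⟨a, b, c, h1, h2⟩ := hx
  refine ⟨k * a, k * b, k * c, fun i => ?_, ?_⟩
  · show (k : ℝ) * x i = _
    rw [h1]; push_cast; ring
  · have : k * a + k * b * lM + k * c * lM ^ 2 = k * (a + b * lM + c * lM ^ 2) := by ring
    rw [this]
    exact h2.mul_left _

theorem JJ_mul_h37 (F : Frame) (hs : F.s = -1) (ht : F.t = -1)
    (hE : EM ∣ FF (-1) (-1) F.n lM 1) {x y : V} (hy : y ∈ O F.θ) (hx : x ∈ JJ F.θ EM lM) :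
    (fun i => y i * x i) ∈ JJ F.θ EM lM := by
  obtain ⟨a, b, c, h⟩ := hy
  have h1 := JJ_theta_h37 F hs ht hE hx
  have h2 := JJ_theta_h37 F hs ht hE h1
  have h3 := JJ_add_h37 F (JJ_add_h37 F (JJ_smul_h37 F a hx) (JJ_smul_h37 F b h1))
    (JJ_smul_h37 F c h2)
  have e : (fun i => y i * x i) = fun i => (a : ℝ) * x i + b * (F.θ i * x i)
      + c * (F.θ i * (F.θ i * x i)) := by
    funext i
    rw [h i]; ring
  rw [e]
  exact h3

theorem JJ_O_h37 (F : Frame) {x : V} (hx : x ∈ JJ F.θ EM lM) : x ∈ O F.θ := by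
  obtain ⟨a, b, c, h, _⟩ := hx
  exact ⟨a, b, c, h⟩

/-- integer coordinates are unique -/
theorem O_coord_h37 (F : Frame) {a b c a' b' c' : ℤ}
    (h : ∀ i, (a : ℝ) + b * F.θ i + c * F.θ i ^ 2 = a' + b' * F.θ i + c' * F.θ i ^ 2) :
    a = a' ∧ b = b' ∧ c = c' := by
  have h1 := O_indep F ((a : ℝ) - a') ((b : ℝ) - b') ((c : ℝ) - c') (fun i => by
    have := h i; linarith)
  obtain ⟨h2, h3, h4⟩ := h1
  refine ⟨?_, ?_, ?_⟩
  · exact_mod_cast sub_eq_zero.1 h2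
  · exact_mod_cast sub_eq_zero.1 h3
  · exact_mod_cast sub_eq_zero.1 h4

theorem Nm_mul'_h37 (x y : V) : Nm (fun i => x i * y i) = Nm x * Nm y := by
  unfold Nm; ring

/-- A primitive element of `JJ` of small norm is `± E` times a unit. -/
theorem root_core_h37 (F : Frame) (hs : F.s = -1) (ht : F.t = -1) (hn : 10 ^ 24 ≤ |F.n|)
    (hE : EM ∣ FF (-1) (-1) F.n lM 1) {z : V} (hz : Prim (JJ F.θ EM lM) z)
    (hN : |Nm z| ≤ 3 * EM * |(F.n : ℝ)|) :
    ∃ u ∈ Un F.θ, ∃ k : ℤ, (k = 1 ∨ k = -1) ∧ ∀ i, z i = k * (EM * u i) := by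
  have hEM : (EM : ℝ) = 100000007 := by unfold EM; norm_num
  have hnR : (10 : ℝ) ^ 24 ≤ |(F.n : ℝ)| := by
    have h1 : (((10 : ℤ) ^ 24 : ℤ) : ℝ) ≤ ((|F.n| : ℤ) : ℝ) := by exact_mod_cast hn
    rw [Int.cast_abs] at h1
    norm_num at h1 ⊢
    exact h1
  have hzJ := hz.1
  have hprim := hz.2
  have hz0 : ∀ i, z i ≠ 0 := by
    intro i hi
    obtain ⟨a, b, c, habc, _⟩ := id hzJ
    have h1 := habc i
    rw [hi] at h1
    obtain ⟨ha, hb, hc⟩ := O_zero F a b c i h1.symm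
    have hzz : ∀ j, z j = ((0 : ℤ) : ℝ) * z j := by
      intro j
      rw [habc j, ha, hb, hc]; simp
    have := hprim 0 z hzJ hzz
    omega
  have hn2 : (F.n : ℝ) ^ 2 = |(F.n : ℝ)| ^ 2 := (sq_abs _).symm
  obtain ⟨h', hLH, hk⟩ := SN F (by linarith [show (10:ℤ) ^ 20 ≤ 10 ^ 24 by norm_num]) z
    (JJ_O_h37 F hzJ) hz0 (by
      rw [hn2]
      rw [hEM] at hN
      rw [le_div_iff₀ (by norm_num)]
      nlinarith)
  have hLH' := hLH
  obtain ⟨u, hu, p, q, huz, hH⟩ := hLH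
  have hu0 : ∀ i, u i ≠ 0 := fun i => Un_ne F hu i
  have hpos : (0 : ℝ) < |(F.n : ℝ)| := by linarith [show (0:ℝ) < 10 ^ 24 by norm_num]
  have hh : h' ≤ 4 * EM := by
    have h1 : 0.9 * |(F.n : ℝ)| * h' ≤ 3 * EM * |(F.n : ℝ)| := hk.trans hN
    have h2 : (h' : ℝ) ≤ 4 * EM := by
      by_contra hcon
      push Not at hcon
      have h3 : 0.9 * |(F.n : ℝ)| * (4 * EM) < 0.9 * |(F.n : ℝ)| * h' :=
        mul_lt_mul_of_pos_left hcon (by positivity)
      have h4 : 0 < |(F.n : ℝ)| * EM := mul_pos hpos (by rw [hEM]; norm_num)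
      nlinarith
    exact_mod_cast h2
  have hpq : EM ∣ p - lM * q := by
    have h1 := JJ_mul_h37 F hs ht hE (Un_O F (Un_inv F hu)) hzJ
    obtain ⟨a, b, c, habc, hd⟩ := h1
    have h2 : ∀ i, ((p : ℤ) : ℝ) + ((-q : ℤ) : ℝ) * F.θ i + ((0 : ℤ) : ℝ) * F.θ i ^ 2
        = a + b * F.θ i + c * F.θ i ^ 2 := by
      intro i
      have h3 : (u i)⁻¹ * z i = a + b * F.θ i + c * F.θ i ^ 2 := habc i
      rw [← h3, huz i, inv_mul_cancel_left₀ (hu0 i)]
      push_cast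
      ring
    obtain ⟨ha, hb, hc⟩ := O_coord_h37 F h2
    rw [← ha, ← hb, ← hc] at hd
    have e : p + -q * lM + 0 * lM ^ 2 = p - lM * q := by ring
    rwa [e] at hd
  have hH0 : H p q = 0 := R1check p q hpq (by rw [hH]; exact hh)
  rw [hH0, abs_zero] at hH
  subst hH
  obtain ⟨u', hu', m, hm⟩ := LH_zero F hLH'
  have hu'0 : ∀ i, u' i ≠ 0 := fun i => Un_ne F hu' i
  have hmE : EM ∣ m := by
    have h1 := JJ_mul_h37 F hs ht hE (Un_O F (Un_inv F hu')) hzJ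
    obtain ⟨a, b, c, habc, hd⟩ := h1
    have h2 : ∀ i, ((m : ℤ) : ℝ) + ((0 : ℤ) : ℝ) * F.θ i + ((0 : ℤ) : ℝ) * F.θ i ^ 2
        = a + b * F.θ i + c * F.θ i ^ 2 := by
      intro i
      have h3 : (u' i)⁻¹ * z i = a + b * F.θ i + c * F.θ i ^ 2 := habc i
      rw [← h3, hm i, mul_comm (m : ℝ), inv_mul_cancel_left₀ (hu'0 i)]
      push_cast
      ring
    obtain ⟨ha, hb, hc⟩ := O_coord_h37 F h2
    rw [← ha, ← hb, ← hc] at hd
    simpa using hd
  obtain ⟨k, rfl⟩ := hmE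
  have hEu : (fun i => (EM : ℝ) * u' i) ∈ JJ F.θ EM lM := by
    obtain ⟨a, b, c, habc⟩ := Un_O F hu'
    refine ⟨EM * a, EM * b, EM * c, fun i => ?_, ?_⟩
    · show (EM : ℝ) * u' i = _
      rw [habc i]; push_cast; ring
    · have : EM * a + EM * b * lM + EM * c * lM ^ 2 = EM * (a + b * lM + c * lM ^ 2) := by ring
      rw [this]
      exact dvd_mul_right _ _
  refine ⟨u', hu', k, hprim k _ hEu (fun i => ?_), fun i => ?_⟩
  · rw [hm i]; push_cast; ring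
  · rw [hm i]; push_cast; ring

theorem F2_root (F : Frame) (hs : F.s = -1) (ht : F.t = -1) (hn : 10 ^ 24 ≤ |F.n|) {d c : ℤ}
    (hE : EM ∣ FF (-1) (-1) F.n lM 1) (hl : IsLab (-1) (-1) F.n d c)
    (hq : Eqv (Lam F.θ d c) (JJ F.θ EM lM) (EM * d)) :
    F2 F.θ (Lam F.θ d c) d |(F.n : ℝ)| := by
  obtain ⟨w, hw0, hw, hwN⟩ := hq
  intro x hx hxN hRC
  exfalso
  have hEM : (EM : ℝ) = 100000007 := by unfold EM; norm_num
  have hpos : (0 : ℝ) ≤ |(F.n : ℝ)| := abs_nonneg _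
  have hP := Prim_Eqv hw0 hw hx
  have hN : |Nm (fun i => w i * x i)| ≤ 3 * EM * |(F.n : ℝ)| := by
    rw [Nm_mul'_h37, abs_mul, hwN]
    have : (EM : ℝ) * d * |Nm x| = EM * (d * |Nm x|) := by ring
    rw [this]
    have h1 : (EM : ℝ) * (d * |Nm x|) ≤ EM * (1.6 * |(F.n : ℝ)|) :=
      mul_le_mul_of_nonneg_left hxN (by rw [hEM]; norm_num)
    have h2 : 0 ≤ (EM : ℝ) * |(F.n : ℝ)| := mul_nonneg (by rw [hEM]; norm_num) hpos
    linarith
  obtain ⟨u, hu, k, hk, hz⟩ := root_core_h37 F hs ht hn hE hP hN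
  have hk2 : (k : ℝ) * k = 1 := by
    rcases hk with rfl | rfl <;> norm_num
  have h4 : |EM| ≤ 4 := by
    refine hRC EM fun y hy => ?_
    obtain ⟨a, b, e, habe⟩ := hy
    refine ⟨a + b * lM + e * lM ^ 2, fun i => (y i - ((a + b * lM + e * lM ^ 2 : ℤ) : ℝ)) * x i / EM,
      ?_, fun i => ?_⟩
    · rw [hw]
      have hyJ : (fun i => y i - ((a + b * lM + e * lM ^ 2 : ℤ) : ℝ)) ∈ JJ F.θ EM lM := by
        refine ⟨a - (a + b * lM + e * lM ^ 2), b, e, fun i => ?_, ?_⟩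
        · show y i - ((a + b * lM + e * lM ^ 2 : ℤ) : ℝ) = _
          rw [habe i]; push_cast; ring
        · have : a - (a + b * lM + e * lM ^ 2) + b * lM + e * lM ^ 2 = 0 := by ring
          rw [this]
          exact dvd_zero _
      have h1 := JJ_smul_h37 F k (JJ_mul_h37 F hs ht hE (Un_O F hu) hyJ)
      have e1 : (fun i => w i * ((y i - ((a + b * lM + e * lM ^ 2 : ℤ) : ℝ)) * x i / EM))
          = fun i => (k : ℝ) * (u i * (y i - ((a + b * lM + e * lM ^ 2 : ℤ) : ℝ))) := by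
        funext i
        have h2 : w i * x i = k * (EM * u i) := hz i
        have hEne : (EM : ℝ) ≠ 0 := by rw [hEM]; norm_num
        have h3 : w i * ((y i - ((a + b * lM + e * lM ^ 2 : ℤ) : ℝ)) * x i / EM)
            = (w i * x i) * (y i - ((a + b * lM + e * lM ^ 2 : ℤ) : ℝ)) / EM := by ring
        rw [h3, h2]
        field_simp
      rw [e1]
      exact h1
    · have hEne : (EM : ℝ) ≠ 0 := by rw [hEM]; norm_num
      field_simp
  unfold EM at h4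
  norm_num at h4

theorem root_label (F : Frame) (hs : F.s = -1) (ht : F.t = -1) (hn : 10 ^ 24 ≤ |F.n|) {d c : ℤ}
    (hE : EM ∣ FF (-1) (-1) F.n lM 1) (hl : IsLab (-1) (-1) F.n d c)
    (hq : Eqv (Lam F.θ d c) (JJ F.θ EM lM) (EM * d)) :
    3 * |F.n| < d := by
  obtain ⟨w, hw0, hw, hwN⟩ := hq
  by_contra hcon
  push Not at hcon
  have hEM : (EM : ℝ) = 100000007 := by unfold EM; norm_num
  have hEne : (EM : ℝ) ≠ 0 := by rw [hEM]; norm_num
  have hpos : (0 : ℝ) ≤ |(F.n : ℝ)| := abs_nonneg _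
  have hl' : IsLab F.s F.t F.n d c := by rw [hs, ht]; exact hl
  have hP := Prim_Eqv hw0 hw (prim_one F hl')
  have hN : |Nm (fun i => w i * (1 : ℝ))| ≤ 3 * EM * |(F.n : ℝ)| := by
    have e : (fun i => w i * (1 : ℝ)) = w := by funext i; ring
    rw [e, hwN]
    have h1 : (d : ℝ) ≤ 3 * |(F.n : ℝ)| := by
      have : ((d : ℤ) : ℝ) ≤ ((3 * |F.n| : ℤ) : ℝ) := by exact_mod_cast hcon
      push_cast at this
      exact this
    have h2 : (EM : ℝ) * d ≤ EM * (3 * |(F.n : ℝ)|) :=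
      mul_le_mul_of_nonneg_left h1 (by rw [hEM]; norm_num)
    linarith
  obtain ⟨u, hu, k, hk, hz⟩ := root_core_h37 F hs ht hn hE hP hN
  have hk0 : (k : ℝ) ≠ 0 := by
    rcases hk with rfl | rfl <;> norm_num
  have hk2 : (k : ℝ) * k = 1 := by
    rcases hk with rfl | rfl <;> norm_num
  have hu0 : ∀ i, u i ≠ 0 := fun i => Un_ne F hu i
  have hy1 : (fun i => (F.θ i - lM) / w i) ∈ Lam F.θ d c := by
    rw [hw]
    refine ⟨-lM, 1, 0, fun i => ?_, by simp⟩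
    field_simp [hw0 i]
    push_cast
    ring
  have hy2 := Lam_mul F (Un_O F hu) hy1
  obtain ⟨a, b, e, habe⟩ := hy2.2
  -- (θ - c) (θ - l) = k E (a + bθ + eθ²)
  have h3 : ∀ i, ((c * lM : ℤ) : ℝ) + ((-(c + lM) : ℤ) : ℝ) * F.θ i + ((1 : ℤ) : ℝ) * F.θ i ^ 2
      = ((k * EM * a : ℤ) : ℝ) + ((k * EM * b : ℤ) : ℝ) * F.θ i
        + ((k * EM * e : ℤ) : ℝ) * F.θ i ^ 2 := by
    intro i
    have h4 : (F.θ i - c) * (u i * ((F.θ i - lM) / w i)) = a + b * F.θ i + e * F.θ i ^ 2 := habe i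
    have h5 : w i = k * (EM * u i) := by
      have := hz i
      rw [mul_one] at this
      exact this
    rw [h5] at h4
    have hui := hu0 i
    have h6 : (F.θ i - c) * (u i * ((F.θ i - lM) / (k * (EM * u i))))
        = (F.θ i - c) * (F.θ i - lM) / (k * EM) := by
      field_simp
    rw [h6, div_eq_iff (mul_ne_zero hk0 hEne)] at h4
    push_cast
    linarith
  have h4 := (O_coord_h37 F h3).2.2
  have h5 : EM ∣ 1 := ⟨k * e, by rw [h4]; ring⟩
  have h6 := Int.eq_one_of_dvd_one (by unfold EM; norm_num) h5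
  unfold EM at h6
  norm_num at h6

end P2h37

end Pool.Agent.Lib_helper72.GC
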