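import Pool.Agent.Lib_helper72.GC.W4

/-!
# GC: block Q1, (F1) upstream
-/

set_option autoImplicit false

namespace Pool.Agent.Lib_helper72.GC

open Pool.Agent.Lib_helper83.CS

theorem F1_up (F : Frame) (hs : F.s = -1) (ht : F.t = -1) (hn : 10 ^ 24 ≤ |F.n|)
    {d0 c0 d c : ℤ} (hl0 : IsLab (-1) (-1) F.n d0 c0) (hl : IsLab (-1) (-1) F.n d c)
    (hd0 : 10 ^ 24 ≤ d0) (hd0' : 2 * d0 ≤ 3 * |F.n|) (hII : II F.θ (Lam F.θ d0 c0))
    (hq : Eqv (Lam F.θ d c) (Lam F.θ d0 c0) (d / d0)) :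
    Pool.Agent.Lib_helper72.GC.F1 F.θ (Lam F.θ d c) d := by
  obtain ⟨w, hw, hwL, hwN⟩ := hq
  intro v h hv hv0 hvL
  by_contra hcon
  push Not at hcon
  have hdpos : (0 : ℝ) < d := by exact_mod_cast hl.1
  have hd0pos : (0 : ℝ) < d0 := by exact_mod_cast hl0.1
  have hE0 : ((E0 : ℤ) : ℝ) = 6 * 10 ^ 7 := by norm_num [E0]
  have hH0 : ((H0 : ℤ) : ℝ) = 10 ^ 8 := by norm_num [H0]
  have hnR : (10 : ℝ) ^ 24 ≤ |(F.n : ℝ)| := by exact_mod_cast hn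
  have hd0R : (10 : ℝ) ^ 24 ≤ d0 := by exact_mod_cast hd0
  have hd0R' : 2 * (d0 : ℝ) ≤ 3 * |(F.n : ℝ)| := by exact_mod_cast hd0'
  -- the quotient `γ = v / w`
  obtain ⟨γ, hγ⟩ : ∃ γ : V, γ = fun i => v i / w i := ⟨_, rfl⟩
  have hγ0 : ∀ i, γ i ≠ 0 := fun i => by rw [hγ]; exact div_ne_zero (hv0 i) (hw i)
  have hγw : ∀ i, γ i * w i = v i := fun i => by rw [hγ]; exact div_mul_cancel₀ _ (hw i)
  have hγL : ∀ y ∈ Lam F.θ d0 c0, (fun i => γ i * y i) ∈ O F.θ := by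
    intro y hy
    have h1 : (fun i => y i / w i) ∈ Lam F.θ d c := by
      rw [hwL]
      have : (fun i => w i * ((fun i => y i / w i) i)) = y := by
        funext i
        exact mul_div_cancel₀ _ (hw i)
      rw [this]
      exact hy
    have h2 := hvL _ h1
    have h3 : (fun i => γ i * y i) = fun i => v i * ((fun i => y i / w i) i) := by
      funext i
      rw [hγ]
      ring
    rw [h3]
    exact h2
  have h1L : (fun _ => (1 : ℝ)) ∈ Lam F.θ d0 c0 := O_sub_Lam F (Un_O F (Un_one _))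
  have hγO : γ ∈ O F.θ := by
    have := hγL _ h1L
    simpa using this
  have hNmul : |Nm γ| * |Nm w| = |Nm v| := by
    rw [← abs_mul]
    congr 1
    unfold Nm
    rw [← hγw 0, ← hγw 1, ← hγw 2]
    ring
  have hNγ : |Nm γ| ≤ 6 * 10 ^ 7 * d0 := by
    rw [hwN] at hNmul
    have h1 : |Nm γ| * (d / d0) ≤ 6 * 10 ^ 7 * d := by
      rw [hNmul, ← hE0]; exact hcon
    have h2 : |Nm γ| * (d / d0) = |Nm γ| * d / d0 := by ring
    rw [h2, div_le_iff₀ hd0pos] at h1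
    have h3 : |Nm γ| * d ≤ (6 * 10 ^ 7 * d0) * d := by linarith
    exact le_of_mul_le_mul_right h3 hdpos
  have hNn : |Nm γ| ≤ 9 * 10 ^ 7 * |(F.n : ℝ)| := by linarith
  have hNn2 : |Nm γ| ≤ (F.n : ℝ) ^ 2 / 10 ^ 6 := by
    rw [← sq_abs (F.n : ℝ)]
    have : 9 * 10 ^ 7 * |(F.n : ℝ)| ≤ |(F.n : ℝ)| ^ 2 / 10 ^ 6 := by
      rw [le_div_iff₀ (by positivity)]
      nlinarith
    linarith
  obtain ⟨h', hLH, hh'⟩ := SN F (by omega) γ hγO hγ0 hNn2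
  have hnpos : 0 < |(F.n : ℝ)| := by linarith
  have hh0 : h' ≤ H0 := by
    have h1 : (0.9 * h') * |(F.n : ℝ)| ≤ (9 * 10 ^ 7) * |(F.n : ℝ)| := by linarith
    have h2 := le_of_mul_le_mul_right h1 hnpos
    have h3 : (h' : ℝ) ≤ (H0 : ℤ) := by rw [hH0]; linarith
    exact_mod_cast h3
  have hz := hII γ h' hLH hγL hh0
  rw [hz] at hLH
  obtain ⟨u, hu, m, hm⟩ := LH_zero F hLH
  have hu1 := Un_O F (Un_inv F hu)
  have hmL : ∀ x ∈ Lam F.θ d0 c0, (fun i => ((m : ℤ) - (0 : ℤ) * F.θ i) * x i) ∈ O F.θ := by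
    intro x hx
    have h1 := O_mul F hu1 (hγL x hx)
    have h2 : (fun i => ((m : ℤ) - (0 : ℤ) * F.θ i) * x i) = fun i => (u i)⁻¹ * (γ i * x i) := by
      funext i
      rw [hm i]
      have := Un_ne F hu i
      push_cast
      field_simp
      ring
    rw [h2]
    exact h1
  have hl0' : IsLab F.s F.t F.n d0 c0 := by rw [hs, ht]; exact hl0
  have hdvd := (lin_Lam F hl0' m 0).1 hmL
  simp only [mul_zero, sub_zero] at hdvd
  have hm0 : m ≠ 0 := by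
    rintro rfl
    apply hγ0 0
    rw [hm 0]
    simp
  have hle : d0 ≤ |m| := Int.le_of_dvd (abs_pos.2 hm0) ((dvd_abs _ _).2 hdvd)
  have hleR : (d0 : ℝ) ≤ |(m : ℝ)| := by exact_mod_cast hle
  have hNm : |Nm γ| = |(m : ℝ)| ^ 3 := by
    have h1 : Nm γ = (m : ℝ) ^ 3 * Nm u := by
      unfold Nm
      rw [hm 0, hm 1, hm 2]
      ring
    rw [h1, abs_mul, Un_Nm F hu, mul_one, abs_pow]
  rw [hNm] at hNγ
  have h3 : (d0 : ℝ) ^ 3 ≤ |(m : ℝ)| ^ 3 := pow_le_pow_left₀ hd0pos.le hleR 3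
  have h4 : (6 * 10 ^ 7 : ℝ) * d0 < d0 ^ 3 := by
    have : (d0 : ℝ) ^ 3 = d0 ^ 2 * d0 := by ring
    rw [this]
    apply mul_lt_mul_of_pos_right _ hd0pos
    nlinarith
  linarith

end Pool.Agent.Lib_helper72.GC
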