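import Pool.Agent.Lib_helper72.GC.W4

set_option autoImplicit false

namespace Pool.Agent.Lib_helper72.GC

open Pool.Agent.Lib_helper83.CS

theorem q2h55_scale (F : Frame) {d c : ℤ} {x : V} (a : ℤ) (hx : x ∈ Lam F.θ d c) :
    (fun i => (a : ℝ) * x i) ∈ Lam F.θ d c := by
  have h1 : (fun _ : Fin 3 => (a : ℝ)) ∈ O F.θ := ⟨a, 0, 0, fun i => by simp⟩
  exact Lam_mul F h1 hx

theorem q2h55_const (F : Frame) {d c : ℤ} (a : ℤ) : (fun _ : Fin 3 => (a : ℝ)) ∈ Lam F.θ d c :=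
  O_sub_Lam F ⟨a, 0, 0, fun i => by simp⟩

theorem q2h55_th_mem (F : Frame) : F.θ ∈ O F.θ := ⟨0, 1, 0, fun i => by simp⟩

/-- If `X` is primitive, `b X ∈ g Lam` and `b, g` are coprime, then `g = ± 1`. -/
theorem q2h55_prim (F : Frame) {d c : ℤ} {X z : V} {b g : ℤ} (hX : Prim (Lam F.θ d c) X)
    (hz : z ∈ Lam F.θ d c) (h : ∀ i, (b : ℝ) * X i = g * z i) (hbg : IsCoprime b g) :
    g = 1 ∨ g = -1 := by
  obtain ⟨α, β, hab⟩ := hbg
  have hab' : (α : ℝ) * b + β * g = 1 := by exact_mod_cast hab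
  refine hX.2 g (fun i => α * z i + β * X i)
    (Lam_add (q2h55_scale F α hz) (q2h55_scale F β hX.1)) (fun i => ?_)
  have h1 := h i
  linear_combination (-(X i)) * hab' + (α : ℝ) * h1

/-- The cofactor `r` is small. -/
theorem q2h55_r (F : Frame) {d c : ℤ} {X : V} {p q r : ℤ} (hpq : IsCoprime p q)
    (hX : Prim (Lam F.θ d c) X) (hRC : RC F.θ (Lam F.θ d c) X)
    (h : ∀ i, X i * (p - q * F.θ i) = r) : |r| ≤ 4 := by
  have hth : (fun i => F.θ i * X i) ∈ Lam F.θ d c := Lam_mul F (q2h55_th_mem F) hX.1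
  -- q and r are coprime
  have hqr : IsCoprime q r := by
    have h1 : (Int.gcd q r : ℤ) = 1 ∨ (Int.gcd q r : ℤ) = -1 := by
      obtain ⟨q', hq'⟩ : (Int.gcd q r : ℤ) ∣ q := Int.gcd_dvd_left ..
      obtain ⟨r', hr'⟩ : (Int.gcd q r : ℤ) ∣ r := Int.gcd_dvd_right ..
      have hq2 : (q : ℝ) = (Int.gcd q r : ℤ) * q' := by exact_mod_cast hq'
      have hr2 : (r : ℝ) = (Int.gcd q r : ℤ) * r' := by exact_mod_cast hr'
      refine q2h55_prim F hX (z := fun i => r' + q' * (F.θ i * X i)) (b := p)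
        (Lam_add (q2h55_const F r') (q2h55_scale F q' hth)) (fun i => ?_) ?_
      · have h2 := h i
        linear_combination h2 + F.θ i * X i * hq2 + hr2
      · exact IsCoprime.of_isCoprime_of_dvd_right hpq (Int.gcd_dvd_left ..)
    rw [Int.isCoprime_iff_gcd_eq_one]
    omega
  obtain ⟨α, β, hab⟩ := hqr
  have hab' : (α : ℝ) * q + β * r = 1 := by exact_mod_cast hab
  -- the residue: `s = p α`
  apply hRC r
  have hmain : ∃ z ∈ Lam F.θ d c, ∀ i, (F.θ i - (p * α : ℤ)) * X i = r * z i := by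
    refine ⟨fun i => ((-α : ℤ) : ℝ) + (β : ℝ) * (F.θ i * X i), ?_, fun i => ?_⟩
    · exact Lam_add (q2h55_const F (-α)) (q2h55_scale F β hth)
    · have h2 := h i
      push_cast
      linear_combination (-(F.θ i * X i)) * hab' - (α : ℝ) * h2
  obtain ⟨z, hz, hz'⟩ := hmain
  rintro y ⟨A, B, C, hy⟩
  refine ⟨A + B * (p * α) + C * (p * α) ^ 2, fun i => (B + C * (F.θ i + (p * α : ℤ))) * z i, ?_,
    fun i => ?_⟩
  · have h3 : (fun i => ((B : ℝ) + C * (F.θ i + (p * α : ℤ)))) ∈ O F.θ :=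
      ⟨B + C * (p * α), C, 0, fun i => by push_cast; ring⟩
    exact Lam_mul F h3 hz
  · have h3 := hz' i
    rw [hy i]
    push_cast at h3 ⊢
    linear_combination (B + C * (F.θ i + p * α)) * h3

/-- Divisibilities by the norm of `p - q θ`. -/
theorem q2h55_dvd (F : Frame) {d c : ℤ} {X : V} {p q r : ℤ} (hpq : IsCoprime p q)
    (hX : X ∈ Lam F.θ d c) (h : ∀ i, X i * (p - q * F.θ i) = r) :
    FF F.s F.t F.n p q ∣ r * d ∧ FF F.s F.t F.n p q ∣ r * (p - c * q) := by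
  constructor
  · refine lin_O_int F p q (r * d) hpq hX.1 (fun i => ?_)
    have h1 := h i
    push_cast
    linear_combination (-(d : ℝ)) * h1
  · refine lin_O_int F p q (r * (p - c * q)) hpq (z := fun i => r + q * ((F.θ i - c) * X i))
      (O_add ⟨r, 0, 0, fun i => by simp⟩ (O_smul q hX.2)) (fun i => ?_)
    have h1 := h i
    push_cast
    linear_combination (-((p : ℝ) - c * q)) * h1 + (p - q * F.θ i) * h1

/-- a linear associate of a linear element with coprime coefficients has coprime coefficients -/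
theorem q2h55_coprime (F : Frame) {p q P Q : ℤ} {u : V} (hpq : IsCoprime p q) (hu : u ∈ Un F.θ)
    (h : ∀ i, (p : ℝ) - q * F.θ i = u i * (P - Q * F.θ i)) : IsCoprime P Q := by
  rw [Int.isCoprime_iff_gcd_eq_one]
  obtain ⟨P', hP'⟩ : (Int.gcd P Q : ℤ) ∣ P := Int.gcd_dvd_left ..
  obtain ⟨Q', hQ'⟩ : (Int.gcd P Q : ℤ) ∣ Q := Int.gcd_dvd_right ..
  set g : ℤ := (Int.gcd P Q : ℤ) with hg
  have hP2 : (P : ℝ) = g * P' := by exact_mod_cast hP'
  have hQ2 : (Q : ℝ) = g * Q' := by exact_mod_cast hQ'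
  obtain ⟨A, B, C, hz⟩ := O_mul F (Un_O F hu) (O_lin (θ := F.θ) P' Q')
  have h1 : ∀ i, ((p : ℝ) - g * A) + (-(q : ℝ) - g * B) * F.θ i + (-(g * C : ℝ)) * F.θ i ^ 2 = 0 := by
    intro i
    have h2 := h i
    have h3 := hz i
    simp only at h3
    rw [hP2, hQ2] at h2
    linear_combination h2 + (g : ℝ) * h3
  obtain ⟨h2, h3, -⟩ := O_indep F _ _ _ h1
  have h4 : p = g * A := by
    have : (p : ℝ) = g * A := by linarith
    exact_mod_cast this
  have h5 : q = g * (-B) := by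
    have : (q : ℝ) = g * (-B) := by linarith
    exact_mod_cast this
  have h6 : IsUnit g := hpq.isUnit_of_dvd' ⟨A, h4⟩ ⟨-B, h5⟩
  rw [Int.isUnit_iff] at h6
  omega

/-- the statement for coprime coefficients -/
theorem q2h55_main (F : Frame) (hs : F.s = -1) (ht : F.t = -1) (hn : 10 ^ 24 ≤ |F.n|)
    {d0 c0 : ℤ} (hl0 : IsLab (-1) (-1) F.n d0 c0)
    (hd0 : 10 ^ 24 ≤ d0) (hd0' : 2 * d0 ≤ 3 * |F.n|) (hII : II F.θ (Lam F.θ d0 c0))
    {X : V} {p q r : ℤ} (hpq : IsCoprime p q) (hX : Prim (Lam F.θ d0 c0) X)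
    (hRC : RC F.θ (Lam F.θ d0 c0) X) (hne : ∀ i, (p : ℝ) - q * F.θ i ≠ 0)
    (h : ∀ i, X i * (p - q * F.θ i) = r) : X ∈ Un F.θ := by
  have hl : IsLab F.s F.t F.n d0 c0 := by rw [hs, ht]; exact hl0
  have hr4 := q2h55_r F hpq hX hRC h
  have hr0 : r ≠ 0 := by
    rintro rfl
    have h0 : ∀ i, X i = 0 := by
      intro i
      have h1 := h i
      rw [Int.cast_zero] at h1
      rcases mul_eq_zero.1 h1 with h2 | h2
      · exact h2
      · exact absurd h2 (hne i)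
    have := hX.2 2 (fun _ => 0) (by simpa using q2h55_const F (d := d0) (c := c0) 0)
      (fun i => by rw [h0 i]; simp)
    omega
  have hnR : (10 : ℝ) ^ 24 ≤ |(F.n : ℝ)| := by exact_mod_cast hn
  have hd0R : (2 : ℝ) * d0 ≤ 3 * |(F.n : ℝ)| := by exact_mod_cast hd0'
  have hd0pos : (0 : ℝ) < d0 := by
    have : (10 : ℤ) ^ 24 ≤ d0 := hd0
    have h2 : (0 : ℤ) < d0 := lt_of_lt_of_le (by norm_num) this
    exact_mod_cast h2
  have hr4R : |(r : ℝ)| ≤ 4 := by exact_mod_cast hr4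
  -- first norm bound
  have hd1 := (q2h55_dvd F hpq hX.1 h).1
  have hrd : r * d0 ≠ 0 := mul_ne_zero hr0 (by
    intro h0
    rw [h0] at hd0pos
    simp at hd0pos)
  have hb1 : |(FF F.s F.t F.n p q : ℝ)| ≤ 6 * |(F.n : ℝ)| := by
    have h1 : |FF F.s F.t F.n p q| ≤ |r * d0| := Int.le_of_dvd (abs_pos.2 hrd) ((abs_dvd_abs _ _).2 hd1)
    have h2 : |(FF F.s F.t F.n p q : ℝ)| ≤ |(r : ℝ)| * d0 := by
      have h3 : |(FF F.s F.t F.n p q : ℝ)| ≤ |(r : ℝ) * d0| := by exact_mod_cast h1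
      rwa [abs_mul, abs_of_pos hd0pos] at h3
    nlinarith [abs_nonneg (r : ℝ)]
  have hNm : |Nm (fun i => (p : ℝ) - q * F.θ i)| ≤ (F.n : ℝ) ^ 2 / 10 ^ 6 := by
    rw [Nm_lin, ← sq_abs (F.n : ℝ)]
    refine hb1.trans ?_
    rw [le_div_iff₀ (by norm_num)]
    nlinarith [abs_nonneg (F.n : ℝ)]
  obtain ⟨k, hk, hk2⟩ := SN F (le_trans (by norm_num) hn) _ (O_lin p q) hne hNm
  rw [Nm_lin] at hk2
  by_cases hk0 : k = 0
  · -- a unit
    rw [hk0] at hk
    obtain ⟨u, hu, m, hm⟩ := LH_zero F hk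
    have hm0 : m ≠ 0 := by
      rintro rfl
      exact hne 0 (by rw [hm 0]; simp)
    have hXu : (fun i => u i * X i) ∈ Lam F.θ d0 c0 := Lam_mul F (Un_O F hu) hX.1
    obtain ⟨r'', hr''⟩ := Lam_rat F hl hXu hm0 (r := r) (fun i => by
      have h1 := h i
      have h2 : (p : ℝ) - q * F.θ i = m * u i := hm i
      rw [h2] at h1
      linear_combination h1)
    have hmR : (m : ℝ) ≠ 0 := by exact_mod_cast hm0
    have h3 : ∀ i, X i = r'' * (u i)⁻¹ := by
      intro i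
      have h1 := h i
      have h2 : (p : ℝ) - q * F.θ i = m * u i := hm i
      have hui := Un_ne F hu i
      rw [h2, hr''] at h1
      push_cast at h1
      have h4 : X i * u i = r'' := by
        apply mul_left_cancel₀ hmR
        linear_combination h1
      rw [← h4]
      field_simp
    have h4 := hX.2 r'' (fun i => (u i)⁻¹) (O_sub_Lam F (Un_O F (Un_inv F hu))) h3
    rcases h4 with h5 | h5
    · have h6 : X = fun i => (u i)⁻¹ := by
        funext i
        rw [h3 i, h5]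
        simp
      rw [h6]
      exact Un_inv F hu
    · have h6 : X = fun i => -(u i)⁻¹ := by
        funext i
        rw [h3 i, h5]
        simp
      rw [h6]
      exact Un_neg (Un_inv F hu)
  · -- contradiction with (II)
    exfalso
    obtain ⟨hkn, hke⟩ := LH_even hk
    have hk2' : 2 ≤ k := by
      obtain ⟨j, hj⟩ := hke
      omega
    obtain ⟨u, hu, P, Q, hPQ, hH⟩ := hk
    have hcop := q2h55_coprime F hpq hu hPQ
    have hX2 : (fun i => u i * X i) ∈ Lam F.θ d0 c0 := Lam_mul F (Un_O F hu) hX.1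
    have h1 : ∀ i, (fun i => u i * X i) i * (P - Q * F.θ i) = r := by
      intro i
      have h2 := h i
      have h3 := hPQ i
      simp only at h3 ⊢
      rw [h3] at h2
      linear_combination h2
    obtain ⟨⟨a, ha⟩, ⟨b, hb⟩⟩ := q2h55_dvd F hcop hX2 h1
    -- the norms of the two linear elements agree up to sign
    have hnorm : |(FF F.s F.t F.n P Q : ℝ)| = |(FF F.s F.t F.n p q : ℝ)| := by
      rw [← Nm_lin, ← Nm_lin]
      have h2 : Nm (fun i => (p : ℝ) - q * F.θ i) = Nm u * Nm (fun i => (P : ℝ) - Q * F.θ i) := by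
        unfold Nm
        have e0 : (p : ℝ) - q * F.θ 0 = u 0 * (P - Q * F.θ 0) := hPQ 0
        have e1 : (p : ℝ) - q * F.θ 1 = u 1 * (P - Q * F.θ 1) := hPQ 1
        have e2 : (p : ℝ) - q * F.θ 2 = u 2 * (P - Q * F.θ 2) := hPQ 2
        show ((p : ℝ) - q * F.θ 0) * (p - q * F.θ 1) * (p - q * F.θ 2) = _
        rw [e0, e1, e2]
        ring
      rw [h2, abs_mul, Un_Nm F hu, one_mul]
    have hFlow : 1.8 * |(F.n : ℝ)| ≤ |(FF F.s F.t F.n P Q : ℝ)| := by
      rw [hnorm]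
      refine le_trans ?_ hk2
      have : (2 : ℝ) ≤ k := by exact_mod_cast hk2'
      nlinarith [abs_nonneg (F.n : ℝ)]
    have hFpos : (0 : ℝ) < |(FF F.s F.t F.n P Q : ℝ)| := by
      have : (0 : ℝ) < |(F.n : ℝ)| := lt_of_lt_of_le (by norm_num) hnR
      linarith
    have haR : |(FF F.s F.t F.n P Q : ℝ)| * |(a : ℝ)| = |(r : ℝ)| * d0 := by
      have h2 : (r : ℝ) * d0 = FF F.s F.t F.n P Q * a := by exact_mod_cast ha
      rw [← abs_mul, ← h2, abs_mul, abs_of_pos hd0pos]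
    have ha3 : |a| ≤ 3 := by
      by_contra hcon
      have h2 : 4 ≤ |a| := by omega
      have h3 : (4 : ℝ) ≤ |(a : ℝ)| := by exact_mod_cast h2
      have h4 : 7.2 * |(F.n : ℝ)| ≤ |(FF F.s F.t F.n P Q : ℝ)| * |(a : ℝ)| := by nlinarith
      have h5 : |(r : ℝ)| * d0 ≤ 6 * |(F.n : ℝ)| := by nlinarith [abs_nonneg (r : ℝ)]
      have h6 : (0 : ℝ) < |(F.n : ℝ)| := lt_of_lt_of_le (by norm_num) hnR
      linarith
    have ha0 : a ≠ 0 := by
      rintro rfl
      rw [mul_zero] at ha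
      exact hrd ha
    have hdv : d0 ∣ a * P - c0 * (a * Q) := by
      refine ⟨b, ?_⟩
      apply mul_left_cancel₀ hr0
      linear_combination a * hb - b * ha
    have hLH := LH_lin F.θ (a * P) (a * Q)
    have hin := (lin_Lam F hl (a * P) (a * Q)).2 hdv
    have hHab : |H (a * P) (a * Q)| = |a| ^ 3 * k := by
      rw [← hH, ← abs_pow, ← abs_mul]
      congr 1
      unfold H
      ring
    have hk6 : k ≤ 6 := by
      by_contra hcon
      have h2 : (7 : ℝ) ≤ k := by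
        have : 7 ≤ k := by omega
        exact_mod_cast this
      have h6 : (0 : ℝ) < |(F.n : ℝ)| := lt_of_lt_of_le (by norm_num) hnR
      have h3 : 6.3 * |(F.n : ℝ)| ≤ |(FF F.s F.t F.n p q : ℝ)| := by
        refine le_trans ?_ hk2
        nlinarith
      linarith
    have hbound : |H (a * P) (a * Q)| ≤ H0 := by
      rw [hHab]
      have h2 : |a| ^ 3 ≤ 3 ^ 3 := pow_le_pow_left₀ (abs_nonneg a) ha3 3
      have h3 : |a| ^ 3 * k ≤ 3 ^ 3 * 6 := mul_le_mul h2 hk6 hkn (by norm_num)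
      refine h3.trans ?_
      unfold H0
      norm_num
    have hz := hII _ _ hLH hin hbound
    rw [hHab] at hz
    rcases mul_eq_zero.1 hz with h2 | h2
    · exact ha0 (abs_eq_zero.1 (pow_eq_zero_iff (by norm_num) |>.1 h2))
    · exact hk0 h2

theorem caseB (F : Frame) (hs : F.s = -1) (ht : F.t = -1) (hn : 10 ^ 24 ≤ |F.n|)
    {d0 c0 : ℤ} (hl0 : IsLab (-1) (-1) F.n d0 c0)
    (hd0 : 10 ^ 24 ≤ d0) (hd0' : 2 * d0 ≤ 3 * |F.n|) (hII : II F.θ (Lam F.θ d0 c0))
    {x v : V} {h r : ℤ} (hx : Prim (Lam F.θ d0 c0) x) (hRC : RC F.θ (Lam F.θ d0 c0) x)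
    (hv : LH F.θ v h) (hv0 : ∀ i, v i ≠ 0) (hr : ∀ i, x i * v i = r) : x ∈ Un F.θ := by
  have hl : IsLab F.s F.t F.n d0 c0 := by rw [hs, ht]; exact hl0
  obtain ⟨u, hu, p, q, hpq, -⟩ := hv
  -- reduce to coprime coefficients
  have hpq0 : ¬ (p = 0 ∧ q = 0) := by
    rintro ⟨rfl, rfl⟩
    exact hv0 0 (by rw [hpq 0]; simp)
  have hg0 : (Int.gcd p q : ℤ) ≠ 0 := by
    intro h0
    exact hpq0 (Int.gcd_eq_zero_iff.1 (by exact_mod_cast h0))
  obtain ⟨p', hp'⟩ : (Int.gcd p q : ℤ) ∣ p := Int.gcd_dvd_left ..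
  obtain ⟨q', hq'⟩ : (Int.gcd p q : ℤ) ∣ q := Int.gcd_dvd_right ..
  have hcop : IsCoprime p' q' := by
    obtain ⟨α, β, hab⟩ : ∃ α β : ℤ, α * p + β * q = (Int.gcd p q : ℤ) :=
      ⟨Int.gcdA p q, Int.gcdB p q, by rw [Int.gcd_eq_gcd_ab]; ring⟩
    refine ⟨α, β, mul_left_cancel₀ hg0 ?_⟩
    linear_combination hab - α * hp' - β * hq'
  set g : ℤ := (Int.gcd p q : ℤ) with hg
  have hp2 : (p : ℝ) = g * p' := by exact_mod_cast hp'
  have hq2 : (q : ℝ) = g * q' := by exact_mod_cast hq'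
  have hgR : (g : ℝ) ≠ 0 := by exact_mod_cast hg0
  have hX : Prim (Lam F.θ d0 c0) (fun i => u i * x i) := Prim_unit F hu hx
  have hXl : (fun i => (p' - q' * F.θ i) * (fun i => u i * x i) i) ∈ Lam F.θ d0 c0 :=
    Lam_mul F (O_lin p' q') hX.1
  obtain ⟨r', hr'⟩ := Lam_rat F hl hXl hg0 (r := r) (fun i => by
    have h1 := hr i
    rw [hpq i, hp2, hq2] at h1
    simp only
    linear_combination h1)
  have hr2 : (r : ℝ) = g * r' := by exact_mod_cast hr'
  have hRC' : RC F.θ (Lam F.θ d0 c0) (fun i => u i * x i) := by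
    intro k hk
    apply hRC k
    intro y hy
    obtain ⟨m, z, hz, hz'⟩ := hk y hy
    refine ⟨m, fun i => (u i)⁻¹ * z i, Lam_mul F (Un_O F (Un_inv F hu)) hz, fun i => ?_⟩
    have hui := Un_ne F hu i
    have h1 := hz' i
    simp only at h1
    have h2 : (y i - m) * x i = (u i)⁻¹ * ((y i - m) * (u i * x i)) := by
      field_simp
    rw [h2, h1]
    ring
  have hmain : (fun i => u i * x i) ∈ Un F.θ := by
    refine q2h55_main F hs ht hn hl0 hd0 hd0' hII (r := r') hcop hX hRC' (fun i h0 => ?_) (fun i => ?_)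
    · apply hv0 i
      rw [hpq i, hp2, hq2]
      linear_combination (u i * g) * h0
    · have h1 := hr i
      rw [hpq i, hp2, hq2, hr2] at h1
      apply mul_left_cancel₀ hgR
      linear_combination h1
  have h1 := Un_mul F (Un_inv F hu) hmain
  convert h1 using 1
  funext i
  have hui := Un_ne F hu i
  field_simp

end Pool.Agent.Lib_helper72.GC
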