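import Pool.Agent.Lib_helper72.GC.W3

/-!
# GC, block S1: elements of small norm
-/

set_option autoImplicit false

namespace Pool.Agent.Lib_helper72.GC

open Pool.Agent.Lib_helper83.CS

theorem s1_cube {A B C N P : ℝ} (hA : 0 ≤ A) (hB : 0 ≤ B) (hN : 0 < N)
    (h1 : A ≤ 1.001 * N * B) (h2 : A ≤ 1.001 * N * C)
    (h3 : A * B * C * N ^ 4 ≤ 1.0001 * P) (h4 : P ≤ N ^ 2 / 10 ^ 6) : A ≤ 0.01001 := by
  by_contra hlt
  push Not at hlt
  have h5 : A * A ≤ (1.001 * N * B) * (1.001 * N * C) :=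
    mul_le_mul h1 h2 hA (by positivity)
  have h6 : A * (A * A) ≤ A * ((1.001 * N * B) * (1.001 * N * C)) :=
    mul_le_mul_of_nonneg_left h5 hA
  have h7 : A * (A * A) * N ^ 2 ≤ 1.001 ^ 2 * (1.0001 * (N ^ 2 / 10 ^ 6)) := by
    calc A * (A * A) * N ^ 2 ≤ A * ((1.001 * N * B) * (1.001 * N * C)) * N ^ 2 :=
          mul_le_mul_of_nonneg_right h6 (by positivity)
      _ = 1.001 ^ 2 * (A * B * C * N ^ 4) := by ring
      _ ≤ 1.001 ^ 2 * (1.0001 * (N ^ 2 / 10 ^ 6)) := by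
          refine mul_le_mul_of_nonneg_left ?_ (by norm_num)
          linarith
  have hN2 : 0 < N ^ 2 := by positivity
  have h8 : A * (A * A) ≤ 1.001 ^ 2 * (1.0001 / 10 ^ 6) := by
    have : A * (A * A) * N ^ 2 ≤ 1.001 ^ 2 * (1.0001 / 10 ^ 6) * N ^ 2 := by
      calc _ ≤ _ := h7
        _ = _ := by ring
    exact le_of_mul_le_mul_right this hN2
  have h9 : (0.01001 : ℝ) * 0.01001 < A * A := by nlinarith
  have h10 : (0.01001 : ℝ) * (0.01001 * 0.01001) < A * (A * A) := by nlinarith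
  norm_num at h8 h10
  linarith

/-- Lagrange interpolation: the leading coefficient. -/
theorem s1_lag (F : Frame) (a b c : ℝ) :
    ∑ i, (a + b * F.θ i + c * F.θ i ^ 2) / fd F.θ i = c := by
  have h0 := fd_ne F 0
  have h1 := fd_ne F 1
  have h2 := fd_ne F 2
  have e0 : fd F.θ 0 = (F.θ 0 - F.θ 1) * (F.θ 0 - F.θ 2) := rfl
  have e1 : fd F.θ 1 = (F.θ 1 - F.θ 2) * (F.θ 1 - F.θ 0) := rfl
  have e2 : fd F.θ 2 = (F.θ 2 - F.θ 0) * (F.θ 2 - F.θ 1) := rfl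
  rw [e0] at h0
  rw [e1] at h1
  rw [e2] at h2
  have k01 := left_ne_zero_of_mul h0
  have k02 := right_ne_zero_of_mul h0
  have k12 := left_ne_zero_of_mul h1
  rw [Fin.sum_univ_three, e0, e1, e2, show F.θ 1 - F.θ 0 = -(F.θ 0 - F.θ 1) by ring,
    show F.θ 2 - F.θ 0 = -(F.θ 0 - F.θ 2) by ring, show F.θ 2 - F.θ 1 = -(F.θ 1 - F.θ 2) by ring]
  field_simp
  ring

theorem s1_abs (θ y : V) (i : Fin 3) (h : fd θ i ≠ 0) : |y i| = am θ y i * |fd θ i| := by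
  unfold am
  rw [abs_div, div_mul_cancel₀ _ (abs_ne_zero.2 h)]

theorem s1_main (F : Frame) {N : ℝ} (hN20 : (10 : ℝ) ^ 20 ≤ N) (y : V) (p q : ℤ)
    (hy : ∀ i, y i = p - q * F.θ i)
    (hs : |F.θ (F.e 1)| * N ≤ 1 + 10 / N ∧ |F.θ (F.e 2) - 1| * N ≤ 1 + 10 / N)
    (hs0 : N - 1.001 ≤ |F.θ (F.e 0)|)
    (h1 : |y (F.e 1)| ≤ 0.010012 * N) (h2 : |y (F.e 2)| ≤ 0.010012 * N) :
    0.9 * N * (|H p q| : ℤ) ≤ |Nm y| := by
  have hN0 : 0 < N := by linarith [show (0 : ℝ) < 10 ^ 20 by norm_num]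
  have hNb : (10 : ℝ) ^ 6 ≤ N := le_trans (by norm_num) hN20
  have hNm : Nm y = y (F.e 0) * y (F.e 1) * y (F.e 2) := by
    have e1 : Nm y = ∏ i, y i := by rw [Fin.prod_univ_three]; rfl
    rw [e1, ← Equiv.prod_comp F.e, Fin.prod_univ_three]
  by_cases hH : H p q = 0
  · rw [hH, abs_zero, Int.cast_zero, mul_zero]
    exact abs_nonneg _
  have hH' : p * q * (p - q) ≠ 0 := hH
  have hp : p ≠ 0 := fun h => hH' (by rw [h]; ring)
  have hq : q ≠ 0 := fun h => hH' (by rw [h]; ring)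
  have hpq : p - q ≠ 0 := fun h => hH' (by rw [h]; ring)
  have hp1 : (1 : ℝ) ≤ |(p : ℝ)| := by exact_mod_cast Int.one_le_abs hp
  have hq1 : (1 : ℝ) ≤ |(q : ℝ)| := by exact_mod_cast Int.one_le_abs hq
  have hpq1 : (1 : ℝ) ≤ |(p : ℝ) - q| := by exact_mod_cast Int.one_le_abs hpq
  have ht : 10 / N ≤ 0.0001 := by
    rw [div_le_iff₀ hN0]
    linarith
  have t1 : |F.θ (F.e 1)| * N ≤ 1.0001 := by linarith [hs.1]
  have t2 : |F.θ (F.e 2) - 1| * N ≤ 1.0001 := by linarith [hs.2]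
  have y1 := hy (F.e 1)
  have y2 := hy (F.e 2)
  have y0 := hy (F.e 0)
  -- `θ₂ - θ₁` is near `1`
  have s1 : |F.θ (F.e 1)| ≤ 0.00001 := by
    by_contra hc
    push Not at hc
    nlinarith
  have s2 : |F.θ (F.e 2) - 1| ≤ 0.00001 := by
    by_contra hc
    push Not at hc
    nlinarith
  have hdif : 0.9999 ≤ |F.θ (F.e 2) - F.θ (F.e 1)| := by
    have a1 := abs_le.1 s1
    have a2 := abs_le.1 s2
    rw [le_abs]
    left
    linarith [a1.1, a1.2, a2.1, a2.2]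
  have hq2 : |(q : ℝ)| * |F.θ (F.e 2) - F.θ (F.e 1)| ≤ 0.020024 * N := by
    rw [← abs_mul]
    have e : (q : ℝ) * (F.θ (F.e 2) - F.θ (F.e 1)) = y (F.e 1) - y (F.e 2) := by
      rw [y1, y2]
      ring
    rw [e]
    calc |y (F.e 1) - y (F.e 2)| ≤ |y (F.e 1)| + |y (F.e 2)| := abs_sub _ _
      _ ≤ 0.020024 * N := by linarith
  have hq3 : |(q : ℝ)| ≤ 0.02003 * N := by
    have e : |(q : ℝ)| * 0.9999 ≤ 0.020024 * N :=
      (mul_le_mul_of_nonneg_left hdif (abs_nonneg _)).trans hq2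
    linarith
  have r1 : |(q : ℝ)| * |F.θ (F.e 1)| ≤ 0.0201 := by
    have e : |(q : ℝ)| * |F.θ (F.e 1)| ≤ 0.02003 * N * |F.θ (F.e 1)| :=
      mul_le_mul_of_nonneg_right hq3 (abs_nonneg _)
    linarith
  have r2 : |(q : ℝ)| * |F.θ (F.e 2) - 1| ≤ 0.0201 := by
    have e : |(q : ℝ)| * |F.θ (F.e 2) - 1| ≤ 0.02003 * N * |F.θ (F.e 2) - 1| :=
      mul_le_mul_of_nonneg_right hq3 (abs_nonneg _)
    linarith
  have hpN : |(p : ℝ)| ≤ 0.0101 * N := by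
    have e : (p : ℝ) = y (F.e 1) + q * F.θ (F.e 1) := by rw [y1]; ring
    have e2 : |(p : ℝ)| ≤ |y (F.e 1)| + |(q : ℝ)| * |F.θ (F.e 1)| := by
      rw [← abs_mul]
      conv_lhs => rw [e]
      exact abs_add_le _ _
    linarith
  have g1 : 0.97 * |(p : ℝ)| ≤ |y (F.e 1)| := by
    have e : |(p : ℝ)| ≤ |y (F.e 1)| + |(q : ℝ)| * |F.θ (F.e 1)| := by
      rw [← abs_mul]
      have e : (p : ℝ) = y (F.e 1) + q * F.θ (F.e 1) := by rw [y1]; ring
      conv_lhs => rw [e]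
      exact abs_add_le _ _
    linarith
  have g2 : 0.97 * |(p : ℝ) - q| ≤ |y (F.e 2)| := by
    have e : |(p : ℝ) - q| ≤ |y (F.e 2)| + |(q : ℝ)| * |F.θ (F.e 2) - 1| := by
      rw [← abs_mul]
      have e : (p : ℝ) - q = y (F.e 2) + q * (F.θ (F.e 2) - 1) := by rw [y2]; ring
      conv_lhs => rw [e]
      exact abs_add_le _ _
    linarith
  have g0 : 0.97 * (|(q : ℝ)| * N) ≤ |y (F.e 0)| := by
    have e : |(q : ℝ)| * |F.θ (F.e 0)| ≤ |y (F.e 0)| + |(p : ℝ)| := by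
      rw [← abs_mul]
      have e : (q : ℝ) * F.θ (F.e 0) = -y (F.e 0) + p := by rw [y0]; ring
      rw [e]
      refine (abs_add_le _ _).trans ?_
      rw [abs_neg]
    have e2 : |(q : ℝ)| * (N - 1.001) ≤ |(q : ℝ)| * |F.θ (F.e 0)| :=
      mul_le_mul_of_nonneg_left hs0 (abs_nonneg _)
    have e3 : N ≤ |(q : ℝ)| * N := le_mul_of_one_le_left hN0.le hq1
    have e4 : |(q : ℝ)| * (1.001 : ℝ) ≤ |(q : ℝ)| * (0.0001 * N) :=
      mul_le_mul_of_nonneg_left (by linarith) (abs_nonneg _)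
    linarith
  rw [hNm, abs_mul, abs_mul, Int.cast_abs]
  have hHr : ((H p q : ℤ) : ℝ) = p * q * (p - q) := by
    unfold H
    push_cast
    ring
  rw [hHr, abs_mul, abs_mul]
  have k1 : 0.97 * (|(q : ℝ)| * N) * (0.97 * |(p : ℝ)|) ≤ |y (F.e 0)| * |y (F.e 1)| :=
    mul_le_mul g0 g1 (by positivity) (abs_nonneg _)
  have k2 : 0.97 * (|(q : ℝ)| * N) * (0.97 * |(p : ℝ)|) * (0.97 * |(p : ℝ) - q|) ≤
      |y (F.e 0)| * |y (F.e 1)| * |y (F.e 2)| :=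
    mul_le_mul k1 g2 (by positivity) (by positivity)
  refine le_trans ?_ k2
  have k3 : 0 ≤ N * (|(p : ℝ)| * |(q : ℝ)| * |(p : ℝ) - q|) := by positivity
  calc 0.9 * N * (|(p : ℝ)| * |(q : ℝ)| * |(p : ℝ) - q|)
      = 0.9 * (N * (|(p : ℝ)| * |(q : ℝ)| * |(p : ℝ) - q|)) := by ring
    _ ≤ (0.97 * 0.97 * 0.97) * (N * (|(p : ℝ)| * |(q : ℝ)| * |(p : ℝ) - q|)) :=
        mul_le_mul_of_nonneg_right (by norm_num) k3
    _ = _ := by ring

theorem SN (F : Frame) (h : 10 ^ 20 ≤ |F.n|) (x : V) (hx : x ∈ O F.θ) (h0 : ∀ i, x i ≠ 0)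
    (hN : |Nm x| ≤ (F.n : ℝ) ^ 2 / 10 ^ 6) :
    ∃ h, LH F.θ x h ∧ 0.9 * |(F.n : ℝ)| * h ≤ |Nm x| := by
  have hN20 : (10 : ℝ) ^ 20 ≤ |(F.n : ℝ)| := by exact_mod_cast h
  have hl : IsLab F.s F.t F.n 1 0 := ⟨one_pos, one_dvd _⟩
  obtain ⟨u, hu, hb⟩ := balanced F h hl x (O_sub_Lam F hx) h0
  have hfd := fd_size F h
  have hsh := sharp F
  have hA := am_prod F h (fun i => u i * x i)
  have hsq : (F.n : ℝ) ^ 2 = |(F.n : ℝ)| ^ 2 := (sq_abs _).symm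
  have hn1 : |(F.n : ℝ)| ≤ |(F.n : ℝ) - 1| + 1 := by
    have := abs_add_le ((F.n : ℝ) - 1) 1
    simpa using this
  have hth : |(F.n : ℝ) - 1| ≤ |F.θ (F.e 0)| + |F.θ (F.e 0) - F.n + 1| := by
    have := abs_sub (F.θ (F.e 0)) (F.θ (F.e 0) - F.n + 1)
    rwa [show F.θ (F.e 0) - (F.θ (F.e 0) - F.n + 1) = (F.n : ℝ) - 1 by ring] at this
  rw [hsq] at hN
  generalize |(F.n : ℝ)| = N at *
  have hN0 : 0 < N := by linarith [show (0 : ℝ) < 10 ^ 20 by norm_num]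
  have hNb : (10 : ℝ) ^ 6 ≤ N := le_trans (by norm_num) hN20
  have hyO : (fun i => u i * x i) ∈ O F.θ := O_mul F (Un_O F hu) hx
  have hNm : |Nm (fun i => u i * x i)| = |Nm x| := by
    have h1 : Nm (fun i => u i * x i) = Nm u * Nm x := by
      unfold Nm
      ring
    rw [h1, abs_mul, Un_Nm F hu, one_mul]
  have hxu : ∀ i, x i = (u i)⁻¹ * (u i * x i) := fun i => by
    rw [← mul_assoc, inv_mul_cancel₀ (Un_ne F hu i), one_mul]
  have huy : ∀ i, (fun i => u i * x i) i = u i * x i := fun i => rfl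
  generalize (fun i => u i * x i) = y at hb hA hyO hNm huy
  have hnn : ∀ i, 0 ≤ am F.θ y i := fun i => abs_nonneg _
  -- all sizes are small
  have hsmall : ∀ j, am F.θ y (F.e j) ≤ 0.01001 := by
    intro j
    have hP : |Nm y| ≤ N ^ 2 / 10 ^ 6 := by rw [hNm]; exact hN
    have c0 := s1_cube (hnn (F.e 0)) (hnn (F.e 1)) hN0 (hb (F.e 0) (F.e 1)) (hb (F.e 0) (F.e 2))
      hA hP
    have c1 := s1_cube (hnn (F.e 1)) (hnn (F.e 0)) hN0 (hb (F.e 1) (F.e 0)) (hb (F.e 1) (F.e 2))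
      (by rw [mul_comm (am F.θ y (F.e 1)) (am F.θ y (F.e 0))]; exact hA) hP
    have c2 := s1_cube (hnn (F.e 2)) (hnn (F.e 0)) hN0 (hb (F.e 2) (F.e 0)) (hb (F.e 2) (F.e 1))
      (by
        rw [show am F.θ y (F.e 2) * am F.θ y (F.e 0) * am F.θ y (F.e 1) =
          am F.θ y (F.e 0) * am F.θ y (F.e 1) * am F.θ y (F.e 2) by ring]
        exact hA) hP
    fin_cases j
    · exact c0
    · exact c1
    · exact c2
  obtain ⟨a, b, c, hc⟩ := hyO
  -- the leading coefficient is zero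
  have hc0 : c = 0 := by
    have e1 : ∑ i, y i / fd F.θ i = (c : ℝ) := by
      rw [← s1_lag F a b c]
      exact Finset.sum_congr rfl fun i _ => by rw [hc i]
    have e2 : |(c : ℝ)| ≤ ∑ i, am F.θ y i := by
      rw [← e1]
      exact Finset.abs_sum_le_sum_abs _ _
    have e3 : ∑ i, am F.θ y i = am F.θ y (F.e 0) + am F.θ y (F.e 1) + am F.θ y (F.e 2) := by
      rw [← Equiv.sum_comp F.e, Fin.sum_univ_three]
    have e4 : |(c : ℝ)| < 1 := by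
      linarith [hsmall 0, hsmall 1, hsmall 2]
    exact Int.abs_lt_one_iff.1 (by exact_mod_cast e4)
  subst hc0
  have hyl : ∀ i, y i = ((a : ℤ) : ℝ) - ((-b : ℤ) : ℝ) * F.θ i := by
    intro i
    rw [hc i]
    push_cast
    ring
  refine ⟨|H a (-b)|, ?_, ?_⟩
  · have h1 := LH_unit F (Un_inv F hu) (LH_lin F.θ a (-b))
    convert h1 using 1
    funext i
    rw [hxu i, ← huy i, hyl i]
  · rw [← hNm]
    obtain ⟨f01, f02, f11, f12, f21, f22⟩ := hfd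
    obtain ⟨s1, s2, s3, s4, s5⟩ := hsh
    refine s1_main F hN20 y a (-b) hyl ⟨s2, s4⟩ ?_ ?_ ?_
    · have : 3 / N ≤ 0.001 := by
        rw [div_le_iff₀ hN0]
        linarith
      linarith
    · rw [s1_abs F.θ y _ (fd_ne F _)]
      have := mul_le_mul (hsmall 1) f12 (abs_nonneg _) (by norm_num)
      linarith
    · rw [s1_abs F.θ y _ (fd_ne F _)]
      have := mul_le_mul (hsmall 2) f22 (abs_nonneg _) (by norm_num)
      linarith

end Pool.Agent.Lib_helper72.GC
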