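import Pool.Agent.Lib_helper72.GC.B_Q2
import Pool.Agent.Lib_helper72.GC.W4

/-!
# GC, block Q3: fact (F2) for the next node
-/

set_option autoImplicit false

namespace Pool.Agent.Lib_helper72.GC

open Pool.Agent.Lib_helper83.CS

theorem Q3_Nm_mul (x y : V) : Nm (fun i => x i * y i) = Nm x * Nm y := by
  unfold Nm
  ring

/-- primitive elements have nonzero components -/
theorem Q3_prim_ne (F : Frame) {d c : ℤ} (hd : d ≠ 0) {x : V} (hx : Prim (Lam F.θ d c) x)
    (i : Fin 3) : x i ≠ 0 := by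
  intro hi
  obtain ⟨a, b, e, h⟩ := hx.1.1
  have h0 : (a : ℝ) + b * F.θ i + e * F.θ i ^ 2 = 0 := by
    have h1 := h i
    simp only [hi, mul_zero] at h1
    exact h1.symm
  obtain ⟨ha, hb, he⟩ := O_zero F a b e i h0
  have hd' : (d : ℝ) ≠ 0 := Int.cast_ne_zero.2 hd
  have hx0 : ∀ j, x j = 0 := by
    intro j
    have h1 := h j
    simp only [ha, hb, he, Int.cast_zero, zero_mul, add_zero] at h1
    exact (mul_eq_zero.1 h1).resolve_left hd'
  have h2 := hx.2 2 x hx.1 (fun j => by rw [hx0 j, mul_zero])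
  omega

/-- linear primitive elements of small norm are units -/
theorem Q3_caseA (F : Frame) (hn : 10 ^ 24 ≤ |F.n|) {d0 c0 : ℤ} (hd0 : 10 ^ 24 ≤ d0) {x : V}
    (hx : Prim (Lam F.θ d0 c0) x) (hN : |Nm x| < 0.9 * |(F.n : ℝ)|) {h : ℤ} (hv : LH F.θ x h) :
    x ∈ Un F.θ := by
  have hnR : (10 : ℝ) ^ 24 ≤ |(F.n : ℝ)| := by exact_mod_cast hn
  have h1 : |Nm x| ≤ (F.n : ℝ) ^ 2 / 10 ^ 6 := by
    rw [← sq_abs, le_div_iff₀ (by norm_num)]
    nlinarith
  obtain ⟨k, hk, hk'⟩ := SN F (by linarith) x (LH_O F hv) (Q3_prim_ne F (by omega) hx) h1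
  obtain ⟨hk0, -⟩ := LH_even hk
  have hk1 : (k : ℝ) < 1 := by
    have h2 : 0.9 * |(F.n : ℝ)| * k < 0.9 * |(F.n : ℝ)| * 1 := by linarith
    exact lt_of_mul_lt_mul_left h2 (by positivity)
  have hk2 : k < 1 := by exact_mod_cast hk1
  have hk3 : k = 0 := by omega
  rw [hk3] at hk
  obtain ⟨u, hu, m, hm⟩ := LH_zero F hk
  rcases hx.2 m u (O_sub_Lam F (Un_O F hu)) hm with h3 | h3
  · have h4 : x = u := by
      funext i
      rw [hm i, h3, Int.cast_one, one_mul]
    rw [h4]
    exact hu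
  · have h4 : x = fun i => -u i := by
      funext i
      rw [hm i, h3]
      push_cast
      ring
    rw [h4]
    exact Un_neg hu

theorem F2_up (F : Frame) (hs : F.s = -1) (ht : F.t = -1) (hn : 10 ^ 24 ≤ |F.n|)
    {d0 c0 d c : ℤ} (hl0 : IsLab (-1) (-1) F.n d0 c0) (hl : IsLab (-1) (-1) F.n d c)
    (hd0 : 10 ^ 24 ≤ d0) (hd0' : 2 * d0 ≤ 3 * |F.n|) (hII : II F.θ (Lam F.θ d0 c0))
    (hIII : III F.θ (Lam F.θ d0 c0) d0 |(F.n : ℝ)|) (hd : 3 * |F.n| < d)
    (hq : Eqv (Lam F.θ d c) (Lam F.θ d0 c0) (d / d0)) :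
    F2 F.θ (Lam F.θ d c) d |(F.n : ℝ)| := by
  obtain ⟨w, hw, hwL, hwN⟩ := hq
  have hnR : (10 : ℝ) ^ 24 ≤ |(F.n : ℝ)| := by exact_mod_cast hn
  have hd0R : (10 : ℝ) ^ 24 ≤ (d0 : ℝ) := by exact_mod_cast hd0
  have hd0R' : 2 * (d0 : ℝ) ≤ 3 * |(F.n : ℝ)| := by exact_mod_cast hd0'
  have hdR : 3 * |(F.n : ℝ)| < (d : ℝ) := by exact_mod_cast hd
  have hd0pos : (0 : ℝ) < d0 := by linarith
  have hdpos : (0 : ℝ) < d := by linarith
  have hsq : (F.n : ℝ) ^ 2 = |(F.n : ℝ)| ^ 2 := (sq_abs _).symm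
  intro x hx hD hRC
  have hx1 : Prim (Lam F.θ d0 c0) (fun i => w i * x i) := Prim_Eqv hw hwL hx
  have hN1 : (d0 : ℝ) * |Nm (fun i => w i * x i)| = d * |Nm x| := by
    rw [Q3_Nm_mul, abs_mul, hwN]
    field_simp
  -- the rank condition for `w x`
  have hRC1 : RC F.θ (Lam F.θ d0 c0) (fun i => w i * x i) := by
    intro r hr
    refine hRC r fun y hy => ?_
    obtain ⟨m, z, hz, h⟩ := hr y hy
    refine ⟨m, fun i => z i / w i, (hwL _).2 ?_, fun i => ?_⟩
    · have h1 : (fun i => w i * (z i / w i)) = z := by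
        funext i
        have := hw i
        field_simp
      rw [h1]
      exact hz
    · have h1 := h i
      have h2 := hw i
      simp only at h1
      field_simp
      linarith
  -- `w x` is a unit
  have hU : (fun i => w i * x i) ∈ Un F.θ := by
    have hQ : Qp F.θ (fun i => w i * x i) := by
      refine hIII _ hx1 ?_
      have h1 : (d0 : ℝ) ^ 2 * |Nm (fun i => w i * x i)| = d0 * (d * |Nm x|) := by
        rw [← hN1]
        ring
      rw [h1]
      have h2 : 0 ≤ (d : ℝ) * |Nm x| := by positivity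
      nlinarith
    rcases hQ with ⟨h, hh⟩ | ⟨v, h, r, hv, hv0, hr⟩
    · refine Q3_caseA F hn hd0 hx1 ?_ hh
      have h2 : 0 ≤ |Nm (fun i => w i * x i)| := abs_nonneg _
      nlinarith
    · exact caseB F hs ht hn hl0 hd0 hd0' hII hx1 hRC1 hv hv0 hr
  have hxN : (d : ℝ) * |Nm x| = d0 := by
    rw [← hN1, Un_Nm F hU, mul_one]
  refine ⟨?_, ?_, ?_⟩
  · -- (a)
    intro v h hv hvL hh
    refine hII v h hv (fun y0 hy0 => ?_) hh
    have hy : (fun i => y0 i / w i) ∈ Lam F.θ d c := by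
      rw [hwL]
      have h1 : (fun i => w i * (y0 i / w i)) = y0 := by
        funext i
        have := hw i
        field_simp
      rw [h1]
      exact hy0
    obtain ⟨z, hz, hz'⟩ := hvL _ hy
    have h1 : (fun i => v i * y0 i) = fun i => (w i * x i) * z i := by
      funext i
      have h2 : v i * (y0 i / w i) = x i * z i := hz' i
      have h3 := hw i
      field_simp at h2
      linarith
    rw [h1]
    exact O_mul F (Un_O F hU) hz
  · -- (b)
    rw [hxN]
    linarith
  · -- (c)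
    intro hc
    have hdd : (d : ℝ) * d0 ≤ 4.5 * |(F.n : ℝ)| ^ 2 := by
      rw [← hxN]
      calc (d : ℝ) * (d * |Nm x|) = (d : ℝ) ^ 2 * |Nm x| := by ring
        _ ≤ _ := hc
    have hl' : IsLab F.s F.t F.n d c := by
      rw [hs, ht]
      exact hl
    have hpw : Prim (Lam F.θ d0 c0) (fun i => w i * 1) := Prim_Eqv hw hwL (prim_one F hl')
    have hwe : (fun i => w i * (1 : ℝ)) = w := by
      funext i
      rw [mul_one]
    rw [hwe] at hpw
    have hQ : Qp F.θ w := by
      refine hIII w hpw ?_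
      rw [hwN]
      have h1 : (d0 : ℝ) ^ 2 * (d / d0) = d * d0 := by
        field_simp
      rw [h1]
      exact hdd
    have hxne : ∀ i, w i * x i ≠ 0 := fun i => Un_ne F hU i
    rcases hQ with ⟨h, hh⟩ | ⟨v, h, r, hv, hv0, hr⟩
    · refine ⟨_, h, LH_unit F (Un_inv F hU) hh, fun i => ?_⟩
      have h1 := hxne i
      have h2 : x i * ((w i * x i)⁻¹ * w i) = (w i * x i)⁻¹ * (w i * x i) := by ring
      rw [h2, inv_mul_cancel₀ h1]
    · exfalso
      have hr0 : (r : ℝ) ≠ 0 := by
        rw [← hr 0]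
        exact mul_ne_zero (hw 0) (hv0 0)
      have h1L : (fun i => 1 / w i) ∈ Lam F.θ d c := by
        rw [hwL]
        have h1 : (fun i => w i * (1 / w i)) = fun _ => (1 : ℝ) := by
          funext i
          have := hw i
          field_simp
        rw [h1]
        exact O_sub_Lam F (Un_O F (Un_one F.θ))
      obtain ⟨u, hu, p, q, hpq, -⟩ := hv
      have hvw : ∀ i, 1 / w i = v i / r := by
        intro i
        have h1 := hr i
        have h2 := hw i
        rw [div_eq_div_iff h2 hr0, one_mul, ← h1]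
        ring
      have hcl : r ∣ p ∧ r ∣ q := by
        refine content_lin F p q c r (z := fun i => (u i)⁻¹ * ((F.θ i - c) * (1 / w i)))
          (O_mul F (Un_O F (Un_inv F hu)) h1L.2) fun i => ?_
        have h1 := Un_ne F hu i
        rw [hvw i, hpq i]
        field_simp
      obtain ⟨⟨p', hp'⟩, ⟨q', hq'⟩⟩ := hcl
      have hvO : (fun i => 1 / w i) ∈ O F.θ := by
        have h1 : (fun i => 1 / w i) = fun i => u i * ((p' : ℝ) - q' * F.θ i) := by
          funext i
          rw [hvw i, hpq i, hp', hq']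
          push_cast
          field_simp
        rw [h1]
        exact O_mul F (Un_O F hu) (O_lin p' q')
      obtain ⟨m, hm⟩ := O_Nm F hvO
      have h2 : Nm w * Nm (fun i => 1 / w i) = 1 := by
        unfold Nm
        have h3 := hw 0
        have h4 := hw 1
        have h5 := hw 2
        field_simp
      have h3 : |Nm w| * |(m : ℝ)| = 1 := by
        rw [← abs_mul, ← hm, h2, abs_one]
      rw [hwN] at h3
      have h4 : (d : ℝ) * |(m : ℝ)| = d0 := by
        field_simp at h3
        linarith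
      have h5 : (d : ℤ) * |m| = d0 := by exact_mod_cast h4
      have h6 : |m| = 0 ∨ 1 ≤ |m| := by
        have := abs_nonneg m
        omega
      rcases h6 with h6 | h6
      · rw [h6, mul_zero] at h5
        omega
      · have h7 : (d : ℤ) ≤ d * |m| := le_mul_of_one_le_right (by omega) h6
        have h8 := abs_nonneg F.n
        omega

end Pool.Agent.Lib_helper72.GC
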