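import Pool.Agent.Lib_helper72.GC.W4

/-!
# GC: block Q4
-/

set_option autoImplicit false

namespace Pool.Agent.Lib_helper72.GC

open Pool.Agent.Lib_helper83.CS

theorem one_O_h16 (θ : V) : (fun _ => (1 : ℝ)) ∈ O θ := ⟨1, 0, 0, fun i => by push_cast; ring⟩

theorem Nm_mul_h16 (x y : V) : Nm (fun i => x i * y i) = Nm x * Nm y := by
  unfold Nm
  ring

/-- elements of the order of norm less than `1.8 |n|` are rational multiples of units -/
theorem small_h16 (F : Frame) (hn : 10 ^ 24 ≤ |F.n|) {x : V} (hx : x ∈ O F.θ)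
    (h0 : ∀ i, x i ≠ 0) (hN : |Nm x| < 1.8 * |(F.n : ℝ)|) :
    ∃ u ∈ Un F.θ, ∃ m : ℤ, ∀ i, x i = m * u i := by
  have hnR : (10 : ℝ) ^ 24 ≤ |(F.n : ℝ)| := by exact_mod_cast hn
  have hn20 : (10 : ℤ) ^ 20 ≤ |F.n| := le_trans (by norm_num) hn
  have hsq : (F.n : ℝ) ^ 2 = |(F.n : ℝ)| ^ 2 := (sq_abs _).symm
  obtain ⟨h, h1, h2⟩ := SN F hn20 x hx h0 (by
    rw [hsq]
    have : 1.8 * |(F.n : ℝ)| ≤ |(F.n : ℝ)| ^ 2 / 10 ^ 6 := by
      rw [le_div_iff₀ (by norm_num)]
      nlinarith
    linarith)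
  obtain ⟨h3, h4⟩ := LH_even h1
  have h5 : (h : ℝ) < 2 := by
    by_contra hh
    push Not at hh
    have : 0.9 * |(F.n : ℝ)| * 2 ≤ 0.9 * |(F.n : ℝ)| * h :=
      mul_le_mul_of_nonneg_left hh (by positivity)
    linarith
  have h6 : h < 2 := by exact_mod_cast h5
  have h7 : h = 0 := by
    obtain ⟨k, hk⟩ := h4
    omega
  rw [h7] at h1
  exact LH_zero F h1

/-- the case of a unit -/
theorem unit_h16 (F : Frame) {d0 c0 d c : ℤ} (hl0 : IsLab F.s F.t F.n d0 c0)
    (hl : IsLab F.s F.t F.n d c) {w : V} (hw : w ∈ Un F.θ)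
    (h : ∀ x : V, x ∈ Lam F.θ d c ↔ (fun i => w i * x i) ∈ Lam F.θ d0 c0)
    (hN : |Nm w| = (d : ℝ) / d0) : d = d0 ∧ d ∣ c - c0 := by
  have hd0 : (0 : ℝ) < d0 := by exact_mod_cast hl0.1
  have e1 : (d : ℝ) = d0 := by
    rw [Un_Nm F hw] at hN
    field_simp at hN
    linarith
  have e2 : d = d0 := by exact_mod_cast e1
  subst e2
  refine ⟨rfl, Lam_label F hl hl0 ?_⟩
  ext x
  rw [h x]
  constructor
  · intro hx
    have := Lam_mul F (Un_O F (Un_inv F hw)) hx
    have e3 : (fun i => (w i)⁻¹ * (w i * x i)) = x := by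
      funext i
      have := Un_ne F hw i
      field_simp
    simpa only [e3] using this
  · intro hx
    exact Lam_mul F (Un_O F hw) hx

theorem up_label (F : Frame) (hs : F.s = -1) (ht : F.t = -1) (hn : 10 ^ 24 ≤ |F.n|)
    {d0 c0 d c : ℤ} (hl0 : IsLab (-1) (-1) F.n d0 c0) (hl : IsLab (-1) (-1) F.n d c)
    (hd0 : 10 ^ 24 ≤ d0) (hd0' : 2 * d0 ≤ 3 * |F.n|)
    (hIII : III F.θ (Lam F.θ d0 c0) d0 |(F.n : ℝ)|)
    (hq : Eqv (Lam F.θ d c) (Lam F.θ d0 c0) (d / d0)) :
    3 * |F.n| < d ∨ (d = d0 ∧ d ∣ c - c0) := by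
  rw [← hs] at hl0 hl
  nth_rewrite 2 [hs] at hl0
  nth_rewrite 2 [hs] at hl
  rw [← ht] at hl0 hl
  rcases lt_or_ge (3 * |F.n|) d with hd | hd
  · exact Or.inl hd
  right
  obtain ⟨w, hw0, hw, hN⟩ := hq
  have hnR : (10 : ℝ) ^ 24 ≤ |(F.n : ℝ)| := by exact_mod_cast hn
  have hdR : (d : ℝ) ≤ 3 * |(F.n : ℝ)| := by exact_mod_cast hd
  have hd0R : (10 : ℝ) ^ 24 ≤ d0 := by exact_mod_cast hd0
  have hd0R' : 2 * (d0 : ℝ) ≤ 3 * |(F.n : ℝ)| := by exact_mod_cast hd0'
  have hd0p : (0 : ℝ) < d0 := by linarith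
  have hd1 : (1 : ℝ) ≤ d := by exact_mod_cast hl.1
  have hP : Prim (Lam F.θ d0 c0) w := by
    have := Prim_Eqv hw0 hw (prim_one F hl)
    simpa only [mul_one] using this
  have hQ : Qp F.θ w := by
    refine hIII w hP ?_
    rw [hN]
    have e1 : (d0 : ℝ) ^ 2 * ((d : ℝ) / d0) = d0 * d := by field_simp
    rw [e1]
    nlinarith [abs_nonneg (F.n : ℝ)]
  rcases hQ with ⟨h, hA⟩ | ⟨v, h, r, hv, hv0, hr⟩
  · obtain ⟨u, hu, m, hm⟩ := small_h16 F hn (LH_O F hA) hw0 (by
      rw [hN, div_lt_iff₀ hd0p]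
      nlinarith)
    have hu' : u ∈ Lam F.θ d0 c0 := O_sub_Lam F (Un_O F hu)
    have hwU : w ∈ Un F.θ := by
      rcases hP.2 m u hu' hm with h1 | h1
      · have : w = u := by
          funext i
          rw [hm i, h1]
          push_cast
          ring
        rw [this]; exact hu
      · have : w = fun i => -u i := by
          funext i
          rw [hm i, h1]
          push_cast
          ring
        rw [this]; exact Un_neg hu
    exact unit_h16 F hl0 hl hwU hw hN
  · obtain ⟨u, hu, p, q, hpq, -⟩ := hv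
    have hr0 : (r : ℝ) ≠ 0 := by
      rw [← hr 0]
      exact mul_ne_zero (hw0 0) (hv0 0)
    have hinv : (fun i => (w i)⁻¹) ∈ Lam F.θ d c := by
      rw [hw]
      have : (fun i => w i * (w i)⁻¹) = fun _ => (1 : ℝ) := by
        funext i
        exact mul_inv_cancel₀ (hw0 i)
      rw [this]
      exact O_sub_Lam F (one_O_h16 _)
    have hz := O_mul F (Un_O F (Un_inv F hu)) hinv.2
    have hz' : ∀ i, ((p : ℝ) - q * F.θ i) * (F.θ i - c) =
        r * ((u i)⁻¹ * ((F.θ i - c) * (w i)⁻¹)) := by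
      intro i
      have e1 := Un_ne F hu i
      have e2 := hw0 i
      have e3 := hr i
      rw [hpq i] at e3
      rw [← e3]
      field_simp
    obtain ⟨⟨p', hp'⟩, ⟨q', hq'⟩⟩ := content_lin F p q c r hz hz'
    -- the inverse of `w`
    set v' : V := fun i => u i * ((p' : ℝ) - q' * F.θ i) with hv'
    have hwv : ∀ i, w i * v' i = 1 := by
      intro i
      have e3 := hr i
      rw [hpq i, hp', hq'] at e3
      push_cast at e3
      have e4 : (r : ℝ) * (w i * v' i) = r * 1 := by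
        rw [hv']
        simp only
        linarith
      exact mul_left_cancel₀ hr0 e4
    have hLH : LH F.θ v' |H p' q'| := LH_unit F hu (LH_lin F.θ p' q')
    have hv'0 : ∀ i, v' i ≠ 0 := fun i h0 => by
      have := hwv i
      rw [h0, mul_zero] at this
      exact zero_ne_one this
    have hNv : |Nm v'| = (d0 : ℝ) / d := by
      have e1 := Nm_mul_h16 w v'
      have e2 : Nm (fun i => w i * v' i) = 1 := by
        unfold Nm
        simp only [hwv]
        norm_num
      rw [e2] at e1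
      have e3 : |Nm w| * |Nm v'| = 1 := by rw [← abs_mul, ← e1, abs_one]
      rw [hN] at e3
      have hdp : (0 : ℝ) < d := by linarith
      field_simp at e3 ⊢
      linarith
    obtain ⟨u', hu', m, hm⟩ := small_h16 F hn (LH_O F hLH) hv'0 (by
      rw [hNv, div_lt_iff₀ (by linarith)]
      nlinarith)
    have hwL : w ∈ Lam F.θ d0 c0 := hP.1
    have hwu : (fun i => u' i * w i) ∈ Lam F.θ d0 c0 := Lam_mul F (Un_O F hu') hwL
    have hm1 : ∀ i, (m : ℝ) * (u' i * w i) = ((1 : ℤ) : ℝ) := by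
      intro i
      have := hwv i
      rw [hm i] at this
      push_cast
      linarith
    have hm0 : m ≠ 0 := by
      rintro rfl
      have := hm1 0
      push_cast at this
      linarith
    have hm2 : m ∣ 1 := Lam_rat F hl0 hwu hm0 hm1
    have hwU : w ∈ Un F.θ := by
      have hui := Un_inv F hu'
      rcases Int.isUnit_iff.1 (isUnit_of_dvd_one hm2) with h1 | h1
      · have : w = fun i => (u' i)⁻¹ := by
          funext i
          have e1 := hm1 i
          have e2 := Un_ne F hu' i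
          rw [h1] at e1
          push_cast at e1
          field_simp
          linarith
        rw [this]; exact hui
      · have : w = fun i => -(u' i)⁻¹ := by
          funext i
          have e1 := hm1 i
          have e2 := Un_ne F hu' i
          rw [h1] at e1
          push_cast at e1
          field_simp
          linarith
        rw [this]; exact Un_neg hui
    exact unit_h16 F hl0 hl hwU hw hN

end Pool.Agent.Lib_helper72.GC
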