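import Pool.Agent.Lib_helper72.GC.DefsM

/-!
# GC: the finite check for the root ideal
-/

set_option autoImplicit false

namespace Pool.Agent.Lib_helper72.GC

open Pool.Agent.Lib_helper83.CS

theorem R1_le_aux (a b : ℤ) (ha : 1 ≤ |a|) (hb : 1 ≤ |b|) (hs : 20001 ≤ |a + b|) :
    400020000 ≤ |a * b * (a + b)| := by
  rw [abs_mul, abs_mul]
  have h1 : |a + b| ≤ |a| + |b| := abs_add_le a b
  have h2 : 20000 ≤ |a| * |b| := by nlinarith
  nlinarith [abs_nonneg (a + b)]

theorem R1check (p q : ℤ) (h : EM ∣ p - lM * q) (hH : |H p q| ≤ 4 * EM) : H p q = 0 := by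
  by_contra h0
  unfold EM at h hH
  unfold lM at h
  unfold H at h0 hH
  have hp0 : p ≠ 0 := by
    rintro rfl
    apply h0
    ring
  have hq0 : q ≠ 0 := by
    rintro rfl
    apply h0
    ring
  have hd0 : p - q ≠ 0 := by
    intro h1
    apply h0
    rw [h1, mul_zero]
  have hp1 : 1 ≤ |p| := Int.one_le_abs hp0
  have hq1 : 1 ≤ |q| := Int.one_le_abs hq0
  have hd1 : 1 ≤ |p - q| := Int.one_le_abs hd0
  have hpb : |p| ≤ 20000 := by
    by_contra hcon
    have h1 := R1_le_aux (p - q) q hd1 hq1 (by
      have h2 : p - q + q = p := by ring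
      rw [h2]
      omega)
    have h2 : (p - q) * q * (p - q + q) = p * q * (p - q) := by ring
    rw [h2] at h1
    omega
  have hqb : |q| ≤ 20000 := by
    by_contra hcon
    have h1 := R1_le_aux p (q - p) hp1 (by rw [abs_sub_comm]; exact hd1) (by
      have h2 : p + (q - p) = q := by ring
      rw [h2]
      omega)
    have h2 : p * (q - p) * (p + (q - p)) = -(p * q * (p - q)) := by ring
    rw [h2, abs_neg] at h1
    omega
  rw [abs_le] at hpb hqb hH
  obtain ⟨hpb1, hpb2⟩ := hpb
  obtain ⟨hqb1, hqb2⟩ := hqb
  obtain ⟨hH1, hH2⟩ := hH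
  obtain ⟨k, hk⟩ := h
  have hk1 : -6 ≤ k := by omega
  have hk2 : k ≤ 6 := by omega
  clear hp1 hq1 hd1 hd0 hp0
  have hp : p = 30000 * q + 100000007 * k := by linarith
  clear hk
  subst hp
  interval_cases k
  all_goals
    first
    | (exfalso; omega)
    | (have hq : q = -3334 ∨ q = -3333 := by omega
       rcases hq with rfl | rfl <;> norm_num at hH1)
    | (have hq : q = -6667 := by omega
       subst hq
       norm_num at hH1)
    | (have hq : q = -10000 := by omega
       subst hq
       norm_num at hH1)
    | (have hq : q = -13334 ∨ q = -13333 := by omega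
       rcases hq with rfl | rfl <;> norm_num at hH1)
    | (have hq : q = -16667 := by omega
       subst hq
       norm_num at hH2)
    | (have hq : q = -20000 := by omega
       subst hq
       norm_num at hH1)
    | (have hq : q = 3334 ∨ q = 3333 := by omega
       rcases hq with rfl | rfl <;> norm_num at hH2)
    | (have hq : q = 6667 := by omega
       subst hq
       norm_num at hH2)
    | (have hq : q = 10000 := by omega
       subst hq
       norm_num at hH2)
    | (have hq : q = 13334 ∨ q = 13333 := by omega
       rcases hq with rfl | rfl <;> norm_num at hH2)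
    | (have hq : q = 16667 := by omega
       subst hq
       norm_num at hH1)
    | (have hq : q = 20000 := by omega
       subst hq
       norm_num at hH2)

end Pool.Agent.Lib_helper72.GC
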