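import Pool.Agent.Lib_helper72.GC.W4

/-!
# GC: invariant (II) going up
-/

set_option autoImplicit false

namespace Pool.Agent.Lib_helper72.GC

open Pool.Agent.Lib_helper83.CS

theorem S2_lab {s t n n' d c : ℤ} (h : IsLab s t n' d c) (hd : d ∣ n - n') : IsLab s t n d c := by
  refine ⟨h.1, ?_⟩
  have h1 : FF s t n c 1 = FF s t n' c 1 + (n - n') * (c - c ^ 2) := by
    unfold FF
    ring
  rw [h1]
  exact dvd_add h.2 (Dvd.dvd.mul_right hd _)

theorem S2_bound {s t n p q : ℤ} (hs : s = 1 ∨ s = -1) (ht : t = 1 ∨ t = -1)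
    (hn : 10 ^ 24 ≤ |n|) (hH0 : H p q ≠ 0) (hH : |H p q| ≤ 10 ^ 8) :
    |FF s t n p q| ≤ 110000000 * |n| := by
  unfold H at hH0 hH
  have hp0 : p ≠ 0 := by
    rintro rfl
    apply hH0
    ring
  have hq0 : q ≠ 0 := by
    rintro rfl
    apply hH0
    ring
  have hd0 : p - q ≠ 0 := by
    intro h1
    apply hH0
    rw [h1, mul_zero]
  have hp1 : 1 ≤ |p| := Int.one_le_abs hp0
  have hq1 : 1 ≤ |q| := Int.one_le_abs hq0
  have hd1 : 1 ≤ |p - q| := Int.one_le_abs hd0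
  have hH' : |p| * |q| * |p - q| ≤ 10 ^ 8 := by
    rw [← abs_mul, ← abs_mul]
    exact hH
  have hpb : |p| ≤ 10 ^ 8 := by
    have h1 : |p| * 1 * 1 ≤ |p| * |q| * |p - q| := by
      gcongr
    linarith
  have hqb : |q| ≤ 10 ^ 8 := by
    have h1 : 1 * |q| * 1 ≤ |p| * |q| * |p - q| := by
      gcongr
    linarith
  have h1 : FF s t n p q = -(n * (p * q * (p - q))) +
      (p ^ 3 + (-1 - s + t) * (p * q ^ 2) + s * q ^ 3) := by
    unfold FF
    ring
  rw [h1]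
  have h2 : |p ^ 3| ≤ 10 ^ 24 := by
    rw [abs_pow]
    calc |p| ^ 3 ≤ (10 ^ 8) ^ 3 := by gcongr
      _ = 10 ^ 24 := by norm_num
  have h3 : |q ^ 3| ≤ 10 ^ 24 := by
    rw [abs_pow]
    calc |q| ^ 3 ≤ (10 ^ 8) ^ 3 := by gcongr
      _ = 10 ^ 24 := by norm_num
  have h4 : |p * q ^ 2| ≤ 10 ^ 24 := by
    rw [abs_mul, abs_pow]
    calc |p| * |q| ^ 2 ≤ 10 ^ 8 * (10 ^ 8) ^ 2 := by gcongr
      _ = 10 ^ 24 := by norm_num
  have h5 : |n * (p * q * (p - q))| ≤ |n| * 10 ^ 8 := by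
    rw [abs_mul]
    gcongr
  have h6 : |p ^ 3 + (-1 - s + t) * (p * q ^ 2) + s * q ^ 3| ≤ 5 * 10 ^ 24 := by
    rw [abs_le] at h2 h3 h4 ⊢
    rcases hs with rfl | rfl <;> rcases ht with rfl | rfl <;> constructor <;> linarith
  calc |-(n * (p * q * (p - q))) + (p ^ 3 + (-1 - s + t) * (p * q ^ 2) + s * q ^ 3)|
      ≤ |-(n * (p * q * (p - q)))| + |p ^ 3 + (-1 - s + t) * (p * q ^ 2) + s * q ^ 3| :=
        abs_add_le _ _
    _ ≤ |n| * 10 ^ 8 + 5 * 10 ^ 24 := by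
        rw [abs_neg]
        linarith
    _ ≤ 110000000 * |n| := by linarith

theorem II_up (F G : Frame) (hs : F.s = G.s) (ht : F.t = G.t) (hn : 10 ^ 24 ≤ |G.n|)
    {d c : ℤ} (hl : IsLab G.s G.t G.n d c) (hdvd : d ∣ F.n - G.n) (hd : 3 * |G.n| < d)
    (hF1 : Pool.Agent.Lib_helper72.GC.F1 G.θ (Lam G.θ d c) d) :
    II F.θ (Lam F.θ d c) := by
  have hlF : IsLab F.s F.t F.n d c := by
    rw [hs, ht]
    exact S2_lab hl hdvd
  intro v h hv hvL hh
  obtain ⟨u, hu, p, q, hpq, hH⟩ := hv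
  by_contra hne
  have hH0 : H p q ≠ 0 := by
    intro h1
    rw [h1, abs_zero] at hH
    exact hne hH.symm
  -- the label condition
  have hdiv : d ∣ p - c * q := by
    rw [← lin_Lam F hlF]
    intro x hx
    have h1 := O_mul F (Un_O F (Un_inv F hu)) (hvL x hx)
    have h2 : (fun i => (u i)⁻¹ * (v i * x i)) = fun i => (p - q * F.θ i) * x i := by
      funext i
      rw [hpq i]
      have h3 := Un_ne F hu i
      field_simp
    rw [h2] at h1
    exact h1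
  have h1 := hF1 (fun i => p - q * G.θ i) |H p q| (LH_lin G.θ p q) (by
    intro i h0
    have h2 := O_zero G p (-q) 0 i (by
      push_cast
      linarith)
    apply hH0
    unfold H
    rw [h2.1, zero_mul, zero_mul]) ((lin_Lam G hl p q).mpr hdiv)
  rw [Nm_lin] at h1
  have hHb : |H p q| ≤ 10 ^ 8 := by
    rw [hH]
    exact hh
  have h2 := S2_bound G.hs G.ht hn hH0 hHb
  have h3 : (|FF G.s G.t G.n p q| : ℤ) > 180000000 * |G.n| := by
    have h4 : ((E0 * d : ℤ) : ℝ) < ((|FF G.s G.t G.n p q| : ℤ) : ℝ) := by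
      push_cast
      exact h1
    have h5 : E0 * d < |FF G.s G.t G.n p q| := by exact_mod_cast h4
    unfold E0 at h5
    linarith
  linarith [abs_nonneg G.n]

end Pool.Agent.Lib_helper72.GC
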