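import Pool.Agent.Lib_helper72.GC.TreeG

/-!
# GC: the criterion for good roots
-/

set_option autoImplicit false

namespace Pool.Agent.Lib_helper72.GC

open Pool.Agent.Lib_helper83.CS

theorem zero_coord (F : Frame) {d c : ℤ} (hl : IsLab F.s F.t F.n d c) {x : V}
    (hx : Prim (Lam F.θ d c) x) : ∀ i, x i ≠ 0 := by
  intro i hi
  obtain ⟨X, Z, X', rfl, h1, h2⟩ := Lam_el F hl hx.1
  have hdR : (d : ℝ) ≠ 0 := by exact_mod_cast hl.1.ne'
  have h3 : ((-F.s * X : ℤ) : ℝ) + ((X' - F.n * Z : ℤ) : ℝ) * F.θ i + (Z : ℝ) * F.θ i ^ 2 = 0 := by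
    have : el F.s F.n F.θ d X Z X' i * d = 0 := by rw [hi]; ring
    simp only [el] at this
    rw [div_mul_cancel₀ _ hdR] at this
    push_cast
    linarith
  have h4 := O_zero F _ _ _ i h3
  have hz : ∀ j, el F.s F.n F.θ d X Z X' j = (2 : ℤ) * el F.s F.n F.θ d X Z X' j := by
    intro j
    have : el F.s F.n F.θ d X Z X' j = 0 := by
      simp only [el]
      have e1 : (-(F.s : ℝ) * X) = 0 := by exact_mod_cast h4.1
      have e2 : ((X' : ℝ) - F.n * Z) = 0 := by exact_mod_cast h4.2.1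
      have e3 : (Z : ℝ) = 0 := by exact_mod_cast h4.2.2
      rw [e1, e2, e3]; simp
    rw [this]; simp
  rcases hx.2 2 _ hx.1 hz with h | h <;> norm_num at h

theorem one_mem_Lam (θ : V) (d c : ℤ) : (fun _ => (1 : ℝ)) ∈ Lam θ d c := by
  refine ⟨⟨d, 0, 0, fun i => by simp⟩, ⟨-c, 1, 0, fun i => ?_⟩⟩
  push_cast
  ring

theorem O_coordC (F : Frame) {a b c a' b' c' : ℤ} (i : Fin 3)
    (h : (a : ℝ) + b * F.θ i + c * F.θ i ^ 2 = a' + b' * F.θ i + c' * F.θ i ^ 2) :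
    a = a' ∧ b = b' ∧ c = c' := by
  have h1 := O_zero F (a - a') (b - b') (c - c') i (by push_cast; linarith)
  exact ⟨by linarith [h1.1], by linarith [h1.2.1], by linarith [h1.2.2]⟩

theorem one_Prim_Lam (F : Frame) (d c : ℤ) : Prim (Lam F.θ d c) (fun _ => (1 : ℝ)) := by
  refine ⟨one_mem_Lam _ _ _, fun m y hy hm => ?_⟩
  obtain ⟨_, a, b, e, h⟩ := hy
  have h0 := h 0
  have hm0 := hm 0
  simp only at h0 hm0
  have : ((-c : ℤ) : ℝ) + ((1 : ℤ) : ℝ) * F.θ 0 + ((0 : ℤ) : ℝ) * F.θ 0 ^ 2 =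
      ((m * a : ℤ) : ℝ) + ((m * b : ℤ) : ℝ) * F.θ 0 + ((m * e : ℤ) : ℝ) * F.θ 0 ^ 2 := by
    push_cast
    have : (F.θ 0 - c) * (m * y 0) = m * (a + b * F.θ 0 + e * F.θ 0 ^ 2) := by
      rw [← h0]; ring
    rw [← hm0] at this
    linarith
  have h1 := (O_coordC F 0 this).2.1
  exact Int.isUnit_iff.mp (IsUnit.of_mul_eq_one _ h1.symm)

theorem one_RC_Lam (F : Frame) (d c : ℤ) : RC F.θ (Lam F.θ d c) (fun _ => (1 : ℝ)) := by
  intro r hr
  obtain ⟨m, z, hz, h⟩ := hr F.θ ⟨0, 1, 0, fun i => by simp⟩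
  obtain ⟨_, a, b, e, h'⟩ := hz
  have h0 := h' 0
  have hm0 := h 0
  simp only at h0 hm0
  have : ((c * m : ℤ) : ℝ) + ((-c - m : ℤ) : ℝ) * F.θ 0 + ((1 : ℤ) : ℝ) * F.θ 0 ^ 2 =
      ((r * a : ℤ) : ℝ) + ((r * b : ℤ) : ℝ) * F.θ 0 + ((r * e : ℤ) : ℝ) * F.θ 0 ^ 2 := by
    push_cast
    have : (F.θ 0 - c) * (r * z 0) = r * (a + b * F.θ 0 + e * F.θ 0 ^ 2) := by
      rw [← h0]; ring
    rw [← hm0] at this
    linarith
  have h1 := (O_coordC F 0 this).2.2
  rcases Int.isUnit_iff.mp (IsUnit.of_mul_eq_one _ h1.symm) with h | h <;> rw [h] <;> norm_num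

/-- A lattice with no small primitive element satisfying the rank condition, and no small
multiplier into `ℤ[θ]`, is a good root. -/
theorem goodRoot_of {n0 : ℤ} {L0 : Set V} {ρ0 : ℝ} (hn : 10 ^ 24 ≤ |n0|) (hρ : 0 < ρ0)
    (hα : ∀ x : V, Prim L0 x → RC (th n0) L0 x → (∀ i, x i ≠ 0) →
      3 * |(n0 : ℝ)| * ρ0 < |Nm x|)
    (hβ : ∀ v : V, (∀ i, v i ≠ 0) → (∀ x ∈ L0, (fun i => v i * x i) ∈ O (th n0)) →
      (E0 : ℝ) < ρ0 * |Nm v|) : GoodRoot n0 L0 ρ0 := by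
  have h6 : (10 : ℤ) ^ 6 ≤ 10 ^ 24 := by norm_num
  refine ⟨hn, hρ, fun d c hl hq => ?_⟩
  obtain ⟨F, f1, f2, f3, f4⟩ := frame_th n0 (by linarith)
  subst f3
  rw [← f4] at hq hα hβ ⊢
  obtain ⟨w, hw0, hw, hwN⟩ := hq
  have hd0 : (0 : ℝ) < d := by exact_mod_cast hl.1
  have hlF : IsLab F.s F.t F.n d c := by rw [f1, f2]; exact hl
  -- transport of primitive elements
  have hprim : ∀ x, Prim (Lam F.θ d c) x → Prim L0 (fun i => w i * x i) := by
    intro x hx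
    refine ⟨(hw x).mp hx.1, fun m y hy hm => ?_⟩
    refine hx.2 m (fun i => (w i)⁻¹ * y i) ?_ fun i => ?_
    · rw [hw]
      have : (fun i => w i * ((w i)⁻¹ * y i)) = y := by
        funext i
        rw [mul_inv_cancel_left₀ (hw0 i)]
      rw [this]; exact hy
    · have h1 := hm i
      simp only at h1
      have h2 := hw0 i
      field_simp
      linarith
  have hRC : ∀ x, RC F.θ (Lam F.θ d c) x → RC F.θ L0 (fun i => w i * x i) := by
    intro x hx r hr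
    refine hx r fun y hy => ?_
    obtain ⟨m, z, hz, h⟩ := hr y hy
    refine ⟨m, fun i => (w i)⁻¹ * z i, ?_, fun i => ?_⟩
    · rw [hw]
      have : (fun i => w i * ((w i)⁻¹ * z i)) = z := by
        funext i
        rw [mul_inv_cancel_left₀ (hw0 i)]
      rw [this]; exact hz
    · have h1 := h i
      simp only at h1
      have h2 := hw0 i
      field_simp
      linarith
  have key : ∀ x, Prim (Lam F.θ d c) x → RC F.θ (Lam F.θ d c) x →
      3 * |(F.n : ℝ)| < d * |Nm x| := by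
    intro x hx hr
    have hx0 := zero_coord F hlF hx
    have h1 := hα _ (hprim x hx) (hRC x hr) (fun i => mul_ne_zero (hw0 i) (hx0 i))
    rw [Nm_mul, abs_mul, hwN] at h1
    have h2 : ρ0 * (3 * |(F.n : ℝ)|) < ρ0 * (d * |Nm x|) := by nlinarith
    exact lt_of_mul_lt_mul_left h2 hρ.le
  refine ⟨?_, ?_, ?_⟩
  · have h1 := key _ (one_Prim_Lam F d c) (one_RC_Lam F d c)
    have h2 : Nm (fun _ => (1 : ℝ)) = 1 := by unfold Nm; ring
    rw [h2, abs_one, mul_one] at h1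
    exact_mod_cast h1
  · intro v h _ hv hvL
    have h1 := hβ (fun i => v i * (w i)⁻¹) (fun i => mul_ne_zero (hv i) (inv_ne_zero (hw0 i))) (by
      intro x hx
      have h2 := hvL (fun i => (w i)⁻¹ * x i) (by
        rw [hw]
        have : (fun i => w i * ((w i)⁻¹ * x i)) = x := by
          funext i
          rw [mul_inv_cancel_left₀ (hw0 i)]
        rw [this]; exact hx)
      simpa [mul_assoc] using h2)
    have h3 : Nm (fun i => v i * (w i)⁻¹) = Nm v / Nm w := by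
      unfold Nm
      have := hw0 0; have := hw0 1; have := hw0 2
      field_simp
    rw [h3, abs_div, hwN] at h1
    have h4 : ρ0 * (|Nm v| / (ρ0 * d)) = |Nm v| / d := by field_simp
    rw [h4, lt_div_iff₀ hd0] at h1
    exact h1
  · intro x hx hN hr
    exfalso
    have h1 := key x hx hr
    have h2 : (0 : ℝ) ≤ |(F.n : ℝ)| := abs_nonneg _
    have h3 : (10 : ℝ) ^ 24 ≤ |(F.n : ℝ)| := by exact_mod_cast hn
    have h4 : (0 : ℝ) < 10 ^ 24 := by norm_num
    linarith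

end Pool.Agent.Lib_helper72.GC
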