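import Pool.Agent.Lib_helper72.GC.W4

/-!
# GC: Theorem TT
-/

set_option autoImplicit false

namespace Pool.Agent.Lib_helper72.GC

open Pool.Agent.Lib_helper83.CS

theorem TT (F G : Frame) (hs : F.s = G.s) (ht : F.t = G.t) {d c : ℤ}
    (hl : IsLab G.s G.t G.n d c) (hdvd : d ∣ F.n - G.n) (ν νN : ℝ)
    (hν : abs (ν - |(G.n : ℝ)|) ≤ 10) (hνN : abs (νN - |(F.n : ℝ)|) ≤ 10) (hν0 : 10 ^ 22 ≤ ν)
    (hd : 3 * ν ≤ d) (hd' : (d : ℝ) ≤ 1.5 * νN)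
    (hII : II F.θ (Lam F.θ d c))
    (hF1 : Pool.Agent.Lib_helper72.GC.F1 G.θ (Lam G.θ d c) d)
    (hF2 : F2 G.θ (Lam G.θ d c) d ν)
    (x : V) (hx : Prim (Lam F.θ d c) x) (hK : (d : ℝ) ^ 2 * |Nm x| ≤ 4.5 * νN ^ 2)
    (hbal : ∀ i j, am F.θ x i ≤ 1.01 * |(F.n : ℝ)| * am F.θ x j)
    (hs1 : am F.θ x (F.e 1) ≤ am F.θ x (F.e 0))
    (hs2 : am F.θ x (F.e 0) ≤ am F.θ x (F.e 2)) : Qp F.θ x := by
  have hd0 : 0 < d := hl.1
  have hdR : (0 : ℝ) < d := by exact_mod_cast hd0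
  -- sizes
  have hGn : |(G.n : ℝ)| ≥ ν - 10 := by have := abs_le.mp hν; linarith [this.1, this.2]
  have hGn' : |(G.n : ℝ)| ≤ ν + 10 := by have := abs_le.mp hν; linarith [this.1, this.2]
  have hFn : |(F.n : ℝ)| ≥ νN - 10 := by have := abs_le.mp hνN; linarith [this.1, this.2]
  have hνN0 : 2 * ν ≤ νN := by linarith
  -- label at F
  have hlF : IsLab F.s F.t F.n d c := by
    refine ⟨hd0, ?_⟩
    obtain ⟨k, hk⟩ := hdvd
    obtain ⟨m, hm⟩ := hl.2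
    refine ⟨m - k * (c ^ 2 - c), ?_⟩
    have : F.n = G.n + d * k := by linarith
    unfold FF at hm ⊢
    rw [this, hs, ht]
    linear_combination hm
  have hpq : ∀ p q : ℤ, d ∣ p - c * q → |H p q| ≤ H0 → H p q = 0 := by
    intro p q h1 h2
    have h3 := (lin_Lam F hlF p q).mpr h1
    have h4 := hII _ _ (LH_lin F.θ p q) h3 h2
    exact abs_eq_zero.mp h4
  obtain ⟨X, Z, X', rfl, h1, h2⟩ := Lam_el F hlF hx.1
  have hcop := lab_coprime G.hs G.ht hl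
  -- R
  have hRd : d ∣ X * X' - Z ^ 2 := by
    have e1 : X * X' - Z ^ 2 = X * (X' - c * Z) - Z * (Z - c * X) := by ring
    rw [e1]
    exact dvd_sub (Dvd.dvd.mul_left h2 _) (Dvd.dvd.mul_left h1 _)
  obtain ⟨R, hR⟩ := hRd
  by_cases hZ0 : Z = 0
  · -- linear
    left
    subst hZ0
    have hX : d ∣ X := by
      have : d ∣ c * X := by have := (dvd_neg).mpr h1; simpa using this
      exact hcop.1.symm.dvd_of_dvd_mul_left this
    have hX' : d ∣ X' := by simpa using h2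
    obtain ⟨A, hA⟩ := hX
    obtain ⟨B, hB⟩ := hX'
    refine ⟨|H (-F.s * A) (-B)|, ?_⟩
    have := LH_lin F.θ (-F.s * A) (-B)
    convert this using 2
    rename_i i
    simp only [el]
    rw [hA, hB]
    push_cast
    field_simp
    ring
  by_cases hR0 : R = 0
  · right
    obtain ⟨p, hp1, hp2, hp3, hp4⟩ := ident F hlF X Z X' R h1 h2 hR
    refine ⟨fun i => (F.θ i)⁻¹ * (Z - X * F.θ i), |H Z X|, p, ?_, ?_, ?_⟩
    · exact LH_unit F (Un_inv F (Un_theta F)) (LH_lin F.θ Z X)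
    · intro i hi
      rcases mul_eq_zero.mp hi with h | h
      · exact (theta_ne F i).1 (inv_eq_zero.mp h)
      · have := O_zero F Z (-X) 0 i (by push_cast; linarith)
        exact hZ0 this.1
    · intro i
      have h3 := hp3 i
      rw [hR0] at h3
      have h4 := (theta_ne F i).1
      push_cast at h3
      field_simp
      linarith
  exfalso
  -- the N-analysis
  have hFnbig : (10 : ℤ) ^ 20 ≤ |F.n| := by
    have : (10 : ℝ) ^ 20 ≤ |(F.n : ℝ)| := by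
      have : (10 : ℝ) ^ 22 ≥ 10 ^ 20 + 10 := by norm_num
      linarith
    exact_mod_cast this
  have hGnbig : (10 : ℤ) ^ 20 ≤ |G.n| := by
    have : (10 : ℝ) ^ 20 ≤ |(G.n : ℝ)| := by
      have : (10 : ℝ) ^ 22 ≥ 10 ^ 20 + 10 := by norm_num
      linarith
    exact_mod_cast this
  have hdbig : (10 : ℤ) ^ 20 ≤ d := by
    have : (10 : ℝ) ^ 20 ≤ d := by
      have : (10 : ℝ) ^ 22 ≥ 10 ^ 20 + 10 := by norm_num
      linarith
    exact_mod_cast this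
  have hνNbig : (10 : ℝ) ^ 22 ≤ νN := by linarith
  have hd151 : (d : ℝ) ≤ 1.51 * |(F.n : ℝ)| := by
    have : (10 : ℝ) ^ 22 ≥ 10 ^ 20 + 10 := by norm_num
    nlinarith
  have hK' : (d : ℝ) ^ 2 * |Nm (el F.s F.n F.θ d X Z X')| ≤ 4.501 * (F.n : ℝ) ^ 2 := by
    refine hK.trans ?_
    rw [← sq_abs (F.n : ℝ)]
    have h5 : νN ≤ |(F.n : ℝ)| + 10 := by have := abs_le.mp hνN; linarith [this.1, this.2]
    have h6 : (10 : ℝ) ^ 20 ≤ |(F.n : ℝ)| := by exact_mod_cast hFnbig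
    have h7 : νN ^ 2 ≤ (|(F.n : ℝ)| + 10) ^ 2 := by
      apply pow_le_pow_left₀ (by linarith) h5
    nlinarith
  obtain ⟨hZR, hX2, hX1500⟩ := NAn F hFnbig hlF hdbig hd151 hpq X Z X' R h1 h2 hR hZ0 hR0 hK'
    hbal hs1 hs2
  have hR4 : |R| ≤ 4 := by
    have h5 : 1 ≤ |Z| := Int.one_le_abs hZ0
    rw [abs_mul] at hZR
    nlinarith [abs_nonneg R]
  have hZ4 : |Z| ≤ 4 := by
    have h5 : 1 ≤ |R| := Int.one_le_abs hR0
    rw [abs_mul] at hZR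
    nlinarith [abs_nonneg Z]
  -- at n
  obtain ⟨p, hp1, hp2, hp3, hp4⟩ := ident G hl X Z X' R h1 h2 hR
  have hPrim := Prim_el F G hlF hl hs X Z X' hx
  have hRC := RC_el G hl X Z X' R h1 h2 hR hR0 hR4
  set y := el G.s G.n G.θ d X Z X' with hy
  set D : ℝ := -G.s * d * Nm y with hD
  have hDabs : |D| = d * |Nm y| := by
    rw [hD, abs_mul, abs_mul]
    have : |(-(G.s : ℝ))| = 1 := by rcases G.hs with h | h <;> simp [h]
    rw [this, abs_of_pos hdR]; ring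
  have hd299 : 2.99 * |(G.n : ℝ)| ≤ d := by
    have : (10 : ℝ) ^ 22 ≥ 10 ^ 20 + 10 := by norm_num
    nlinarith
  -- v = lin Z X
  have hvL : ∀ x ∈ Lam G.θ d c, (fun i => ((Z : ℝ) - X * G.θ i) * x i) ∈ O G.θ :=
    (lin_Lam G hl Z X).mpr h1
  have hv0 : ∀ i, (Z : ℝ) - X * G.θ i ≠ 0 := by
    intro i hi
    have := O_zero G Z (-X) 0 i (by push_cast; linarith)
    exact hZ0 this.1
  have hF1v := hF1 _ _ (LH_lin G.θ Z X) hv0 hvL
  rw [Nm_lin] at hF1v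
  have hebig : (E0 : ℝ) < |((X * p - Z * R : ℤ) : ℝ)| := by
    rw [hp2] at hF1v
    push_cast at hF1v ⊢
    rw [abs_mul, abs_of_pos hdR, mul_comm] at hF1v
    exact lt_of_mul_lt_mul_left hF1v hdR.le
  have he0 : X * p - Z * R ≠ 0 := by
    intro h
    rw [h] at hebig
    simp [E0] at hebig
    norm_num at hebig
  -- w = lin p R; membership in y O
  have hwL : ∀ z ∈ Lam G.θ d c, ∃ z' ∈ O G.θ, ∀ i, ((p : ℝ) - R * G.θ i) * z i = y i * z' i := by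
    intro z hz
    refine ⟨fun i => (G.θ i)⁻¹ * (((Z : ℝ) - X * G.θ i) * z i),
      O_mul G (Un_O G (Un_inv G (Un_theta G))) (hvL z hz), ?_⟩
    intro i
    have h5 := (theta_ne G i).1
    have h6 := hp3 i
    field_simp
    linear_combination (z i) * h6
  -- bound for p
  have h43 := ineq43 G.s G.t G.n d X Z X' R p G.hs G.ht hGnbig hd299 hR hp1 hZR hZ0 hR0 hX2 hX1500
  have hpbig : 2700 < |p| := by
    by_contra hcon
    push Not at hcon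
    obtain ⟨i1, i2, i3⟩ := ineq44 G.s G.t G.n R p G.hs G.ht hGnbig hR4 hcon
    have hDs : |D| * |((X * p - Z * R : ℤ) : ℝ)| ≤ 4.2 * 2700 ^ 2 * |(G.n : ℝ)| := by
      rw [← abs_mul]
      push_cast at hp4 i1 ⊢
      rw [← hp4]
      exact i1
    have hDle : |D| ≤ 1.6 * ν := by
      have h5 : (E0 : ℝ) = 6 * 10 ^ 7 := by norm_num [E0]
      rw [h5] at hebig
      have h6 : |D| * (6 * 10 ^ 7) ≤ |D| * |((X * p - Z * R : ℤ) : ℝ)| :=
        mul_le_mul_of_nonneg_left hebig.le (abs_nonneg _)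
      have : (10 : ℝ) ^ 22 ≥ 10 ^ 20 + 10 := by norm_num
      nlinarith
    obtain ⟨j1, j2, j3⟩ := hF2 y hPrim (by rw [← hDabs]; exact hDle) hRC
    have hH0 := j1 _ _ (LH_lin G.θ p R) hwL i2
    have hH0' : H p R = 0 := abs_eq_zero.mp hH0
    have i4 := i3 hH0' hR0
    have i5 : |(FF G.s G.t G.n p R : ℝ)| ≤ 64 := by exact_mod_cast i4
    have i6 : |(FF G.s G.t G.n p R : ℝ)| = |D| * |((X * p - Z * R : ℤ) : ℝ)| := by
      rw [← abs_mul]; push_cast at hp4 ⊢; rw [hp4]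
    rw [i6, hDabs] at i5
    have h5 : (E0 : ℝ) = 6 * 10 ^ 7 := by norm_num [E0]
    rw [h5] at hebig
    nlinarith
  -- X is small
  have hXn : |(X : ℝ)| ≤ |(G.n : ℝ)| / 100 := by
    by_contra hcon
    push Not at hcon
    have hX2' : (X : ℝ) ^ 2 ≤ 6 * d := by exact_mod_cast hX2
    have hp' : (2701 : ℝ) ≤ |(p : ℝ)| := by
      have : (2701 : ℤ) ≤ |p| := by linarith
      exact_mod_cast this
    have hZ' : |(Z : ℝ)| ≤ 4 := by exact_mod_cast hZ4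
    have h5 : |(G.n : ℝ)| * |(X : ℝ)| ≤ 100 * (6 * d) := by
      have : |(X : ℝ)| * |(X : ℝ)| = (X : ℝ) ^ 2 := by rw [← abs_mul, ← sq, abs_of_nonneg (sq_nonneg _)]
      nlinarith [abs_nonneg (X : ℝ)]
    have h6 : 1.02 * |(G.n : ℝ)| * |(Z : ℝ)| * |(X : ℝ)| / d ≤ 1.02 * 4 * 600 := by
      rw [div_le_iff₀ hdR]
      have : 1.02 * |(G.n : ℝ)| * |(Z : ℝ)| * |(X : ℝ)| = 1.02 * |(Z : ℝ)| * (|(G.n : ℝ)| * |(X : ℝ)|) := by ring
      rw [this]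
      have h8 : |(Z : ℝ)| * (|(G.n : ℝ)| * |(X : ℝ)|) ≤ 4 * (100 * (6 * d)) :=
        mul_le_mul hZ' h5 (by positivity) (by norm_num)
      nlinarith
    linarith
  have hpn : |(p : ℝ)| ≤ |(G.n : ℝ)| / 60 := by
    have hZ' : |(Z : ℝ)| ≤ 4 := by exact_mod_cast hZ4
    have h6 : 1.02 * |(G.n : ℝ)| * |(Z : ℝ)| * |(X : ℝ)| / d ≤ 1.37 * |(X : ℝ)| := by
      rw [div_le_iff₀ hdR]
      have h8 : |(Z : ℝ)| * (|(G.n : ℝ)| * |(X : ℝ)|) ≤ 4 * (|(G.n : ℝ)| * |(X : ℝ)|) :=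
        mul_le_mul_of_nonneg_right hZ' (by positivity)
      have h9 : |(G.n : ℝ)| * |(X : ℝ)| * 2.99 ≤ d * |(X : ℝ)| := by nlinarith [abs_nonneg (X : ℝ)]
      nlinarith [abs_nonneg (X : ℝ)]
    have h7 : (10 : ℝ) ^ 20 ≤ |(G.n : ℝ)| := by exact_mod_cast hGnbig
    nlinarith
  have hp4' : (FF G.s G.t G.n p R : ℝ) = D * ((X : ℝ) * p - Z * R) := hp4
  have h46 := ineq46 G.s G.t G.n d X Z R p D G.hs G.ht hGnbig hd299 hZR hZ0 hR0 hX1500 hXn hpbig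
    hpn hp2 (by exact_mod_cast hp4')
  have hDle : |D| ≤ 1.6 * ν := by
    have h5 : |D| * (2.99 * |(G.n : ℝ)|) ≤ |D| * d := mul_le_mul_of_nonneg_left hd299 (abs_nonneg _)
    have h7 : (10 : ℝ) ^ 20 ≤ |(G.n : ℝ)| := by exact_mod_cast hGnbig
    have h8 : (G.n : ℝ) ^ 2 = |(G.n : ℝ)| * |(G.n : ℝ)| := by rw [← sq, sq_abs]
    have h9 : |D| * 2.99 ≤ 4.4 * |(G.n : ℝ)| := by
      have : |(G.n : ℝ)| * (|D| * 2.99) ≤ |(G.n : ℝ)| * (4.4 * |(G.n : ℝ)|) := by nlinarith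
      exact le_of_mul_le_mul_left this (by linarith)
    have : (10 : ℝ) ^ 22 ≥ 10 ^ 20 + 10 := by norm_num
    nlinarith
  obtain ⟨j1, j2, j3⟩ := hF2 y hPrim (by rw [← hDabs]; exact hDle) hRC
  have hc : (d : ℝ) ^ 2 * |Nm y| ≤ 4.5 * ν ^ 2 := by
    have h5 : (d : ℝ) ^ 2 * |Nm y| = |D| * d := by rw [hDabs]; ring
    rw [h5]
    refine h46.trans ?_
    have h8 : (G.n : ℝ) ^ 2 = |(G.n : ℝ)| ^ 2 := (sq_abs _).symm
    rw [h8]
    have h9 : |(G.n : ℝ)| ^ 2 ≤ (ν + 10) ^ 2 := pow_le_pow_left₀ (abs_nonneg _) hGn' 2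
    nlinarith
  obtain ⟨v0, h0, hv0LH, hv0⟩ := j3 hc
  rw [← hDabs] at j2
  refine step47 G p R Z X D hR0 hR4 he0 j2 (by exact_mod_cast hp4')
    (z := fun i => G.θ i * v0 i) (O_mul G (Un_O G (Un_theta G)) (LH_O G hv0LH)) ?_
  intro i
  have h5 := hp3 i
  have h6 := hv0 i
  have : ((p : ℝ) - R * G.θ i) * (G.θ i * v0 i) = (G.θ i * (p - R * G.θ i)) * v0 i := by ring
  rw [this, h5]
  linear_combination (-(Z - X * G.θ i)) * h6

end Pool.Agent.Lib_helper72.GC
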