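import Pool.Agent.Lib_helper72.GC.TreeG
import Pool.Agent.Lib_helper1.GC2.Den
import Pool.Agent.Lib_helper1.GC2.Root
import Pool.Agent.Lib_helper1.GC2.RootM

/-!
# GC: Gompf's conjecture fails for all but `C N^δ` traces, `δ > 2/3`
-/

set_option autoImplicit false

namespace Pool.Agent.Lib_helper72.GC

open Pool.Agent.Lib_helper83.CS Pool.Agent.Lib_helper1.GC2

theorem goodRoot_JJ {n E l : ℤ} (hn : 10 ^ 24 ≤ |n|) (hE8 : 10 ^ 8 ≤ E)
    (hEn : 4 * 10 ^ 6 * E ≤ |n|) (hE : E ∣ FF (-1) (-1) n l 1) (hR : R1 E l) :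
    GoodRoot n (JJ (th n) E l) E := by
  have h6 : (10 : ℤ) ^ 6 ≤ 10 ^ 24 := by norm_num
  refine ⟨hn, by
    have : (0 : ℤ) < E := by linarith [show (0 : ℤ) < 10 ^ 8 by norm_num]
    exact_mod_cast this, fun d c hl hq => ?_⟩
  obtain ⟨F, f1, f2, f3, f4⟩ := frame_th n (by linarith)
  subst f3
  rw [← f4] at hq ⊢
  exact ⟨root_labelG F f1 f2 hn hE8 hEn hR hE hl hq, F1_rootG F f1 f2 hn hE8 hEn hE hl hq,
    F2_rootG F f1 f2 hn hE8 hEn hR hE hl hq⟩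

/-- `M` is a CS matrix which is not Gompf equivalent to any CS matrix of trace at most `|tr M|` in
absolute value, except its conjugates. -/
def Rootlike (M : Matrix (Fin 3) (Fin 3) ℤ) : Prop :=
  IsCS M ∧ ∀ B, Gompf M B → |B.trace| ≤ |M.trace| →
    ∃ P Q : Matrix (Fin 3) (Fin 3) ℤ, P * Q = 1 ∧ Q * P = 1 ∧ B = P * M * Q

theorem exists_rootlike {n : ℤ} (h : GoodTr n) :
    ∃ M : Matrix (Fin 3) (Fin 3) ℤ, M.trace = n ∧ Rootlike M := by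
  obtain ⟨hn, E, l, hE8, hEn, ⟨d, hd⟩, hR⟩ := h
  have h6 : (10 : ℤ) ^ 6 ≤ 10 ^ 24 := by norm_num
  obtain ⟨F, f1, f2, f3, f4⟩ := frame_th n (by linarith)
  have hE0 : 0 < E := by linarith [show (0 : ℤ) < 10 ^ 8 by norm_num]
  have hG := goodRoot_JJ hn hE8 hEn ⟨d, hd⟩ hR
  obtain ⟨h1, h2⟩ := inClass_rootG F f1 f2 E l (-d) hE0 (by rw [f3, hd]; ring)
  rw [f4, f3] at h2
  rw [f3] at h1
  have ht : (MG E l n (-d)).trace = n := by
    unfold MG; rw [X_trace]; ring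
  refine ⟨MG E l n (-d), ht, h1, fun B hB hle => ?_⟩
  rw [ht] at hle
  exact tree_main hG ht h2 B hB hle

theorem rootlike_not_A0 {M : Matrix (Fin 3) (Fin 3) ℤ} (h : Rootlike M) (ht : 3 ≤ |M.trace|) :
    ¬ Gompf M A0 := by
  intro hG
  have h0 : A0.trace = 2 := by unfold A0; rw [X_trace]; norm_num
  obtain ⟨P, Q, h3, h4, h5⟩ := h.2 A0 hG (by rw [h0]; norm_num; linarith)
  have h6 : A0.trace = M.trace := by
    rw [h5, Matrix.trace_mul_comm, ← Matrix.mul_assoc, h4, Matrix.one_mul]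
  rw [← h6, h0] at ht
  norm_num at ht

open Classical in
theorem traces (δ : ℝ) (hδ : 2 / 3 < δ) : ∃ C : ℝ, ∀ N : ℕ, 1 ≤ N →
    (((Finset.Icc (-(N : ℤ)) N).filter (fun n => ¬ ∃ M : Matrix (Fin 3) (Fin 3) ℤ,
      IsCS M ∧ M.trace = n ∧ ¬ Gompf M A0 ∧ ∀ B, Gompf M B → |B.trace| ≤ |n| →
        ∃ P Q : Matrix (Fin 3) (Fin 3) ℤ, P * Q = 1 ∧ Q * P = 1 ∧ B = P * M * Q)).card : ℝ) ≤
      C * (N : ℝ) ^ δ := by
  obtain ⟨C, hC⟩ := den δ hδ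
  refine ⟨C, fun N hN => le_trans ?_ (hC N hN)⟩
  have : ((Finset.Icc (-(N : ℤ)) N).filter (fun n => ¬ ∃ M : Matrix (Fin 3) (Fin 3) ℤ,
      IsCS M ∧ M.trace = n ∧ ¬ Gompf M A0 ∧ ∀ B, Gompf M B → |B.trace| ≤ |n| →
        ∃ P Q : Matrix (Fin 3) (Fin 3) ℤ, P * Q = 1 ∧ Q * P = 1 ∧ B = P * M * Q)) ⊆
      ((Finset.Icc (-(N : ℤ)) N).filter (fun n => ¬ GoodTr n)) := by
    intro n hn
    simp only [Finset.mem_filter] at hn ⊢
    refine ⟨hn.1, fun hg => hn.2 ?_⟩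
    obtain ⟨M, ht, hM⟩ := exists_rootlike hg
    refine ⟨M, hM.1, ht, rootlike_not_A0 hM ?_, ?_⟩
    · rw [ht]; exact le_trans (by norm_num) hg.1
    · intro B hB hle
      exact hM.2 B hB (by rw [ht]; exact hle)
  exact_mod_cast Finset.card_le_card this

end Pool.Agent.Lib_helper72.GC
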