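import Pool.Agent.Lib_helper72.GC.DefsM
import Pool.Agent.Lib_helper72.GC.B_A1
import Pool.Agent.Lib_helper72.GC.B_A2
import Pool.Agent.Lib_helper72.GC.B_A3

/-!
# GC: level W0
-/
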