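import Pool.Agent.Lib_helper72.GC.W0
import Pool.Agent.Lib_helper72.GC.B_B1
import Pool.Agent.Lib_helper72.GC.B_B2
import Pool.Agent.Lib_helper72.GC.B_B3
import Pool.Agent.Lib_helper72.GC.B_B4

/-!
# GC: level W1
-/
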