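import Pool.Agent.Lib_helper72.GC.W1
import Pool.Agent.Lib_helper72.GC.B_C1
import Pool.Agent.Lib_helper72.GC.B_C2
import Pool.Agent.Lib_helper72.GC.B_C3
import Pool.Agent.Lib_helper72.GC.B_C4
import Pool.Agent.Lib_helper72.GC.B_C5
import Pool.Agent.Lib_helper72.GC.B_E1
import Pool.Agent.Lib_helper72.GC.B_E2
import Pool.Agent.Lib_helper72.GC.B_F1

/-!
# GC: level W2
-/
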