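import Pool.Agent.Lib_helper72.GC.W2
import Pool.Agent.Lib_helper72.GC.B_K1
import Pool.Agent.Lib_helper72.GC.B_K2
import Pool.Agent.Lib_helper72.GC.B_K3
import Pool.Agent.Lib_helper72.GC.B_K4
import Pool.Agent.Lib_helper72.GC.B_K5
import Pool.Agent.Lib_helper72.GC.B_K6
import Pool.Agent.Lib_helper72.GC.B_L1
import Pool.Agent.Lib_helper72.GC.B_L2
import Pool.Agent.Lib_helper72.GC.B_R1

/-!
# GC: level W3
-/
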