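import Pool.Agent.Lib_helper72.GC.W4
import Pool.Agent.Lib_helper72.GC.B_P1
import Pool.Agent.Lib_helper72.GC.B_P2
import Pool.Agent.Lib_helper72.GC.B_Q1
import Pool.Agent.Lib_helper72.GC.B_Q2
import Pool.Agent.Lib_helper72.GC.B_Q3
import Pool.Agent.Lib_helper72.GC.B_Q4
import Pool.Agent.Lib_helper72.GC.B_S2
import Pool.Agent.Lib_helper72.GC.B_M1
import Pool.Agent.Lib_helper72.GC.B_M2
import Pool.Agent.Lib_helper72.GC.B_M3
import Pool.Agent.Lib_helper72.GC.B_M4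

/-!
# GC: level W5
-/
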